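import Pool.Agent.Lib.MP_2733b3_lc.Basic

/-!
The hybrid argument of Bennett, Bernstein, Brassard and Vazirani, and locality of circuits.
-/

set_option autoImplicit false

namespace Pool.Agent.Lib.MP_2733b3_lc

open Finset

namespace BBBV

variable {k : ℕ}

/-- Squared length of a state. -/
noncomputable def sq (ψ : (Fin (k + 1) → Bool) → ℂ) : ℝ := ∑ e, ‖ψ e‖ ^ 2

/-- The string on the wires of a gate. -/
def str (g : ℕ × ℕ × List ℕ) (e : Fin (k + 1) → Bool) : List Bool :=
  (g.2.2.map (Fin.ofNat (k + 1))).map e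

/-- Query weight on the strings where the two oracles differ. -/
noncomputable def qw (A B : List Bool → Bool) (ψ : (Fin (k + 1) → Bool) → ℂ)
    (g : ℕ × ℕ × List ℕ) : ℝ :=
  ∑ e, if B (str g e) ≠ A (str g e) then ‖ψ e‖ ^ 2 else 0

/-- Accumulated error of a run. -/
noncomputable def err (A B : List Bool → Bool) :
    ((Fin (k + 1) → Bool) → ℂ) → List (ℕ × ℕ × List ℕ) → ℝ
  | _, [] => 0
  | ψ, g :: gs => 2 * √(qw A B ψ g) + err A B (gate A ψ g) gs

theorem sq_nonneg' (ψ : (Fin (k + 1) → Bool) → ℂ) : 0 ≤ sq ψ :=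
  sum_nonneg fun _ _ => by positivity

theorem sqrt_sq_eq (ψ : (Fin (k + 1) → Bool) → ℂ) :
    √(sq ψ) = ‖(WithLp.toLp 2 ψ : EuclideanSpace ℂ (Fin (k + 1) → Bool))‖ := by
  rw [EuclideanSpace.norm_eq]
  rfl

theorem tri (φ ψ : (Fin (k + 1) → Bool) → ℂ) : √(sq (φ + ψ)) ≤ √(sq φ) + √(sq ψ) := by
  rw [sqrt_sq_eq, sqrt_sq_eq, sqrt_sq_eq, WithLp.toLp_add]
  exact norm_add_le _ _

theorem map_update {c : List (Fin (k + 1))} {t : Fin (k + 1)} (h : t ∉ c)
    (e : Fin (k + 1) → Bool) (b : Bool) : c.map (Function.update e t b) = c.map e :=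
  List.map_congr_left fun a ha => Function.update_of_ne (fun h' : a = t => h (h' ▸ ha)) _ _

theorem sum_xor (t : Fin (k + 1)) (f : (Fin (k + 1) → Bool) → Bool)
    (hf : ∀ e b, f (Function.update e t b) = f e) (F : (Fin (k + 1) → Bool) → ℝ) :
    ∑ e, F (Function.update e t (xor (e t) (f e))) = ∑ e, F e := by
  have hi : Function.Involutive fun e : Fin (k + 1) → Bool =>
      Function.update e t (xor (e t) (f e)) := fun e => by
    simp [hf]
  exact Equiv.sum_comp hi.toPerm F

theorem sum_flp (t : Fin (k + 1)) (F : (Fin (k + 1) → Bool) → ℝ) :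
    ∑ e, F (flp e t) = ∑ e, F e := by
  simpa [flp] using sum_xor t (fun _ => true) (fun _ _ => rfl) F

theorem gate_sub (A : List Bool → Bool) (φ ψ : (Fin (k + 1) → Bool) → ℂ) (g : ℕ × ℕ × List ℕ) :
    gate A (φ - ψ) g = gate A φ g - gate A ψ g := by
  funext e
  simp only [gate, Pi.sub_apply]
  split_ifs <;> ring

theorem par (a b : ℂ) : ‖(a + 1 * b) / (√2 : ℝ)‖ ^ 2 + ‖(a + -1 * b) / (√2 : ℝ)‖ ^ 2
    = ‖a‖ ^ 2 + ‖b‖ ^ 2 := by
  have h := parallelogram_law_with_norm ℂ a b
  have h2 : ‖((√2 : ℝ) : ℂ)‖ ^ 2 = 2 := by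
    rw [Complex.norm_real, Real.norm_eq_abs, sq_abs, Real.sq_sqrt (by norm_num)]
  rw [norm_div, norm_div, div_pow, div_pow, h2, one_mul, neg_one_mul, ← sub_eq_add_neg]
  nlinarith

theorem sq_gate (A : List Bool → Bool) (ψ : (Fin (k + 1) → Bool) → ℂ) (g : ℕ × ℕ × List ℕ) :
    sq (gate A ψ g) = sq ψ := by
  by_cases h0 : g.1 = 0
  · set t := Fin.ofNat (k + 1) g.2.1 with ht
    have h1 := sum_flp t fun e => ‖gate A ψ g e‖ ^ 2
    have h2 := sum_flp t fun e => ‖ψ e‖ ^ 2
    have h3 : ∀ e, ‖gate A ψ g e‖ ^ 2 + ‖gate A ψ g (flp e t)‖ ^ 2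
        = ‖ψ e‖ ^ 2 + ‖ψ (flp e t)‖ ^ 2 := fun e => by
      simp only [gate, if_pos h0, ← ht, flp, Function.update_idem, Function.update_self]
      have h4 := par (ψ (Function.update e t false)) (ψ (Function.update e t true))
      cases he : e t
      · have : Function.update e t false = e := by rw [← he, Function.update_eq_self]
        rw [this] at h4 ⊢
        simpa using h4
      · have : Function.update e t true = e := by rw [← he, Function.update_eq_self]
        rw [this] at h4 ⊢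
        simpa [add_comm] using h4
    have h5 := sum_congr (rfl : (univ : Finset (Fin (k + 1) → Bool)) = univ) fun e _ => h3 e
    rw [sum_add_distrib, sum_add_distrib] at h5
    unfold sq
    linarith
  by_cases h1 : g.1 = 1
  · refine sum_congr rfl fun e _ => ?_
    have : ‖Complex.exp (Real.pi / 4 * Complex.I)‖ = 1 := by
      have := Complex.norm_exp_ofReal_mul_I (Real.pi / 4)
      simpa using this
    simp only [gate, if_neg h0, if_pos h1, norm_mul]
    split_ifs <;> simp [this]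
  by_cases hc : Fin.ofNat (k + 1) g.2.1 ∈ g.2.2.map (Fin.ofNat (k + 1))
  · refine sum_congr rfl fun e _ => ?_
    simp only [gate, if_neg h0, if_neg h1, if_pos hc]
  · simp only [sq, gate, if_neg h0, if_neg h1, if_neg hc]
    exact sum_xor _ (fun e => if g.1 = 2 then (((g.2.2.map (Fin.ofNat (k + 1))).map e).take 2).all id
      else A ((g.2.2.map (Fin.ofNat (k + 1))).map e))
      (fun e b => by simp only [map_update hc]) fun e => ‖ψ e‖ ^ 2

theorem qw_nonneg (A B : List Bool → Bool) (ψ : (Fin (k + 1) → Bool) → ℂ) (g : ℕ × ℕ × List ℕ) :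
    0 ≤ qw A B ψ g :=
  sum_nonneg fun _ _ => by split_ifs <;> positivity

theorem sq_diff (A B : List Bool → Bool) (ψ : (Fin (k + 1) → Bool) → ℂ) (g : ℕ × ℕ × List ℕ) :
    sq (gate B ψ g - gate A ψ g) ≤ 4 * qw A B ψ g := by
  have hq := qw_nonneg A B ψ g
  by_cases h : g.1 = 0 ∨ g.1 = 1 ∨ g.1 = 2 ∨
      Fin.ofNat (k + 1) g.2.1 ∈ g.2.2.map (Fin.ofNat (k + 1))
  · have : gate B ψ g = gate A ψ g := by
      funext e
      simp only [gate]
      rcases h with h | h | h | h <;> simp only [h, if_true]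
    rw [this, sub_self]
    simpa [sq] using hq
  simp only [not_or] at h
  obtain ⟨h0, h1, h2, hc⟩ := h
  set t := Fin.ofNat (k + 1) g.2.1 with ht
  have hs : ∀ e, str g (flp e t) = str g e := fun e => map_update hc e _
  have h3 := sum_flp t fun e => if B (str g e) ≠ A (str g e) then ‖ψ e‖ ^ 2 else 0
  have h4 : ∀ e, ‖(gate B ψ g - gate A ψ g) e‖ ^ 2
      ≤ 2 * (if B (str g e) ≠ A (str g e) then ‖ψ e‖ ^ 2 else 0)
        + 2 * (if B (str g (flp e t)) ≠ A (str g (flp e t)) then ‖ψ (flp e t)‖ ^ 2 else 0) := by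
    intro e
    have h5 : ∀ a b : ℂ, ‖a - b‖ ^ 2 ≤ 2 * ‖a‖ ^ 2 + 2 * ‖b‖ ^ 2 := fun a b => by
      have := parallelogram_law_with_norm ℂ a b
      nlinarith [mul_self_nonneg ‖a + b‖]
    rw [hs]
    simp only [gate, Pi.sub_apply, if_neg h0, if_neg h1, if_neg h2, ← ht, if_neg hc]
    change ‖ψ (Function.update e t (xor (e t) (B (str g e))))
      - ψ (Function.update e t (xor (e t) (A (str g e))))‖ ^ 2 ≤ _
    cases B (str g e) <;> cases A (str g e)
    · simp
    · simpa [flp] using h5 (ψ e) (ψ (flp e t))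
    · simpa [flp, add_comm] using h5 (ψ (flp e t)) (ψ e)
    · simp
  have h6 := sum_le_sum fun e (_ : e ∈ univ) => h4 e
  rw [sum_add_distrib, ← mul_sum, ← mul_sum, h3] at h6
  unfold sq qw
  linarith

theorem hybrid (A B : List Bool → Bool) (gs : List (ℕ × ℕ × List ℕ)) :
    ∀ φ ψ : (Fin (k + 1) → Bool) → ℂ,
      √(sq (gs.foldl (gate B) φ - gs.foldl (gate A) ψ)) ≤ √(sq (φ - ψ)) + err A B ψ gs := by
  induction gs with
  | nil => intro φ ψ; simp [err]
  | cons g gs ih =>
    intro φ ψ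
    have h1 := ih (gate B φ g) (gate A ψ g)
    have h2 := tri (gate B (φ - ψ) g) (gate B ψ g - gate A ψ g)
    rw [sq_gate, gate_sub, sub_add_sub_cancel] at h2
    have h3 : √(sq (gate B ψ g - gate A ψ g)) ≤ 2 * √(qw A B ψ g) := by
      refine (Real.sqrt_le_sqrt (sq_diff A B ψ g)).trans (le_of_eq ?_)
      rw [Real.sqrt_mul (by norm_num), show (4 : ℝ) = 2 ^ 2 by norm_num,
        Real.sqrt_sq (by norm_num)]
    simp only [List.foldl_cons, err]
    linarith

theorem sq_run (A : List Bool → Bool) (gs : List (ℕ × ℕ × List ℕ)) :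
    ∀ ψ : (Fin (k + 1) → Bool) → ℂ, sq (gs.foldl (gate A) ψ) = sq ψ := by
  induction gs with
  | nil => intro ψ; rfl
  | cons g gs ih => intro ψ; rw [List.foldl_cons, ih, sq_gate]

theorem sum_qw {Y : Type} [Fintype Y] (A : List Bool → Bool) (B : Y → List Bool → Bool) (u : ℕ)
    (h : ∀ s, cnt (fun y => B y s ≠ A s) ≤ u) (ψ : (Fin (k + 1) → Bool) → ℂ)
    (g : ℕ × ℕ × List ℕ) : ∑ y, qw A (B y) ψ g ≤ u * sq ψ := by
  unfold qw sq
  rw [sum_comm, mul_sum]
  refine sum_le_sum fun e _ => ?_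
  rw [← sum_filter, sum_const, nsmul_eq_mul]
  refine mul_le_mul_of_nonneg_right ?_ (by positivity)
  have h1 := h (str g e)
  unfold cnt at h1
  exact_mod_cast (le_of_eq (by congr)).trans h1

theorem sum_err {Y : Type} [Fintype Y] (A : List Bool → Bool) (B : Y → List Bool → Bool) (u : ℕ)
    (h : ∀ s, cnt (fun y => B y s ≠ A s) ≤ u) (gs : List (ℕ × ℕ × List ℕ)) :
    ∀ ψ : (Fin (k + 1) → Bool) → ℂ, sq ψ = 1 →
      ∑ y, err A (B y) ψ gs ≤ gs.length * (2 * √(Fintype.card Y * u)) := by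
  induction gs with
  | nil => intro ψ _; simp [err]
  | cons g gs ih =>
    intro ψ hψ
    have h1 := ih (gate A ψ g) (by rw [sq_gate, hψ])
    have h2 := sum_qw A B u h ψ g
    rw [hψ, mul_one] at h2
    have h3 := Real.sum_mul_le_sqrt_mul_sqrt (univ : Finset Y) (fun _ => 1)
      fun y => √(qw A (B y) ψ g)
    simp only [one_mul, one_pow, sum_const, card_univ, nsmul_eq_mul, mul_one,
      Real.sq_sqrt (qw_nonneg _ _ _ _)] at h3
    have h4 : √(Fintype.card Y : ℝ) * √(∑ y, qw A (B y) ψ g) ≤ √(Fintype.card Y * u) := by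
      rw [Real.sqrt_mul (by positivity)]
      exact mul_le_mul_of_nonneg_left (Real.sqrt_le_sqrt h2) (Real.sqrt_nonneg _)
    simp only [err, sum_add_distrib, ← mul_sum, List.length_cons, Nat.cast_add, Nat.cast_one]
    linarith

theorem acc_diff (a b : (Fin (k + 1) → Bool) → ℂ) (ha : sq a = 1) (hb : sq b = 1) :
    |(∑ e : Fin (k + 1) → Bool, if e 0 then ‖a e‖ ^ 2 else 0)
      - ∑ e : Fin (k + 1) → Bool, if e 0 then ‖b e‖ ^ 2 else 0| ≤ 2 * √(sq (a - b)) := by
  have h1 := Real.sum_mul_le_sqrt_mul_sqrt univ (fun e => ‖(a - b) e‖) fun e => ‖a e‖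
  have h2 := Real.sum_mul_le_sqrt_mul_sqrt univ (fun e => ‖(a - b) e‖) fun e => ‖b e‖
  change _ ≤ √(sq (a - b)) * √(sq a) at h1
  change _ ≤ √(sq (a - b)) * √(sq b) at h2
  rw [ha, Real.sqrt_one, mul_one] at h1
  rw [hb, Real.sqrt_one, mul_one] at h2
  rw [← sum_sub_distrib]
  refine (abs_sum_le_sum_abs _ _).trans ?_
  have h3 : ∀ e : Fin (k + 1) → Bool,
      |(if e 0 then ‖a e‖ ^ 2 else 0) - if e 0 then ‖b e‖ ^ 2 else 0|
        ≤ ‖(a - b) e‖ * ‖a e‖ + ‖(a - b) e‖ * ‖b e‖ := fun e => by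
    split_ifs
    · rw [sq_sub_sq, abs_mul, ← mul_add, mul_comm, abs_of_nonneg (a := ‖a e‖ + ‖b e‖)
        (by positivity)]
      exact mul_le_mul_of_nonneg_right (abs_norm_sub_norm_le _ _) (by positivity)
    · simp only [sub_self, abs_zero]
      positivity
  have h4 := sum_le_sum fun e (_ : e ∈ univ) => h3 e
  rw [sum_add_distrib] at h4
  linarith

theorem sq_init : sq (fun e' : Fin (k + 1) → Bool => if e' = fun _ => false then (1 : ℂ) else 0)
    = 1 := by
  unfold sq
  rw [sum_eq_single (fun _ => false)] <;> simp +contextual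

end BBBV

open BBBV in
theorem bbbv_proof : BBBVStmt := by
  intro Y _ A B u k gs h hY
  by_contra hn
  simp only [not_exists, not_lt] at hn
  have h1 := sum_err A B u h gs _ (sq_init (k := k))
  have h2 : ∀ y, (1 : ℝ) / 3 ≤ 2 * err A (B y)
      (fun e' : Fin (k + 1) → Bool => if e' = fun _ => false then (1 : ℂ) else 0) gs := fun y => by
    have a1 := acc_diff _ _ ((sq_run (B y) gs _).trans (sq_init (k := k)))
      ((sq_run A gs _).trans sq_init)
    have a2 := hybrid A (B y) gs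
      (fun e' : Fin (k + 1) → Bool => if e' = fun _ => false then (1 : ℂ) else 0)
      (fun e' : Fin (k + 1) → Bool => if e' = fun _ => false then (1 : ℂ) else 0)
    rw [sub_self, show BBBV.sq (0 : (Fin (k + 1) → Bool) → ℂ) = 0 by simp [BBBV.sq],
      Real.sqrt_zero, zero_add] at a2
    have a3 := hn y
    unfold acc at a3
    linarith
  have h3 := sum_le_sum fun y (_ : y ∈ univ) => h2 y
  rw [← mul_sum, sum_const, card_univ, nsmul_eq_mul] at h3
  have h4 : (144 : ℝ) * (gs.length : ℝ) ^ 2 * u < Fintype.card Y := by exact_mod_cast hY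
  have h5 : (0 : ℝ) < Fintype.card Y := lt_of_le_of_lt (by positivity) h4
  have h6 : (Fintype.card Y : ℝ) ≤ 12 * gs.length * √(Fintype.card Y * u) := by linarith
  have h7 := pow_le_pow_left₀ h5.le h6 2
  rw [mul_pow, Real.sq_sqrt (by positivity)] at h7
  nlinarith

theorem local_proof : LocalStmt := by
  intro A B k gs h
  have key : ∀ ψ : (Fin (k + 1) → Bool) → ℂ, gs.foldl (gate A) ψ = gs.foldl (gate B) ψ := by
    induction gs with
    | nil => intro ψ; rfl
    | cons g gs ih =>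
      intro ψ
      have h1 : gate A ψ g = gate B ψ g := by
        funext e
        simp only [gate]
        rw [h g List.mem_cons_self _ (by simp)]
      rw [List.foldl_cons, List.foldl_cons, h1, ih fun g' hg' => h g' (List.mem_cons_of_mem _ hg')]
  unfold acc
  rw [key]

end Pool.Agent.Lib.MP_2733b3_lc
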