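import Pool.Agent.Lib.MP_2733b3_lc.Defs
import Pool.Agent.Shared.PolyTimeConv

/-!
Weighted counting, the cube, Forrelation, the layout of the oracle, and the statements of the
independent parts of the proof.
-/

set_option autoImplicit false

namespace Pool.Agent.Lib.MP_2733b3_lc

open Finset Pool.Agent.Shared.PolyTime

open Classical in
/-- The weight of an event. -/
noncomputable def pr {Ω : Type} [Fintype Ω] (μ : Ω → ℝ) (E : Ω → Prop) : ℝ :=
  ∑ ω, if E ω then μ ω else 0

open Classical in
/-- The number of elements with a property. -/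
noncomputable def cnt {M : Type} [Fintype M] (E : M → Prop) : ℕ := (univ.filter E).card

/-- The sign of a bit. -/
def sg (b : Bool) : ℝ := if b then -1 else 1

/-- Flip one bit. -/
def flp {V : Type} [DecidableEq V] (x : V → Bool) (v : V) : V → Bool :=
  Function.update x v (!x v)

/-- Sensitivity of `F` at `x`. -/
noncomputable def sens {V : Type} [Fintype V] [DecidableEq V] (F : (V → Bool) → Bool)
    (x : V → Bool) : ℕ := cnt fun v => F (flp x v) ≠ F x

/-- The product weight on the cube in which the sign of bit `v` has mean `z v`. -/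
noncomputable def bias {V : Type} [Fintype V] (z : V → ℝ) (x : V → Bool) : ℝ :=
  ∏ v, (1 + sg (x v) * z v) / 2

/-- The bits of one Forrelation instance: two truth tables. -/
abbrev Var (l : ℕ) := Bool × (Fin l → Bool)

/-- Entries of the unnormalised Hadamard matrix. -/
def chi {l : ℕ} (a b : Fin l → Bool) : ℝ := ∏ i, sg (a i && b i)

/-- `2^(-l/2)`. -/
noncomputable def sig (l : ℕ) : ℝ := (√2)⁻¹ ^ l

/-- The Forrelation of two truth tables. -/
noncomputable def Phi {l : ℕ} (x : Var l → Bool) : ℝ :=
  sig l ^ 3 * ∑ a, ∑ b, sg (x (false, a)) * chi a b * sg (x (true, b))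

/-- The mixed second derivative of the multilinear extension of `F` at `z`. -/
noncomputable def der2 {V : Type} [Fintype V] [DecidableEq V] (F : (V → Bool) → Bool)
    (z : V → ℝ) (i j : V) : ℝ :=
  ∑ x : V → Bool, if F x = true then
    sg (x i) / 2 * (sg (x j) / 2) * ∏ v ∈ univ \ {i, j}, (1 + sg (x v) * z v) / 2 else 0

/-- A self-delimiting code for lists of lists, over any alphabet with letters `z`, `o`. -/
def enc {W : Type} (z o : W) (l : List (List W)) : List W :=
  l.flatMap fun a => a.flatMap (fun b => [o, b]) ++ [z]

/-- The code over bits. -/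
def code (l : List (List Bool)) : List Bool := enc false true l

/-- The string holding the value at `x` of table `sd` of instance `j` of block `u`. -/
def cell (u : List Bool) (j : ℕ) (sd : Bool) (x : List Bool) : List Bool :=
  code [[false], u, List.replicate j true, [sd], x]

/-- The string holding entry `z` of row `y`. -/
def rowc (y z : List Bool) : List Bool := code [[true], y, z]

/-- The strings on which the oracle computes a fixed easy predicate. -/
def help (xs : List (List Bool)) : List Bool := code ([] :: xs)

/-- The oracle tells whether one of the listed strings is all zero. -/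
def HelpOK (A : List Bool → Bool) : Prop :=
  ∀ xs : List (List Bool), A (help xs) = xs.any fun x => x.all fun b => !b

/-- Instance `j` of block `u`. -/
def inst (A : List Bool → Bool) (u : List Bool) (l j : ℕ) : Var l → Bool :=
  fun v => A (cell u j v.1 (List.ofFn v.2))

/-- The acceptance probability of the decoding circuit. -/
noncomputable def pacc (A : List Bool → Bool) (u : List Bool) (l r : ℕ) : ℝ :=
  1 - ∏ j ∈ range r, (1 - Phi (inst A u l j) ^ 2)

/-- Multiplicative bound on the level-two weight from a sensitivity tail. -/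
def DerivStmt : Prop :=
  ∀ (V : Type) [Fintype V] [DecidableEq V] (F : (V → Bool) → Bool) (z : V → ℝ) (t : ℕ) (ν : ℝ),
    (∀ v, |z v| ≤ 1 / 2) → pr (bias z) (fun x => t < sens F x) ≤ ν →
    ∑ i, ∑ j, (if i = j then 0 else |der2 F z i j|) ≤
      16 * (t : ℝ) ^ 2 * pr (bias z) (fun x => F x = true) + 32 * (Fintype.card V : ℝ) ^ 3 * ν

/-- Multiplicative Raz-Tal theorem. -/
def RTStmt : Prop :=
  ∀ (l : ℕ) (η : ℝ), 0 < η → ∃ D : (Var l → Bool) → ℝ, (∀ x, 0 ≤ D x) ∧ ∑ x, D x = 1 ∧
    1 / (16 * ((l : ℝ) + 3)) ≤ ∑ x, D x * Phi x ∧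
    ∀ (F : (Var l → Bool) → Bool) (t : ℕ) (ν : ℝ),
      (∀ z : Var l → ℝ, (∀ v, |z v| ≤ 1 / 2) → pr (bias z) (fun x => t < sens F x) ≤ ν) →
      pr D (fun x => F x = true) ≤ Real.exp (16 * (t : ℝ) ^ 2 * sig l) *
        (pr (bias 0) (fun x => F x = true) + 32 * (Fintype.card (Var l) : ℝ) ^ 3 * ν + η)

/-- Forrelation is bounded by one and small on average. -/
def PhiStmt : Prop :=
  ∀ l : ℕ, (∀ x : Var l → Bool, Phi x ^ 2 ≤ 1) ∧
    ∑ x : Var l → Bool, bias 0 x * Phi x ^ 2 = 1 / 2 ^ l

/-- The hybrid argument of Bennett, Bernstein, Brassard and Vazirani. -/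
def BBBVStmt : Prop :=
  ∀ (Y : Type) [Fintype Y] (A : List Bool → Bool) (B : Y → List Bool → Bool) (u k : ℕ)
    (gs : List (ℕ × ℕ × List ℕ)), (∀ s, cnt (fun y => B y s ≠ A s) ≤ u) →
    144 * gs.length ^ 2 * u < Fintype.card Y → ∃ y, |acc (B y) k gs - acc A k gs| < 1 / 3

/-- A circuit only sees the oracle at the lengths of its wire lists. -/
def LocalStmt : Prop :=
  ∀ (A B : List Bool → Bool) (k : ℕ) (gs : List (ℕ × ℕ × List ℕ)),
    (∀ g ∈ gs, ∀ s : List Bool, s.length = g.2.2.length → A s = B s) → acc A k gs = acc B k gs

/-- The decoding circuit; the second and third inputs give `l` and `r` in unary. -/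
def CircStmt : Prop :=
  ∃ G : List Bool × List Bool × List Bool → List Bool × List (ℕ × ℕ × List ℕ), PT G ∧
    ∀ A, HelpOK A → ∀ u l r : List Bool,
      acc A (G (u, l, r)).1.length (G (u, l, r)).2 = pacc A u l.length r.length

theorem enc_map {W W' : Type} (f : W → W') (z o : W) (l : List (List W)) :
    (enc z o l).map f = enc (f z) (f o) (l.map (List.map f)) := by
  simp [enc, List.map_flatMap, List.flatMap_map]

theorem code_cons (a : List Bool) (l : List (List Bool)) :
    code (a :: l) = a.flatMap (fun b => [true, b]) ++ false :: code l := by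
  simp [code, enc]

theorem code_aux : ∀ (a a' s s' : List Bool),
    a.flatMap (fun b => [true, b]) ++ false :: s = a'.flatMap (fun b => [true, b]) ++ false :: s' →
    a = a' ∧ s = s'
  | [], [], s, s', h => by simpa using h
  | [], b :: a', s, s', h => by simp at h
  | b :: a, [], s, s', h => by simp at h
  | b :: a, b' :: a', s, s', h => by
    simp only [List.flatMap_cons, List.cons_append, List.nil_append, List.cons.injEq,
      true_and] at h
    obtain ⟨h1, h2⟩ := code_aux a a' s s' h.2
    exact ⟨by rw [h.1, h1], h2⟩

theorem code_injective : Function.Injective code := by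
  intro l
  induction l with
  | nil =>
    intro l' h
    cases l' with
    | nil => rfl
    | cons a l' => rw [code_cons] at h; simp [code, enc] at h
  | cons a l ih =>
    intro l' h
    cases l' with
    | nil => rw [code_cons] at h; simp [code, enc] at h
    | cons a' l' =>
      rw [code_cons, code_cons] at h
      obtain ⟨h1, h2⟩ := code_aux _ _ _ _ h
      rw [h1, ih h2]

theorem length_code (l : List (List Bool)) :
    (code l).length = (l.map fun a => 2 * a.length + 1).sum := by
  induction l with
  | nil => rfl
  | cons a l ih =>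
    rw [code_cons]
    simp [ih, List.length_flatMap]
    omega

end Pool.Agent.Lib.MP_2733b3_lc
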