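import Pool.Agent.Lib.MP_2733b3_lc.Prob

/-!
The chain lemma: if a rank function can be lowered by many moves, it can be lowered by many moves
again after many of them; reversing the chain gives an exponential tail bound.
-/

set_option autoImplicit false

namespace Pool.Agent.Lib.MP_2733b3_lc

open Finset

section
variable {Ω M L : Type} [Fintype Ω] [Fintype M] [LinearOrder L]

/-- One step of the chain, at a fixed good point. -/
theorem chain_point (f0 : L) (val : M → L) (nxt : M → M → L) (u R r lam : ℕ) (hr : r < R)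
    (tie : ∀ v < f0, cnt (fun m => val m = v) ≤ u)
    (comm : ∀ m', val m' < f0 → cnt (fun m => ¬ nxt m m' ≤ val m') ≤ u)
    (hu : 1 ≤ u)
    (hs : (r + 1) * (2 * (2 * R + 3 + 2 * lam) * u) ≤ cnt (fun m => val m < f0)) :
    2 * lam * u ≤ cnt (fun m => val m < f0 ∧
      r * (2 * (2 * R + 3 + 2 * lam) * u) ≤ cnt (fun m' => nxt m m' < val m)) := by
  classical
  set h := 2 * (2 * R + 3 + 2 * lam) * u with hh
  set e := 2 * R * u with he
  have heh : e + u + u + u + 2 * lam * u + (e + u + u + u + 2 * lam * u) = h := by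
    rw [hh, he]; ring
  -- the threshold
  have hne : (univ.filter fun m => val m < f0 ∧
      r * h + e ≤ cnt (fun m' => val m' < f0 ∧ val m' ≤ val m)).Nonempty := by
    have hP : (univ.filter fun m => val m < f0).Nonempty := by
      obtain ⟨m, hm⟩ := cnt_pos (E := fun m => val m < f0) (by nlinarith)
      exact ⟨m, by simp [hm]⟩
    obtain ⟨m, hm, hmax⟩ := exists_max_image _ val hP
    simp only [mem_filter, mem_univ, true_and] at hm hmax
    refine ⟨m, ?_⟩
    simp only [mem_filter, mem_univ, true_and]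
    refine ⟨hm, le_trans (by nlinarith) (hs.trans (cnt_mono fun m' hm' => ⟨hm', hmax m' hm'⟩))⟩
  obtain ⟨m0, hm0, hmin⟩ := exists_min_image _ val hne
  simp only [mem_filter, mem_univ, true_and] at hm0 hmin
  obtain ⟨hm0, hlow⟩ := hm0
  set Low : M → Prop := fun m' => val m' < f0 ∧ val m' ≤ val m0 with hLow
  have hup : cnt Low ≤ r * h + e + u := by
    have h1 : cnt (fun m' => val m' < val m0) ≤ r * h + e := by
      by_cases hP : (univ.filter fun m => val m < val m0).Nonempty
      · obtain ⟨m, hm, hmax⟩ := exists_max_image _ val hP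
        simp only [mem_filter, mem_univ, true_and] at hm hmax
        by_contra hc
        refine absurd (hmin m ⟨hm.trans hm0, le_trans (by omega)
          (cnt_mono (E := fun m' => val m' < val m0) fun m' hm' =>
            ⟨hm'.trans hm0, hmax m' hm'⟩)⟩) (not_le.2 hm)
      · have : cnt (fun m' => val m' < val m0) = 0 := by
          by_contra hc
          obtain ⟨m, hm⟩ := cnt_pos (Nat.pos_of_ne_zero hc)
          exact hP ⟨m, by simp [hm]⟩
        omega
    have h2 := tie (val m0) hm0
    have h3 := cnt_or (fun m' => val m' < val m0) (fun m' => val m' = val m0)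
    have h4 : cnt Low ≤ cnt (fun m' => val m' < val m0 ∨ val m' = val m0) :=
      cnt_mono fun m' hm' => lt_or_eq_of_le hm'.2
    omega
  -- broken pairs
  set brk : M → ℕ := fun m => cnt (fun m' => Low m' ∧ ¬ nxt m m' ≤ val m') with hbrk
  have hsum : ∑ m, brk m ≤ cnt Low * u := by
    simp only [hbrk]
    rw [cnt_swap (fun m m' => Low m' ∧ ¬ nxt m m' ≤ val m'), cnt_eq_sum Low, sum_mul]
    refine sum_le_sum fun m' _ => ?_
    by_cases hl : Low m'
    · rw [if_pos hl, one_mul]
      exact le_trans (cnt_mono fun m hm => hm.2) (comm m' hl.1)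
    · rw [if_neg hl, zero_mul]
      exact le_of_le_of_eq (cnt_mono fun m hm => hl hm.1) cnt_false
  have hmk := cnt_markov brk e
  have hbad : 2 * cnt (fun m => e < brk m) ≤ h + 3 * u := by
    have h1 : cnt (fun m => e < brk m) * (2 * R * u) ≤ (R * (h + 3 * u)) * u := by
      have h2 : cnt Low ≤ R * (h + 3 * u) := by
        have : r * h ≤ R * h := Nat.mul_le_mul_right _ hr.le
        have : u ≤ R * u := Nat.le_mul_of_pos_left _ (by omega)
        have : R * (h + 3 * u) = R * h + 2 * R * u + R * u := by ring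
        omega
      have h3 := Nat.mul_le_mul_right u h2
      have h4 : cnt (fun m => e < brk m) * e ≤ cnt (fun m => e < brk m) * (e + 1) :=
        Nat.mul_le_mul_left _ (Nat.le_succ _)
      rw [← he]; omega
    have h5 : (2 * cnt (fun m => e < brk m)) * (R * u) ≤ (h + 3 * u) * (R * u) := by
      nlinarith
    exact Nat.le_of_mul_le_mul_right h5 (Nat.mul_pos (by omega) (by omega))
  have hcov : cnt (fun m => val m < f0) ≤ cnt (fun m => (val m < f0 ∧
      r * h ≤ cnt (fun m' => nxt m m' < val m)) ∨ (Low m ∨ e < brk m)) := by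
    refine cnt_mono fun m hm => ?_
    by_cases h1 : Low m
    · exact Or.inr (Or.inl h1)
    by_cases h2 : e < brk m
    · exact Or.inr (Or.inr h2)
    refine Or.inl ⟨hm, ?_⟩
    have h3 : val m0 < val m := by
      by_contra hc
      exact h1 ⟨hm, not_lt.1 hc⟩
    have h4 := cnt_split Low (fun m' => nxt m m' ≤ val m')
    have h5 : cnt (fun m' => Low m' ∧ nxt m m' ≤ val m') ≤ cnt (fun m' => nxt m m' < val m) :=
      cnt_mono fun m' hm' => lt_of_le_of_lt (hm'.2.trans hm'.1.2) h3
    have h6 : brk m = cnt (fun m' => Low m' ∧ ¬ nxt m m' ≤ val m') := rfl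
    omega
  have h7 := cnt_or (fun m => val m < f0 ∧ r * h ≤ cnt (fun m' => nxt m m' < val m))
    (fun m => Low m ∨ e < brk m)
  have h8 := cnt_or Low (fun m => e < brk m)
  have h9 : (r + 1) * h = r * h + h := by ring
  omega

/-- The chain lemma. -/
theorem chain (μ : Ω → ℝ) (hμ : ∀ ω, 0 ≤ μ ω) (h1 : ∑ ω, μ ω ≤ 1) (Φ : Ω × M ≃ Ω × M) (lam : ℕ)
    (hl : 1 ≤ lam) (hq : ∀ ω m, μ ω ≤ lam * μ (Φ (ω, m)).1) (f : Ω → L) (u R : ℕ) (hu : 1 ≤ u)
    (G : Ω → Prop)
    (tie : ∀ ω, G ω → ∀ v < f ω, cnt (fun m => f (Φ (ω, m)).1 = v) ≤ u)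
    (comm : ∀ ω, G ω → ∀ m', f (Φ (ω, m')).1 < f ω →
      cnt (fun m => ¬ f (Φ ((Φ (ω, m)).1, m')).1 ≤ f (Φ (ω, m')).1) ≤ u)
    (rev : ∀ ω, G ω → cnt (fun m => f ω < f (Φ.symm (ω, m)).1) ≤ u) :
    pr μ (fun ω => R * (2 * (2 * R + 3 + 2 * lam) * u) ≤ cnt (fun m => f (Φ (ω, m)).1 < f ω)) ≤
      (1 / 2) ^ R + 2 * (1 + Fintype.card M) * pr μ (fun ω => ¬ G ω) := by
  classical
  set h := 2 * (2 * R + 3 + 2 * lam) * u with hh
  set ν := pr μ (fun ω => ¬ G ω) with hν
  have hν0 : 0 ≤ ν := pr_nonneg hμ _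
  set B : ℕ → Ω → Prop := fun r ω => r * h ≤ cnt (fun m => f (Φ (ω, m)).1 < f ω) with hB
  have key : ∀ r < R, pr μ (B (r + 1)) ≤ pr μ (B r) / 2 + (1 + Fintype.card M) * ν := by
    intro r hr
    set E : Ω × M → Prop := fun p => f (Φ p).1 < f p.1 ∧ B r (Φ p).1 with hE
    have a1 : (2 * lam * u : ℝ) * pr μ (fun ω => G ω ∧ B (r + 1) ω) ≤
        ∑ p : Ω × M, if E p then μ p.1 else 0 := by
      rw [Fintype.sum_prod_type, pr, mul_sum]
      refine sum_le_sum fun ω _ => ?_
      have e1 : (∑ m, if E (ω, m) then μ ω else 0) = cnt (fun m => E (ω, m)) * μ ω := by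
        rw [cnt_eq_sum]; push_cast; rw [sum_mul]
        exact sum_congr rfl fun m _ => by split_ifs <;> simp
      rw [e1]
      split_ifs with hc
      · refine mul_le_mul_of_nonneg_right ?_ (hμ ω)
        have := chain_point (f ω) (fun m => f (Φ (ω, m)).1)
          (fun m m' => f (Φ ((Φ (ω, m)).1, m')).1) u R r lam hr (tie ω hc.1) (comm ω hc.1) hu hc.2
        exact_mod_cast this
      · rw [mul_zero]; exact mul_nonneg (Nat.cast_nonneg _) (hμ ω)
    have a2 : (∑ p : Ω × M, if E p then μ p.1 else 0) ≤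
        lam * ∑ p : Ω × M, if E (Φ.symm p) then μ p.1 else 0 := by
      rw [← Φ.sum_comp (fun p => if E (Φ.symm p) then μ p.1 else 0), mul_sum]
      refine sum_le_sum fun p _ => ?_
      rw [Equiv.symm_apply_apply]
      split_ifs
      · exact hq p.1 p.2
      · simp
    have a3 : (∑ p : Ω × M, if E (Φ.symm p) then μ p.1 else 0) ≤
        u * pr μ (B r) + Fintype.card M * ν := by
      rw [Fintype.sum_prod_type, hν, pr, pr, mul_sum, mul_sum, ← sum_add_distrib]
      refine sum_le_sum fun ω _ => ?_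
      have e1 : (∑ m, if E (Φ.symm (ω, m)) then μ ω else 0) =
          cnt (fun m => E (Φ.symm (ω, m))) * μ ω := by
        rw [cnt_eq_sum]; push_cast; rw [sum_mul]
        exact sum_congr rfl fun m _ => by split_ifs <;> simp
      rw [e1]
      have hm := hμ ω
      by_cases hG : G ω
      · by_cases hb : B r ω
        · have : cnt (fun m => E (Φ.symm (ω, m))) ≤ u :=
            le_trans (cnt_mono fun m hm => by simpa [hE] using hm.1) (rev ω hG)
          have : (cnt (fun m => E (Φ.symm (ω, m))) : ℝ) ≤ u := by exact_mod_cast this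
          simp only [hG, hb, if_true, not_true, if_false, mul_zero, add_zero]
          exact mul_le_mul_of_nonneg_right this hm
        · have : cnt (fun m => E (Φ.symm (ω, m))) = 0 :=
            Nat.eq_zero_of_le_zero (le_of_le_of_eq
              (cnt_mono fun m hm => hb (by simpa [hE] using hm.2)) cnt_false)
          simp [hG, hb, this]
      · have : (cnt (fun m => E (Φ.symm (ω, m))) : ℝ) ≤ Fintype.card M := by
          exact_mod_cast cnt_le_card _
        have h2 := mul_le_mul_of_nonneg_right this hm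
        have h3 : (0 : ℝ) ≤ u * μ ω := by positivity
        by_cases hb : B r ω
        · simp only [hG, hb, not_false_eq_true, if_true]
          linarith
        · simp only [hG, hb, not_false_eq_true, if_true, if_false]
          linarith
    have a4 : pr μ (B (r + 1)) ≤ pr μ (fun ω => G ω ∧ B (r + 1) ω) + ν :=
      le_trans (pr_mono hμ fun ω hb => by by_cases hG : G ω <;> simp [hG, hb]) (pr_or hμ _ _)
    have hl' : (1 : ℝ) ≤ lam := by exact_mod_cast hl
    have hu' : (1 : ℝ) ≤ u := by exact_mod_cast hu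
    have a5 : (2 * u : ℝ) * pr μ (fun ω => G ω ∧ B (r + 1) ω) ≤
        u * pr μ (B r) + Fintype.card M * ν := by
      refine le_of_mul_le_mul_left ?_ (show (0 : ℝ) < lam by linarith)
      nlinarith [mul_le_mul_of_nonneg_left a3 (show (0 : ℝ) ≤ lam by linarith)]
    have a6 : (Fintype.card M : ℝ) * ν ≤ 2 * u * (Fintype.card M * ν) := by
      have : (0 : ℝ) ≤ Fintype.card M * ν := by positivity
      nlinarith
    have a7 : pr μ (fun ω => G ω ∧ B (r + 1) ω) ≤ pr μ (B r) / 2 + Fintype.card M * ν := by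
      refine le_of_mul_le_mul_left ?_ (show (0 : ℝ) < 2 * u by linarith)
      nlinarith
    linarith
  have ind : ∀ r ≤ R, pr μ (B r) ≤ (1 / 2) ^ r + 2 * (1 + Fintype.card M) * ν := by
    intro r
    induction r with
    | zero =>
      intro _
      have := (pr_le_sum hμ (B 0)).trans h1
      have : (0 : ℝ) ≤ 2 * (1 + Fintype.card M) * ν := by positivity
      simp only [pow_zero]; linarith
    | succ r ih =>
      intro hr
      have := key r (by omega)
      have := ih (by omega)
      rw [pow_succ]; linarith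
  exact ind R le_rfl

end

end Pool.Agent.Lib.MP_2733b3_lc
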