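import Pool.Agent.Lib.MP_2733b3_lc.Basic

/-!
The decoding circuit: it accepts with probability one minus the product of `1 - Phi ^ 2`.
-/

set_option autoImplicit false

namespace Pool.Agent.Lib.MP_2733b3_lc

open Finset Pool.Agent.Shared.PolyTime

namespace Circ

/-! ### The Walsh transform -/

section Walsh
variable {l : ℕ}

/-- Hadamard on one bit. -/
noncomputable def hb (φ : (Fin l → Bool) → ℝ) (i : Fin l) (x : Fin l → Bool) : ℝ :=
  (φ (Function.update x i false) + sg (x i) * φ (Function.update x i true)) * (√2)⁻¹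

/-- The Walsh transform. -/
noncomputable def W (φ : (Fin l → Bool) → ℝ) (x : Fin l → Bool) : ℝ :=
  sig l * ∑ y, chi x y * φ y

theorem foldl_hb (φ : (Fin l → Bool) → ℝ) (is : List (Fin l)) (hn : is.Nodup)
    (x : Fin l → Bool) : is.foldl hb φ x = ∑ y : Fin l → Bool, (∏ i, if i ∈ is then
      sg (x i && y i) * (√2)⁻¹ else if x i = y i then 1 else 0) * φ y := by
  induction is using List.reverseRecOn generalizing x with
  | nil =>
    rw [List.foldl_nil, sum_eq_single x]
    · simp
    · intro y _ hy
      obtain ⟨i, hi⟩ := Function.ne_iff.mp hy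
      rw [prod_eq_zero (mem_univ i) (by simp [Ne.symm hi]), zero_mul]
    · simp
  | append_singleton is i ih =>
    have hi : i ∉ is := fun h => (List.nodup_append.mp hn).2.2 i h i (by simp) rfl
    have ih' := ih (List.nodup_append.mp hn).1
    rw [List.foldl_append, List.foldl_cons, List.foldl_nil, hb, ih', ih', mul_sum,
      ← sum_add_distrib, sum_mul]
    refine sum_congr rfl fun y _ => ?_
    have e : ∀ b, (∏ j, if j ∈ is then sg (Function.update x i b j && y j) * (√2)⁻¹
        else if Function.update x i b j = y j then 1 else 0) = (if b = y i then 1 else 0) *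
          ∏ j ∈ univ.erase i, if j ∈ is ++ [i] then sg (x j && y j) * (√2)⁻¹
            else if x j = y j then 1 else 0 := fun b => by
      rw [← mul_prod_erase univ _ (mem_univ i), if_neg hi, Function.update_self]
      congr 1
      refine prod_congr rfl fun j hj => ?_
      have hji := ne_of_mem_erase hj
      simp [hji]
    rw [e, e, ← mul_prod_erase univ _ (mem_univ i), if_pos (by simp : i ∈ is ++ [i])]
    cases y i <;> cases x i <;> simp [sg] <;> ring

theorem foldl_W (φ : (Fin l → Bool) → ℝ) : (List.finRange l).foldl hb φ = W φ := by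
  funext x
  rw [foldl_hb φ _ (List.nodup_finRange l), W, mul_sum]
  refine sum_congr rfl fun y _ => ?_
  simp only [List.mem_finRange, if_true, prod_mul_distrib, prod_const, card_univ,
    Fintype.card_fin, chi, sig]
  ring

theorem sq_hb (φ : (Fin l → Bool) → ℝ) (i : Fin l) : ∑ x, hb φ i x ^ 2 = ∑ x, φ x ^ 2 := by
  have hi : Function.Involutive fun x : Fin l → Bool => flp x i := fun x => by simp [flp]
  have h1 := Equiv.sum_comp hi.toPerm fun x => hb φ i x ^ 2
  have h2 := Equiv.sum_comp hi.toPerm fun x => φ x ^ 2
  have h0 : (√2 : ℝ)⁻¹ ^ 2 = 1 / 2 := by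
    rw [inv_pow, Real.sq_sqrt zero_le_two, one_div]
  have h3 : ∀ x, hb φ i x ^ 2 + hb φ i (flp x i) ^ 2 = φ x ^ 2 + φ (flp x i) ^ 2 := fun x => by
    simp only [hb, flp, Function.update_idem, Function.update_self, mul_pow, h0]
    cases hx : x i
    · have : Function.update x i false = x := by rw [← hx, Function.update_eq_self]
      simp only [this, sg, Bool.not_false, if_true, Bool.false_eq_true, if_false]
      ring
    · have : Function.update x i true = x := by rw [← hx, Function.update_eq_self]
      simp only [this, sg, Bool.not_true, if_true, Bool.false_eq_true, if_false]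
      ring
  have h4 := sum_congr (rfl : (univ : Finset (Fin l → Bool)) = univ) fun x _ => h3 x
  rw [sum_add_distrib, sum_add_distrib] at h4
  simp only [Function.Involutive.coe_toPerm] at h1 h2
  linarith

theorem sq_W (φ : (Fin l → Bool) → ℝ) : ∑ x, W φ x ^ 2 = ∑ x, φ x ^ 2 := by
  rw [← foldl_W]
  generalize List.finRange l = is
  induction is generalizing φ with
  | nil => rfl
  | cons i is ih => rw [List.foldl_cons, ih, sq_hb]

/-- The all-zero state of a register. -/
noncomputable def dl (x : Fin l → Bool) : ℝ := if x = fun _ => false then 1 else 0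

/-- Multiplication by the signs of a table. -/
noncomputable def ph (s : (Fin l → Bool) → Bool) (φ : (Fin l → Bool) → ℝ) (x : Fin l → Bool) : ℝ :=
  sg (s x) * φ x

/-- The final state of a register. -/
noncomputable def fin (s : Var l → Bool) (φ : (Fin l → Bool) → ℝ) : (Fin l → Bool) → ℝ :=
  W (ph (fun x => s (true, x)) (W (ph (fun x => s (false, x)) (W φ))))

theorem sq_ph (s : (Fin l → Bool) → Bool) (φ : (Fin l → Bool) → ℝ) :
    ∑ x, ph s φ x ^ 2 = ∑ x, φ x ^ 2 :=
  sum_congr rfl fun x _ => by cases h : s x <;> simp [ph, sg, h]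

theorem sq_fin (s : Var l → Bool) : ∑ x, fin s dl x ^ 2 = 1 := by
  rw [fin, sq_W, sq_ph, sq_W, sq_ph, sq_W]
  simp [dl]

theorem fin_zero (s : Var l → Bool) : fin s dl (fun _ => false) = Phi s := by
  have h1 : ∀ y : Fin l → Bool, chi (fun _ => false) y = 1 := fun y => by simp [chi, sg]
  have h2 : ∀ a b : Fin l → Bool, chi b a = chi a b := fun a b => by simp [chi, Bool.and_comm]
  have h3 : ∀ a : Fin l → Bool, W dl a = sig l := fun a => by simp [W, dl, h2 _ a, h1]
  rw [fin, show W dl = fun _ => sig l from funext h3, W, Phi, sum_comm]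
  simp only [h1, ph, one_mul, mul_sum]
  refine sum_congr rfl fun b _ => ?_
  simp only [W, ph, mul_sum]
  refine sum_congr rfl fun a _ => ?_
  rw [h2 a b]
  ring

end Walsh

/-! ### The circuit -/

/-- The qubits of a register. -/
def reg (l j : ℕ) : List ℕ := (List.range l).map fun i => 4 + (i + l * j)

/-- A layer of Hadamard gates. -/
def lay (l j : ℕ) : List (ℕ × ℕ × List ℕ) := (reg l j).map fun t => (0, t, [])

/-- The wire that carries a constant. -/
def cw (b : Bool) : ℕ := cond b 3 2

/-- The wires of a cell. -/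
def cellW (u v : List Bool) (l j : ℕ) (sd : Bool) : List ℕ :=
  enc 2 3 [[2], u.map cw, v.map fun _ => 3, [cw sd], reg l j]

/-- The gates for one instance. -/
def blk (u r : List Bool) (l j : ℕ) : List (ℕ × ℕ × List ℕ) :=
  lay l j ++ ((3, 1, cellW u (r.take j) l j false) :: (lay l j ++
    ((3, 1, cellW u (r.take j) l j true) :: lay l j)))

/-- The wires of the last query. -/
def helpW (l r : ℕ) : List ℕ := enc 2 3 ([] :: (List.range r).map (reg l))

/-- The circuit. -/
def circ (u r : List Bool) (l : ℕ) : List (ℕ × ℕ × List ℕ) :=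
  (2, 1, []) :: (0, 1, []) :: (2, 3, []) :: ((List.range r.length).flatMap (blk u r l) ++
    [(3, 0, helpW l r.length)])

theorem pt : PT fun p : List Bool × List Bool × List Bool =>
    (List.replicate (3 + p.2.2.length * p.2.1.length) true, circ p.1 p.2.2 p.2.1.length) := by
  unfold circ helpW blk cellW lay reg cw enc
  fun_prop

theorem mem_enc {z o a : ℕ} {L : List (List ℕ)} (h : a ∈ enc z o L) :
    a = z ∨ a = o ∨ ∃ m ∈ L, a ∈ m := by
  simp only [enc, List.mem_flatMap, List.mem_append, List.mem_cons, List.not_mem_nil,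
    or_false] at h
  obtain ⟨m, hm, ⟨b, hb, h | h⟩ | h⟩ := h
  · exact Or.inr (Or.inl h)
  · exact Or.inr (Or.inr ⟨m, hm, h ▸ hb⟩)
  · exact Or.inl h

theorem mem_reg {l r j a : ℕ} (hj : j < r) (h : a ∈ reg l j) : 2 ≤ a ∧ a < 4 + r * l := by
  obtain ⟨i, hi, rfl⟩ := List.mem_map.mp h
  have h1 := List.mem_range.mp hi
  have h2 : l * (j + 1) ≤ l * r := Nat.mul_le_mul_left l hj
  rw [Nat.mul_comm r l]
  rw [Nat.mul_succ] at h2
  omega

theorem mem_cellW {u v : List Bool} {l r j a : ℕ} {sd : Bool} (hj : j < r)
    (h : a ∈ cellW u v l j sd) : 2 ≤ a ∧ a < 4 + r * l := by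
  have hc : ∀ b, 2 ≤ cw b ∧ cw b < 4 + r * l := fun b => by cases b <;> simp [cw] <;> omega
  rcases mem_enc h with rfl | rfl | ⟨m, hm, ha⟩
  · omega
  · omega
  simp only [List.mem_cons, List.not_mem_nil, or_false] at hm
  rcases hm with rfl | rfl | rfl | rfl | rfl
  · rw [List.mem_singleton.mp ha]; omega
  · obtain ⟨b, _, rfl⟩ := List.mem_map.mp ha
    exact hc b
  · obtain ⟨b, _, rfl⟩ := List.mem_map.mp ha
    omega
  · rw [List.mem_singleton.mp ha]; exact hc sd
  · exact mem_reg hj ha

theorem mem_helpW {l r a : ℕ} (h : a ∈ helpW l r) : 2 ≤ a ∧ a < 4 + r * l := by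
  rcases mem_enc h with rfl | rfl | ⟨m, hm, ha⟩
  · omega
  · omega
  rcases List.mem_cons.mp hm with rfl | hm
  · simp at ha
  · obtain ⟨j, hj, rfl⟩ := List.mem_map.mp hm
    exact mem_reg (List.mem_range.mp hj) ha

theorem gate_query (A : List Bool → Bool) {k t : ℕ} (ψ : (Fin (k + 1) → Bool) → ℂ) {w : List ℕ}
    (ht : t < 2) (hw : ∀ a ∈ w, 2 ≤ a ∧ a < k + 1) (e : Fin (k + 1) → Bool) :
    gate A ψ (3, t, w) e = ψ (Function.update e (Fin.ofNat (k + 1) t)
      (xor (e (Fin.ofNat (k + 1) t)) (A (w.map fun a => e (Fin.ofNat (k + 1) a))))) := by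
  have hc : Fin.ofNat (k + 1) t ∉ w.map (Fin.ofNat (k + 1)) := fun h => by
    obtain ⟨a, ha, h1⟩ := List.mem_map.mp h
    have h2 := hw a ha
    have h3 := congrArg Fin.val h1
    simp only [Fin.val_ofNat] at h3
    rw [Nat.mod_eq_of_lt h2.2, Nat.mod_eq_of_lt (by omega)] at h3
    omega
  simp only [gate, if_neg hc, List.map_map]
  rfl

theorem gate_X (A : List Bool → Bool) {k : ℕ} (t : ℕ) (ψ : (Fin (k + 1) → Bool) → ℂ)
    (e : Fin (k + 1) → Bool) : gate A ψ (2, t, []) e =
      ψ (Function.update e (Fin.ofNat (k + 1) t) (!e (Fin.ofNat (k + 1) t))) := by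
  simp [gate]

theorem gate_H (A : List Bool → Bool) {k : ℕ} (t : ℕ) (ψ : (Fin (k + 1) → Bool) → ℂ)
    (e : Fin (k + 1) → Bool) : gate A ψ (0, t, []) e =
      (ψ (Function.update e (Fin.ofNat (k + 1) t) false) + sg (e (Fin.ofNat (k + 1) t)) *
        ψ (Function.update e (Fin.ofNat (k + 1) t) true)) * ((√2)⁻¹ : ℝ) := by
  simp only [gate, if_true, sg, div_eq_mul_inv, Complex.ofReal_inv]
  split_ifs <;> simp

/-! ### The states -/

section States
variable {k l r : ℕ} (q : Fin 4 ⊕ Fin r × Fin l ≃ Fin (k + 1))

/-- The first four qubits. -/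
def P (e : Fin (k + 1) → Bool) (a : Fin 4) : Bool := e (q (.inl a))

/-- The registers. -/
def R (e : Fin (k + 1) → Bool) (j : Fin r) (i : Fin l) : Bool := e (q (.inr (j, i)))

theorem P_inl (e : Fin (k + 1) → Bool) (a : Fin 4) (b : Bool) :
    P q (Function.update e (q (.inl a)) b) = Function.update (P q e) a b := by
  funext a'
  simp [P, Function.update_apply]

theorem P_inr (e : Fin (k + 1) → Bool) (p : Fin r × Fin l) (b : Bool) :
    P q (Function.update e (q (.inr p)) b) = P q e := by
  funext a'
  simp [P]

theorem R_inl (e : Fin (k + 1) → Bool) (a : Fin 4) (b : Bool) :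
    R q (Function.update e (q (.inl a)) b) = R q e := by
  funext j i
  simp [R]

theorem R_inr (e : Fin (k + 1) → Bool) (j : Fin r) (i : Fin l) (b : Bool) :
    R q (Function.update e (q (.inr (j, i))) b)
      = Function.update (R q e) j (Function.update (R q e j) i b) := by
  funext j' i'
  by_cases h : j' = j
  · subst h
    simp [R, Function.update_apply]
  · simp [R, h]

theorem sum_PR (F : (Fin 4 → Bool) → (Fin r → Fin l → Bool) → ℝ) :
    ∑ e, F (P q e) (R q e) = ∑ a, ∑ y, F a y := by
  rw [← Fintype.sum_prod_type']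
  exact Fintype.sum_equiv
    { toFun := fun e => (P q e, R q e)
      invFun := fun p t => Sum.elim p.1 (fun s => p.2 s.1 s.2) (q.symm t)
      left_inv := fun e => by
        funext t
        obtain ⟨v, rfl⟩ := q.surjective t
        cases v <;> simp [P, R]
      right_inv := fun p => by
        refine Prod.ext ?_ ?_
        · funext a; simp [P]
        · funext j i; simp [R] } _ _ fun _ => rfl

/-- The state of the first four qubits. -/
noncomputable def pre (a : Fin 4 → Bool) : ℝ :=
  if a 0 = false ∧ a 2 = false ∧ a 3 = true then sg (a 1) * (√2)⁻¹ else 0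

/-- Product states. -/
noncomputable def St (f : Fin r → (Fin l → Bool) → ℝ) (e : Fin (k + 1) → Bool) : ℂ :=
  ((pre (P q e) * ∏ j, f j (R q e j) : ℝ) : ℂ)

theorem prod_upd (f : Fin r → (Fin l → Bool) → ℝ) (j : Fin r) (g : (Fin l → Bool) → ℝ)
    (y : Fin r → Fin l → Bool) :
    ∏ j', Function.update f j g j' (y j') = g (y j) * ∏ j' ∈ univ.erase j, f j' (y j') := by
  rw [← mul_prod_erase univ _ (mem_univ j), Function.update_self]
  congr 1
  exact prod_congr rfl fun j' hj => by rw [Function.update_of_ne (ne_of_mem_erase hj)]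

theorem prod_upd' (f : Fin r → (Fin l → Bool) → ℝ) (j : Fin r) (x : Fin l → Bool)
    (y : Fin r → Fin l → Bool) :
    ∏ j', f j' (Function.update y j x j') = f j x * ∏ j' ∈ univ.erase j, f j' (y j') := by
  rw [← mul_prod_erase univ _ (mem_univ j), Function.update_self]
  congr 1
  exact prod_congr rfl fun j' hj => by rw [Function.update_of_ne (ne_of_mem_erase hj)]

variable {q} (A : List Bool → Bool) (hk : k + 1 = 4 + r * l)
  (h0 : ∀ a : Fin 4, Fin.ofNat (k + 1) a = q (.inl a))
  (h1 : ∀ (j : Fin r) (i : Fin l), Fin.ofNat (k + 1) (4 + (i + l * j)) = q (.inr (j, i)))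

include h1 in
theorem St_H (f : Fin r → (Fin l → Bool) → ℝ) (j : Fin r) (i : Fin l) :
    gate A (St q f) (0, 4 + (i + l * j), []) = St q (Function.update f j (hb (f j) i)) := by
  funext e
  rw [gate_H, h1]
  simp only [St, P_inr, R_inr, prod_upd, prod_upd', hb, R]
  push_cast
  ring

include h1 in
theorem St_lay (f : Fin r → (Fin l → Bool) → ℝ) (j : Fin r) :
    (lay l j).foldl (gate A) (St q f) = St q (Function.update f j (W (f j))) := by
  rw [lay, reg, ← List.map_coe_finRange_eq_range, List.map_map, List.map_map, List.foldl_map,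
    ← foldl_W]
  generalize List.finRange l = is
  induction is generalizing f with
  | nil => simp
  | cons i is ih =>
    rw [List.foldl_cons, List.foldl_cons, Function.comp_apply, Function.comp_apply, St_H A h1, ih,
      Function.update_idem, Function.update_self]

include h1 in
theorem map_reg (e : Fin (k + 1) → Bool) (j : Fin r) :
    (reg l j).map (fun a => e (Fin.ofNat (k + 1) a)) = List.ofFn (R q e j) := by
  rw [reg, ← List.map_coe_finRange_eq_range, List.map_map, List.map_map, List.ofFn_eq_map]
  exact List.map_congr_left fun i _ => congrArg e (h1 j i)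

include hk h0 h1 in
theorem St_Q (u v : List Bool) (f : Fin r → (Fin l → Bool) → ℝ) (j : Fin r) (hv : v.length = j)
    (sd : Bool) : gate A (St q f) (3, 1, cellW u v l j sd) =
      St q (Function.update f j (ph (fun x => inst A u l j (sd, x)) (f j))) := by
  funext e
  rw [gate_query A _ one_lt_two fun a ha => hk ▸ mem_cellW j.2 ha,
    show Fin.ofNat (k + 1) 1 = q (.inl 1) from h0 1]
  simp only [St, P_inl, R_inl, prod_upd, ph]
  rw [← mul_prod_erase univ _ (mem_univ j)]
  congr 1
  by_cases h : P q e 0 = false ∧ P q e 2 = false ∧ P q e 3 = true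
  · have e2 : e (Fin.ofNat (k + 1) 2) = false := (congrArg e (h0 2)).trans h.2.1
    have e3 : e (Fin.ofNat (k + 1) 3) = true := (congrArg e (h0 3)).trans h.2.2
    have ec : ∀ b, e (Fin.ofNat (k + 1) (cw b)) = b := fun b => by
      cases b
      · exact e2
      · exact e3
    have es : (cellW u v l j sd).map (fun a => e (Fin.ofNat (k + 1) a))
        = cell u j sd (List.ofFn (R q e j)) := by
      rw [cellW, enc_map, e2, e3, cell, code]
      simp only [List.map_cons, List.map_nil, List.map_map, map_reg h1, Function.comp_def, e2, e3,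
        ec, List.map_id', List.map_const', hv, List.map_replicate]
    rw [es]
    simp only [pre, inst, ne_eq, Fin.reduceEq, not_false_eq_true, Function.update_of_ne,
      Function.update_self, if_pos h, show e (q (.inl 1)) = P q e 1 from rfl]
    cases P q e 1 <;> cases A (cell u j sd (List.ofFn (R q e j))) <;> simp [sg]
  · simp only [pre, ne_eq, Fin.reduceEq, not_false_eq_true, Function.update_of_ne, if_neg h,
      zero_mul]

include hk h0 h1 in
theorem St_blk (u v : List Bool) (hv : v.length = r) (f : Fin r → (Fin l → Bool) → ℝ)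
    (j : Fin r) : (blk u v l j).foldl (gate A) (St q f) =
      St q (Function.update f j (fin (inst A u l j) (f j))) := by
  have hl : (v.take j).length = j := by
    rw [List.length_take, hv, min_eq_left j.2.le]
  simp only [blk, List.foldl_append, List.foldl_cons, St_lay A h1, St_Q A hk h0 h1 u _ _ j hl,
    Function.update_idem, Function.update_self, fin]

include hk h0 h1 in
theorem St_all (u v : List Bool) (hv : v.length = r) (js : List (Fin r)) (hn : js.Nodup)
    (f : Fin r → (Fin l → Bool) → ℝ) :
    (js.flatMap fun j : Fin r => blk u v l j).foldl (gate A) (St q f) =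
      St q fun j => if j ∈ js then fin (inst A u l j) (f j) else f j := by
  induction js generalizing f with
  | nil => simp
  | cons j js ih =>
    obtain ⟨hj, hn⟩ := List.nodup_cons.mp hn
    rw [List.flatMap_cons, List.foldl_append, St_blk A hk h0 h1 u v hv, ih hn]
    congr 1
    funext j'
    by_cases h : j' = j
    · subst h
      simp [hj]
    · simp [h]

include h0 in
theorem St_init : gate A (gate A (gate A (fun e => if e = fun _ => false then 1 else 0)
    (2, 1, [])) (0, 1, [])) (2, 3, []) = St q fun _ => dl := by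
  have hz : ∀ e : Fin (k + 1) → Bool, (if e = fun _ => false then (1 : ℂ) else 0) =
      ((dl (P q e) * ∏ j, dl (R q e j) : ℝ) : ℂ) := fun e => by
    split_ifs with h
    · have e1 : P q e = fun _ => false := by rw [h]; rfl
      have e2 : ∀ j, R q e j = fun _ => false := fun j => by rw [h]; rfl
      simp [dl, e1, e2]
    · obtain ⟨t, ht⟩ := Function.ne_iff.mp h
      obtain ⟨v, rfl⟩ := q.surjective t
      rcases v with a | ⟨j, i⟩
      · rw [dl, if_neg fun h' => ht (congrFun h' a)]
        simp
      · rw [prod_eq_zero (mem_univ j) (if_neg fun h' => ht (congrFun h' i))]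
        simp
  funext e
  simp only [gate_X, gate_H, hz, show Fin.ofNat (k + 1) 1 = q (.inl 1) from h0 1,
    show Fin.ofNat (k + 1) 3 = q (.inl 3) from h0 3, P_inl, R_inl, St, Function.update_self,
    Function.update_idem]
  have e1 : Function.update e (q (.inl 3)) (!e (q (.inl 3))) (q (.inl 1)) = P q e 1 := by
    simp [P]
  rw [e1, show e (q (.inl 3)) = P q e 3 from rfl]
  have key : ∀ a : Fin 4 → Bool,
      dl (Function.update (Function.update a 3 (!a 3)) 1 (!false)) = 0 ∧
      dl (Function.update (Function.update a 3 (!a 3)) 1 (!true)) =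
        if a 0 = false ∧ a 2 = false ∧ a 3 = true then 1 else 0 := fun a => by
    constructor
    · exact if_neg fun h => by simpa using congrFun h 1
    · refine if_congr ?_ rfl rfl
      simp [funext_iff, Fin.forall_fin_succ, Function.update_apply]
  rw [(key _).1, (key _).2, pre]
  split_ifs <;> simp
  ring

include hk h0 h1 in
theorem acc_eq (hA : HelpOK A) (u v : List Bool) (hv : v.length = r) :
    acc A k (circ u v l) = pacc A u l r := by
  have hz : (0 : Fin (k + 1)) = q (.inl 0) := h0 0
  rw [acc, circ, List.foldl_cons, List.foldl_cons, List.foldl_cons, St_init A h0, List.foldl_append,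
    hv, ← List.map_coe_finRange_eq_range (n := r), List.flatMap_map,
    St_all A hk h0 h1 u v hv _ (List.nodup_finRange r), List.foldl_cons, List.foldl_nil]
  simp only [List.mem_finRange, if_true]
  set f : Fin r → (Fin l → Bool) → ℝ := fun j => fin (inst A u l j) dl with hf
  have key : ∀ e : Fin (k + 1) → Bool, (if e 0 = true then
      ‖gate A (St q f) (3, 0, helpW l r) e‖ ^ 2 else 0) =
      (if P q e 0 = true ∧ P q e 2 = false ∧ P q e 3 = true then 1 / 2 else 0) *
        (∏ j, f j (R q e j) ^ 2 - ∏ j, if R q e j = fun _ => false then 0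
          else f j (R q e j) ^ 2) := fun e => by
    rw [gate_query A _ two_pos fun a ha => hk ▸ mem_helpW ha,
      show Fin.ofNat (k + 1) 0 = q (.inl 0) from h0 0, hz, show e (q (.inl 0)) = P q e 0 from rfl]
    simp only [St, P_inl, R_inl, Complex.norm_real, Real.norm_eq_abs, sq_abs, mul_pow, pre, ne_eq,
      Fin.reduceEq, not_false_eq_true, Function.update_of_ne, Function.update_self]
    by_cases h : P q e 0 = true ∧ P q e 2 = false ∧ P q e 3 = true
    · have e2 : e (Fin.ofNat (k + 1) 2) = false := (congrArg e (h0 2)).trans h.2.1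
      have e3 : e (Fin.ofNat (k + 1) 3) = true := (congrArg e (h0 3)).trans h.2.2
      have es : (helpW l r).map (fun a => e (Fin.ofNat (k + 1) a))
          = help ((List.finRange r).map fun j => List.ofFn (R q e j)) := by
        rw [helpW, enc_map, e2, e3, help, code, ← List.map_coe_finRange_eq_range (n := r)]
        simp only [List.map_cons, List.map_nil, List.map_map, Function.comp_def, map_reg h1]
      rw [es, hA, if_pos h.1, if_pos h, h.1]
      by_cases hy : ∃ j, R q e j = fun _ => false
      · have ea : (((List.finRange r).map fun j => List.ofFn (R q e j)).any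
            fun x => x.all fun b => !b) = true := by
          obtain ⟨j, hj⟩ := hy
          simp only [List.any_map, List.any_eq_true, List.mem_finRange, true_and]
          exact ⟨j, by simp [hj]⟩
        obtain ⟨j, hj⟩ := hy
        have ez : (∏ j, if R q e j = fun _ => false then 0 else f j (R q e j) ^ 2) = 0 :=
          prod_eq_zero (mem_univ j) (if_pos hj)
        rw [ea, if_pos ⟨rfl, h.2⟩, ez, sub_zero, prod_pow,
          mul_pow, inv_pow, Real.sq_sqrt zero_le_two]
        cases P q e 1 <;> simp [sg]
      · have ea : (((List.finRange r).map fun j => List.ofFn (R q e j)).any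
            fun x => x.all fun b => !b) = false := by
          rw [Bool.eq_false_iff]
          intro hc
          simp only [List.any_map, List.any_eq_true, List.mem_finRange, true_and] at hc
          obtain ⟨j, hj⟩ := hc
          exact hy ⟨j, funext fun i => by simpa using (by simpa using hj : ∀ i, R q e j i = false) i⟩
        rw [ea, if_neg (by simp), prod_congr rfl fun j _ => if_neg fun hj => hy ⟨j, hj⟩]
        simp
    · rw [if_neg h, zero_mul]
      split_ifs with a1 a2
      · exact absurd ⟨a1, a2.2⟩ h
      · simp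
      · rfl
  have hc : (univ.filter fun a : Fin 4 → Bool =>
      a 0 = true ∧ a 2 = false ∧ a 3 = true).card = 2 := by decide
  rw [sum_congr rfl fun e _ => key e, sum_PR q fun a y =>
    (if a 0 = true ∧ a 2 = false ∧ a 3 = true then (1 / 2 : ℝ) else 0) *
      (∏ j, f j (y j) ^ 2 - ∏ j, if y j = fun _ => false then 0 else f j (y j) ^ 2),
    ← sum_mul_sum, ← sum_filter, sum_const, hc, sum_sub_distrib,
    ← Fintype.prod_sum fun j x => f j x ^ 2,
    ← Fintype.prod_sum fun j x => if x = fun _ => false then 0 else f j x ^ 2, pacc,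
    ← Fin.prod_univ_eq_prod_range fun j => 1 - Phi (inst A u l j) ^ 2]
  have e1 : ∀ j, ∑ x, f j x ^ 2 = 1 := fun j => sq_fin _
  have e2 : ∀ j : Fin r, (∑ x, if x = fun _ => false then 0 else f j x ^ 2)
      = 1 - Phi (inst A u l j) ^ 2 := fun j => by
    rw [← e1 j, ← fin_zero, eq_sub_iff_add_eq, ← Fintype.sum_ite_eq' (fun _ => false)
      fun x => fin (inst A u l j) dl x ^ 2, ← sum_add_distrib]
    refine sum_congr rfl fun x _ => ?_
    split_ifs <;> simp [hf]
  simp [e1, e2]

end States

end Circ

theorem circ_proof : CircStmt := by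
  refine ⟨_, Circ.pt, fun A hA u l r => ?_⟩
  have hk : (List.replicate (3 + r.length * l.length) true).length + 1
      = 4 + r.length * l.length := by
    rw [List.length_replicate]
    omega
  refine Circ.acc_eq (q := ((Equiv.refl (Fin 4)).sumCongr finProdFinEquiv).trans
    (finSumFinEquiv.trans (finCongr hk.symm))) A hk (fun a => Fin.ext ?_) (fun j i => Fin.ext ?_)
    hA u r rfl
  · rw [Fin.val_ofNat, Nat.mod_eq_of_lt (by omega)]
    rfl
  · have h := (Circ.mem_reg j.2 (List.mem_map.mpr ⟨i, List.mem_range.mpr i.2, rfl⟩)).2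
    rw [Fin.val_ofNat, Nat.mod_eq_of_lt (by omega)]
    rfl

end Pool.Agent.Lib.MP_2733b3_lc
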