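import Pool.Agent.Lib.MP_2733b3_lc.Prob

/-! Product weights: hybrid argument, Markov inequality, expectations of products. -/

set_option autoImplicit false

namespace Pool.Agent.Lib.MP_2733b3_lc

open Finset

theorem pr_prod {A B : Type} [Fintype A] [Fintype B] (f : A → ℝ) (g : B → ℝ) (E : A × B → Prop) :
    pr (fun p : A × B => f p.1 * g p.2) E = ∑ a, f a * pr g (fun b => E (a, b)) := by
  unfold pr
  rw [Fintype.sum_prod_type]
  refine sum_congr rfl fun a _ => ?_
  rw [mul_sum]
  exact sum_congr rfl fun b _ => by by_cases h : E (a, b) <;> simp [h]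

theorem pr_equiv {A B : Type} [Fintype A] [Fintype B] (e : A ≃ B) (μ : B → ℝ) (E : B → Prop) :
    pr (fun a => μ (e a)) (fun a => E (e a)) = pr μ E := by
  unfold pr
  exact Equiv.sum_comp e (fun b => @ite _ (E b) (Classical.propDecidable _) (μ b) 0)

theorem pr_markov {A : Type} [Fintype A] {μ : A → ℝ} (hμ : ∀ a, 0 ≤ μ a) (g : A → ℝ)
    (hg : ∀ a, 0 ≤ g a) : pr μ (fun a => 1 / 3 < g a) ≤ 3 * ∑ a, μ a * g a := by
  unfold pr
  rw [mul_sum]
  refine sum_le_sum fun a _ => ?_
  have := hμ a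
  have := hg a
  split_ifs with h
  · nlinarith
  · positivity

section
variable {I : Type} [Fintype I] [DecidableEq I] {T : I → Type} [∀ i, Fintype (T i)]

theorem sum_prod_weights (w : ∀ i, T i → ℝ) :
    ∑ X : ∀ i, T i, ∏ i, w i (X i) = ∏ i, ∑ x, w i x := by
  rw [prod_univ_sum, Fintype.piFinset_univ]

theorem expect_prod (w h : ∀ i, T i → ℝ) (hw : ∀ i, ∑ x, w i x = 1) (s : Finset I) :
    ∑ X : ∀ i, T i, (∏ i, w i (X i)) * ∏ i ∈ s, h i (X i) = ∏ i ∈ s, ∑ x, w i x * h i x := by
  have h1 := sum_prod_weights (fun i x => w i x * if i ∈ s then h i x else 1)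
  have h2 : ∀ X : ∀ i, T i, ∏ i, (w i (X i) * if i ∈ s then h i (X i) else 1) =
      (∏ i, w i (X i)) * ∏ i ∈ s, h i (X i) := fun X => by
    rw [prod_mul_distrib, prod_ite_mem, univ_inter]
  simp only [h2] at h1
  rw [h1, ← prod_ite_mem_eq s]
  refine prod_congr rfl fun i _ => ?_
  split_ifs <;> simp [hw]

theorem pr_split (w : ∀ i, T i → ℝ) (i : I) (F : (∀ i, T i) → Prop) :
    pr (fun X : ∀ i, T i => ∏ j, w j (X j)) F =
      ∑ r : ∀ j : {j // j ≠ i}, T j, (∏ j : {j // j ≠ i}, w j (r j)) *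
        pr (w i) (fun x => F ((Equiv.piSplitAt i T).symm (x, r))) := by
  rw [← pr_equiv ((Equiv.prodComm _ _).trans (Equiv.piSplitAt i T).symm), ← pr_prod
    (fun r : ∀ j : {j // j ≠ i}, T j => ∏ j : {j // j ≠ i}, w j (r j)) (w i)
    (fun p => F ((Equiv.piSplitAt i T).symm (p.2, p.1)))]
  congr 1
  funext p
  rw [Fintype.prod_eq_mul_prod_subtype_ne _ i, mul_comm]
  congr 1
  · exact prod_congr rfl fun j _ => by simp [Equiv.piSplitAt, j.2]
  · simp [Equiv.piSplitAt]

theorem hybrid (U D : ∀ i, T i → ℝ) (hU0 : ∀ i x, 0 ≤ U i x) (hD0 : ∀ i x, 0 ≤ D i x)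
    (hU : ∀ i, ∑ x, U i x = 1) (hD : ∀ i, ∑ x, D i x = 1) (γ : I → ℝ) (hγ : ∀ i, 0 ≤ γ i) (η : ℝ)
    (hη : 0 ≤ η) (F : (∀ i, T i) → Prop)
    (h : ∀ i X, pr (D i) (fun x => F (Function.update X i x)) ≤
      Real.exp (γ i) * (pr (U i) (fun x => F (Function.update X i x)) + η)) :
    pr (fun X : ∀ i, T i => ∏ i, D i (X i)) F ≤
      Real.exp (∑ i, γ i) * (pr (fun X : ∀ i, T i => ∏ i, U i (X i)) F + Fintype.card I * η) := by
  let W : Finset I → ∀ i, T i → ℝ := fun s i => if i ∈ s then D i else U i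
  have W0 : ∀ s i x, 0 ≤ W s i x := fun s i x => by
    simp only [W]; split_ifs; exacts [hD0 i x, hU0 i x]
  have W1 : ∀ s i, ∑ x, W s i x = 1 := fun s i => by
    simp only [W]; split_ifs; exacts [hD i, hU i]
  have key : ∀ s : Finset I, pr (fun X : ∀ i, T i => ∏ i, W s i (X i)) F ≤
      Real.exp (∑ i ∈ s, γ i) * (pr (fun X : ∀ i, T i => ∏ i, U i (X i)) F + s.card * η) := by
    intro s
    induction s using Finset.induction_on with
    | empty => simp [W]
    | insert i s hi ih =>
      have hne : Nonempty (T i) := by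
        by_contra hc
        rw [not_nonempty_iff] at hc
        simpa using hU i
      obtain ⟨x0⟩ := hne
      have e1 : W (insert i s) i = D i := by simp [W]
      have e2 : W s i = U i := by simp [W, hi]
      have e3 : ∀ j : {j // j ≠ i}, W (insert i s) j = W s j := fun j => by simp [W, j.2]
      have step : pr (fun X : ∀ i, T i => ∏ j, W (insert i s) j (X j)) F ≤
          Real.exp (γ i) * (pr (fun X : ∀ i, T i => ∏ j, W s j (X j)) F + η) := by
        rw [pr_split _ i, pr_split _ i, e1, e2]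
        simp only [e3]
        have m1 : ∑ r : ∀ j : {j // j ≠ i}, T j, ∏ j : {j // j ≠ i}, W s j (r j) = 1 := by
          rw [sum_prod_weights (fun j : {j // j ≠ i} => W s j)]
          simp [W1]
        rw [← one_mul η, ← m1, sum_mul, ← sum_add_distrib, mul_sum]
        refine sum_le_sum fun r _ => ?_
        have hp : 0 ≤ ∏ j : {j // j ≠ i}, W s j (r j) := prod_nonneg fun j _ => W0 _ _ _
        have hu : ∀ x, (Equiv.piSplitAt i T).symm (x, r) =
            Function.update ((Equiv.piSplitAt i T).symm (x0, r)) i x := fun x => by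
          funext j
          by_cases hj : j = i
          · subst hj; simp [Equiv.piSplitAt]
          · simp [Equiv.piSplitAt, hj]
        have := mul_le_mul_of_nonneg_left (h i ((Equiv.piSplitAt i T).symm (x0, r))) hp
        simp only [← hu] at this
        linarith
      rw [sum_insert hi, card_insert_of_notMem hi, Real.exp_add]
      have g1 : 1 ≤ Real.exp (∑ i ∈ s, γ i) := Real.one_le_exp (sum_nonneg fun i _ => hγ i)
      refine step.trans ?_
      rw [mul_assoc]
      refine mul_le_mul_of_nonneg_left ?_ (Real.exp_pos _).le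
      push_cast
      nlinarith
  simpa [W] using key univ

end

section
variable {V : Type} [Fintype V] [DecidableEq V]

theorem bias_nonneg {z : V → ℝ} (hz : ∀ v, |z v| ≤ 1 / 2) (x : V → Bool) : 0 ≤ bias z x :=
  prod_nonneg fun v _ => by
    have := abs_le.1 (hz v)
    cases x v <;> simp [sg] <;> linarith

theorem sum_bias (z : V → ℝ) : ∑ x, bias z x = 1 := by
  unfold bias
  rw [sum_prod_weights (T := fun _ => Bool) (fun v b => (1 + sg b * z v) / 2)]
  exact prod_eq_one fun v _ => by simp [sg]; ring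

theorem bias_flp {z : V → ℝ} (hz : ∀ v, |z v| ≤ 1 / 2) (x : V → Bool) (v : V) :
    bias z x ≤ 3 * bias z (flp x v) := by
  unfold bias
  rw [Fintype.prod_eq_mul_prod_subtype_ne _ v, Fintype.prod_eq_mul_prod_subtype_ne _ v,
    ← mul_assoc]
  have e : ∏ j : {j // j ≠ v}, (1 + sg (flp x v j) * z j) / 2 =
      ∏ j : {j // j ≠ v}, (1 + sg (x j) * z j) / 2 :=
    prod_congr rfl fun j _ => by simp [flp, j.2]
  rw [e]
  refine mul_le_mul_of_nonneg_right ?_ (prod_nonneg fun j _ => ?_)
  · have := abs_le.1 (hz v)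
    cases h : x v <;> simp [sg, flp, h] <;> linarith
  · have := abs_le.1 (hz j)
    cases x j <;> simp [sg] <;> linarith

theorem bias_zero (x : V → Bool) : bias 0 x = (1 / 2) ^ Fintype.card V := by simp [bias]

end

end Pool.Agent.Lib.MP_2733b3_lc
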