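import Pool.Agent.Lib.MP_2733b3_lc.Ideal
import Pool.Agent.Lib.MP_2733b3_lc.Hybrid

/-! The finite core: good samples for which removing the zero of a row rarely changes a type. -/

set_option autoImplicit false

namespace Pool.Agent.Lib.MP_2733b3_lc

open Finset

/-- The two samples as one table. -/
def smp {I : Type} {l : I → ℕ} (X0 X1 : ∀ i, Var (l i) → Bool) :
    Bool → (Σ i, Var (l i)) → Bool := fun β c => if β then X1 c.1 c.2 else X0 c.1 c.2

/-- The table determines the samples. -/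
def smpE {A I : Type} (l : I → ℕ) :
    (A × (∀ i, Var (l i) → Bool)) × (∀ i, Var (l i) → Bool) ≃
      A × (Bool → (Σ i, Var (l i)) → Bool) where
  toFun p := (p.1.1, smp p.1.2 p.2)
  invFun p := ((p.1, fun i v => p.2 false ⟨i, v⟩), fun i v => p.2 true ⟨i, v⟩)
  left_inv p := by simp [smp]
  right_inv p := by
    refine Prod.ext rfl (funext fun β => funext fun c => ?_)
    cases β <;> simp [smp]

theorem smp_flp {I : Type} [DecidableEq I] {l : I → ℕ} (X0 X1 : ∀ i, Var (l i) → Bool) (i : I)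
    (x : Var (l i) → Bool) (β : Bool) (c : Σ i, Var (l i)) :
    cnt (fun v => smp X0 (Function.update X1 i (flp x v)) β c ≠
      smp X0 (Function.update X1 i x) β c) ≤ 1 := by
  obtain ⟨j, v'⟩ := c
  cases β
  · exact le_trans (le_of_le_of_eq (cnt_mono fun v hv => hv rfl) cnt_false) (Nat.zero_le _)
  · by_cases hj : j = i
    · subst hj
      refine cnt_le_one v' fun v hv => ?_
      by_contra hc
      apply hv
      simp only [smp, if_true, Function.update_self]
      exact flp_ne _ fun h => hc h.symm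
    · exact le_trans (le_of_le_of_eq (cnt_mono fun v hv => hv (by simp [smp, hj])) cnt_false)
        (Nat.zero_le _)

variable {Y Z Q I : Type} [DecidableEq Y] [DecidableEq Z] [Fintype Y] [Fintype Z] [Fintype Q]
  [Fintype I] [DecidableEq I] [DecidableEq Q] {l : I → ℕ}

/-- Too many rows change the type of `q`. -/
def Sys.Dense (S : Sys (Y × Z) Q (Σ i, Var (l i))) (u : ℕ) (q : Q)
    (ω : (Y → Z) × (Bool → (Σ i, Var (l i)) → Bool)) : Prop :=
  u < cnt (fun y => S.ty q (flp (row ω.1) (y, ω.1 y), ω.2) ≠ S.ty q (row ω.1, ω.2))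

open Classical in
theorem Sys.dense_tail (S : Sys (Y × Z) Q (Σ i, Var (l i))) (u : ℕ) (q : Q) (R D : ℕ)
    (hR : 1 ≤ R) (hw : 1 ≤ S.w) (hD : S.lev q < D) (K : ℝ) (hK1 : 1 ≤ K) (i : I)
    (hK : Fintype.card Q * (1 + (3 + 2 * Fintype.card (Var (l i))) *
      (1 + 3 * Fintype.card (Var (l i))) : ℝ) ≤ K) (a : Y → Z) (X0 X1 : ∀ i, Var (l i) → Bool)
    (z : Var (l i) → ℝ) (hz : ∀ v, |z v| ≤ 1 / 2) :
    pr (bias z) (fun x => (Fintype.card Y + 1) * (44 * R ^ 2 * S.w) ^ D <
      sens (fun x => decide (S.Dense u q (a, smp X0 (Function.update X1 i x)))) x) ≤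
      (Fintype.card Y + 1) * (K ^ D * (1 / 2) ^ R) := by
  let Ry : Option Y → Y × Z → Bool := fun o => o.elim (row a) fun y => flp (row a) (y, a y)
  have h1 := pr_exists_le' (bias_nonneg hz) _ _ fun o : Option Y =>
    S.sens_tail (bias z) (bias_nonneg hz) (sum_bias z).le (bias_flp hz) (Ry o)
      (fun x => smp X0 (Function.update X1 i x)) (smp_flp X0 X1 i) R hR hw K hK1 hK D
  rw [Fintype.card_option] at h1
  push_cast at h1
  refine le_trans (pr_mono (bias_nonneg hz) fun x hx => ?_) h1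
  by_contra hc
  push Not at hc
  have h2 := cnt_exists_le (univ : Finset (Option Y)) _ _ fun o _ => hc o q hD
  rw [card_univ, Fintype.card_option] at h2
  refine absurd (le_trans (cnt_mono fun v hv => ?_) h2) (not_le.2 hx)
  by_contra hc2
  push Not at hc2
  apply hv
  have h3 := hc2 none (mem_univ _)
  have h4 := fun y => hc2 (some y) (mem_univ _)
  simp only [Ry, Option.elim] at h3 h4
  exact decide_eq_decide.2 (by simp only [Sys.Dense, h3, h4])

theorem core (hrt : RTStmt) (hphi : PhiStmt) [Nonempty Z] (S : Sys (Y × Z) Q (Σ i, Var (l i)))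
    (bl : I → Q) (R D : ℕ) (hR : 1 ≤ R) (hw : 1 ≤ S.w) (hD : ∀ q, S.lev q < D)
    (hZ : 2 * S.w ≤ Fintype.card Z) (K Vm : ℝ) (hV : ∀ i, (Fintype.card (Var (l i)) : ℝ) ≤ Vm)
    (hK : (1 + 4 * (2 * Fintype.card (Y × Z) + 1) ^ (2 * D) * Fintype.card Q *
      (4 + 2 * Fintype.card (Y × Z)) : ℝ) ≤ K)
    (hK' : Fintype.card Q * (1 + (3 + 2 * Vm) * (1 + 3 * Vm)) ≤ K)
    (hΓ : ∑ i, 16 * (((Fintype.card Y + 1) * (44 * R ^ 2 * S.w) ^ D : ℕ) : ℝ) ^ 2 * sig (l i) ≤ 1)
    (h1 : Fintype.card Q * (3 * ((1 + Fintype.card I * (32 * Vm ^ 3 * (Fintype.card Y + 1) + 1)) *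
      (K ^ D * (1 / 2) ^ R))) ≤ 1 / 4)
    (h2 : ∑ i, (3 : ℝ) * (1 / 2 ^ l i) ≤ 1 / 4)
    (h3 : ∑ q, 3 * ∏ i ∈ univ.filter (fun i => bl i = q),
      (1 - 1 / (256 * ((l i : ℝ) + 3) ^ 2)) ≤ 1 / 4) :
    ∃ (a : Y → Z) (X0 X1 : ∀ i, Var (l i) → Bool),
      (∀ q, ¬ S.Dense (((2 * D + 4) * (44 * R ^ 2 * S.w)) ^ D) q (a, smp X0 X1)) ∧
      (∀ q, ∑ i ∈ univ.filter (fun i => bl i = q), Phi (X0 i) ^ 2 ≤ 1 / 3) ∧
      ∀ q, ∏ i ∈ univ.filter (fun i => bl i = q), (1 - Phi (X1 i) ^ 2) ≤ 1 / 3 := by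
  classical
  have hK1 : 1 ≤ K := le_trans (le_add_of_nonneg_right (by positivity)) hK
  set η := K ^ D * (1 / 2) ^ R with hη
  have hη0 : 0 < η := by positivity
  choose Dd d0 d1 d2 d3 using fun i => hrt (l i) η hη0
  set u := ((2 * D + 4) * (44 * R ^ 2 * S.w)) ^ D with hu
  have hz0 : ∀ (i : I) (v : Var (l i)), |(0 : Var (l i) → ℝ) v| ≤ 1 / 2 := fun i v => by simp
  have b0 : ∀ i (x : Var (l i) → Bool), 0 ≤ bias 0 x := fun i => bias_nonneg (hz0 i)
  let c0 : ℝ := 1 / Fintype.card (Y → Z)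
  have hc0 : ∑ _a : Y → Z, c0 = 1 := by
    have : (Fintype.card (Y → Z) : ℝ) ≠ 0 := by exact_mod_cast Fintype.card_ne_zero
    simp only [sum_const, card_univ, nsmul_eq_mul, c0]; field_simp
  let pu : (∀ i, Var (l i) → Bool) → ℝ := fun X => ∏ i, bias 0 (X i)
  let pd : (∀ i, Var (l i) → Bool) → ℝ := fun X => ∏ i, Dd i (X i)
  have pu0 : ∀ X, 0 ≤ pu X := fun X => prod_nonneg fun i _ => b0 i _
  have pd0 : ∀ X, 0 ≤ pd X := fun X => prod_nonneg fun i _ => d0 i _
  have pu1 : ∑ X, pu X = 1 := by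
    rw [sum_prod_weights (fun i => bias (0 : Var (l i) → ℝ))]; simp [sum_bias]
  have pd1 : ∑ X, pd X = 1 := by rw [sum_prod_weights Dd]; simp [d1]
  let f : (Y → Z) × (∀ i, Var (l i) → Bool) → ℝ := fun p => c0 * pu p.2
  have f0 : ∀ p, 0 ≤ f p := fun p => mul_nonneg (by positivity) (pu0 _)
  have f1 : ∑ p, f p = 1 := by
    rw [Fintype.sum_prod_type]
    simp only [f, ← mul_sum, pu1, mul_one, hc0]
  -- the ideal world
  have hid : ∀ q, ∑ p, f p * pr pu (fun X => S.Dense u q (p.1, smp p.2 X)) ≤ η := by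
    intro q
    let c1 : ℝ := c0 * (∏ i, (1 / 2) ^ Fintype.card (Var (l i))) *
      ∏ i, (1 / 2) ^ Fintype.card (Var (l i))
    have e1 : ∀ p X, f p * pu X = c1 := fun p X => by simp only [f, pu, bias_zero, c1]
    have hs : ∑ _ω : (Y → Z) × (Bool → (Σ i, Var (l i)) → Bool), c1 ≤ 1 := by
      rw [← (smpE (A := Y → Z) l).sum_comp (fun _ => c1), Fintype.sum_prod_type]
      refine le_of_eq ((sum_congr rfl fun p _ => ?_).trans f1)
      rw [← mul_one (f p), ← pu1, mul_sum]
      exact sum_congr rfl fun X _ => (e1 p X).symm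
    have := S.ideal (fun _ => c1) (fun _ => by positivity) hs (fun _ _ => rfl) R D hR hw hZ K hK D
      le_rfl
    rw [← pr_prod f pu (fun p => S.Dense u q (p.1.1, smp p.1.2 p.2))]
    simp only [e1]
    refine le_trans (le_of_eq (pr_equiv (smpE (A := Y → Z) l) (fun _ => c1) (S.Dense u q)))
      (le_trans (pr_mono (fun _ => by positivity) fun ω hω hg => ?_) this)
    have h4 := hg.2 q (hD q) false
    simp only [Sys.half, Sys.act_false] at h4
    rw [cnt_fst (fun y => S.ty q (flp (row ω.1) (y, ω.1 y), ω.2) ≠ S.ty q (row ω.1, ω.2))] at h4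
    exact absurd (Nat.le_of_mul_le_mul_right h4 Fintype.card_pos) (not_le.2 hω)
  have hVm : 0 ≤ Vm ^ 3 * Fintype.card I := by
    by_cases hI : Nonempty I
    · obtain ⟨i⟩ := hI
      have : 0 ≤ Vm := le_trans (Nat.cast_nonneg _) (hV i)
      positivity
    · rw [not_nonempty_iff] at hI; simp
  -- the real world
  let μ : ((Y → Z) × (∀ i, Var (l i) → Bool)) × (∀ i, Var (l i) → Bool) → ℝ :=
    fun p => f p.1 * pd p.2
  have μ0 : ∀ p, 0 ≤ μ p := fun p => mul_nonneg (f0 _) (pd0 _)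
  have μ1 : ∑ p, μ p = 1 := by
    rw [Fintype.sum_prod_type]
    simp only [μ, ← mul_sum, pd1, mul_one, f1]
  have hre : ∀ q, pr μ (fun p => S.Dense u q (p.1.1, smp p.1.2 p.2)) ≤
      3 * ((1 + Fintype.card I * (32 * Vm ^ 3 * (Fintype.card Y + 1) + 1)) * η) := by
    intro q
    rw [pr_prod f pd (fun p => S.Dense u q (p.1.1, smp p.1.2 p.2))]
    by_cases hI : Nonempty I
    swap
    · rw [not_nonempty_iff] at hI
      have : pd = pu := funext fun X => by simp [pd, pu]
      rw [this]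
      refine (hid q).trans ?_
      simp only [Fintype.card_eq_zero, Nat.cast_zero, zero_mul, add_zero, one_mul]
      linarith
    obtain ⟨i0⟩ := hI
    have hV0 : 0 ≤ Vm := le_trans (Nat.cast_nonneg _) (hV i0)
    set η' := (32 * Vm ^ 3 * (Fintype.card Y + 1) + 1) * η with hη'
    have hp : ∀ p : (Y → Z) × (∀ i, Var (l i) → Bool),
        pr pd (fun X => S.Dense u q (p.1, smp p.2 X)) ≤
        3 * (pr pu (fun X => S.Dense u q (p.1, smp p.2 X)) + Fintype.card I * η') := by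
      intro p
      have hh := hybrid (fun i => bias (0 : Var (l i) → ℝ)) Dd b0 d0 (fun i => sum_bias _) d1
        (fun i => 16 * (((Fintype.card Y + 1) * (44 * R ^ 2 * S.w) ^ D : ℕ) : ℝ) ^ 2 * sig (l i))
        (fun i => by unfold sig; positivity) η' (by positivity)
        (fun X => S.Dense u q (p.1, smp p.2 X)) fun i X => by
          have hVi := hV i
          have hVi0 : (0 : ℝ) ≤ Fintype.card (Var (l i)) := Nat.cast_nonneg _
          have := d3 i _ _ _ (S.dense_tail u q R D hR hw (hD q) K hK1 i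
            (le_trans (mul_le_mul_of_nonneg_left (by nlinarith) (Nat.cast_nonneg _)) hK')
            p.1 p.2 X)
          simp only [decide_eq_true_eq] at this
          refine this.trans (mul_le_mul_of_nonneg_left ?_ (Real.exp_pos _).le)
          have h5 : (Fintype.card (Var (l i)) : ℝ) ^ 3 ≤ Vm ^ 3 := pow_le_pow_left₀ hVi0 hVi 3
          have h6 := mul_le_mul_of_nonneg_right h5
            (show (0 : ℝ) ≤ (Fintype.card Y + 1) * η by positivity)
          rw [hη', ← hη]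
          nlinarith
      refine hh.trans (mul_le_mul_of_nonneg_right ?_ (add_nonneg (pr_nonneg pu0 _) (by positivity)))
      exact (Real.exp_le_exp.2 hΓ).trans (Real.exp_one_lt_d9.le.trans (by norm_num))
    refine le_trans (sum_le_sum fun p _ => mul_le_mul_of_nonneg_left (hp p) (f0 p)) ?_
    have e2 : ∑ p, f p * (3 * (pr pu (fun X => S.Dense u q (p.1, smp p.2 X)) +
        Fintype.card I * η')) = 3 * (∑ p, f p * pr pu (fun X => S.Dense u q (p.1, smp p.2 X)) +
        (∑ p, f p) * (Fintype.card I * η')) := by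
      rw [sum_mul, ← sum_add_distrib, mul_sum]
      exact sum_congr rfl fun p _ => by ring
    rw [e2, f1]
    have := hid q
    rw [hη']
    nlinarith
  have hA := pr_exists_le' μ0 _ _ hre
  have hB : pr μ (fun p => ∃ q, 1 / 3 < ∑ i ∈ univ.filter (fun i => bl i = q), Phi (p.1.2 i) ^ 2)
      ≤ 1 / 4 := by
    refine le_trans (pr_mono μ0 fun p ⟨q, hq⟩ => ⟨q, mem_univ q, hq⟩)
      ((pr_exists_mem μ0 univ _).trans (le_trans (sum_le_sum fun q _ =>
        pr_markov μ0 _ fun p => sum_nonneg fun i _ => sq_nonneg _) (le_trans (le_of_eq ?_) h2)))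
    rw [← sum_fiberwise univ bl]
    refine sum_congr rfl fun q _ => ?_
    have e3 : ∀ g : (∀ i, Var (l i) → Bool) → ℝ, ∑ p, μ p * g p.1.2 = ∑ X, pu X * g X := by
      intro g
      rw [Fintype.sum_prod_type, Fintype.sum_prod_type, ← one_mul (∑ X, pu X * g X), ← hc0,
        sum_mul]
      refine sum_congr rfl fun a _ => ?_
      rw [mul_sum]
      refine sum_congr rfl fun X _ => ?_
      show ∑ X1, c0 * pu X * pd X1 * g X = _
      rw [← sum_mul, ← mul_sum, pd1]; ring
    rw [e3 (fun X => ∑ i ∈ univ.filter (fun i => bl i = q), Phi (X i) ^ 2), ← mul_sum]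
    congr 1
    simp only [mul_sum]
    rw [sum_comm]
    refine sum_congr rfl fun i _ => ?_
    have := expect_prod (fun i => bias (0 : Var (l i) → ℝ)) (fun i x => Phi x ^ 2)
      (fun i => sum_bias _) {i}
    simp only [prod_singleton] at this
    rw [this, (hphi _).2]
  have hC : pr μ (fun p => ∃ q, 1 / 3 <
      ∏ i ∈ univ.filter (fun i => bl i = q), (1 - Phi (p.2 i) ^ 2)) ≤ 1 / 4 := by
    refine le_trans (pr_mono μ0 fun p ⟨q, hq⟩ => ⟨q, mem_univ q, hq⟩)
      ((pr_exists_mem μ0 univ _).trans (le_trans (sum_le_sum fun q _ => le_trans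
        (pr_markov μ0 _ fun p => prod_nonneg fun i _ => sub_nonneg.2 ((hphi _).1 _)) ?_) h3))
    refine mul_le_mul_of_nonneg_left ?_ (by norm_num)
    rw [Fintype.sum_prod_type]
    simp only [μ, mul_assoc, ← mul_sum, ← sum_mul, f1, one_mul]
    rw [expect_prod Dd (fun i x => 1 - Phi x ^ 2) d1]
    refine prod_le_prod (fun i _ => sum_nonneg fun x _ =>
      mul_nonneg (d0 i x) (sub_nonneg.2 ((hphi _).1 _))) fun i _ => ?_
    set m : ℝ := 1 / (16 * ((l i : ℝ) + 3)) with hm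
    have m0 : 0 ≤ m := by positivity
    have e4 : 1 / (256 * ((l i : ℝ) + 3) ^ 2) = m ^ 2 := by rw [hm]; field_simp; norm_num
    have e5 : ∑ x, Dd i x * (1 - Phi x ^ 2) ≤
        ∑ x, (Dd i x * (1 + m ^ 2) - 2 * m * (Dd i x * Phi x)) :=
      sum_le_sum fun x _ => by nlinarith [mul_nonneg (d0 i x) (sq_nonneg (Phi x - m))]
    rw [sum_sub_distrib, ← sum_mul, ← mul_sum, d1] at e5
    have := mul_le_mul_of_nonneg_left (d2 i) m0
    rw [e4]
    nlinarith
  have hall := (pr_or μ0 _ _).trans (add_le_add (hA.trans h1) ((pr_or μ0 _ _).trans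
    (add_le_add hB hC)))
  obtain ⟨p, hp⟩ := exists_not_of_pr_lt (lt_of_le_of_lt hall (by rw [μ1]; norm_num))
  push Not at hp
  exact ⟨p.1.1, p.1.2, p.2, hp.1, hp.2.1, hp.2.2⟩

end Pool.Agent.Lib.MP_2733b3_lc
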