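import Mathlib
import Pool.Prelude.Def_H_3587d628

/-!
Relativised classes: P, NP, Sigma_2 and BQP with access to an oracle `A`.
-/

set_option autoImplicit false

namespace Pool.Agent.Lib.MP_2733b3_lc

open N68a2faeb

/-- The answers of the oracle `A` to the first `k` adaptive queries on input `a`; the next query
is computed by `q` from the input and the earlier answers. -/
def ans {α : Type} (A : List Bool → Bool) (q : α × List Bool → List Bool) (a : α) (k : ℕ) :
    List Bool :=
  Nat.rec [] (fun _ l => l ++ [A (q (a, l))]) k

/-- `R` is decided in polynomial time with oracle `A`. -/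
def InP {α : Type} [N487b59b3 α] (A : List Bool → Bool) (R : α → Bool) : Prop :=
  ∃ (q : α × List Bool → List Bool) (o : α × List Bool → Bool) (p : Polynomial ℕ),
    IsPolyTime q ∧ IsPolyTime o ∧
    ∀ a, R a = o (a, ans A q a (p.eval (N487b59b3.bitEncode a).length))

/-- `L` is in NP relative to `A`. -/
def InNP (A L : List Bool → Bool) : Prop :=
  ∃ (p : Polynomial ℕ) (R : List Bool × List Bool → Bool), InP A R ∧
    ∀ x, L x = true ↔ ∃ y : List Bool, y.length ≤ p.eval x.length ∧ R (x, y) = true

/-- `L` is in Sigma_2 relative to `A`. -/
def InSigma2 (A L : List Bool → Bool) : Prop :=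
  ∃ (p : Polynomial ℕ) (R : List Bool × List Bool × List Bool → Bool), InP A R ∧
    ∀ x, L x = true ↔ ∃ y : List Bool, y.length ≤ p.eval x.length ∧
      ∀ z : List Bool, z.length ≤ p.eval x.length → R (x, y, z) = true

/-- One gate `(kind, target, wires)` acting on a state of `k + 1` qubits (indices are read modulo
`k + 1`): kind 0 is the Hadamard gate, kind 1 the phase gate `T`, kind 2 flips the target if the
first two wires (as far as present) carry 1 (X, CNOT, Toffoli), any other kind flips the target if
the oracle accepts the string on the wires. A flip gate whose target is a wire does nothing. -/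
noncomputable def gate (A : List Bool → Bool) {k : ℕ} (ψ : (Fin (k + 1) → Bool) → ℂ)
    (g : ℕ × ℕ × List ℕ) (e : Fin (k + 1) → Bool) : ℂ :=
  let t := Fin.ofNat (k + 1) g.2.1
  let c := g.2.2.map (Fin.ofNat (k + 1))
  if g.1 = 0 then
    (ψ (Function.update e t false) + (if e t then -1 else 1) * ψ (Function.update e t true)) /
      (√2 : ℝ)
  else if g.1 = 1 then (if e t then Complex.exp (Real.pi / 4 * Complex.I) else 1) * ψ e
  else if t ∈ c then ψ e
  else ψ (Function.update e t
    (xor (e t) (if g.1 = 2 then ((c.map e).take 2).all id else A (c.map e))))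

/-- The probability that qubit 0 reads 1 after the gates `gs` act on the all-zero state of
`k + 1` qubits. -/
noncomputable def acc (A : List Bool → Bool) (k : ℕ) (gs : List (ℕ × ℕ × List ℕ)) : ℝ :=
  ∑ e : Fin (k + 1) → Bool, if e 0 then
    ‖gs.foldl (gate A) (fun e' => if e' = fun _ => false then 1 else 0) e‖ ^ 2 else 0

/-- `L` is in BQP relative to `A`: a polynomial-time function prints, from the input, the number
of qubits in unary and a list of gates. -/
def InBQP (A L : List Bool → Bool) : Prop :=
  ∃ G : List Bool → List Bool × List (ℕ × ℕ × List ℕ), IsPolyTime G ∧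
    ∀ x, (L x = true → 2 / 3 ≤ acc A (G x).1.length (G x).2) ∧
      (L x = false → acc A (G x).1.length (G x).2 ≤ 1 / 3)

end Pool.Agent.Lib.MP_2733b3_lc
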