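import Pool.Agent.Lib.MP_2733b3_lc.Basic

/-! The level-two weight of a function with a sensitivity tail bound. -/

set_option autoImplicit false

namespace Pool.Agent.Lib.MP_2733b3_lc

open Finset

namespace Deriv

variable {V : Type} [Fintype V] [DecidableEq V]

omit [Fintype V] in
theorem flp_same (x : V → Bool) (i : V) : flp x i i = !x i := by simp [flp]

omit [Fintype V] in
theorem flp_ne (x : V → Bool) {i j : V} (h : j ≠ i) : flp x i j = x j := by simp [flp, h]

omit [Fintype V] in
theorem flp_flp (x : V → Bool) (i : V) : flp (flp x i) i = x := by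
  ext v
  by_cases h : v = i
  · subst h
    simp [flp_same]
  · rw [flp_ne _ h, flp_ne _ h]

omit [Fintype V] in
theorem flp_comm (x : V → Bool) (i j : V) : flp (flp x i) j = flp (flp x j) i := by
  by_cases hij : i = j
  · rw [hij]
  ext v
  by_cases h : v = i
  · subst h
    rw [flp_ne _ hij, flp_same, flp_same, flp_ne _ hij]
  · by_cases h' : v = j
    · subst h'
      rw [flp_same, flp_ne _ h, flp_ne _ h, flp_same]
    · rw [flp_ne _ h', flp_ne _ h, flp_ne _ h, flp_ne _ h']

theorem sum_flp (g : (V → Bool) → ℝ) (i : V) : ∑ x, g (flp x i) = ∑ x, g x :=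
  Equiv.sum_comp (Function.Involutive.toPerm (fun x => flp x i) fun x => flp_flp x i) g

theorem sg_not (b : Bool) : sg (!b) = -sg b := by cases b <;> simp [sg]

theorem abs_sg (b : Bool) : |sg b| = 1 := by cases b <;> simp [sg]

theorem fac {z : ℝ} (hz : |z| ≤ 1 / 2) (b : Bool) :
    1 / 4 ≤ (1 + sg b * z) / 2 ∧ (1 + sg b * z) / 2 ≤ 3 / 4 := by
  have := abs_le.1 hz
  cases b <;> simp only [sg] <;> constructor <;> norm_num <;> linarith

/-- The value of a bit. -/
def vl (b : Bool) : ℝ := if b = true then 1 else 0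

/-- The local pattern on a two-dimensional face. -/
def pat (a b c d : Bool) : ℝ := if a = true ∧ b ≠ a ∧ (c ≠ a ∨ d ≠ b) then 1 else 0

theorem pat_nonneg (a b c d : Bool) : 0 ≤ pat a b c d := by
  unfold pat
  split_ifs <;> norm_num

theorem face (a b c d : Bool) :
    |vl a - vl b - vl c + vl d| ≤ 2 * (pat a b c d + pat b a d c + pat c d a b + pat d c b a) := by
  cases a <;> cases b <;> cases c <;> cases d <;> norm_num [vl, pat]

/-- The pattern at a point. -/
def P (F : (V → Bool) → Bool) (i j : V) (u : V → Bool) : ℝ :=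
  pat (F u) (F (flp u i)) (F (flp u j)) (F (flp (flp u i) j))

omit [DecidableEq V] in
theorem bias_nonneg {z : V → ℝ} (hz : ∀ v, |z v| ≤ 1 / 2) (x : V → Bool) : 0 ≤ bias z x :=
  prod_nonneg fun v _ => by linarith [(fac (hz v) (x v)).1]

theorem bias_flp {z : V → ℝ} (hz : ∀ v, |z v| ≤ 1 / 2) (x : V → Bool) (i : V) :
    bias z x ≤ 3 * bias z (flp x i) := by
  unfold bias
  have e : ∏ v ∈ univ.erase i, (1 + sg (flp x i v) * z v) / 2 =
      ∏ v ∈ univ.erase i, (1 + sg (x v) * z v) / 2 :=
    prod_congr rfl fun v hv => by rw [flp_ne x (ne_of_mem_erase hv)]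
  rw [← mul_prod_erase _ _ (mem_univ i), ← mul_prod_erase _ _ (mem_univ i), e, ← mul_assoc]
  refine mul_le_mul_of_nonneg_right ?_ (prod_nonneg fun v _ => by linarith [(fac (hz v) (x v)).1])
  linarith [(fac (hz i) (x i)).2, (fac (hz i) (flp x i i)).1]

theorem der_le (F : (V → Bool) → Bool) {z : V → ℝ} (hz : ∀ v, |z v| ≤ 1 / 2) {i j : V}
    (hij : i ≠ j) : |der2 F z i j| ≤ 8 * ∑ x, bias z x * P F i j x := by
  set ρ : (V → Bool) → ℝ := fun x => ∏ v ∈ univ \ {i, j}, (1 + sg (x v) * z v) / 2 with hρ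
  have r0 : ∀ x, 0 ≤ ρ x := fun x => prod_nonneg fun v _ => by linarith [(fac (hz v) (x v)).1]
  have ri : ∀ x, ρ (flp x i) = ρ x := fun x => prod_congr rfl fun v hv => by
    rw [flp_ne x fun h => by simp [h] at hv]
  have rj : ∀ x, ρ (flp x j) = ρ x := fun x => prod_congr rfl fun v hv => by
    rw [flp_ne x fun h => by simp [h] at hv]
  have rb : ∀ x, ρ x ≤ 16 * bias z x := by
    intro x
    unfold bias
    rw [← prod_sdiff (subset_univ {i, j}), prod_pair hij]
    have h1 := (fac (hz i) (x i)).1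
    have h2 := (fac (hz j) (x j)).1
    have h3 := mul_le_mul h1 h2 (by norm_num) (by linarith)
    have h4 := mul_le_mul_of_nonneg_left h3 (r0 x)
    simp only [hρ] at h4 ⊢
    linarith
  set w : (V → Bool) → ℝ := fun x => sg (x i) * sg (x j) * ρ x with hw
  have wi : ∀ x, w (flp x i) = -w x := fun x => by
    simp only [hw, ri, flp_same, flp_ne x hij.symm, sg_not]
    ring
  have wj : ∀ x, w (flp x j) = -w x := fun x => by
    simp only [hw, rj, flp_same, flp_ne x hij, sg_not]
    ring
  have wa : ∀ x, |w x| = ρ x := fun x => by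
    simp only [hw, abs_mul, abs_sg, one_mul, abs_of_nonneg (r0 x)]
  have e0 : 4 * der2 F z i j = ∑ x, vl (F x) * w x := by
    unfold der2
    rw [mul_sum]
    refine sum_congr rfl fun x _ => ?_
    simp only [vl, hw, hρ]
    split_ifs <;> ring
  have e1 : ∑ x, vl (F x) * w x = -∑ x, vl (F (flp x i)) * w x := by
    rw [← sum_flp _ i, ← sum_neg_distrib]
    exact sum_congr rfl fun x _ => by rw [wi, mul_neg]
  have e2 : ∑ x, vl (F x) * w x = -∑ x, vl (F (flp x j)) * w x := by
    rw [← sum_flp _ j, ← sum_neg_distrib]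
    exact sum_congr rfl fun x _ => by rw [wj, mul_neg]
  have e3 : ∑ x, vl (F x) * w x = ∑ x, vl (F (flp (flp x i) j)) * w x := by
    rw [← sum_flp _ j, ← sum_flp _ i]
    exact sum_congr rfl fun x _ => by rw [wj, wi, neg_neg]
  have e4 : 16 * der2 F z i j = ∑ x, (vl (F x) - vl (F (flp x i)) - vl (F (flp x j)) +
      vl (F (flp (flp x i) j))) * w x := by
    simp only [add_mul, sub_mul, sum_add_distrib, sum_sub_distrib]
    linarith
  have p1 : ∑ x, P F i j (flp x i) * ρ x = ∑ x, P F i j x * ρ x := by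
    rw [← sum_flp (fun x => P F i j x * ρ x) i]
    simp only [ri]
  have p2 : ∑ x, P F i j (flp x j) * ρ x = ∑ x, P F i j x * ρ x := by
    rw [← sum_flp (fun x => P F i j x * ρ x) j]
    simp only [rj]
  have p3 : ∑ x, P F i j (flp (flp x i) j) * ρ x = ∑ x, P F i j x * ρ x := by
    rw [← p2, ← sum_flp (fun x => P F i j (flp x j) * ρ x) i]
    simp only [ri]
  have h1 : |16 * der2 F z i j| ≤ ∑ x, 2 * (P F i j x + P F i j (flp x i) + P F i j (flp x j) +
      P F i j (flp (flp x i) j)) * ρ x := by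
    rw [e4]
    refine (abs_sum_le_sum_abs _ _).trans (sum_le_sum fun x _ => ?_)
    rw [abs_mul, wa]
    refine mul_le_mul_of_nonneg_right ?_ (r0 x)
    have a1 : flp (flp (flp x i) j) i = flp x j := by rw [flp_comm x i j, flp_flp]
    simp only [P, flp_flp, flp_comm x j i, a1]
    exact face _ _ _ _
  have h2 : ∑ x, P F i j x * ρ x ≤ 16 * ∑ x, bias z x * P F i j x := by
    rw [mul_sum]
    refine sum_le_sum fun x _ => ?_
    have := mul_le_mul_of_nonneg_left (rb x) (show 0 ≤ P F i j x from pat_nonneg _ _ _ _)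
    linarith
  simp only [mul_add, add_mul, sum_add_distrib, mul_assoc, ← mul_sum] at h1
  rw [abs_mul, abs_of_pos (show (0 : ℝ) < 16 by norm_num)] at h1
  linarith

theorem sens_eq (F : (V → Bool) → Bool) (u : V → Bool) :
    (sens F u : ℝ) = ∑ v, if F (flp u v) ≠ F u then (1 : ℝ) else 0 := by
  unfold sens cnt
  rw [card_filter]
  push_cast
  exact sum_congr rfl fun v _ => by congr

theorem count (F : (V → Bool) → Bool) (t : ℕ) (u : V → Bool) :
    ∑ i, ∑ j, P F i j u ≤ 2 * (t : ℝ) ^ 2 * vl (F u) + (Fintype.card V : ℝ) ^ 2 *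
      ((if t < sens F u then 1 else 0) + ∑ i, if t < sens F (flp u i) then 1 else 0) := by
  have v0 : 0 ≤ vl (F u) := by
    unfold vl
    split_ifs <;> norm_num
  have s0 : ∀ i, (0 : ℝ) ≤ if t < sens F (flp u i) then 1 else 0 := fun i => by
    split_ifs <;> norm_num
  have s1 : (0 : ℝ) ≤ if t < sens F u then 1 else 0 := by split_ifs <;> norm_num
  have s2 : (0 : ℝ) ≤ ∑ i, if t < sens F (flp u i) then 1 else 0 := sum_nonneg fun i _ => s0 i
  by_cases h : sens F u ≤ t ∧ ∀ i, sens F (flp u i) ≤ t
  · refine le_add_of_le_of_nonneg ?_ (by positivity)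
    have h1 : ∀ i, ∑ j, P F i j u ≤
        vl (F u) * (if F (flp u i) ≠ F u then (1 : ℝ) else 0) * (2 * t) := by
      intro i
      have a1 : (sens F u : ℝ) ≤ t := by exact_mod_cast h.1
      have a2 : (sens F (flp u i) : ℝ) ≤ t := by exact_mod_cast h.2 i
      refine le_trans ?_ (mul_le_mul_of_nonneg_left (show (sens F u : ℝ) + sens F (flp u i) ≤ 2 * t
        by linarith) (mul_nonneg v0 (by split_ifs <;> norm_num)))
      rw [sens_eq, sens_eq, ← sum_add_distrib, mul_sum]
      refine sum_le_sum fun j _ => ?_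
      unfold P
      generalize F (flp (flp u i) j) = d
      generalize F (flp u j) = c
      generalize F (flp u i) = b
      generalize F u = a
      cases a <;> cases b <;> cases c <;> cases d <;> norm_num [vl, pat]
    refine (sum_le_sum fun i _ => h1 i).trans ?_
    rw [← sum_mul, ← mul_sum, ← sens_eq]
    have a1 : (sens F u : ℝ) ≤ t := by exact_mod_cast h.1
    have := mul_le_mul_of_nonneg_left a1 (mul_nonneg v0 (Nat.cast_nonneg t))
    linarith
  · refine le_add_of_nonneg_of_le (by positivity) ?_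
    have h1 : ∑ i, ∑ j, P F i j u ≤ (Fintype.card V : ℝ) ^ 2 := by
      refine (sum_le_sum fun i _ => sum_le_sum (g := fun _ => (1 : ℝ)) fun j _ => ?_).trans ?_
      · unfold P pat
        split_ifs <;> norm_num
      · simp [sq]
    refine h1.trans (le_mul_of_one_le_right (by positivity) ?_)
    by_cases h2 : t < sens F u
    · rw [if_pos h2]
      linarith
    · obtain ⟨i, hi⟩ : ∃ i, t < sens F (flp u i) := by
        by_contra h3
        exact h ⟨not_lt.1 h2, fun i => not_lt.1 fun h4 => h3 ⟨i, h4⟩⟩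
      have := single_le_sum (fun i _ => s0 i) (mem_univ i)
      rw [if_pos hi] at this
      linarith

end Deriv

open Deriv

theorem deriv_proof : DerivStmt := by
  intro V _ _ F z t ν hz hν
  have b0 := bias_nonneg hz
  have e1 : pr (bias z) (fun x => t < sens F x) =
      ∑ x, bias z x * if t < sens F x then 1 else 0 :=
    sum_congr rfl fun x _ => by split_ifs <;> simp
  have e2 : pr (bias z) (fun x => F x = true) = ∑ x, bias z x * vl (F x) :=
    sum_congr rfl fun x _ => by unfold vl; split_ifs <;> simp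
  rw [e1] at hν
  have n0 : 0 ≤ ν := le_trans (sum_nonneg fun x _ => mul_nonneg (b0 x)
    (by split_ifs <;> norm_num)) hν
  have h1 : ∀ i, ∑ x, bias z x * (if t < sens F (flp x i) then 1 else 0) ≤ 3 * ν := by
    intro i
    refine le_trans ?_ (mul_le_mul_of_nonneg_left hν (by norm_num))
    rw [← sum_flp (fun x => bias z x * if t < sens F x then 1 else 0) i, mul_sum]
    refine sum_le_sum fun x _ => ?_
    rw [← mul_assoc]
    exact mul_le_mul_of_nonneg_right (bias_flp hz x i) (by split_ifs <;> norm_num)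
  have h2 : ∑ x, bias z x * ∑ i, (if t < sens F (flp x i) then 1 else 0) ≤
      Fintype.card V * (3 * ν) := by
    simp only [mul_sum]
    rw [sum_comm]
    refine (sum_le_sum fun i _ => h1 i).trans ?_
    simp
  have h3 : ∑ i, ∑ j, (if i = j then 0 else |der2 F z i j|) ≤
      8 * ∑ x, bias z x * ∑ i, ∑ j, P F i j x := by
    calc _ ≤ ∑ i, ∑ j, 8 * ∑ x, bias z x * P F i j x := by
          refine sum_le_sum fun i _ => sum_le_sum fun j _ => ?_
          split_ifs with h
          · exact mul_nonneg (by norm_num)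
              (sum_nonneg fun x _ => mul_nonneg (b0 x) (pat_nonneg _ _ _ _))
          · exact der_le F hz h
      _ = _ := by
          simp only [mul_sum]
          rw [sum_comm (s := (univ : Finset (V → Bool)))]
          exact sum_congr rfl fun i _ => sum_comm
  have h4 := sum_le_sum fun x (_ : x ∈ univ) => mul_le_mul_of_nonneg_left (count F t x) (b0 x)
  have e3 : ∑ x, bias z x * (2 * (t : ℝ) ^ 2 * vl (F x) + (Fintype.card V : ℝ) ^ 2 *
      ((if t < sens F x then 1 else 0) + ∑ i, if t < sens F (flp x i) then 1 else 0)) =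
      2 * (t : ℝ) ^ 2 * ∑ x, bias z x * vl (F x) + (Fintype.card V : ℝ) ^ 2 *
      (∑ x, bias z x * (if t < sens F x then 1 else 0) +
        ∑ x, bias z x * ∑ i, if t < sens F (flp x i) then 1 else 0) := by
    rw [← sum_add_distrib, mul_sum, mul_sum, ← sum_add_distrib]
    exact sum_congr rfl fun x _ => by ring
  rw [e3] at h4
  rw [e2]
  have h5 := mul_le_mul_of_nonneg_left (add_le_add hν h2) (sq_nonneg (Fintype.card V : ℝ))
  have h6 : (Fintype.card V : ℝ) ^ 2 ≤ (Fintype.card V : ℝ) ^ 3 := by
    exact_mod_cast (show Fintype.card V ^ 2 ≤ Fintype.card V ^ 3 by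
      rcases Nat.eq_zero_or_pos (Fintype.card V) with h | h
      · simp [h]
      · exact Nat.pow_le_pow_right h (by norm_num))
  have h7 := mul_le_mul_of_nonneg_right h6 n0
  linarith

end Pool.Agent.Lib.MP_2733b3_lc
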