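import Pool.Agent.Lib.MP_2733b3_lc.Layout

/-! Oracles that hold the answers to their own questions, and their sensitivity tails. -/

set_option autoImplicit false

namespace Pool.Agent.Lib.MP_2733b3_lc

open Finset

namespace EX

/-- The string that holds the answer to question `u`. -/
def ansc (u : List Bool) : List Bool := rowc u []

theorem ansc_inj : Function.Injective ansc := fun u u' h => by
  simpa using code_injective h

theorem length_ansc (u : List Bool) : (ansc u).length = 2 * u.length + 5 := by
  simp [ansc, rowc, length_code]; omega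

variable {b : List Bool → (List Bool → Bool) → Bool}

theorem exists_clos (hb : BCert b) (B : List Bool → Bool) : ∃ A : List Bool → Bool,
    (∀ u, A (ansc u) = b u A) ∧ ∀ s, (∀ u, s ≠ ansc u) → A s = B s := by
  let it : ℕ → List Bool → Bool := fun n =>
    Nat.rec B (fun _ A => Function.extend ansc (fun u => b u A) B) n
  have hs : ∀ n, it (n + 1) = Function.extend ansc (fun u => b u (it n)) B := fun _ => rfl
  have out : ∀ n s, (∀ u, s ≠ ansc u) → it (n + 1) s = B s := fun n s h => by
    rw [hs, Function.extend_apply' _ _ _ fun ⟨u, hu⟩ => h u hu.symm]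
  have stab : ∀ i (s : List Bool), s.length = i → ∀ n m, i < n → i < m → it n s = it m s := by
    intro i
    induction i using Nat.strong_induction_on with
    | _ i ih =>
      intro s hc n m hn hm
      obtain ⟨n, rfl⟩ : ∃ k, n = k + 1 := ⟨n - 1, by omega⟩
      obtain ⟨m, rfl⟩ : ∃ k, m = k + 1 := ⟨m - 1, by omega⟩
      by_cases h : ∃ u, s = ansc u
      · obtain ⟨u, rfl⟩ := h
        rw [length_ansc] at hc
        rw [hs, hs, ansc_inj.extend_apply, ansc_inj.extend_apply]
        exact (hb u).dep fun p hp => ih _ (by omega) p rfl n m (by omega) (by omega)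
      · push Not at h
        rw [out n s h, out m s h]
  refine ⟨fun s => it (s.length + 1) s, fun u => ?_, fun s h => out _ s h⟩
  show it ((ansc u).length + 1) (ansc u) = _
  rw [hs, ansc_inj.extend_apply]
  refine (hb u).dep fun p hp => stab _ p rfl (ansc u).length _ ?_ (Nat.lt_succ_self _)
  rw [length_ansc]
  omega

/-- The short strings. -/
abbrev Sh (T : ℕ) := {s : List Bool // s.length ≤ T}

noncomputable instance (T : ℕ) : Fintype (Sh T) := (List.finite_length_le Bool T).fintype

theorem card_Sh (T : ℕ) : Fintype.card (Sh T) ≤ 3 ^ T := by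
  have h := Fintype.card_le_of_injective (fun (s : Sh T) (i : Fin T) => s.1[(i : ℕ)]?)
    fun s s' h => Subtype.ext (List.ext_getElem? fun i => by
      by_cases hi : i < T
      · exact congrFun h ⟨i, hi⟩
      · rw [List.getElem?_eq_none (s.2.trans (not_lt.1 hi)),
          List.getElem?_eq_none (s'.2.trans (not_lt.1 hi))])
  simpa using h

/-- A configuration of the short strings as an oracle. -/
def ex {T : ℕ} (α : Empty ⊕ Sh T → Bool) (s : List Bool) : Bool :=
  if h : s.length ≤ T then α (.inr ⟨s, h⟩) else false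

/-- The system of the answers below a top gate. -/
noncomputable def sys (T w : ℕ) (lev : Option (Sh T) → ℕ)
    (g : Option (Sh T) → (List Bool → Bool) → Bool)
    (hg : ∀ q, Cert w (fun s => ∃ h : s.length ≤ T, lev (some ⟨s, h⟩) < lev q) (g q)) :
    Sys Empty (Option (Sh T)) (Sh T) where
  blk := some
  lev := lev
  b q α := g q (ex α)
  w := w
  cert q α h := by
    classical
    obtain ⟨S, s1, s2, s3⟩ := hg q _ h
    refine ⟨(S.subtype fun s => s.length ≤ T).image Sum.inr, ?_, fun p hp => ?_,
      fun β hβ => s3 _ fun s hs => ?_⟩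
    · refine card_image_le.trans (le_trans ?_ s1)
      rw [card_subtype]
      exact card_filter_le _ _
    · obtain ⟨c, hc, rfl⟩ := mem_image.1 hp
      exact (s2 _ (mem_subtype.1 hc)).2
    · obtain ⟨h1, -⟩ := s2 s hs
      rw [ex, ex, dif_pos h1, dif_pos h1]
      exact hβ _ (mem_image_of_mem _ (mem_subtype.2 hs))

theorem tail (hb : BCert b) {V : Type} [Fintype V] [DecidableEq V]
    (A B : (V → Bool) → List Bool → Bool) (hA1 : ∀ x u, A x (ansc u) = b u (A x))
    (hA2 : ∀ x s, (∀ u, s ≠ ansc u) → A x s = B x s)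
    (hB : ∀ x s, cnt (fun v => B (flp x v) s ≠ B x s) ≤ 1) (T w : ℕ) (hT : T ≤ w) (hw : 1 ≤ w)
    (F : (List Bool → Bool) → Bool) (hF : Cert w (fun s => s.length ≤ T) F) (R : ℕ) (hR : 1 ≤ R)
    (K : ℝ) (hK1 : 1 ≤ K)
    (hK : (3 ^ T + 1) * (1 + (3 + 2 * Fintype.card V) * (1 + 3 * Fintype.card V) : ℝ) ≤ K)
    (z : V → ℝ) (hz : ∀ v, |z v| ≤ 1 / 2) :
    pr (bias z) (fun x => (44 * R ^ 2 * w) ^ (Nat.log 2 T + 2) < sens (fun x => F (A x)) x) ≤
      K ^ (Nat.log 2 T + 2) * (1 / 2) ^ R := by
  classical
  let S := sys T w (fun q => q.elim (Nat.log 2 T + 1) fun s => Nat.log 2 s.1.length)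
    (fun q => q.elim F fun s => Function.extend ansc b (fun _ _ => false) s.1) (by
      rintro (_ | s) α h
      · obtain ⟨S, s1, s2, s3⟩ := hF α h
        exact ⟨S, s1, fun p hp => ⟨s2 p hp, Nat.lt_succ_of_le (Nat.log_mono_right (s2 p hp))⟩, s3⟩
      · obtain ⟨s, hs⟩ := s
        by_cases h1 : ∃ u, ansc u = s
        · obtain ⟨u, rfl⟩ := h1
          simp only [Option.elim_some, ansc_inj.extend_apply] at h ⊢
          obtain ⟨S, s1, s2, s3⟩ := hb u α h
          rw [length_ansc] at hs ⊢
          refine ⟨S, by omega, fun p hp => ⟨(s2 p hp).trans (by omega), ?_⟩, s3⟩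
          have h2 := s2 p hp
          calc Nat.log 2 p.length ≤ Nat.log 2 (u.length + 1) := Nat.log_mono_right (by omega)
            _ < Nat.log 2 ((u.length + 1) * 2) := by
              rw [Nat.log_mul_base (by norm_num) (by omega)]; omega
            _ ≤ _ := Nat.log_mono_right (by omega)
        · simp [Function.extend_apply' _ _ _ h1] at h)
  let Xf : (V → Bool) → Bool → Sh T → Bool := fun x β c => if ∃ u, ansc u = c.1 then β else B x c.1
  have ea : ∀ x s, s.length ≤ T →
      ex (Sum.elim (fun e : Empty => e.elim) fun c : Sh T => A x c.1) s = A x s :=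
    fun x s h => by simp [ex, h]
  have ev : ∀ x, S.val (fun e => e.elim, Xf x) = fun c => A x c.1 := by
    intro x
    refine S.val_unique _ _ fun ⟨s, hs⟩ => ?_
    by_cases h1 : ∃ u, ansc u = s
    · obtain ⟨u, rfl⟩ := h1
      simp only [Xf, S, sys, Option.elim_some, ansc_inj.extend_apply, exists_apply_eq_apply,
        if_true]
      rw [hA1]
      rw [length_ansc] at hs
      exact (hb u).dep fun p hp => (ea x p (by omega)).symm
    · simp only [Xf, if_neg h1]
      exact hA2 x s fun u hu => h1 ⟨u, hu.symm⟩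
  have et : ∀ x, S.ty none (fun e => e.elim, Xf x) = F (A x) := by
    intro x
    rw [Sys.ty, Sys.cf, ev]
    exact hF.dep fun p hp => ea x p hp
  have hc : (Fintype.card (Option (Sh T)) : ℝ) ≤ 3 ^ T + 1 := by
    rw [Fintype.card_option]
    exact_mod_cast Nat.succ_le_succ (card_Sh T)
  refine le_trans (pr_mono (bias_nonneg hz) fun x hx => ?_) (S.sens_tail (bias z) (bias_nonneg hz)
    (sum_bias z).le (bias_flp hz) (fun e => e.elim) Xf (fun x β c => ?_) R hR hw K hK1
    (le_trans (mul_le_mul_of_nonneg_right hc (by positivity)) hK) (Nat.log 2 T + 2))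
  · refine ⟨none, Nat.lt_succ_self _, ?_⟩
    simp only [et]
    exact hx
  · by_cases h1 : ∃ u, ansc u = c.1
    · simp [Xf, h1, cnt]
    · simpa only [Xf, if_neg h1] using hB x c.1

end EX

end Pool.Agent.Lib.MP_2733b3_lc
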