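import Pool.Agent.Lib.MP_2733b3_lc.Stage

/-! Iteration of the stages and the limit oracle. -/

set_option autoImplicit false

namespace Pool.Agent.Lib.MP_2733b3_lc

open Finset Pool.Agent.Shared.PolyTime

variable {b : List Bool → (List Bool → Bool) → Bool} {A B C : List Bool → Bool}

theorem Agree.trans {m k : ℕ} (h : m ≤ k) (h1 : Agree m A B) (h2 : Agree k B C) : Agree m A C :=
  fun s hs => (h2 s fun j hj => hs j (h.trans hj)).trans (h1 s hs)

theorem Agree.short {m : ℕ} (h : Agree m A B) {s : List Bool} (hs : s.length ≤ m) : B s = A s :=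
  h s fun k hk hr => by have := hr.lt; omega

theorem Agree.reg {m k : ℕ} (h : Agree m A B) {s : List Bool} (hs : Reg k s) (hk : k < m) :
    B s = A s :=
  h s fun j hj hr => by have := hs.unique hr; omega

theorem Agree.help {m : ℕ} (h : Agree m A B) (hA : HelpOK A) : HelpOK B :=
  fun xs => (h _ fun k _ => not_reg_help k xs).trans (hA xs)

theorem Agree.promise (hb : BCert b) {m : ℕ} (h : Agree m A B) {u : List Bool} (hu : u.length < m)
    (hp : Promise b A u) : Promise b B u := by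
  have e1 : b u B = b u A := (hb u).dep fun s hs => h.short (by omega)
  have e2 : ∀ j, inst B u (u.length ^ 2) j = inst A u (u.length ^ 2) j := fun j =>
    funext fun v => h.reg (Or.inl ⟨u, j, v.1, _, rfl, by simp, rfl⟩) hu
  unfold Promise pacc at hp ⊢
  simpa only [e1, e2] using hp

/-- The invariant of the construction. -/
def Good (b : List Bool → (List Bool → Bool) → Bool) (m0 m : ℕ) (A : List Bool → Bool) : Prop :=
  HelpOK A ∧ ∀ u : List Bool, m0 ≤ u.length → u.length < m → Promise b A u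

theorem Good.step (hb : BCert b) {m0 n T : ℕ} (hA : Good b m0 n A) (h : Agree n A B)
    (hp : ∀ v : List Bool, v.length ∈ Icc n T → Promise b B v) : Good b m0 (T + 1) B :=
  ⟨h.help hA.1, fun u h1 h2 => if h3 : u.length < n then h.promise hb h3 (hA.2 u h1 h3)
    else hp u (mem_Icc.2 ⟨by omega, by omega⟩)⟩

open Classical in
/-- The language with a full row. -/
noncomputable def LL (A : List Bool → Bool) (x : List Bool) : Bool :=
  decide (∃ y : List Bool, y.length = x.length ∧
    ∀ z : List Bool, z.length = x.length → A (rowc y z) = true)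

theorem Agree.LL {m : ℕ} (h : Agree m A B) {x : List Bool} (hx : x.length < m) :
    LL B x = LL A x := by
  unfold MP_2733b3_lc.LL
  refine decide_eq_decide.2 (exists_congr fun y => and_congr_right fun hy => ?_)
  refine forall_congr' fun z => ?_
  rw [h.reg (Or.inr ⟨y, z, hy, rfl⟩) hx]

/-- The generator `G` errs on the language with a full row. -/
def Fail (A : List Bool → Bool) (G : List Bool → List Bool × List (ℕ × ℕ × List ℕ)) : Prop :=
  ∃ x, ¬ ((LL A x = true → 2 / 3 ≤ acc A (G x).1.length (G x).2) ∧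
    (LL A x = false → acc A (G x).1.length (G x).2 ≤ 1 / 3))

theorem poly_le_pow (q : Polynomial ℕ) : ∃ d, ∀ n, 2 ≤ n → q.eval (3 * n) ≤ n ^ d := by
  induction q using Polynomial.induction_on' with
  | add p q hp hq =>
    obtain ⟨d, hd⟩ := hp
    obtain ⟨e, he⟩ := hq
    refine ⟨d + e + 1, fun n hn => ?_⟩
    have h1 : n ^ d ≤ n ^ (d + e) := Nat.pow_le_pow_right (by omega) (by omega)
    have h2 : n ^ e ≤ n ^ (d + e) := Nat.pow_le_pow_right (by omega) (by omega)
    have := hd n hn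
    have := he n hn
    rw [Polynomial.eval_add, pow_succ]
    nlinarith
  | monomial k a =>
    refine ⟨a + 3 * k, fun n hn => ?_⟩
    rw [Polynomial.eval_monomial, pow_add, pow_mul]
    refine Nat.mul_le_mul (le_trans Nat.lt_two_pow_self.le (Nat.pow_le_pow_left hn _))
      (Nat.pow_le_pow_left ?_ _)
    nlinarith [Nat.mul_le_mul hn hn]

theorem extend (hrt : RTStmt) (hphi : PhiStmt) (hb : BCert b) : ∃ m0, ∀ m, m0 ≤ m →
    ∀ A, Good b m0 m A → ∀ n, m ≤ n → ∃ B, Agree m A B ∧ Good b m0 n B := by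
  obtain ⟨m0, -, h⟩ := stage_fin hrt hphi 1
  refine ⟨m0, fun m hm A hA n hn => ?_⟩
  induction n, hn using Nat.le_induction with
  | base => exact ⟨A, fun _ _ => rfl, hA⟩
  | succ n hn ih =>
    obtain ⟨B, h1, h2⟩ := ih
    obtain ⟨C, _, _, -, -, h3, -, h4, -⟩ := h n (hm.trans hn) n le_rfl (by simp) b hb B
    exact ⟨C, h1.trans hn h3, h2.step hb h3 fun v hv => (h4 v hv).1⟩

theorem diag (hrt : RTStmt) (hphi : PhiStmt) (hbb : BBBVStmt) (hloc : LocalStmt) (hb : BCert b) :
    ∃ m0, ∀ G : List Bool → List Bool × List (ℕ × ℕ × List ℕ), PT G → ∀ m, m0 ≤ m →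
    ∀ A, Good b m0 m A → ∃ n B, m < n ∧ Agree m A B ∧ Good b m0 n B ∧
      ∀ C, Agree n B C → Fail C G := by
  classical
  obtain ⟨m0, h0⟩ := extend hrt hphi hb
  refine ⟨m0, fun G hG m hm A hA => ?_⟩
  obtain ⟨q, hq⟩ : PB fun x => sz (G x) := PB.sz hG
  obtain ⟨d, hd⟩ := poly_le_pow q
  obtain ⟨n1, hn1, h⟩ := stage_fin hrt hphi (d + 1)
  set n := m + n1 with hn
  obtain ⟨A1, a1, a2⟩ := h0 m hm A hA n (by omega)
  set T := n ^ (d + 1) with hT
  have hnT : n ≤ T := Nat.le_self_pow (by omega) n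
  obtain ⟨A0, B, u, c1, c2, c3, c4, c5, c6, c7⟩ := h n (by omega) T hnT le_rfl b hb A1
  set x := List.replicate n true with hx
  have hxl : x.length = n := by simp [hx]
  have hs : sz (G x).2 ≤ T := by
    have h1 : sz (G x) ≤ q.eval (sz x) := hq x
    rw [sz_listBool, hxl, sz_prod] at h1
    have h2 := hd n (by omega)
    have h3 : n ^ d ≤ T := Nat.pow_le_pow_right (by omega) (by omega)
    omega
  obtain ⟨y, hy⟩ := hbb _ A0 B u (G x).1.length (G x).2 c2 (by
    have h1 : (G x).2.length ^ 2 ≤ T ^ 2 := Nat.pow_le_pow_left ((length_le_sz _).trans hs) 2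
    simp only [Fintype.card_fun, Fintype.card_bool, Fintype.card_fin]
    exact lt_of_le_of_lt (Nat.mul_le_mul_right _ (Nat.mul_le_mul_left _ h1)) c1)
  have hacc : ∀ B C, Agree (T + 1) B C →
      acc C (G x).1.length (G x).2 = acc B (G x).1.length (G x).2 := fun B C hC =>
    hloc _ _ _ _ fun g hg s e => hC.short (by
      have h1 := sz_mem hg
      have h2 := length_le_sz g.2.2
      rw [sz_prod, sz_prod g.2] at h1
      omega)
  by_cases hc : acc A0 (G x).1.length (G x).2 ≤ 1 / 3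
  · refine ⟨T + 1, B y, by omega, a1.trans (by omega) (c4 y),
      a2.step hb (c4 y) fun v hv => (c5 v hv).2 y, fun C hC => ⟨x, fun hh => ?_⟩⟩
    rw [hC.LL (by omega), hacc _ _ hC] at hh
    have := hh.1 (decide_eq_true ⟨List.ofFn y, by simp [hxl], fun z hz => c7 y z (hz.trans hxl)⟩)
    linarith [(abs_lt.1 hy).2]
  · refine ⟨T + 1, A0, by omega, a1.trans (by omega) c3,
      a2.step hb c3 fun v hv => (c5 v hv).1, fun C hC => ⟨x, fun hh => ?_⟩⟩
    rw [hC.LL (by omega), hacc _ _ hC] at hh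
    refine hc (hh.2 (decide_eq_false ?_))
    rintro ⟨y, h1, h2⟩
    obtain ⟨z, h3, h4⟩ := c6 y (h1.trans hxl)
    rw [h2 z (h3.trans hxl.symm)] at h4
    exact absurd h4 (by simp)

theorem exists_help : ∃ A, HelpOK A :=
  ⟨Function.extend help (fun xs => xs.any fun x => x.all fun b => !b) fun _ => false, fun xs =>
    Function.Injective.extend_apply (fun _ _ h => by simpa using code_injective h) _ _ xs⟩

theorem limit (hrt : RTStmt) (hphi : PhiStmt) (hbb : BBBVStmt) (hloc : LocalStmt) (hb : BCert b)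
    (G : ℕ → List Bool → List Bool × List (ℕ × ℕ × List ℕ)) (hG : ∀ i, PT (G i)) :
    ∃ m0 A, HelpOK A ∧ (∀ u : List Bool, m0 ≤ u.length → Promise b A u) ∧ ∀ i, Fail A (G i) := by
  obtain ⟨m0, h⟩ := diag hrt hphi hbb hloc hb
  obtain ⟨A0, h0⟩ := exists_help
  let X := {p : ℕ × (List Bool → Bool) // m0 ≤ p.1 ∧ Good b m0 p.1 p.2}
  have hs : ∀ (i : ℕ) (p : X), ∃ p' : X, p.1.1 < p'.1.1 ∧ Agree p.1.1 p.1.2 p'.1.2 ∧
      ∀ C, Agree p'.1.1 p'.1.2 C → Fail C (G i) := fun i p => by
    obtain ⟨n, B, h1, h2, h3, h4⟩ := h (G i) (hG i) p.1.1 p.2.1 p.1.2 p.2.2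
    exact ⟨⟨(n, B), p.2.1.trans h1.le, h3⟩, h1, h2, h4⟩
  choose f f1 f2 f3 using hs
  let s : ℕ → X := fun i => Nat.rec ⟨(m0, A0), le_rfl, h0, fun u h1 h2 => by omega⟩ f i
  have e : ∀ i, s (i + 1) = f i (s i) := fun _ => rfl
  have hi : ∀ i, i ≤ (s i).1.1 := fun i => by
    induction i with
    | zero => exact Nat.zero_le _
    | succ i ih => rw [e]; exact lt_of_le_of_lt ih (f1 i _)
  have hc : ∀ i j, i ≤ j → (s i).1.1 ≤ (s j).1.1 ∧ Agree (s i).1.1 (s i).1.2 (s j).1.2 := by
    intro i j hij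
    induction j, hij using Nat.le_induction with
    | base => exact ⟨le_rfl, fun _ _ => rfl⟩
    | succ j hj ih => rw [e]; exact ⟨ih.1.trans (f1 j _).le, ih.2.trans ih.1 (f2 j _)⟩
  have hl : ∀ i, Agree (s i).1.1 (s i).1.2 fun w => (s w.length).1.2 w := fun i w hw => by
    rcases le_total i w.length with h1 | h1
    · exact (hc _ _ h1).2 w hw
    · exact ((hc _ _ h1).2.short (hi _)).symm
  refine ⟨m0, _, (hl 0).help (s 0).2.2.1, fun u hu => ?_, fun i => f3 i (s i) _ (hl (i + 1))⟩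
  exact (hl (u.length + 1)).promise hb (hi _) ((s (u.length + 1)).2.2.2 u hu (hi (u.length + 1)))

theorem LL_sigma2 (A : List Bool → Bool) : InSigma2 A (LL A) := by
  classical
  refine ⟨Polynomial.X, fun a => decide (a.2.1.length = a.1.length) &&
    (decide (a.2.2.length ≠ a.1.length) || A (rowc a.2.1 a.2.2)),
    ⟨fun a => rowc a.1.2.1 a.1.2.2, fun a => decide (a.1.2.1.length = a.1.1.length) &&
      (decide (a.1.2.2.length ≠ a.1.1.length) || a.2.headD false), 1, PT.isPolyTime ?_,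
      PT.isPolyTime (by fun_prop), fun a => by simp [ans]⟩, fun x => ?_⟩
  · unfold rowc code enc
    fun_prop
  · unfold LL
    simp only [decide_eq_true_eq, Polynomial.eval_X, Bool.and_eq_true, Bool.or_eq_true]
    refine exists_congr fun y => ⟨fun ⟨h1, h2⟩ => ⟨h1.le, fun z _ => ⟨h1, ?_⟩⟩, fun ⟨_, h2⟩ =>
      ⟨(h2 [] (by simp)).1, fun z hz => ((h2 z hz.le).2).resolve_left (by simp [hz])⟩⟩
    by_cases hz : z.length = x.length
    · exact Or.inr (h2 z hz)
    · exact Or.inl hz

end Pool.Agent.Lib.MP_2733b3_lc
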