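import Pool.Agent.Lib.MP_2733b3_lc.EFix
import Pool.Agent.Lib.MP_2733b3_lc.EClos
import Pool.Agent.Lib.MP_2733b3_lc.Iter

/-! An oracle that holds the answers to its own questions and shows chosen bits at exponentially
long strings in Forrelation instances. -/

set_option autoImplicit false

namespace Pool.Agent.Lib.MP_2733b3_lc

open Finset

namespace EX

theorem cube_le (m : ℕ) (hm : 10 ≤ m) : m ^ 3 ≤ 2 ^ m := by
  induction m, hm using Nat.le_induction with
  | base => norm_num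
  | succ m hm ih =>
    have : (m + 1) ^ 3 ≤ 2 * m ^ 3 := by nlinarith [Nat.mul_le_mul hm (Nat.mul_le_mul hm hm)]
    rw [pow_succ 2]
    omega

theorem num_t (m : ℕ) (hm : 60 ≤ m) :
    16 * (((44 * (2 ^ (4 * m)) ^ 2 * 2 ^ (3 * m)) ^ (m + 2) : ℕ) : ℝ) ^ 2 * sig (m ^ 3) ≤ 1 / 2 := by
  have h1 : 44 ≤ 2 ^ m := le_trans (by norm_num) (Nat.pow_le_pow_right two_pos hm)
  have h2 : (44 * (2 ^ (4 * m)) ^ 2 * 2 ^ (3 * m)) ^ (m + 2) ≤ 2 ^ (12 * m * (m + 2)) :=
    p2_pow (p2_le (p2_mul (p2_mul h1 (p2_pow le_rfl 2)) le_rfl) (by omega)) _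
  have h3 := sig_le (m ^ 3) (12 * m * (m + 2) * 2 + 5) (by nlinarith [Nat.mul_le_mul hm hm])
  have h4 : (((44 * (2 ^ (4 * m)) ^ 2 * 2 ^ (3 * m)) ^ (m + 2) : ℕ) : ℝ) ≤
      2 ^ (12 * m * (m + 2)) := by exact_mod_cast h2
  have h5 := (RT.sig_pos (m ^ 3)).le
  calc _ ≤ 16 * ((2 : ℝ) ^ (12 * m * (m + 2))) ^ 2 * (1 / 2 ^ (12 * m * (m + 2) * 2 + 5)) := by
        gcongr
    _ = 1 / 2 := by rw [pow_add, pow_mul _ _ 2]; field_simp; norm_num

theorem num_K (T l : ℕ) : ((3 : ℝ) ^ T + 1) * (1 + (3 + 2 * Fintype.card (Var l)) *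
    (1 + 3 * Fintype.card (Var l)) : ℝ) ≤ 2 ^ (2 * T + 2 * l + 8) := by
  have h1 : (3 : ℝ) ^ T ≤ 4 ^ T := by gcongr; norm_num
  have h2 : (1 : ℝ) ≤ 4 ^ T := one_le_pow₀ (by norm_num)
  have h3 : (1 : ℝ) ≤ 2 ^ l := one_le_pow₀ (by norm_num)
  have h4 : (Fintype.card (Var l) : ℝ) = 2 * 2 ^ l := by simp
  have h5 : (2 : ℝ) ^ (2 * T + 2 * l + 8) = (2 * 4 ^ T) * (128 * (2 ^ l) ^ 2) := by
    rw [pow_add, pow_add, pow_mul, mul_comm 2 l, pow_mul]; norm_num; ring
  rw [h4, h5]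
  exact mul_le_mul (by linarith) (by nlinarith) (by positivity) (by positivity)

theorem num_p (m c : ℕ) (hm : 60 ≤ m) (hc : c ≤ 2 ^ (3 * m)) :
    (8 : ℝ) ^ c * (32 * (Fintype.card (Var (m ^ 3)) : ℝ) ^ 3 *
      ((2 ^ (2 * 2 ^ m + 2 * m ^ 3 + 8)) ^ (m + 2) * (1 / 2) ^ 2 ^ (4 * m)) +
      1 / 2 ^ (3 * 2 ^ (3 * m) + 2) + Real.exp (2 - 1 / (4096 * sig (m ^ 3)))) < 1 := by
  obtain ⟨M, hM⟩ : ∃ M : ℕ, M = 2 ^ (3 * m) := ⟨_, rfl⟩
  have hM1 : 1 ≤ M := hM ▸ Nat.one_le_two_pow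
  have hl := cube_le m (by omega)
  have a1 : 32 * (Fintype.card (Var (m ^ 3)) : ℝ) ^ 3 *
      ((2 ^ (2 * 2 ^ m + 2 * m ^ 3 + 8)) ^ (m + 2) * (1 / 2) ^ 2 ^ (4 * m)) ≤
      1 / 2 ^ (3 * M + 2) := by
    have h4 : (Fintype.card (Var (m ^ 3)) : ℝ) = 2 ^ (m ^ 3 + 1) := by simp [pow_succ']
    have h5 : 5 + (m ^ 3 + 1) * 3 + (2 * 2 ^ m + 2 * m ^ 3 + 8) * (m + 2) + (3 * M + 2) ≤
        2 ^ (4 * m) := by
      have b1 : m + 2 ≤ 2 ^ m := le_trans (by nlinarith [Nat.mul_le_mul hm hm]) hl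
      rw [hM, mul_comm 3 m, mul_comm 4 m, pow_mul, pow_mul]
      generalize 2 ^ m = T at hl b1 ⊢
      generalize m ^ 3 = l at hl ⊢
      have b2 : (2 * T + 2 * l + 8) * (m + 2) ≤ (4 * T + 8) * T :=
        Nat.mul_le_mul (by omega) b1
      have b3 : 60 ≤ T := by omega
      have b4 : 60 * T ^ 3 ≤ T ^ 4 := by rw [pow_succ' T 3]; exact Nat.mul_le_mul_right _ b3
      have b5 : 60 * T ^ 2 ≤ T ^ 3 := by rw [pow_succ' T 2]; exact Nat.mul_le_mul_right _ b3
      nlinarith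
    rw [h4, one_div_pow, ← pow_mul, ← pow_mul, show (32 : ℝ) = 2 ^ 5 by norm_num, ← pow_add,
      mul_one_div, ← mul_div_assoc, ← pow_add, div_le_div_iff₀ (by positivity) (by positivity),
      ← pow_add, one_mul]
    exact pow_le_pow_right₀ (by norm_num) h5
  have a2 : Real.exp (2 - 1 / (4096 * sig (m ^ 3))) ≤ 1 / 2 ^ (3 * M + 2) := by
    have h1 := sig_le (m ^ 3) (3 * m + 15) (by nlinarith [Nat.mul_le_mul hm hm])
    have h2 := RT.sig_pos (m ^ 3)
    have h3 : (2 : ℝ) ^ (3 * m + 15) = M * 32768 := by rw [hM, pow_add]; norm_num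
    have h4 : (1 : ℝ) ≤ M := by exact_mod_cast hM1
    rw [h3, le_div_iff₀ (by positivity)] at h1
    have h5 : 8 * (M : ℝ) ≤ 1 / (4096 * sig (m ^ 3)) := by
      rw [le_div_iff₀ (by positivity)]; linarith
    have h6 := RT.two_pow_le_exp (3 * M + 2)
    rw [le_div_iff₀ (by positivity)]
    refine (mul_le_mul_of_nonneg_left h6 (Real.exp_pos _).le).trans ?_
    rw [← Real.exp_add]
    refine Real.exp_le_one_iff.2 ?_
    push_cast
    linarith
  have a3 : (8 : ℝ) ^ c ≤ 2 ^ (3 * M) := by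
    rw [pow_mul, show (2 : ℝ) ^ 3 = 8 by norm_num]
    exact pow_le_pow_right₀ (by norm_num) (hM ▸ hc)
  rw [← hM]
  calc _ ≤ (2 : ℝ) ^ (3 * M) * (3 * (1 / 2 ^ (3 * M + 2))) :=
        mul_le_mul a3 (by linarith) (by positivity) (by positivity)
    _ = 3 / 4 := by rw [pow_add]; field_simp; norm_num
    _ < 1 := by norm_num

/-- The instances of the blocks up to length `N`. -/
abbrev BI (r N : ℕ) := {u : Sh N // 60 ≤ u.1.length} × Fin r

/-- Their strings. -/
def em (r N : ℕ) (c : Σ i : BI r N, Var (i.1.1.1.length ^ 3)) : List Bool :=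
  cell c.1.1.1.1 c.1.2 c.2.1 (List.ofFn c.2.2)

theorem em_inj (r N : ℕ) : Function.Injective (em r N) := by
  rintro ⟨⟨⟨⟨u, h1⟩, h2⟩, j⟩, sd, x⟩ ⟨⟨⟨⟨u', h1'⟩, h2'⟩, j'⟩, sd', x'⟩ h
  have := code_injective h
  simp only [List.cons.injEq, and_true, true_and] at this
  obtain ⟨e1, e2, e3, e4⟩ := this
  subst e1
  have e5 : j = j' := Fin.ext (by simpa using congrArg List.length e2)
  subst e5 e3
  rw [List.ofFn_injective e4]

variable {b : List Bool → (List Bool → Bool) → Bool}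

theorem fin_core (hb : BCert b) (σ : List Bool → List Bool)
    (hσ : ∀ u, (σ u).length ≤ 2 ^ u.length) (r : ℕ) (hr : r ≤ 2 ^ 17) (N : ℕ) :
    ∃ A, HelpOK A ∧ (∀ u, A (ansc u) = b u A) ∧ ∀ u : List Bool, 60 ≤ u.length → u.length ≤ N →
      ∀ j < r, good (A (σ u)) (inst A u (u.length ^ 3) j) := by
  classical
  obtain ⟨A0, hA0⟩ := exists_help
  let B : (∀ i : BI r N, Var (i.1.1.1.length ^ 3) → Bool) → List Bool → Bool :=
    fun X => Function.extend (em r N) (fun c => X c.1 c.2) A0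
  choose A hA1 hA2 using fun X => exists_clos hb (B X)
  obtain ⟨X, hX⟩ := fix (l := fun i : BI r N => i.1.1.1.length ^ 3) (fun i => i.1.1.1.length)
    (fun i X => A X (σ i.1.1.1)) fun i s hs => by
      obtain ⟨m, hm⟩ : ∃ m, m = i.1.1.1.length := ⟨_, rfl⟩
      have h60 : 60 ≤ m := hm ▸ i.1.2
      have hc : s.card ≤ 2 ^ (3 * m) := by
        have h1 := Fintype.card_le_of_injective
          (fun j : s => ((⟨j.1.1.1.1, hm ▸ hs _ j.2⟩, j.1.2) : Sh m × Fin r)) fun j j' h => by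
            simp only [Prod.mk.injEq, Subtype.mk.injEq] at h
            exact Subtype.ext (Prod.ext (Subtype.ext (Subtype.ext h.1)) h.2)
        rw [Fintype.card_coe, Fintype.card_prod, Fintype.card_fin] at h1
        have h2 : Fintype.card (Sh m) ≤ 2 ^ (2 * m) := by
          rw [pow_mul]; exact (card_Sh m).trans (Nat.pow_le_pow_left (by norm_num) m)
        exact p2_le (h1.trans (p2_mul h2 hr)) (by omega)
      refine ⟨(44 * (2 ^ (4 * m)) ^ 2 * 2 ^ (3 * m)) ^ (m + 2),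
        (2 ^ (2 * 2 ^ m + 2 * m ^ 3 + 8)) ^ (m + 2) * (1 / 2) ^ 2 ^ (4 * m),
        1 / 2 ^ (3 * 2 ^ (3 * m) + 2), by positivity, ?_, ?_, fun a X z hz => ?_⟩
      · rw [← hm]; exact num_t m h60
      · subst hm; exact num_p _ _ h60 hc
      · have := tail hb (fun x => A (Function.update X i x)) (fun x => B (Function.update X i x))
          (fun x => hA1 _) (fun x => hA2 _) (fun x p => ?_) (2 ^ m) (2 ^ (3 * m))
          (Nat.pow_le_pow_right two_pos (by omega)) Nat.one_le_two_pow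
          (fun C => decide (∀ j ∈ s, C (σ j.1.1.1) = a j)) (fun α h => ?_) (2 ^ (4 * m))
          Nat.one_le_two_pow (2 ^ (2 * 2 ^ m + 2 * m ^ 3 + 8)) (one_le_pow₀ (by norm_num))
          (by subst hm; exact num_K _ _) z hz
        · rwa [Nat.log_pow (by norm_num)] at this
        · by_cases h1 : ∃ c, em r N c = p
          · obtain ⟨⟨j, v⟩, rfl⟩ := h1
            simp only [B, (em_inj r N).extend_apply]
            by_cases hj : j = i
            · subst hj
              refine cnt_le_one v fun v' h => ?_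
              by_contra hv
              simp only [Function.update_self] at h
              exact h (flp_ne x (Ne.symm hv))
            · simp [hj, cnt]
          · simp [B, Function.extend_apply' _ _ _ h1, cnt]
        · refine ⟨s.image fun j => σ j.1.1.1, card_image_le.trans hc, fun p hp => ?_,
            fun β hβ => decide_eq_true fun j hj => ?_⟩
          · obtain ⟨j, hj, rfl⟩ := mem_image.1 hp
            exact (hσ _).trans (Nat.pow_le_pow_right two_pos (hm ▸ hs j hj))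
          · rw [hβ _ (mem_image_of_mem _ hj)]
            exact of_decide_eq_true h j hj
  refine ⟨A X, fun xs => ?_, hA1 X, fun u h1 h2 j hj => ?_⟩
  · rw [hA2 X _ fun u hu => by simpa using code_injective hu]
    simp only [B]
    rw [Function.extend_apply' _ _ _ fun ⟨c, hc⟩ => by simpa using code_injective hc]
    exact hA0 xs
  · have e : inst (A X) u (u.length ^ 3) j = X (⟨⟨u, h2⟩, h1⟩, ⟨j, hj⟩) := by
      funext v
      rw [inst, hA2 X _ fun u hu => by simpa using code_injective hu]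
      exact (em_inj r N).extend_apply _ _ ⟨(⟨⟨u, h2⟩, h1⟩, ⟨j, hj⟩), v⟩
    rw [e]
    exact hX (⟨⟨u, h2⟩, h1⟩, ⟨j, hj⟩)

theorem core (hb : BCert b) (σ : List Bool → List Bool)
    (hσ : ∀ u, (σ u).length ≤ 2 ^ u.length) (r : ℕ) (hr : r ≤ 2 ^ 17) :
    ∃ A, HelpOK A ∧ (∀ u, A (ansc u) = b u A) ∧ ∀ u : List Bool, 60 ≤ u.length →
      ∀ j < r, good (A (σ u)) (inst A u (u.length ^ 3) j) := by
  classical
  choose A h1 h2 h3 using fin_core hb σ hσ r hr
  let C : List Bool → Bool := fun s => decide (∀ᶠ N in Filter.hyperfilter ℕ, A N s = true)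
  have e : ∀ s, ∀ᶠ N in Filter.hyperfilter ℕ, A N s = C s := by
    intro s
    by_cases h : ∀ᶠ N in Filter.hyperfilter ℕ, A N s = true
    · simpa only [C, decide_eq_true h] using h
    · simpa only [C, decide_eq_false h, Bool.not_eq_true] using Ultrafilter.eventually_not.2 h
  have f : ∀ n, ∃ N, n ≤ N ∧ ∀ s : List Bool, s.length ≤ n → A N s = C s := fun n =>
    (((Filter.eventually_ge_atTop n).filter_mono Nat.hyperfilter_le_atTop).and
      ((Filter.eventually_all_finite (List.finite_length_le Bool n)).2 fun s _ => e s)).exists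
  refine ⟨C, fun xs => ?_, fun u => ?_, fun u hu j hj => ?_⟩
  · obtain ⟨N, -, h⟩ := f (help xs).length
    rw [← h _ le_rfl, h1]
  · obtain ⟨N, -, h⟩ := f (ansc u).length
    rw [← h _ le_rfl, h2]
    rw [length_ansc] at h
    exact (hb u).dep fun p hp => h p (by omega)
  · have h0 := hσ u
    generalize 2 ^ u.length = T at h0
    obtain ⟨N, hN, h⟩ := f (T + 2 * u.length + 2 * j + 2 * u.length ^ 3 + 9)
    have e1 : inst C u (u.length ^ 3) j = inst (A N) u (u.length ^ 3) j := by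
      funext v
      exact (h _ (by rw [length_cell, List.length_ofFn]; omega)).symm
    rw [e1, ← h _ (h0.trans (by omega))]
    exact h3 N u hu (by omega) j hj

end EX

end Pool.Agent.Lib.MP_2733b3_lc
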