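import Pool.Agent.Lib.MP_2733b3_lc.Layout

/-! Countability of the polynomial time functions, and the encoding of NP relative to the oracle
into bits with short certificates. -/

set_option autoImplicit false

namespace Pool.Agent.Lib.MP_2733b3_lc

open Finset Pool.Agent.Shared.PolyTime

namespace Encode

/-- The input-output relation of a program. -/
def Den : Prog → St → St → Prop
  | .skip, S, S' => S' = S
  | .push r b, S, S' => S' = Function.update S r (b :: S r)
  | .pop r, S, S' => S' = Function.update S r (S r).tail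
  | .seq p q, S, S' => ∃ S1, Den p S S1 ∧ Den q S1 S'
  | .ite r pe pf pt, S, S' => ((S r).head? = none ∧ Den pe S S') ∨
      ((S r).head? = some false ∧ Den pf S S') ∨ ((S r).head? = some true ∧ Den pt S S')
  | .loop r p, S, S' => Relation.ReflTransGen (fun a b => a r ≠ [] ∧ Den p a b) S S' ∧ S' r = []

theorem den_of_run {p : Prog} {S S' : St} {t : ℕ} (h : Run p S S' t) : Den p S S' := by
  induction h with
  | skip S => rfl
  | push r b S => rfl
  | pop r S => rfl
  | seq _ _ ih1 ih2 => exact ⟨_, ih1, ih2⟩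
  | iteE h _ ih => exact Or.inl ⟨by rw [h]; rfl, ih⟩
  | iteF h _ ih => exact Or.inr (Or.inl ⟨by rw [h]; rfl, ih⟩)
  | iteT h _ ih => exact Or.inr (Or.inr ⟨by rw [h]; rfl, ih⟩)
  | loopE h => exact ⟨.refl, h⟩
  | loopS h _ _ ih1 ih2 => exact ⟨.head ⟨h, ih1⟩ ih2.1, ih2.2⟩
  | mono _ _ ih => exact ih

theorem den_det (p : Prog) : ∀ {S S1 S2 : St}, Den p S S1 → Den p S S2 → S1 = S2 := by
  induction p with
  | skip => exact fun h1 h2 => h1.trans h2.symm
  | push r b => exact fun h1 h2 => h1.trans h2.symm
  | pop r => exact fun h1 h2 => h1.trans h2.symm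
  | seq p q ih1 ih2 =>
    rintro S S1 S2 ⟨T1, h1, h2⟩ ⟨T2, h3, h4⟩
    obtain rfl := ih1 h1 h3
    exact ih2 h2 h4
  | ite r pe pf pt ih1 ih2 ih3 =>
    rintro S S1 S2 (⟨h1, h2⟩ | ⟨h1, h2⟩ | ⟨h1, h2⟩) (⟨h3, h4⟩ | ⟨h3, h4⟩ | ⟨h3, h4⟩) <;>
      first
        | exact ih1 h2 h4
        | exact ih2 h2 h4
        | exact ih3 h2 h4
        | exact absurd (h1.symm.trans h3) (by simp)
  | loop r p ih =>
    rintro S S1 S2 ⟨h1, h2⟩ ⟨h3, h4⟩
    rcases Relation.ReflTransGen.total_of_right_unique
      (fun _ _ _ h h' => ih h.2 h'.2) h1 h3 with h | h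
    · rcases h.cases_head with h | ⟨_, h, -⟩
      · exact h
      · exact absurd h2 h.1
    · rcases h.cases_head with h | ⟨_, h, -⟩
      · exact h.symm
      · exact absurd h4 h.1

/-- A numbering of the programs. -/
def num : Prog → ℕ
  | .skip => Nat.pair 0 0
  | .push r b => Nat.pair 1 (Nat.pair r b.toNat)
  | .pop r => Nat.pair 2 r
  | .seq p q => Nat.pair 3 (Nat.pair (num p) (num q))
  | .ite r a b c => Nat.pair 4 (Nat.pair r (Nat.pair (num a) (Nat.pair (num b) (num c))))
  | .loop r p => Nat.pair 5 (Nat.pair r (num p))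

theorem num_inj (p : Prog) : ∀ q, num p = num q → p = q := by
  induction p with
  | skip => intro q h; cases q <;> simp [num] at h ⊢
  | push r b =>
    intro q h
    cases q <;> simp [num] at h ⊢
    have hb : ∀ a c : Bool, a.toNat = c.toNat → a = c := by decide
    exact ⟨h.1, hb _ _ h.2⟩
  | pop r => intro q h; cases q <;> simp [num] at h ⊢; exact h
  | seq p p' ih1 ih2 =>
    intro q h
    cases q <;> simp [num] at h ⊢
    exact ⟨ih1 _ h.1, ih2 _ h.2⟩
  | ite r a b c ih1 ih2 ih3 =>
    intro q h
    cases q <;> simp [num] at h ⊢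
    exact ⟨h.1, ih1 _ h.2.1, ih2 _ h.2.2.1, ih3 _ h.2.2.2⟩
  | loop r p ih =>
    intro q h
    cases q <;> simp [num] at h ⊢
    exact ⟨h.1, ih _ h.2⟩

variable {α : Type}

theorem ans_succ (A : List Bool → Bool) (q : α × List Bool → List Bool) (a : α) (k : ℕ) :
    ans A q a (k + 1) = ans A q a k ++ [A (q (a, ans A q a k))] := rfl

theorem length_ans (A : List Bool → Bool) (q : α × List Bool → List Bool) (a : α) (k : ℕ) :
    (ans A q a k).length = k := by
  induction k with
  | zero => rfl
  | succ k ih => rw [ans_succ, List.length_append, ih, List.length_singleton]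

theorem ans_congr {A B : List Bool → Bool} (q : α × List Bool → List Bool) (a : α) (k : ℕ)
    (h : ∀ i < k, B (q (a, ans A q a i)) = A (q (a, ans A q a i))) :
    ans B q a k = ans A q a k := by
  induction k with
  | zero => rfl
  | succ k ih => rw [ans_succ, ans_succ, ih fun i hi => h i (by omega), h k (by omega)]

theorem pt_eval [N487b59b3 α] {f : α → ℕ} (hf : PT f) (q : Polynomial ℕ) :
    PT fun a => q.eval (f a) := by
  induction q using Polynomial.induction_on with
  | C c => exact (PT.const c).of_eq fun a => by simp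
  | add p q hp hq => exact (hp.add hq).of_eq fun a => by simp
  | monomial k c ih => exact (ih.mul hf).of_eq fun a => by simp [pow_succ, mul_assoc]

/-- The machine accepts within the resources allowed by the length `n`. -/
def Acc (A : List Bool → Bool) (q : α × List Bool → List Bool) (o : α × List Bool → Bool)
    (a : α) (k n : ℕ) : Prop :=
  k ≤ n ∧ (∀ i < k, (q (a, ans A q a i)).length ≤ n) ∧ o (a, ans A q a k) = true

theorem Acc.cert {A : List Bool → Bool} {q : α × List Bool → List Bool}
    {o : α × List Bool → Bool} {a : α} {k n : ℕ} (h : Acc A q o a k n) :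
    ∃ S : Finset (List Bool), S.card ≤ n ∧ (∀ s ∈ S, s.length ≤ n) ∧
      ∀ B : List Bool → Bool, (∀ s ∈ S, B s = A s) → Acc B q o a k n := by
  refine ⟨(range k).image fun i => q (a, ans A q a i),
    card_image_le.trans ((card_range k).trans_le h.1), fun s hs => ?_, fun B hB => ?_⟩
  · obtain ⟨i, hi, rfl⟩ := mem_image.1 hs
    exact h.2.1 i (mem_range.1 hi)
  · have e : ∀ j ≤ k, ans B q a j = ans A q a j := fun j hj => ans_congr q a j fun i hi =>
      hB _ (mem_image_of_mem _ (mem_range.2 (by omega)))
    exact ⟨h.1, fun i hi => e i hi.le ▸ h.2.1 i hi, e k le_rfl ▸ h.2.2⟩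

end Encode

open Encode in
theorem pt_countable (α β : Type) [N487b59b3 α] [N487b59b3 β] :
    {f : α → β | PT f}.Countable := by
  have h : ∀ f : {f : α → β | PT f}, ∃ p : Prog, ∀ a,
      Den p (io (N487b59b3.bitEncode a)) (io (N487b59b3.bitEncode (f.1 a))) := by
    rintro ⟨f, p, q, h⟩
    exact ⟨p, fun a => den_of_run (h a)⟩
  choose p hp using h
  refine Function.Injective.countable (f := fun f => num (p f)) fun f g e => ?_
  refine Subtype.ext (funext fun a => N487b59b3.bitEncode_injective ?_)
  have h1 := hp f a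
  rw [num_inj _ _ e] at h1
  exact congrFun (den_det _ h1 (hp g a)) 0

open Encode in
theorem encode_np (hc : CircStmt) : ∃ b : List Bool → (List Bool → Bool) → Bool, BCert b ∧
    ∀ (m0 : ℕ) (A : List Bool → Bool), HelpOK A →
      (∀ u : List Bool, m0 ≤ u.length → Promise b A u) → ∀ L, InNP A L → InBQP A L := by
  classical
  have c1 := (pt_countable ((List Bool × List Bool) × List Bool) (List Bool)).to_subtype
  have c2 := (pt_countable ((List Bool × List Bool) × List Bool) Bool).to_subtype
  have c3 := (pt_countable (List Bool × List Bool) (List Bool)).to_subtype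
  have c4 : Nonempty ({f : (List Bool × List Bool) × List Bool → List Bool | PT f} ×
      {f : (List Bool × List Bool) × List Bool → Bool | PT f} ×
      {f : List Bool × List Bool → List Bool | PT f}) :=
    ⟨⟨_, PT.const []⟩, ⟨_, PT.const true⟩, ⟨_, PT.const []⟩⟩
  obtain ⟨en, hen⟩ := exists_surjective_nat
    ({f : (List Bool × List Bool) × List Bool → List Bool | PT f} ×
      {f : (List Bool × List Bool) × List Bool → Bool | PT f} ×
      {f : List Bool × List Bool → List Bool | PT f})
  refine ⟨fun u A => decide (∃ (e : ℕ) (x w pad y : List Bool),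
    u = code [List.replicate e true, x, w, pad] ∧ y.length ≤ w.length ∧
      Acc A (en e).1.1 (en e).2.1.1 (x, y) ((en e).2.2.1 (x, y)).length u.length),
    fun u A h => ?_, ?_⟩
  · obtain ⟨e, x, w, pad, y, h1, h2, h3⟩ := of_decide_eq_true h
    obtain ⟨S, s1, s2, s3⟩ := h3.cert
    exact ⟨S, s1, s2, fun B hB => decide_eq_true ⟨e, x, w, pad, y, h1, h2, s3 B hB⟩⟩
  rintro m0 A hA hP L ⟨p', R, ⟨q, o, p, hq, ho, hR⟩, hL⟩
  obtain ⟨r, hr, hr'⟩ := PT.unary_poly (α := List Bool × List Bool) p
  obtain ⟨e, he⟩ := hen (⟨q, PT.ofIsPolyTime hq⟩, ⟨o, PT.ofIsPolyTime ho⟩, ⟨r, hr⟩)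
  obtain ⟨Q, hQ⟩ := PB.length (PT.ofIsPolyTime hq)
  obtain ⟨G, hG, hG'⟩ := hc
  have t1 : PT fun x : List Bool => p'.eval x.length := pt_eval (by fun_prop) p'
  have b1 : PB fun x : List Bool => p'.eval x.length :=
    PBe.eval (PB.length (f := fun x : List Bool => x) PT.id') p'
  obtain ⟨s, hs⟩ : ∃ s : List Bool → ℕ, s = fun x => 6 * x.length + 1 + 3 * p'.eval x.length :=
    ⟨_, rfl⟩
  have t2 : PT s := by rw [hs]; fun_prop
  have b2 : PB s := by rw [hs]; fun_prop
  have t3 : PT fun x => p.eval (s x) := pt_eval t2 p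
  have b3 : PB fun x => p.eval (s x) := PBe.eval b2 p
  have t4 : PT fun x => Q.eval (2 * s x + 1 + 3 * p.eval (s x)) := pt_eval (by fun_prop) Q
  have b4 : PB fun x => Q.eval (2 * s x + 1 + 3 * p.eval (s x)) :=
    PBe.eval (f := fun x => 2 * s x + 1 + 3 * p.eval (s x))
      (show PB fun x => 2 * s x + 1 + 3 * p.eval (s x) by fun_prop) Q
  obtain ⟨g, hg⟩ : ∃ g : List Bool → ℕ,
      g = fun x => m0 + p.eval (s x) + Q.eval (2 * s x + 1 + 3 * p.eval (s x)) := ⟨_, rfl⟩
  have t5 : PT g := by rw [hg]; fun_prop
  have b5 : PB g := by rw [hg]; fun_prop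
  have t6 : PT fun x : List Bool => List.replicate (p'.eval x.length) true :=
    PT.replicate t1 b1 (PT.const _)
  have t7 : PT fun x => List.replicate (g x) true := PT.replicate t5 b5 (PT.const _)
  obtain ⟨U, hU⟩ : ∃ U : List Bool → List Bool, U = fun x => code [List.replicate e true, x,
      List.replicate (p'.eval x.length) true, List.replicate (g x) true] := ⟨_, rfl⟩
  have t8 : PT U := by
    have : PT fun x : List Bool => [List.replicate e true, x,
        List.replicate (p'.eval x.length) true, List.replicate (g x) true] :=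
      (PT.const _).cons (PT.id'.cons (t6.cons (t7.cons (PT.const _))))
    rw [hU]
    unfold code enc
    exact this.flatMap (by fun_prop)
  have l1 : ∀ x, g x ≤ (U x).length := by
    intro x
    rw [hU]
    simp only [length_code, List.map_cons, List.map_nil, List.sum_cons, List.length_replicate]
    omega
  have key : ∀ x, (∃ (e : ℕ) (x' w pad y : List Bool),
      U x = code [List.replicate e true, x', w, pad] ∧ y.length ≤ w.length ∧
        Acc A (en e).1.1 (en e).2.1.1 (x', y) ((en e).2.2.1 (x', y)).length (U x).length) ↔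
      L x = true := by
    intro x
    rw [hL]
    constructor
    · rintro ⟨e', x', w, pad, y, h1, h2, h3⟩
      rw [hU] at h1
      have h4 := code_injective h1
      simp only [List.cons.injEq, List.replicate_inj, or_true, and_true] at h4
      obtain ⟨rfl, rfl, rfl, -⟩ := h4
      rw [he] at h3
      refine ⟨y, by simpa using h2, ?_⟩
      have h5 := h3.2.2
      rw [hR]
      simp only [hr'] at h5
      exact h5
    · rintro ⟨y, h1, h2⟩
      refine ⟨e, x, _, _, y, by rw [hU], by simpa using h1, ?_⟩
      have h3 : sz (x, y) ≤ s x := by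
        rw [hs, sz_pair, sz_listBool, sz_listBool]
        beta_reduce
        omega
      have h4 := eval_mono p h3
      have h5 := l1 x
      rw [hg] at h5
      beta_reduce at h5
      rw [he]
      simp only [hr']
      refine ⟨by omega, fun i hi => ?_, hR (x, y) ▸ h2⟩
      have h6 : sz ((x, y), ans A q (x, y) i) ≤ 2 * s x + 1 + 3 * p.eval (s x) := by
        rw [sz_pair, sz_listBool, length_ans]
        omega
      have h7 := (hQ ((x, y), ans A q (x, y) i)).trans (eval_mono Q h6)
      beta_reduce at h7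
      omega
  have t9 : PT fun x => (U x, List.replicate ((U x).length ^ 2) true,
      List.replicate (rr (U x).length) true) := by
    unfold rr
    refine t8.pair (PT.pair (PT.replicate ?_ ?_ (PT.const _)) (PT.replicate ?_ ?_ (PT.const _))) <;>
      fun_prop
  refine ⟨_, (hG.comp' t9).isPolyTime, fun x => ?_⟩
  have h1 := hP (U x) (le_trans (by rw [hg]; beta_reduce; omega) (l1 x))
  rw [hG' A hA, List.length_replicate, List.length_replicate]
  refine ⟨fun h => h1.1 (decide_eq_true ((key x).2 h)), fun h => h1.2 (decide_eq_false ?_)⟩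
  rw [key, h]
  simp

end Pool.Agent.Lib.MP_2733b3_lc
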