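import Pool.Agent.Lib.MP_2733b3_lc.ECore
import Pool.Agent.Lib.MP_2733b3_lc.Encode
import Pool.Agent.Lib.MP_2733b3_lc.BBBV
import Pool.Agent.Lib.MP_2733b3_lc.Circ

/-! Encodings: questions for NP and for NP over BQP, and bits at exponentially long strings. -/

set_option autoImplicit false

namespace Pool.Agent.Lib.MP_2733b3_lc

open Finset Pool.Agent.Shared.PolyTime Encode

namespace EX

theorem enc_np : ∃ b : List Bool → (List Bool → Bool) → Bool, BCert b ∧
    ∀ A L, InNP A L → ∃ U : List Bool → List Bool, PT U ∧ ∀ x, L x = b (U x) A := by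
  classical
  have c1 := (pt_countable ((List Bool × List Bool) × List Bool) (List Bool)).to_subtype
  have c2 := (pt_countable ((List Bool × List Bool) × List Bool) Bool).to_subtype
  have c3 := (pt_countable (List Bool × List Bool) (List Bool)).to_subtype
  have c4 : Nonempty ({f : (List Bool × List Bool) × List Bool → List Bool | PT f} ×
      {f : (List Bool × List Bool) × List Bool → Bool | PT f} ×
      {f : List Bool × List Bool → List Bool | PT f}) :=
    ⟨⟨_, PT.const []⟩, ⟨_, PT.const true⟩, ⟨_, PT.const []⟩⟩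
  obtain ⟨en, hen⟩ := exists_surjective_nat
    ({f : (List Bool × List Bool) × List Bool → List Bool | PT f} ×
      {f : (List Bool × List Bool) × List Bool → Bool | PT f} ×
      {f : List Bool × List Bool → List Bool | PT f})
  refine ⟨fun u A => decide (∃ (e : ℕ) (x w pad y : List Bool),
    u = code [List.replicate e true, x, w, pad] ∧ y.length ≤ w.length ∧
      Acc A (en e).1.1 (en e).2.1.1 (x, y) ((en e).2.2.1 (x, y)).length u.length),
    fun u A h => ?_, ?_⟩
  · obtain ⟨e, x, w, pad, y, h1, h2, h3⟩ := of_decide_eq_true h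
    obtain ⟨S, s1, s2, s3⟩ := h3.cert
    exact ⟨S, s1, s2, fun B hB => decide_eq_true ⟨e, x, w, pad, y, h1, h2, s3 B hB⟩⟩
  rintro A L ⟨p', R, ⟨q, o, p, hq, ho, hR⟩, hL⟩
  obtain ⟨r, hr, hr'⟩ := PT.unary_poly (α := List Bool × List Bool) p
  obtain ⟨e, he⟩ := hen (⟨q, PT.ofIsPolyTime hq⟩, ⟨o, PT.ofIsPolyTime ho⟩, ⟨r, hr⟩)
  obtain ⟨Q, hQ⟩ := PB.length (PT.ofIsPolyTime hq)
  have t1 : PT fun x : List Bool => p'.eval x.length := pt_eval (by fun_prop) p'
  have b1 : PB fun x : List Bool => p'.eval x.length :=
    PBe.eval (PB.length (f := fun x : List Bool => x) PT.id') p'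
  obtain ⟨s, hs⟩ : ∃ s : List Bool → ℕ, s = fun x => 6 * x.length + 1 + 3 * p'.eval x.length :=
    ⟨_, rfl⟩
  have t2 : PT s := by rw [hs]; fun_prop
  have b2 : PB s := by rw [hs]; fun_prop
  have t3 : PT fun x => p.eval (s x) := pt_eval t2 p
  have b3 : PB fun x => p.eval (s x) := PBe.eval b2 p
  have t4 : PT fun x => Q.eval (2 * s x + 1 + 3 * p.eval (s x)) := pt_eval (by fun_prop) Q
  have b4 : PB fun x => Q.eval (2 * s x + 1 + 3 * p.eval (s x)) :=
    PBe.eval (f := fun x => 2 * s x + 1 + 3 * p.eval (s x))
      (show PB fun x => 2 * s x + 1 + 3 * p.eval (s x) by fun_prop) Q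
  obtain ⟨g, hg⟩ : ∃ g : List Bool → ℕ,
      g = fun x => p.eval (s x) + Q.eval (2 * s x + 1 + 3 * p.eval (s x)) := ⟨_, rfl⟩
  have t5 : PT g := by rw [hg]; fun_prop
  have b5 : PB g := by rw [hg]; fun_prop
  have t6 : PT fun x : List Bool => List.replicate (p'.eval x.length) true :=
    PT.replicate t1 b1 (PT.const _)
  have t7 : PT fun x => List.replicate (g x) true := PT.replicate t5 b5 (PT.const _)
  obtain ⟨U, hU⟩ : ∃ U : List Bool → List Bool, U = fun x => code [List.replicate e true, x,
      List.replicate (p'.eval x.length) true, List.replicate (g x) true] := ⟨_, rfl⟩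
  have t8 : PT U := by
    have : PT fun x : List Bool => [List.replicate e true, x,
        List.replicate (p'.eval x.length) true, List.replicate (g x) true] :=
      (PT.const _).cons (PT.id'.cons (t6.cons (t7.cons (PT.const _))))
    rw [hU]
    unfold code enc
    exact this.flatMap (by fun_prop)
  have l1 : ∀ x, g x ≤ (U x).length := by
    intro x
    rw [hU]
    simp only [length_code, List.map_cons, List.map_nil, List.sum_cons, List.length_replicate]
    omega
  have key : ∀ x, (∃ (e : ℕ) (x' w pad y : List Bool),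
      U x = code [List.replicate e true, x', w, pad] ∧ y.length ≤ w.length ∧
        Acc A (en e).1.1 (en e).2.1.1 (x', y) ((en e).2.2.1 (x', y)).length (U x).length) ↔
      L x = true := by
    intro x
    rw [hL]
    constructor
    · rintro ⟨e', x', w, pad, y, h1, h2, h3⟩
      rw [hU] at h1
      have h4 := code_injective h1
      simp only [List.cons.injEq, List.replicate_inj, or_true, and_true] at h4
      obtain ⟨rfl, rfl, rfl, -⟩ := h4
      rw [he] at h3
      refine ⟨y, by simpa using h2, ?_⟩
      have h5 := h3.2.2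
      rw [hR]
      simp only [hr'] at h5
      exact h5
    · rintro ⟨y, h1, h2⟩
      refine ⟨e, x, _, _, y, by rw [hU], by simpa using h1, ?_⟩
      have h3 : sz (x, y) ≤ s x := by
        rw [hs, sz_pair, sz_listBool, sz_listBool]
        beta_reduce
        omega
      have h4 := eval_mono p h3
      have h5 := l1 x
      rw [hg] at h5
      beta_reduce at h5
      rw [he]
      simp only [hr']
      refine ⟨by omega, fun i hi => ?_, hR (x, y) ▸ h2⟩
      have h6 : sz ((x, y), ans A q (x, y) i) ≤ 2 * s x + 1 + 3 * p.eval (s x) := by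
        rw [sz_pair, sz_listBool, length_ans]
        omega
      have h7 := (hQ ((x, y), ans A q (x, y) i)).trans (eval_mono Q h6)
      beta_reduce at h7
      omega
  exact ⟨U, t8, fun x => Bool.eq_iff_iff.2 ((key x).symm.trans decide_eq_true_iff.symm)⟩

theorem pt_code {α : Type} [N487b59b3 α] {f : α → List (List Bool)} (h : PT f) :
    PT fun a => code (f a) := by
  unfold code enc
  exact h.flatMap (by fun_prop)

theorem pt_ansc {α : Type} [N487b59b3 α] {f : α → List Bool} (h : PT f) :
    PT fun a => ansc (f a) :=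
  pt_code ((PT.const _).cons (h.cons (PT.const _)))

theorem code3_inj : Function.Injective fun t : ℕ × List Bool × List Bool =>
    code [List.replicate t.1 true, t.2.1, t.2.2] := by
  rintro ⟨e, x, w⟩ ⟨e', x', w'⟩ h
  simpa using code_injective h

/-- The two oracles side by side. -/
abbrev join (A B : List Bool → Bool) (s : List Bool) : Bool :=
  cond (s.headD false) (A s.tail) (B s.tail)

theorem enc_q : ∃ b : List Bool → (List Bool → Bool) → Bool, BCert b ∧
    (∀ A L, InNP A L → ∃ U : List Bool → List Bool, PT U ∧ ∀ x, L x = b (U x) A) ∧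
    ∀ A B L, InBQP A B → InNP (join A B) L →
      ∃ (V : List Bool × List Bool → List Bool) (r : List Bool → List Bool), PT V ∧ PT r ∧
        ∀ x, L x = b (V (x, List.replicate (2 ^ (r x).length) true)) A := by
  classical
  obtain ⟨b1, hb1, h1⟩ := enc_np
  obtain ⟨G, hG⟩ := (pt_countable (List Bool)
    (List Bool × List (ℕ × ℕ × List ℕ))).exists_eq_range ⟨fun _ => ([], []), PT.const _⟩
  let cut : ℕ → (List Bool → Bool) → List Bool → Bool := fun n A s => A s && decide (s.length ≤ n)
  let dec : ℕ → (List Bool → Bool) → List Bool → Bool :=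
    fun e A s => decide (2 / 3 ≤ acc A (G e s).1.length (G e s).2)
  let b2 : List Bool → (List Bool → Bool) → Bool := fun u A =>
    Function.extend (fun t : ℕ × List Bool × List Bool =>
      code [List.replicate t.1 true, t.2.1, t.2.2])
      (fun t C => b1 t.2.1 (join C (dec t.1 C))) (fun _ _ => false) u (cut (Nat.log 3 u.length) A)
  have hb2 : BCert b2 := by
    intro u A h
    by_cases hu : u.length = 0
    · exact absurd h (by
        simp only [b2]
        rw [Function.extend_apply' _ _ _ fun ⟨t, ht⟩ => by
          simpa [length_code, hu] using congrArg List.length ht]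
        simp)
    · refine ⟨univ.image fun s : Sh (Nat.log 3 u.length) => s.1,
        card_image_le.trans ((card_Sh _).trans (Nat.pow_log_le_self 3 hu)),
        fun s hs => ?_, fun C hC => ?_⟩
      · obtain ⟨s, -, rfl⟩ := mem_image.1 hs
        exact s.2.trans (Nat.log_le_self _ _)
      · have : cut (Nat.log 3 u.length) C = cut (Nat.log 3 u.length) A := by
          funext s
          by_cases hs : s.length ≤ Nat.log 3 u.length
          · simp only [cut, hC s (mem_image.2 ⟨⟨s, hs⟩, mem_univ _, rfl⟩)]
          · simp only [cut, decide_eq_false hs, Bool.and_false]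
        simp only [b2] at h ⊢
        rwa [this]
  refine ⟨fun u => cond (u.headD false) (b1 u.tail) (b2 u.tail), fun u A h => ?_,
    fun A L hL => ?_, fun A B L ⟨G', hG', hB⟩ hL => ?_⟩
  · rcases u with _ | ⟨_ | _, u⟩
    · exact hb2 [] A h
    · obtain ⟨S, s1, s2, s3⟩ := hb2 u A h
      exact ⟨S, s1.trans (Nat.le_succ _), fun s hs => (s2 s hs).trans (Nat.le_succ _), s3⟩
    · obtain ⟨S, s1, s2, s3⟩ := hb1 u A h
      exact ⟨S, s1.trans (Nat.le_succ _), fun s hs => (s2 s hs).trans (Nat.le_succ _), s3⟩
  · obtain ⟨U, t, hU⟩ := h1 A L hL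
    exact ⟨fun x => true :: U x, (PT.const _).cons t, hU⟩
  · obtain ⟨U, t, hU⟩ := h1 _ L hL
    obtain ⟨e, rfl⟩ : G' ∈ Set.range G := hG ▸ PT.ofIsPolyTime hG'
    obtain ⟨Q, hQ⟩ : PB fun x => sz (G e x) := PB.sz (PT.ofIsPolyTime hG')
    have t1 : PT fun x => 2 * ((U x).length + Q.eval (3 * (U x).length)) := by
      have := pt_eval (f := fun x => 3 * (U x).length) (by fun_prop) Q
      fun_prop
    have t2 : PB fun x => 2 * ((U x).length + Q.eval (3 * (U x).length)) := by
      have : PB fun x => Q.eval (3 * (U x).length) :=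
        PBe.eval (show PB fun x => 3 * (U x).length by fun_prop) Q
      fun_prop
    refine ⟨fun a => false :: code [List.replicate e true, U a.1, a.2],
      fun x => List.replicate (2 * ((U x).length + Q.eval (3 * (U x).length))) true,
      (PT.const _).cons (pt_code (by fun_prop)), PT.replicate t1 t2 (PT.const _), fun x => ?_⟩
    simp only [List.headD_cons, List.tail_cons, cond_false, b2, List.length_replicate]
    rw [code3_inj.extend_apply _ _ (e, U x, _), hU]
    obtain ⟨n, hn⟩ : ∃ n, n = Nat.log 3 (code [List.replicate e true, U x, List.replicate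
      (2 ^ (2 * ((U x).length + Q.eval (3 * (U x).length)))) true]).length := ⟨_, rfl⟩
    have h2 : (U x).length + Q.eval (3 * (U x).length) ≤ n := by
      rw [hn]
      refine Nat.le_log_of_pow_le (by norm_num) ?_
      have := Nat.pow_le_pow_left (show 3 ≤ 2 ^ 2 by norm_num)
        ((U x).length + Q.eval (3 * (U x).length))
      rw [← pow_mul] at this
      simp only [length_code, List.map_cons, List.map_nil, List.sum_cons, List.length_replicate]
      omega
    rw [← hn]
    refine (hb1 (U x)).dep fun s hs => ?_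
    have h3 : s.tail.length ≤ (U x).length := by rw [List.length_tail]; omega
    have h4 : ∀ s : List Bool, s.length ≤ n → cut n A s = A s := fun s h => by simp [cut, h]
    have h5 : dec e (cut n A) s.tail = B s.tail := by
      have h6 : acc (cut n A) (G e s.tail).1.length (G e s.tail).2 =
          acc A (G e s.tail).1.length (G e s.tail).2 := local_proof _ _ _ _ fun g hg p hp => h4 p (by
        have h7 := sz_mem hg
        have h8 := length_le_sz g.2.2
        have h9 : sz (G e s.tail) ≤ Q.eval (sz s.tail) := hQ s.tail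
        have h10 := eval_mono Q (Nat.mul_le_mul_left 3 h3)
        rw [sz_prod, sz_prod g.2] at h7
        rw [sz_listBool, sz_prod] at h9
        omega)
      simp only [dec, h6]
      cases h : B s.tail
      · exact decide_eq_false (by linarith [(hB _).2 h])
      · exact decide_eq_true ((hB _).1 h)
    simp only [join, h5, h4 _ (by omega : s.tail.length ≤ n)]

theorem enc_exp : ∃ σ : List Bool → List Bool, (∀ u, (σ u).length ≤ 2 ^ u.length) ∧
    ∀ (V : List Bool × List Bool → List Bool) (r : List Bool → List Bool), PT V → PT r →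
      ∃ W : List Bool → List Bool, PT W ∧ ∀ x, 60 ≤ (W x).length ∧
        σ (W x) = V (x, List.replicate (2 ^ (r x).length) true) := by
  have c1 := (pt_countable (List Bool × List Bool) (List Bool)).to_subtype
  have c2 := (pt_countable (List Bool) (List Bool)).to_subtype
  have c3 : Nonempty ({f : List Bool × List Bool → List Bool | PT f} ×
      {f : List Bool → List Bool | PT f}) := ⟨⟨_, PT.const []⟩, ⟨_, PT.const []⟩⟩
  obtain ⟨en, hen⟩ := exists_surjective_nat ({f : List Bool × List Bool → List Bool | PT f} ×
      {f : List Bool → List Bool | PT f})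
  let σ : List Bool → List Bool := Function.extend (fun t : ℕ × List Bool × List Bool =>
      code [List.replicate t.1 true, t.2.1, t.2.2]) (fun t => (en t.1).1.1
        (t.2.1, List.replicate (2 ^ ((en t.1).2.1 t.2.1).length) true)) fun _ => []
  refine ⟨fun u => (σ u).take (2 ^ u.length), fun u => List.length_take_le _ _,
    fun V r hV hr => ?_⟩
  obtain ⟨e, he⟩ := hen (⟨V, hV⟩, ⟨r, hr⟩)
  obtain ⟨Q, hQ⟩ := PB.length hV
  obtain ⟨d, hd⟩ := poly_le_pow Q
  have t1 : PT fun x => List.replicate (60 + (x.length + (r x).length + 2) * d) true :=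
    PT.replicate (by fun_prop) (by fun_prop) (PT.const _)
  refine ⟨fun x => code [List.replicate e true, x,
    List.replicate (60 + (x.length + (r x).length + 2) * d) true],
    pt_code ((PT.const _).cons (PT.id'.cons (t1.cons (PT.const _)))), fun x => ?_⟩
  have l1 : 60 + (x.length + (r x).length + 2) * d ≤ (code [List.replicate e true, x,
      List.replicate (60 + (x.length + (r x).length + 2) * d) true]).length := by
    simp only [length_code, List.map_cons, List.map_nil, List.sum_cons, List.length_replicate]
    omega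
  refine ⟨le_trans (Nat.le_add_right _ _) l1, ?_⟩
  simp only [σ]
  rw [code3_inj.extend_apply _ _ (e, x, _), he]
  refine List.take_of_length_le ((hQ _).trans ?_)
  have h1 : sz (x, List.replicate (2 ^ (r x).length) true) ≤
      3 * 2 ^ (x.length + (r x).length + 2) := by
    rw [sz_pair, sz_listBool, sz_listBool, List.length_replicate, pow_add, pow_add]
    have a1 : x.length < 2 ^ x.length := Nat.lt_two_pow_self
    have a2 : 1 ≤ 2 ^ (r x).length := Nat.one_le_two_pow
    nlinarith
  refine (eval_mono Q h1).trans ((hd _ ?_).trans ?_)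
  · exact le_trans (by norm_num) (Nat.pow_le_pow_right two_pos (Nat.le_add_left 2 _))
  · rw [← pow_mul]
    exact Nat.pow_le_pow_right two_pos (by omega)

theorem pacc_good {A : List Bool → Bool} {u : List Bool} {l r : ℕ} (hr : r = 2 ^ 17) {β : Bool}
    (h : ∀ j < r, good β (inst A u l j)) :
    (β = true → 2 / 3 ≤ pacc A u l r) ∧ (β = false → pacc A u l r ≤ 1 / 3) := by
  have hr' : (r : ℝ) = 131072 := by rw [hr]; norm_num
  constructor
  · intro hβ
    have h1 : ∏ j ∈ range r, (1 - Phi (inst A u l j) ^ 2) ≤ ∏ _j ∈ range r, Real.exp (-(1 / 65536)) :=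
      prod_le_prod (fun j _ => sub_nonneg.2 ((phi_proof l).1 _)) fun j hj => by
        have := (h j (mem_range.1 hj)).1 hβ
        exact le_trans (by nlinarith) (Real.one_sub_le_exp_neg (1 / 65536))
    rw [prod_const, card_range, ← Real.exp_nat_mul, hr',
      show (131072 : ℝ) * -(1 / 65536) = -2 by norm_num, Real.exp_neg] at h1
    have h2 : (Real.exp 2)⁻¹ ≤ 3⁻¹ :=
      inv_anti₀ (by norm_num) (by linarith [Real.add_one_le_exp (2 : ℝ)])
    rw [pacc]
    linarith
  · intro hβ
    refine (one_sub_prod_le _ _ (fun j => sq_nonneg _) fun j => (phi_proof l).1 _).trans ?_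
    have h1 : ∑ j ∈ range r, Phi (inst A u l j) ^ 2 ≤ ∑ _j ∈ range r, (1 / 1024 : ℝ) ^ 2 :=
      sum_le_sum fun j hj => by
        rw [← sq_abs]
        exact pow_le_pow_left₀ (abs_nonneg _) ((h j (mem_range.1 hj)).2 hβ) 2
    rw [sum_const, card_range, nsmul_eq_mul, hr'] at h1
    linarith

theorem world {b : List Bool → (List Bool → Bool) → Bool} (hb : BCert b) :
    ∃ A : List Bool → Bool, (∀ u, A (ansc u) = b u A) ∧
      ∀ (V : List Bool × List Bool → List Bool) (r : List Bool → List Bool), PT V → PT r →
        InBQP A fun x => A (V (x, List.replicate (2 ^ (r x).length) true)) := by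
  obtain ⟨σ, h1, h2⟩ := enc_exp
  obtain ⟨n, hn⟩ : ∃ n : ℕ, n = 2 ^ 17 := ⟨_, rfl⟩
  obtain ⟨A, a1, a2, a3⟩ := core hb σ h1 n hn.le
  obtain ⟨G, hG, hG'⟩ := circ_proof
  refine ⟨A, a2, fun V r hV hr => ?_⟩
  obtain ⟨W, hW, h3⟩ := h2 V r hV hr
  have t : PT fun x => (W x, List.replicate ((W x).length ^ 3) true, List.replicate n true) :=
    hW.pair (PT.pair (PT.replicate (by fun_prop) (by fun_prop) (PT.const _)) (PT.const _))
  refine ⟨_, (hG.comp' t).isPolyTime, fun x => ?_⟩
  simp only [hG' A a1, List.length_replicate, ← (h3 x).2]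
  exact pacc_good hn (a3 (W x) (h3 x).1)

end EX

end Pool.Agent.Lib.MP_2733b3_lc
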