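import Pool.Agent.Lib.MP_2733b3_lc.ELow

/-! Planting the instances one at a time: a fixed point. -/

set_option autoImplicit false

namespace Pool.Agent.Lib.MP_2733b3_lc

open Finset RT

namespace EX

variable {I : Type} [Fintype I] [DecidableEq I] {l : I → ℕ}

/-- The uniform weight. -/
noncomputable def un (Ω : Type) [Fintype Ω] : Ω → ℝ := fun _ => 1 / Fintype.card Ω

theorem un_nonneg {Ω : Type} [Fintype Ω] (x : Ω) : 0 ≤ un Ω x := by unfold un; positivity

theorem sum_un {Ω : Type} [Fintype Ω] [Nonempty Ω] : ∑ x, un Ω x = 1 := by simp [un]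

theorem avg (i : I) (E : (∀ i, Var (l i) → Bool) → Prop) :
    ∑ X, un _ X * pr (bias 0) (fun x => E (Function.update X i x)) = pr (un _) E := by
  classical
  have h := Fintype.sum_bijective
    (fun p : (∀ i, Var (l i) → Bool) × (Var (l i) → Bool) => (Function.update p.1 i p.2, p.1 i))
    (Function.Involutive.bijective fun p => by simp)
    (fun p => if E (Function.update p.1 i p.2) then un _ p.1 * bias 0 (p.1 i) else 0)
    (fun p => if E p.1 then un _ p.1 * bias 0 p.2 else 0) fun p => rfl
  simp only [Fintype.sum_prod_type] at h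
  unfold pr
  simp only [mul_sum]
  refine Eq.trans (sum_congr rfl fun X _ => sum_congr rfl fun x _ => ?_)
    (h.trans (sum_congr rfl fun X _ => ?_))
  · by_cases hE : E (Function.update X i x)
    · simp only [hE, if_true]
      rw [bias0_eq x (X i)]
    · simp [hE]
  · by_cases hE : E X
    · simp only [hE, if_true, ← mul_sum, RT.sum_bias, mul_one]
    · simp [hE]

theorem plant (i : I) (β : Bool) (E : (∀ i, Var (l i) → Bool) → Bool) (t : ℕ) (ν η : ℝ)
    (hη : 0 < η) (hγ : 16 * (t : ℝ) ^ 2 * sig (l i) ≤ 1 / 2)
    (ht : ∀ X (z : Var (l i) → ℝ), (∀ v, |z v| ≤ 1 / 2) →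
      pr (bias z) (fun x => t < sens (fun x => E (Function.update X i x)) x) ≤ ν)
    (hp : 4 * (32 * (Fintype.card (Var (l i)) : ℝ) ^ 3 * ν + η +
      Real.exp (2 - 1 / (4096 * sig (l i)))) < pr (un _) (fun X => E X = true)) :
    ∃ x, good β x ∧ pr (un _) (fun X => E X = true) / 4 ≤
      pr (un _) (fun X => E (Function.update X i x) = true) := by
  classical
  obtain ⟨D, D0, D1, D2, D3⟩ := low (l i) β η hη
  by_contra hc
  push Not at hc
  obtain ⟨τ, hτ⟩ : ∃ τ, τ = 32 * (Fintype.card (Var (l i)) : ℝ) ^ 3 * ν + η := ⟨_, rfl⟩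
  rw [← hτ] at hp
  have p0 := pr_nonneg (μ := un _) un_nonneg fun X => E X = true
  have a1 : pr (un _) (fun X => E X = true) / 2 - τ ≤
      ∑ X, un _ X * pr D (fun x => E (Function.update X i x) = true) := by
    rw [← avg i, ← one_mul τ, ← sum_un (Ω := ∀ i, Var (l i) → Bool), sum_div, sum_mul,
      ← sum_sub_distrib]
    refine sum_le_sum fun X _ => ?_
    have := mul_le_mul_of_nonneg_left (D3 _ t ν hγ (ht X)) (un_nonneg X)
    rw [← hτ] at this
    linarith
  have a2 : ∑ X, un _ X * pr D (fun x => E (Function.update X i x) = true) =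
      ∑ x, D x * pr (un _) (fun X => E (Function.update X i x) = true) := by
    unfold pr
    simp only [mul_sum]
    rw [sum_comm]
    refine sum_congr rfl fun x _ => sum_congr rfl fun X _ => ?_
    split_ifs <;> ring
  have a3 : ∑ x, D x * pr (un _) (fun X => E (Function.update X i x) = true) ≤
      pr (un _) (fun X => E X = true) / 4 + pr D (fun x => ¬ good β x) := by
    rw [← one_mul (_ / 4), ← D1, sum_mul, pr.eq_1 D, ← sum_add_distrib]
    refine sum_le_sum fun x _ => ?_
    split_ifs with h
    · have := mul_le_mul_of_nonneg_left (hc x h).le (D0 x)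
      linarith
    · have b1 := mul_le_mul_of_nonneg_left ((pr_le_sum (μ := un _) un_nonneg
        fun X => E (Function.update X i x) = true).trans sum_un.le) (D0 x)
      have b2 := mul_nonneg (D0 x) p0
      linarith
  linarith

theorem fix (lev : I → ℕ) (out : I → (∀ i, Var (l i) → Bool) → Bool)
    (H : ∀ i (s : Finset I), (∀ j ∈ s, lev j ≤ lev i) → ∃ (t : ℕ) (ν η : ℝ), 0 < η ∧
      16 * (t : ℝ) ^ 2 * sig (l i) ≤ 1 / 2 ∧
      8 ^ s.card * (32 * (Fintype.card (Var (l i)) : ℝ) ^ 3 * ν + η +
        Real.exp (2 - 1 / (4096 * sig (l i)))) < 1 ∧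
      ∀ (a : I → Bool) X (z : Var (l i) → ℝ), (∀ v, |z v| ≤ 1 / 2) → pr (bias z) (fun x => t <
        sens (fun x => decide (∀ j ∈ s, out j (Function.update X i x) = a j)) x) ≤ ν) :
    ∃ X, ∀ i, good (out i X) (X i) := by
  have key : ∀ s : Finset I, ∃ (a : I → Bool) (Y : ∀ i, Var (l i) → Bool),
      (∀ i ∈ s, good (a i) (Y i)) ∧
      1 / 8 ^ s.card ≤ pr (un _) (fun X => ∀ j ∈ s, out j (s.piecewise Y X) = a j) := by
    intro s
    induction s using Finset.induction_on_max_value lev with
    | empty => exact ⟨fun _ => false, fun _ _ => false, by simp, by simp [pr, sum_un]⟩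
    | insert i s hi hl ih =>
      obtain ⟨a, Y, h1, h2⟩ := ih
      obtain ⟨β, hβ⟩ : ∃ β : Bool, 1 / 8 ^ s.card / 2 ≤ pr (un _) (fun X =>
          (∀ j ∈ s, out j (s.piecewise Y X) = a j) ∧ out i (s.piecewise Y X) = β) := by
        by_contra hc
        push Not at hc
        have b1 := pr_or (μ := un _) un_nonneg (fun X =>
          (∀ j ∈ s, out j (s.piecewise Y X) = a j) ∧ out i (s.piecewise Y X) = true) (fun X =>
          (∀ j ∈ s, out j (s.piecewise Y X) = a j) ∧ out i (s.piecewise Y X) = false)
        have b2 := h2.trans ((pr_mono un_nonneg fun X hX => by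
          rcases Bool.eq_false_or_eq_true (out i (s.piecewise Y X)) with h | h
          exacts [Or.inl ⟨hX, h⟩, Or.inr ⟨hX, h⟩]).trans b1)
        linarith [hc true, hc false]
      obtain ⟨t, ν, η, g1, g2, g3, g4⟩ := H i (insert i s) fun j hj => by
        rcases mem_insert.1 hj with rfl | hj
        exacts [le_rfl, hl j hj]
      have ne : ∀ j ∈ s, j ≠ i := fun j hj e => hi (e ▸ hj)
      have e1 : ∀ X x, s.piecewise Y (Function.update X i x) =
          Function.update (s.piecewise Y X) i x := by
        intro X x
        funext j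
        by_cases hj : j = i
        · subst hj; simp [hi]
        · by_cases hs : j ∈ s <;> simp [hj, hs]
      have e2 : pr (un _) (fun X => (∀ j ∈ s, out j (s.piecewise Y X) = a j) ∧
          out i (s.piecewise Y X) = β) = pr (un _) (fun X => decide (∀ j ∈ insert i s,
          out j (s.piecewise Y X) = Function.update a i β j) = true) := by
        refine pr_congr fun X => ?_
        rw [decide_eq_true_iff, forall_mem_insert, Function.update_self, and_comm]
        exact and_congr_right fun _ => forall₂_congr fun j hj => by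
          rw [Function.update_of_ne (ne j hj)]
      rw [e2] at hβ
      rw [card_insert_of_notMem hi, pow_succ] at g3
      have p8 : (0 : ℝ) < 8 ^ s.card := by positivity
      obtain ⟨x, x1, x2⟩ := plant i β (fun X => decide (∀ j ∈ insert i s,
          out j (s.piecewise Y X) = Function.update a i β j)) t ν η g1 g2
        (fun X z hz => by simpa only [e1] using g4 (Function.update a i β) (s.piecewise Y X) z hz)
        (lt_of_lt_of_le (by rw [lt_div_iff₀ two_pos, lt_div_iff₀ p8]; linarith) hβ)
      refine ⟨Function.update a i β, Function.update Y i x, fun j hj => ?_, ?_⟩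
      · rcases mem_insert.1 hj with rfl | hj
        · simpa using x1
        · rw [Function.update_of_ne (ne j hj), Function.update_of_ne (ne j hj)]
          exact h1 j hj
      · have e3 : ∀ X, (insert i s).piecewise (Function.update Y i x) X =
            s.piecewise Y (Function.update X i x) := by
          intro X
          funext j
          by_cases hj : j = i
          · subst hj; simp [hi]
          · by_cases hs : j ∈ s <;> simp [hj, hs]
        simp only [e3]
        simp only [decide_eq_true_iff] at x2 hβ
        refine le_trans ?_ x2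
        rw [card_insert_of_notMem hi, pow_succ, ← div_div]
        linarith
  obtain ⟨a, Y, h1, h2⟩ := key univ
  refine ⟨Y, fun i => ?_⟩
  by_contra hc
  have : pr (un (∀ i, Var (l i) → Bool))
      (fun X => ∀ j ∈ univ, out j ((univ : Finset I).piecewise Y X) = a j) = 0 := by
    rw [← pr_false (μ := un (∀ i, Var (l i) → Bool))]
    refine pr_congr fun X => ⟨fun h => hc ?_, False.elim⟩
    have := h i (mem_univ i)
    rw [piecewise_univ] at this
    exact this ▸ h1 i (mem_univ i)
  rw [this] at h2
  exact absurd h2 (not_le.2 (by positivity))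

end EX

end Pool.Agent.Lib.MP_2733b3_lc
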