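import Pool.Agent.Lib.MP_2733b3_lc.Basic

/-! Elementary facts on `pr` and `cnt`. -/

set_option autoImplicit false

namespace Pool.Agent.Lib.MP_2733b3_lc

open Finset

section
variable {Ω M : Type} [Fintype Ω] [Fintype M] {μ : Ω → ℝ}

theorem pr_nonneg (hμ : ∀ ω, 0 ≤ μ ω) (E : Ω → Prop) : 0 ≤ pr μ E :=
  sum_nonneg fun ω _ => by split_ifs <;> simp [hμ ω]

theorem pr_mono (hμ : ∀ ω, 0 ≤ μ ω) {E E' : Ω → Prop} (h : ∀ ω, E ω → E' ω) :
    pr μ E ≤ pr μ E' :=
  sum_le_sum fun ω _ => by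
    by_cases h1 : E ω
    · simp [h1, h ω h1]
    · by_cases h2 : E' ω <;> simp [h1, h2, hμ ω]

theorem pr_congr {E E' : Ω → Prop} (h : ∀ ω, E ω ↔ E' ω) : pr μ E = pr μ E' := by
  have : E = E' := funext fun ω => propext (h ω)
  rw [this]

theorem pr_le_sum (hμ : ∀ ω, 0 ≤ μ ω) (E : Ω → Prop) : pr μ E ≤ ∑ ω, μ ω :=
  sum_le_sum fun ω _ => by split_ifs <;> simp [hμ ω]

theorem pr_or (hμ : ∀ ω, 0 ≤ μ ω) (E E' : Ω → Prop) :
    pr μ (fun ω => E ω ∨ E' ω) ≤ pr μ E + pr μ E' := by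
  unfold pr
  rw [← sum_add_distrib]
  refine sum_le_sum fun ω _ => ?_
  have := hμ ω
  by_cases h1 : E ω <;> by_cases h2 : E' ω <;> simp [h1, h2, this]

theorem pr_false : pr μ (fun _ => False) = 0 := by simp [pr]

theorem pr_exists_mem {ι : Type} (hμ : ∀ ω, 0 ≤ μ ω) (s : Finset ι) (E : ι → Ω → Prop) :
    pr μ (fun ω => ∃ i ∈ s, E i ω) ≤ ∑ i ∈ s, pr μ (E i) := by
  classical
  induction s using Finset.induction_on with
  | empty => simp [pr]
  | insert a s ha ih =>
    rw [sum_insert ha]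
    refine le_trans (pr_mono hμ (E' := fun ω => E a ω ∨ ∃ i ∈ s, E i ω) fun ω h => ?_)
      ((pr_or hμ _ _).trans (by linarith))
    obtain ⟨i, hi, h⟩ := h
    rcases mem_insert.1 hi with rfl | hi
    · exact Or.inl h
    · exact Or.inr ⟨i, hi, h⟩

theorem pr_exists_le {ι : Type} (hμ : ∀ ω, 0 ≤ μ ω) (s : Finset ι) (E : ι → Ω → Prop) (x : ℝ)
    (h : ∀ i ∈ s, pr μ (E i) ≤ x) : pr μ (fun ω => ∃ i ∈ s, E i ω) ≤ s.card * x :=
  (pr_exists_mem hμ s E).trans (by simpa using sum_le_card_nsmul s _ x h)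

theorem pr_exists_le' {ι : Type} [Fintype ι] (hμ : ∀ ω, 0 ≤ μ ω) (E : ι → Ω → Prop) (x : ℝ)
    (h : ∀ i, pr μ (E i) ≤ x) : pr μ (fun ω => ∃ i, E i ω) ≤ Fintype.card ι * x := by
  have := pr_exists_le hμ univ E x fun i _ => h i
  simpa using this

theorem exists_not_of_pr_lt {E : Ω → Prop} (h : pr μ E < ∑ ω, μ ω) : ∃ ω, ¬ E ω := by
  by_contra h'
  push Not at h'
  simp [pr, h'] at h

theorem pr_comp_le (e : Ω ≃ Ω) (c : ℝ) (h : ∀ ω, μ ω ≤ c * μ (e ω)) (E : Ω → Prop) :
    pr μ (fun ω => E (e ω)) ≤ c * pr μ E := by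
  unfold pr
  rw [mul_sum]
  refine le_trans (sum_le_sum fun ω _ => ?_) (le_of_eq (Equiv.sum_comp e _))
  by_cases h' : E (e ω)
  · simp only [h', if_true]; exact h ω
  · simp [h']

theorem cnt_mono {E E' : M → Prop} (h : ∀ m, E m → E' m) : cnt E ≤ cnt E' := by
  classical
  unfold cnt
  exact card_le_card fun m hm => by
    simp only [mem_filter, mem_univ, true_and] at hm ⊢
    exact h m hm

theorem cnt_congr {E E' : M → Prop} (h : ∀ m, E m ↔ E' m) : cnt E = cnt E' := by
  have : E = E' := funext fun ω => propext (h ω)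
  rw [this]

theorem cnt_eq_sum (E : M → Prop) [DecidablePred E] : cnt E = ∑ m, if E m then 1 else 0 := by
  unfold cnt
  rw [card_filter]
  exact sum_congr rfl fun m _ => by by_cases h : E m <;> simp [h]

theorem cnt_or (E E' : M → Prop) : cnt (fun m => E m ∨ E' m) ≤ cnt E + cnt E' := by
  classical
  simp only [cnt_eq_sum, ← sum_add_distrib]
  exact sum_le_sum fun m _ => by by_cases h1 : E m <;> by_cases h2 : E' m <;> simp [h1, h2]

theorem cnt_le_card (E : M → Prop) : cnt E ≤ Fintype.card M := by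
  classical
  unfold cnt
  exact card_le_univ _

theorem cnt_false : cnt (fun _ : M => False) = 0 := by simp [cnt]

theorem cnt_split (E E' : M → Prop) :
    cnt E = cnt (fun m => E m ∧ E' m) + cnt (fun m => E m ∧ ¬ E' m) := by
  classical
  simp only [cnt_eq_sum, ← sum_add_distrib]
  exact sum_congr rfl fun m _ => by by_cases h1 : E m <;> by_cases h2 : E' m <;> simp [h1, h2]

theorem cnt_exists_le {ι : Type} (s : Finset ι) (E : ι → M → Prop) (u : ℕ)
    (h : ∀ i ∈ s, cnt (E i) ≤ u) : cnt (fun m => ∃ i ∈ s, E i m) ≤ s.card * u := by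
  classical
  induction s using Finset.induction_on with
  | empty => simp [cnt]
  | insert a s ha ih =>
    rw [card_insert_of_notMem ha]
    have h1 := h a (mem_insert_self _ _)
    have h2 := ih fun i hi => h i (mem_insert_of_mem hi)
    have h3 : cnt (fun m => ∃ i ∈ insert a s, E i m) ≤ cnt (fun m => E a m ∨ ∃ i ∈ s, E i m) :=
      cnt_mono fun m hm => by
        obtain ⟨i, hi, h'⟩ := hm
        rcases mem_insert.1 hi with rfl | hi
        · exact Or.inl h'
        · exact Or.inr ⟨i, hi, h'⟩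
    have h4 := cnt_or (E a) (fun m => ∃ i ∈ s, E i m)
    nlinarith

theorem cnt_le_one {E : M → Prop} (a : M) (h : ∀ m, E m → m = a) : cnt E ≤ 1 := by
  classical
  unfold cnt
  exact card_le_one.2 fun x hx y hy => by
    simp only [mem_filter, mem_univ, true_and] at hx hy
    rw [h x hx, h y hy]

theorem cnt_swap {M' : Type} [Fintype M'] (E : M → M' → Prop) :
    ∑ m, cnt (E m) = ∑ m', cnt (fun m => E m m') := by
  classical
  simp only [cnt_eq_sum]
  exact sum_comm

theorem cnt_pos {E : M → Prop} (h : 0 < cnt E) : ∃ m, E m := by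
  by_contra h'
  push Not at h'
  simp [cnt, h'] at h

/-- Markov inequality for counts. -/
theorem cnt_markov (g : M → ℕ) (e : ℕ) : cnt (fun m => e < g m) * (e + 1) ≤ ∑ m, g m := by
  classical
  rw [cnt_eq_sum, sum_mul]
  exact sum_le_sum fun m _ => by split_ifs with h <;> omega

end

end Pool.Agent.Lib.MP_2733b3_lc
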