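import Pool.Agent.Lib.MP_2733b3_lc.EPot
import Pool.Agent.Lib.MP_2733b3_lc.Deriv
import Pool.Agent.Lib.MP_2733b3_lc.Prob

/-! A lower multiplicative form of the theorem of Raz and Tal, with a doubly small failure. -/

set_option autoImplicit false

namespace Pool.Agent.Lib.MP_2733b3_lc

open Finset RT

namespace EX

/-- The instance has the type `β`. -/
def good {l : ℕ} (β : Bool) (x : Var l → Bool) : Prop :=
  (β = true → 1 / 256 ≤ Phi x) ∧ (β = false → |Phi x| ≤ 1 / 1024)

theorem pr_le_sum_mul {X : Type} [Fintype X] {μ : X → ℝ} (h0 : ∀ x, 0 ≤ μ x) (E : X → Prop)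
    (g : X → ℝ) (hg : ∀ x, 0 ≤ g x) (h : ∀ x, E x → 1 ≤ g x) : pr μ E ≤ ∑ x, μ x * g x := by
  unfold pr
  refine sum_le_sum fun x _ => ?_
  split_ifs with hx
  · exact le_mul_of_one_le_right (h0 x) (h x hx)
  · exact mul_nonneg (h0 x) (hg x)

theorem low (l : ℕ) (β : Bool) (η : ℝ) (hη : 0 < η) :
    ∃ D : (Var l → Bool) → ℝ, (∀ x, 0 ≤ D x) ∧ ∑ x, D x = 1 ∧
      pr D (fun x => ¬ good β x) ≤ Real.exp (2 - 1 / (4096 * sig l)) ∧
      ∀ (F : (Var l → Bool) → Bool) (t : ℕ) (ν : ℝ), 16 * (t : ℝ) ^ 2 * sig l ≤ 1 / 2 →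
        (∀ z : Var l → ℝ, (∀ v, |z v| ≤ 1 / 2) → pr (bias z) (fun x => t < sens F x) ≤ ν) →
        pr (bias 0) (fun x => F x = true) / 2 - (32 * (Fintype.card (Var l) : ℝ) ^ 3 * ν + η) ≤
          pr D (fun x => F x = true) := by
  have hs := sig_pos l
  have hs1 := sig_le_one l
  obtain ⟨θ, hθ⟩ : ∃ θ : ℝ, θ = 1 / (4 * sig l) := ⟨_, rfl⟩
  have hθ0 : 0 < θ := by rw [hθ]; positivity
  have hθ1 : θ * sig l = 1 / 4 := by rw [hθ]; field_simp
  have hθ2 : θ ^ 2 * sig l ^ 2 = 1 / 16 := by rw [← mul_pow, hθ1]; norm_num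
  have hθ3 : 1 / (4096 * sig l) = θ / 1024 := by rw [hθ]; field_simp; norm_num
  have p0 : phi (0 : Var l → ℝ) = 0 := by simp [phi]
  have hz0 : ∀ v : Var l, |(0 : Var l → ℝ) v| ≤ 1 / 2 := fun v => by simp
  have r1 : |θ| * sig l ≤ 1 / 2 := by rw [abs_of_pos hθ0]; linarith
  have r2 : |-θ| * sig l ≤ 1 / 2 := by rwa [abs_neg]
  have hν0 : ∀ (F : (Var l → Bool) → Bool) (t : ℕ) (ν : ℝ), (∀ z : Var l → ℝ,
      (∀ v, |z v| ≤ 1 / 2) → pr (bias z) (fun x => t < sens F x) ≤ ν) → 0 ≤ ν :=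
    fun F t ν hν => (RT.pr_nonneg (fun x => bias0_nonneg x) _).trans (hν 0 hz0)
  rw [hθ3]
  cases β
  · refine ⟨bias 0, bias0_nonneg, RT.sum_bias 0, ?_, fun F t ν _ hν => ?_⟩
    · refine (pr_le_sum_mul bias0_nonneg _ (fun x => Real.exp (-(θ / 1024)) *
        (Real.exp (θ * Phi x) + Real.exp (-θ * Phi x))) (fun x => by positivity)
        fun x hx => ?_).trans ?_
      · have h1 : 1 / 1024 < |Phi x| := by
          by_contra hc
          exact hx ⟨fun h => absurd h (by simp), fun _ => not_lt.1 hc⟩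
        rw [mul_add, ← Real.exp_add, ← Real.exp_add]
        rcases lt_abs.1 h1 with h | h
        · have := Real.one_le_exp (x := -(θ / 1024) + θ * Phi x) (by nlinarith)
          linarith [Real.exp_pos (-(θ / 1024) + -θ * Phi x)]
        · have := Real.one_le_exp (x := -(θ / 1024) + -θ * Phi x) (by nlinarith)
          linarith [Real.exp_pos (-(θ / 1024) + θ * Phi x)]
      · have a1 := round (z := (0 : Var l → ℝ)) (fun v => by simp) r1
        have a2 := round (z := (0 : Var l → ℝ)) (fun v => by simp) r2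
        rw [neg_sq] at a2
        rw [p0, mul_zero, zero_add, hθ2] at a1 a2
        simp only [mul_left_comm (bias 0 _), ← mul_sum]
        simp only [mul_add, sum_add_distrib]
        have a3 : 2 * Real.exp (2 * (1 / 16)) ≤ Real.exp 2 := by
          have b1 := Real.add_one_le_exp (1 : ℝ)
          have b2 : Real.exp (2 * (1 / 16)) ≤ Real.exp 1 := Real.exp_le_exp.2 (by norm_num)
          have b3 : Real.exp 2 = Real.exp 1 * Real.exp 1 := by rw [← Real.exp_add]; norm_num
          nlinarith [Real.exp_pos (2 * (1 / 16) : ℝ)]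
        rw [sub_eq_neg_add, Real.exp_add, ← mul_add]
        exact mul_le_mul_of_nonneg_left (by linarith) (Real.exp_pos _).le
    · have := hν0 F t ν hν
      have := RT.pr_nonneg (μ := bias (0 : Var l → ℝ)) bias0_nonneg fun x => F x = true
      have : 0 ≤ 32 * (Fintype.card (Var l) : ℝ) ^ 3 * ν := by positivity
      linarith
  obtain ⟨C, hC⟩ : ∃ C : ℝ,
      C = ((2 : ℝ) ^ l) ^ Fintype.card (Var l) * 4 ^ Fintype.card (Var l) := ⟨_, rfl⟩
  have hC0 : 0 < C := by rw [hC]; positivity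
  have hB : (1 : ℝ) ≤ 2 ^ l := one_le_pow₀ (by norm_num)
  obtain ⟨m, hm0, hm1, hm2⟩ : ∃ m : ℝ, 0 < m ∧ m * (4 * (2 ^ l) ^ 4) ≤ sig l ∧ m * C ≤ η := by
    refine ⟨min (sig l / (4 * (2 ^ l) ^ 4)) (η / C), lt_min (by positivity) (by positivity), ?_, ?_⟩
    · rw [← le_div_iff₀ (by positivity)]
      exact min_le_left _ _
    · rw [← le_div_iff₀ hC0]
      exact min_le_right _ _
  obtain ⟨K, hK⟩ := exists_nat_gt (1 / 64 / m ^ 2)
  have hK0 : (0 : ℝ) < K := lt_trans (by positivity) hK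
  obtain ⟨d, hd0, hdm, hKd⟩ : ∃ d : ℝ, 0 ≤ d ∧ d ≤ m ∧ K * d ^ 2 = 1 / 64 := by
    refine ⟨√(1 / 64 / K), Real.sqrt_nonneg _, ?_, ?_⟩
    · rw [Real.sqrt_le_left hm0.le, div_le_iff₀ hK0]
      rw [div_lt_iff₀ (by positivity)] at hK
      linarith
    · rw [Real.sq_sqrt (by positivity)]
      field_simp
  have hdB : d * (4 * (2 ^ l) ^ 4) ≤ sig l :=
    (mul_le_mul_of_nonneg_right hdm (by positivity)).trans hm1
  have hdC : d * C ≤ η := (mul_le_mul_of_nonneg_right hdm hC0.le).trans hm2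
  have hd4 : d * 2 ^ l ≤ 1 / 4 := by
    have := mul_le_mul_of_nonneg_left (le_self_pow₀ hB (show 4 ≠ 0 by norm_num)) hd0
    linarith
  have hd1 : d ≤ 1 := by nlinarith
  have key : ∀ c : (Var l → Bool) → ℝ, ∑ x, c x * (stp d)^[K] (fun z => bias z x) 0 =
      (stp d)^[K] (fun z => ∑ x, c x * bias z x) 0 := by
    intro c
    rw [iter_sum' c fun x z => bias z x]
  have half : ∀ z : Var l → ℝ, (∀ v, |z v| ≤ 1 / 2) → ∀ v, |z v| ≤ 1 :=
    fun z hz v => (hz v).trans (by norm_num)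
  have D0 : ∀ x, 0 ≤ (stp d)^[K] (fun z : Var l → ℝ => bias z x) 0 := fun x =>
    le_iter hd0 hd4 _ (fun _ _ => 0) (fun z hz => RT.bias_nonneg (half z hz) x)
      (fun k z _ => by simp [stp]) K 0 hz0
  refine ⟨fun x => (stp d)^[K] (fun z => bias z x) 0, D0, ?_, ?_, fun F t ν hγ hν => ?_⟩
  · have := key fun _ => 1
    simp only [one_mul, RT.sum_bias] at this
    rw [this, Function.iterate_fixed]
    funext z
    simp [stp, RT.sum_bias]
  · refine (pr_le_sum_mul D0 _ (fun x => Real.exp (θ / 256) * Real.exp (-θ * Phi x))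
      (fun x => by positivity) fun x hx => ?_).trans ?_
    · have h1 : Phi x < 1 / 256 := by
        by_contra hc
        exact hx ⟨fun _ => not_lt.1 hc, fun h => absurd h (by simp)⟩
      rw [← Real.exp_add]
      exact Real.one_le_exp (by nlinarith)
    · simp only [mul_comm ((stp d)^[K] _ _)]
      rw [key]
      refine (iter_le hd0 hd4 K _ (fun k z => Real.exp (θ / 256 + 1 / 8 + k * (d ^ 2 *
        (-θ / 2 + 22 / 16))) * Real.exp (θ * U (k * (16 * d ^ 2)) z) + 0) (fun z hz => ?_)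
        (fun k hk z hz => ?_) K le_rfl 0 hz0).trans ?_
      · have a2 := round (half z hz) r2
        rw [neg_sq, hθ2] at a2
        simp only [mul_assoc (Real.exp (θ / 256)), ← mul_sum, mul_comm (Real.exp (-θ * _))]
        refine (mul_le_mul_of_nonneg_left a2 (Real.exp_pos _).le).trans (le_of_eq ?_)
        rw [add_zero, ← Real.exp_add, ← Real.exp_add, U]
        congr 1
        push_cast
        ring
      · rw [stp_lin]
        have hk' : (k : ℝ) * d ^ 2 ≤ K * d ^ 2 :=
          mul_le_mul_of_nonneg_right (by exact_mod_cast hk.le) (sq_nonneg d)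
        have a1 := pot_stp (lam := k * (16 * d ^ 2)) (by positivity) (by linarith) hd0 hdB hθ0.le
          (by linarith) hz
        rw [add_zero, add_zero]
        refine (mul_le_mul_of_nonneg_left a1 (Real.exp_pos _).le).trans (le_of_eq ?_)
        rw [← Real.exp_add, ← Real.exp_add, hθ2]
        push_cast
        rw [add_mul (k : ℝ) 1 (16 * d ^ 2), one_mul]
        congr 1
        ring
      · rw [add_zero, ← Real.exp_add, ← mul_assoc (K : ℝ) (d ^ 2), hKd]
        refine Real.exp_le_exp.2 ?_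
        simp only [U, p0, Pi.zero_apply]
        simp
        linarith
  · have hν0 := hν0 F t ν hν
    obtain ⟨R, hR⟩ : ∃ R : ℝ, R = 32 * (Fintype.card (Var l) : ℝ) ^ 3 * ν := ⟨_, rfl⟩
    have hR0 : 0 ≤ R := by rw [hR]; positivity
    obtain ⟨a, ha⟩ : ∃ a : ℝ, a = d ^ 2 * (16 * (t : ℝ) ^ 2 * sig l) := ⟨_, rfl⟩
    have ha0 : 0 ≤ a := by rw [ha]; positivity
    have hKa : K * a ≤ 1 / 2 := by rw [ha, ← mul_assoc, hKd]; linarith
    have ha1 : a ≤ 1 := by
      have : d ^ 2 ≤ 1 := pow_le_one₀ hd0 hd1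
      rw [ha]
      nlinarith [sq_nonneg d]
    have hb : 0 ≤ d ^ 2 * R + d ^ 3 * C := by positivity
    have lo := le_iter hd0 hd4 (RT.ext F)
      (fun k z => (1 - a) ^ k * RT.ext F z + -(k * (d ^ 2 * R + d ^ 3 * C))) (fun z _ => by simp)
      (fun k z hz => by
        rw [stp_lin]
        have e1 := ext_low bias0_nonneg (RT.sum_bias 0) hB hd0 hd1 hs.le (abs_mv_le z) (mv_mean z)
          (mv_cov_le z) F (half z hz)
        have e2 := deriv_proof (Var l) F z t ν hz (hν z hz)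
        rw [← hC] at e1
        rw [← hR] at e2
        have e3 := mul_le_mul_of_nonneg_left e2 (mul_nonneg (sq_nonneg d) hs.le)
        have e4 := mul_le_mul_of_nonneg_left hs1 (mul_nonneg (sq_nonneg d) hR0)
        have e5 : (1 - a) * RT.ext F z - (d ^ 2 * R + d ^ 3 * C) ≤ stp d (RT.ext F) z := by
          rw [ha]
          unfold stp
          unfold RT.ext at e1 ⊢
          linarith
        have e6 : 0 ≤ (1 - a) ^ k := pow_nonneg (by linarith) k
        have e7 : (1 - a) ^ k ≤ 1 := pow_le_one₀ (by linarith) (by linarith)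
        have e8 := mul_le_mul_of_nonneg_left e5 e6
        have e9 := mul_le_mul_of_nonneg_right e7 hb
        rw [pow_succ]
        push_cast
        nlinarith) K 0 hz0
    have e1 : RT.ext F = fun z => ∑ x, (if F x = true then 1 else 0) * bias z x := by
      funext z
      rw [RT.ext, pr_eq]
    rw [pr_eq (fun x => (stp d)^[K] (fun z => bias z x) 0), key, ← e1, ← hR]
    refine le_trans ?_ lo
    have b1 := one_add_mul_le_pow (a := -a) (by linarith) K
    have b2 := ext_nonneg F (half 0 hz0)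
    have b3 : (1 / 2 : ℝ) ≤ (1 - a) ^ K := by rw [sub_eq_add_neg]; linarith
    have b4 := mul_le_mul_of_nonneg_right b3 b2
    have e2 : K * (d ^ 2 * R + d ^ 3 * C) = 1 / 64 * R + 1 / 64 * (d * C) := by rw [← hKd]; ring
    rw [e2]
    unfold RT.ext at b4 ⊢
    linarith

end EX

end Pool.Agent.Lib.MP_2733b3_lc
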