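import Pool.Agent.Lib.MP_2733b3_lc.EWalk

/-! The potential that keeps the Forrelation of the walk large. -/

set_option autoImplicit false

namespace Pool.Agent.Lib.MP_2733b3_lc

open Finset RT

namespace EX

variable {l : ℕ}

/-- The potential. -/
noncomputable def U (lam : ℝ) (z : Var l → ℝ) : ℝ := -phi z + lam * (sig l ^ 2 * ∑ v, z v ^ 2)

/-- Its gradient. -/
noncomputable def gr (lam : ℝ) (z : Var l → ℝ) (v : Var l) : ℝ :=
  -(sig l ^ 3 * ∑ b, chi v.2 b * z (!v.1, b)) + 2 * lam * sig l ^ 2 * z v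

theorem sum_var (g : Var l → ℝ) : ∑ v, g v = ∑ b, g (true, b) + ∑ a, g (false, a) := by
  rw [Fintype.sum_prod_type, Fintype.sum_bool]

theorem card_var : ∑ _v : Var l, (1 : ℝ) = 2 * 2 ^ l := by
  rw [sum_var, sum_one]; ring

theorem expand (lam d : ℝ) (z m : Var l → ℝ) :
    U lam (z + fun v => d * m v) = U lam z + (d * ∑ v, gr lam z v * m v + d ^ 2 * U lam m) := by
  have e1 : phi (z + fun v => d * m v) = phi z + d * ∑ v : Var l,
      (sig l ^ 3 * ∑ b, chi v.2 b * z (!v.1, b)) * m v + d ^ 2 * phi m := by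
    rw [sum_var]
    simp only [phi, Pi.add_apply, Bool.not_true, Bool.not_false, mul_sum, sum_mul, mul_add]
    rw [sum_comm (f := fun b a => d * (sig l ^ 3 * (chi b a * z (false, a)) * m (true, b)))]
    simp only [← sum_add_distrib]
    exact sum_congr rfl fun a _ => sum_congr rfl fun b _ => by rw [chi_comm b a]; ring
  have e2 : ∑ v, (z + fun v => d * m v) v ^ 2 =
      ∑ v, z v ^ 2 + d * ∑ v, 2 * z v * m v + d ^ 2 * ∑ v, m v ^ 2 := by
    simp only [Pi.add_apply, mul_sum, ← sum_add_distrib]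
    exact sum_congr rfl fun v _ => by ring
  have e3 : ∑ v, gr lam z v * m v = -∑ v : Var l,
      (sig l ^ 3 * ∑ b, chi v.2 b * z (!v.1, b)) * m v +
      lam * sig l ^ 2 * ∑ v, 2 * z v * m v := by
    rw [mul_sum, ← sum_neg_distrib, ← sum_add_distrib]
    exact sum_congr rfl fun v _ => by rw [gr]; ring
  rw [U, U, U, e1, e2, e3]
  ring

theorem lin_sq (c : Var l → ℝ) :
    ∑ s, bias 0 s * (∑ v, c v * xi s v) ^ 2 ≤ 2 * ∑ v, c v ^ 2 := by
  obtain ⟨e, he⟩ : ∃ e : (Fin l → Bool) → ℝ,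
      e = fun a => c (false, a) + sig l * ∑ b, chi a b * c (true, b) := ⟨_, rfl⟩
  have e1 : ∀ s, ∑ v, c v * xi s v = ∑ a, e a * sg (s a) := by
    intro s
    simp only [xi, mul_sum]
    rw [sum_comm]
    refine sum_congr rfl fun a _ => ?_
    rw [sum_var, he]
    simp only [w_false, w_true, ite_mul, one_mul, zero_mul, mul_ite, mul_zero, sum_ite_eq,
      mem_univ, if_true, add_mul, mul_sum, sum_mul]
    rw [add_comm]
    congr 1
    exact sum_congr rfl fun b _ => by ring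
  have e2 : ∑ s : (Fin l → Bool) → Bool, bias 0 s * (∑ a, e a * sg (s a)) ^ 2 = ∑ a, e a ^ 2 := by
    have : ∀ s : (Fin l → Bool) → Bool, bias 0 s * (∑ a, e a * sg (s a)) ^ 2 =
        ∑ a, ∑ a', e a * e a' * (bias 0 s * (sg (s a) * sg (s a'))) := by
      intro s
      rw [sq, sum_mul_sum, mul_sum]
      refine sum_congr rfl fun a _ => ?_
      rw [mul_sum]
      exact sum_congr rfl fun a' _ => by ring
    simp only [this]
    rw [sum_comm]
    refine sum_congr rfl fun a _ => ?_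
    rw [sum_comm]
    simp only [← mul_sum, sum_bias0_sg2, mul_ite, mul_one, mul_zero, sum_ite_eq, mem_univ, if_true]
    ring
  simp only [e1]
  rw [e2, sum_var]
  have e3 : ∑ a, (sig l * ∑ b, chi a b * c (true, b)) ^ 2 = ∑ b, c (true, b) ^ 2 := by
    simp only [mul_pow]
    rw [← mul_sum, parseval, ← mul_assoc, sig_sq, one_mul]
  rw [← e3, ← sum_add_distrib, mul_sum]
  refine sum_le_sum fun a _ => ?_
  rw [he]
  nlinarith [sq_nonneg (c (false, a) - sig l * ∑ b, chi a b * c (true, b))]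

theorem gr_sq {lam : ℝ} (h0 : 0 ≤ lam) (h1 : lam ≤ 1 / 4) {z : Var l → ℝ}
    (hz : ∀ v, |z v| ≤ 1 / 2) : ∑ v, gr lam z v ^ 2 ≤ 5 * sig l ^ 2 := by
  have hs := sig_pos l
  have hθ : |(1 / 2 : ℝ)| * sig l ≤ 1 / 2 := by
    rw [abs_of_pos (by norm_num)]
    linarith [sig_le_one l]
  have a : ∀ β : Bool, ∑ a, (sig l ^ 3 * ∑ b, chi a b * z (β, b)) ^ 2 ≤ sig l ^ 2 := by
    intro β
    have := (wal_bound (g := fun b => z (β, b)) (fun b => (hz _).trans (by norm_num)) hθ).2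
    simp only [mul_assoc (1 / 2 : ℝ), mul_pow (1 / 2 : ℝ)] at this
    rw [← mul_sum] at this
    linarith
  have a1 : ∑ v : Var l, (sig l ^ 3 * ∑ b, chi v.2 b * z (!v.1, b)) ^ 2 ≤ 2 * sig l ^ 2 := by
    rw [sum_var]
    have := a true
    have := a false
    simp only [Bool.not_true, Bool.not_false]
    linarith
  have a2 : ∑ v : Var l, (2 * lam * sig l ^ 2 * z v) ^ 2 ≤ sig l ^ 2 / 2 := by
    calc ∑ v : Var l, (2 * lam * sig l ^ 2 * z v) ^ 2 ≤ ∑ _v : Var l, sig l ^ 4 / 4 * 1 := by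
          refine sum_le_sum fun v _ => ?_
          have b1 : z v ^ 2 ≤ 1 := (sq_le_one_iff_abs_le_one _).2 ((hz v).trans (by norm_num))
          have b2 : lam ^ 2 * z v ^ 2 ≤ 1 / 16 := by nlinarith [sq_nonneg (z v), sq_nonneg lam]
          nlinarith [mul_le_mul_of_nonneg_left b2 (pow_pos hs 4).le]
      _ = sig l ^ 2 / 2 * (sig l ^ 2 * 2 ^ l) := by rw [← mul_sum, card_var]; ring
      _ = sig l ^ 2 / 2 := by rw [sig_sq, mul_one]
  calc ∑ v, gr lam z v ^ 2 ≤ ∑ v : Var l, (2 * (sig l ^ 3 * ∑ b, chi v.2 b * z (!v.1, b)) ^ 2 +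
        2 * (2 * lam * sig l ^ 2 * z v) ^ 2) := by
        refine sum_le_sum fun v _ => ?_
        rw [gr]
        nlinarith [sq_nonneg (sig l ^ 3 * ∑ b, chi v.2 b * z (!v.1, b) +
          2 * lam * sig l ^ 2 * z v)]
    _ ≤ 5 * sig l ^ 2 := by
        rw [sum_add_distrib, ← mul_sum, ← mul_sum]
        linarith

theorem U_bound {lam : ℝ} (h0 : 0 ≤ lam) (h1 : lam ≤ 1 / 4) {m : Var l → ℝ}
    (hm : ∀ v, |m v| ≤ 2 ^ l) : (∑ v, m v ^ 2 ≤ 2 * (2 ^ l) ^ 3) ∧ |U lam m| ≤ 4 * (2 ^ l) ^ 4 := by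
  have hs := sig_pos l
  have hs1 := sig_le_one l
  have hN : (1 : ℝ) ≤ 2 ^ l := one_le_pow₀ (by norm_num)
  have a1 : ∑ v, m v ^ 2 ≤ 2 * (2 ^ l) ^ 3 := by
    calc ∑ v, m v ^ 2 ≤ ∑ _v : Var l, (2 ^ l) ^ 2 * (1 : ℝ) := sum_le_sum fun v _ => by
          rw [mul_one, ← sq_abs]
          exact pow_le_pow_left₀ (abs_nonneg _) (hm v) 2
      _ = 2 * (2 ^ l) ^ 3 := by rw [← mul_sum, card_var]; ring
  have a2 : |phi m| ≤ (2 ^ l) ^ 4 := by
    rw [phi, abs_mul, abs_of_pos (pow_pos hs 3)]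
    refine (mul_le_of_le_one_left (abs_nonneg _) (pow_le_one₀ hs.le hs1)).trans ?_
    calc |∑ a, ∑ b, m (false, a) * chi a b * m (true, b)|
        ≤ ∑ _a : Fin l → Bool, ∑ _b : Fin l → Bool, (2 ^ l * 2 ^ l) * (1 : ℝ) := by
          refine (abs_sum_le_sum_abs _ _).trans (sum_le_sum fun a _ => ?_)
          refine (abs_sum_le_sum_abs _ _).trans (sum_le_sum fun b _ => ?_)
          rw [abs_mul, abs_mul, abs_chi, mul_one, mul_one]
          exact mul_le_mul (hm _) (hm _) (abs_nonneg _) (by positivity)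
      _ = (2 ^ l) ^ 4 := by simp; ring
  refine ⟨a1, ?_⟩
  have a3 : 0 ≤ ∑ v, m v ^ 2 := sum_nonneg fun v _ => sq_nonneg _
  have a4 : sig l ^ 2 * ∑ v, m v ^ 2 ≤ ∑ v, m v ^ 2 :=
    mul_le_of_le_one_left a3 (pow_le_one₀ hs.le hs1)
  have a5 : 0 ≤ sig l ^ 2 * ∑ v, m v ^ 2 := by positivity
  have a6 : ((2 : ℝ) ^ l) ^ 3 ≤ (2 ^ l) ^ 4 := pow_le_pow_right₀ hN (by norm_num)
  have a7 : (0 : ℝ) ≤ (2 ^ l) ^ 4 := by positivity
  obtain ⟨p1, p2⟩ := abs_le.1 a2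
  rw [U, abs_le]
  constructor <;> nlinarith

theorem U_mean {lam : ℝ} (h0 : 0 ≤ lam) (z : Var l → ℝ) :
    ∑ s, bias 0 s * U lam (mv z s) ≤ -1 + 16 * (sig l ^ 2 * ∑ v, z v ^ 2) + 2 * lam := by
  classical
  have hs := sig_pos l
  obtain ⟨ind, hi⟩ : ∃ ind : Var l → ℝ, ind = fun v => if |z v| ≤ 1 / 4 then 1 else 0 := ⟨_, rfl⟩
  have hm : ∀ s v, mv z s v = ind v * xi s v := fun s v => by rw [hi, mv]
  have i1 : ∀ v, ind v ≤ 1 ∧ 1 - 16 * z v ^ 2 ≤ ind v ∧ ind v ^ 2 ≤ 1 := by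
    intro v
    rw [hi]
    dsimp only
    split_ifs with h
    · exact ⟨le_rfl, by nlinarith [sq_nonneg (z v)], by norm_num⟩
    · refine ⟨by norm_num, ?_, by norm_num⟩
      rw [← sq_abs]
      nlinarith [not_le.1 h]
  have e1 : ∑ s, bias 0 s * phi (mv z s) =
      (sig l ^ 2 * ∑ a, ind (false, a)) * (sig l ^ 2 * ∑ b, ind (true, b)) := by
    have : ∀ s : (Fin l → Bool) → Bool, bias 0 s * phi (mv z s) = ∑ a, ∑ b,
        sig l ^ 3 * ind (false, a) * ind (true, b) * chi a b *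
          (bias 0 s * (xi s (false, a) * xi s (true, b))) := by
      intro s
      simp only [phi, hm, mul_sum]
      exact sum_congr rfl fun a _ => sum_congr rfl fun b _ => by ring
    simp only [this]
    rw [sum_comm, mul_mul_mul_comm, sum_mul_sum, mul_sum]
    refine sum_congr rfl fun a _ => ?_
    rw [sum_comm, mul_sum]
    refine sum_congr rfl fun b _ => ?_
    rw [← mul_sum, xi_cov, ww_ft]
    linear_combination sig l ^ 4 * ind (false, a) * ind (true, b) * chi_mul_self a b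
  have e2 : ∑ s : (Fin l → Bool) → Bool, bias 0 s * ∑ v, mv z s v ^ 2 ≤ 2 * 2 ^ l := by
    simp only [mul_sum]
    rw [sum_comm, ← card_var]
    refine sum_le_sum fun v _ => ?_
    have : ∑ s : (Fin l → Bool) → Bool, bias 0 s * mv z s v ^ 2 =
        ind v ^ 2 * ∑ s : (Fin l → Bool) → Bool, bias 0 s * (xi s v * xi s v) := by
      rw [mul_sum]
      exact sum_congr rfl fun s _ => by rw [hm]; ring
    rw [this, xi_cov]
    obtain ⟨_ | _, b⟩ := v
    · rw [ww_ff, if_pos rfl, mul_one]; exact (i1 _).2.2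
    · rw [ww_tt, if_pos rfl, mul_one]; exact (i1 _).2.2
  have e3 : ∀ β : Bool, sig l ^ 2 * ∑ a, ind (β, a) ≤ 1 ∧
      1 - 16 * (sig l ^ 2 * ∑ a, z (β, a) ^ 2) ≤ sig l ^ 2 * ∑ a, ind (β, a) := by
    intro β
    have f1 : ∑ a, ind (β, a) ≤ 2 ^ l := by
      rw [← sum_one l]; exact sum_le_sum fun a _ => (i1 _).1
    have f2 : 2 ^ l - 16 * ∑ a, z (β, a) ^ 2 ≤ ∑ a, ind (β, a) := by
      rw [← sum_one l, mul_sum, ← sum_sub_distrib]; exact sum_le_sum fun a _ => (i1 _).2.1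
    have f3 := sig_sq l
    have g1 := mul_le_mul_of_nonneg_left f1 (sq_nonneg (sig l))
    have g2 := mul_le_mul_of_nonneg_left f2 (sq_nonneg (sig l))
    constructor <;> linarith
  have e4 : ∑ s, bias 0 s * U lam (mv z s) = -∑ s, bias 0 s * phi (mv z s) +
      lam * (sig l ^ 2 * ∑ s : (Fin l → Bool) → Bool, bias 0 s * ∑ v, mv z s v ^ 2) := by
    rw [mul_sum, mul_sum, ← sum_neg_distrib, ← sum_add_distrib]
    exact sum_congr rfl fun s _ => by rw [U]; ring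
  have e5 := mul_le_mul_of_nonneg_left (mul_le_mul_of_nonneg_left e2 (sq_nonneg (sig l))) h0
  have e6 : sig l ^ 2 * (2 * 2 ^ l) = 2 := by linarith [sig_sq l]
  rw [e4, e1, sum_var fun v => z v ^ 2]
  rw [e6] at e5
  obtain ⟨t1, t2⟩ := e3 true
  obtain ⟨f1, f2⟩ := e3 false
  nlinarith [mul_nonneg (sub_nonneg.2 t1) (sub_nonneg.2 f1)]

theorem pot_stp {lam d θ : ℝ} (h0 : 0 ≤ lam) (h1 : lam ≤ 1 / 4) (hd0 : 0 ≤ d)
    (hd : d * (4 * (2 ^ l) ^ 4) ≤ sig l) (hθ0 : 0 ≤ θ) (hθ : θ * sig l ≤ 1 / 2) {z : Var l → ℝ}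
    (hz : ∀ v, |z v| ≤ 1 / 2) :
    stp d (fun z => Real.exp (θ * U lam z)) z ≤
      Real.exp (θ * U (lam + 16 * d ^ 2) z + d ^ 2 * (-θ / 2 + 22 * (θ ^ 2 * sig l ^ 2))) := by
  classical
  have hs := sig_pos l
  have hs1 := sig_le_one l
  have hN : (1 : ℝ) ≤ 2 ^ l := one_le_pow₀ (by norm_num)
  have hN4 : (1 : ℝ) ≤ (2 ^ l) ^ 4 := one_le_pow₀ hN
  have hd1 : d ≤ 1 := by nlinarith
  obtain ⟨L, hL⟩ : ∃ L : ((Fin l → Bool) → Bool) → ℝ,
      L = fun s => ∑ v, gr lam z v * mv z s v := ⟨_, rfl⟩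
  obtain ⟨Q, hQ⟩ : ∃ Q : ((Fin l → Bool) → Bool) → ℝ, Q = fun s => U lam (mv z s) := ⟨_, rfl⟩
  have g2 := gr_sq h0 h1 hz
  have bQ : ∀ s, |d * Q s| ≤ sig l := fun s => by
    rw [hQ, abs_mul, abs_of_nonneg hd0]
    exact (mul_le_mul_of_nonneg_left (U_bound h0 h1 (abs_mv_le z s)).2 hd0).trans hd
  have bL : ∀ s, |d * L s| ≤ sig l := fun s => by
    rw [hL, abs_mul, abs_of_nonneg hd0]
    refine (mul_le_mul_of_nonneg_left (abs_le_of_sq_le_sq ?_ (by positivity)) hd0).trans hd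
    refine (sum_mul_sq_le_sq_mul_sq _ _ _).trans ?_
    have a1 := (U_bound h0 h1 (abs_mv_le z s)).1
    have a2 : ((2 : ℝ) ^ l) ^ 3 ≤ (2 ^ l) ^ 8 := pow_le_pow_right₀ hN (by norm_num)
    have a3 : sig l ^ 2 ≤ 1 := pow_le_one₀ hs.le hs1
    calc (∑ v, gr lam z v ^ 2) * ∑ v, mv z s v ^ 2 ≤ 5 * (2 * (2 ^ l) ^ 3) :=
          mul_le_mul (by linarith) a1 (sum_nonneg fun v _ => sq_nonneg _) (by norm_num)
      _ ≤ (4 * (2 ^ l) ^ 4) ^ 2 := by nlinarith [pow_nonneg (zero_le_one.trans hN) 8]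
  have mL : ∑ s, bias 0 s * L s = 0 := by
    simp only [hL, mul_sum]
    rw [sum_comm]
    simp only [mul_left_comm (bias 0 _), ← mul_sum, mv_mean, mul_zero, sum_const_zero]
  have vL : ∑ s, bias 0 s * L s ^ 2 ≤ 10 * sig l ^ 2 := by
    have a1 := lin_sq fun v => gr lam z v * if |z v| ≤ 1 / 4 then 1 else 0
    have a2 : ∑ v, (gr lam z v * if |z v| ≤ 1 / 4 then 1 else 0) ^ 2 ≤ ∑ v, gr lam z v ^ 2 :=
      sum_le_sum fun v _ => by split_ifs <;> simp [sq_nonneg]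
    simp only [hL, mv, ← mul_assoc]
    linarith
  have mQ : ∑ s, bias 0 s * Q s ≤ -1 + 16 * (sig l ^ 2 * ∑ v, z v ^ 2) + 2 * lam := by
    rw [hQ]; exact U_mean h0 z
  have key : ∀ s, Real.exp (θ * (d * L s + d ^ 2 * Q s)) ≤ 1 + θ * d * L s + θ * d ^ 2 * Q s +
      2 * θ ^ 2 * d ^ 2 * L s ^ 2 + 2 * θ ^ 2 * d ^ 2 * sig l ^ 2 := by
    intro s
    obtain ⟨l1, l2⟩ := abs_le.1 (bL s)
    obtain ⟨q1, q2⟩ := abs_le.1 (bQ s)
    have q3 : (d * Q s) ^ 2 ≤ sig l ^ 2 := sq_le_sq' q1 q2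
    have y1 : |d * L s + d ^ 2 * Q s| ≤ 2 * sig l := abs_le.2 ⟨by nlinarith, by nlinarith⟩
    have y2 : |θ * (d * L s + d ^ 2 * Q s)| ≤ 1 := by
      rw [abs_mul, abs_of_nonneg hθ0]
      nlinarith [mul_le_mul_of_nonneg_left y1 hθ0]
    have y3 := (abs_le.1 (Real.abs_exp_sub_one_sub_id_le y2)).2
    have y4 : (L s + d * Q s) ^ 2 ≤ 2 * L s ^ 2 + 2 * sig l ^ 2 := by
      nlinarith [sq_nonneg (L s - d * Q s)]
    nlinarith [mul_le_mul_of_nonneg_left y4 (mul_nonneg (sq_nonneg θ) (sq_nonneg d))]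
  have e1 : stp d (fun z => Real.exp (θ * U lam z)) z = Real.exp (θ * U lam z) *
      ∑ s, bias 0 s * Real.exp (θ * (d * L s + d ^ 2 * Q s)) := by
    rw [stp, mul_sum]
    refine sum_congr rfl fun s _ => ?_
    rw [expand, mul_add θ, Real.exp_add, hL, hQ]
    ring
  have e2 : ∑ s, bias 0 s * Real.exp (θ * (d * L s + d ^ 2 * Q s)) ≤
      1 + θ * d * ∑ s, bias 0 s * L s + θ * d ^ 2 * ∑ s, bias 0 s * Q s +
      2 * θ ^ 2 * d ^ 2 * ∑ s, bias 0 s * L s ^ 2 + 2 * θ ^ 2 * d ^ 2 * sig l ^ 2 := by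
    refine (sum_le_sum fun s _ => mul_le_mul_of_nonneg_left (key s) (bias0_nonneg s)).trans
      (le_of_eq ?_)
    simp only [mul_add, sum_add_distrib, ← sum_mul, RT.sum_bias, mul_one, one_mul, mul_sum]
    congr 2
    · congr 1
      · congr 1
        exact sum_congr rfl fun s _ => by ring
      · exact sum_congr rfl fun s _ => by ring
    · exact sum_congr rfl fun s _ => by ring
  have e3 : θ * U (lam + 16 * d ^ 2) z + d ^ 2 * (-θ / 2 + 22 * (θ ^ 2 * sig l ^ 2)) =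
      θ * U lam z + (θ * d ^ 2 * (16 * (sig l ^ 2 * ∑ v, z v ^ 2) - 1 / 2) +
        22 * θ ^ 2 * d ^ 2 * sig l ^ 2) := by
    rw [U, U]; ring
  rw [e1, e3, Real.exp_add]
  refine mul_le_mul_of_nonneg_left (e2.trans (le_trans ?_ (Real.add_one_le_exp _)))
    (Real.exp_pos _).le
  rw [mL]
  have a1 := mul_le_mul_of_nonneg_left mQ (mul_nonneg hθ0 (sq_nonneg d))
  have a2 := mul_le_mul_of_nonneg_left vL (mul_nonneg (sq_nonneg θ) (sq_nonneg d))
  have a3 := mul_le_mul_of_nonneg_left h1 (mul_nonneg hθ0 (sq_nonneg d))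
  nlinarith

end EX

end Pool.Agent.Lib.MP_2733b3_lc
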