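import Pool.Agent.Lib.MP_2733b3_lc.RT

/-! A walk in the half cube that freezes its coordinates one by one, and exponential moments. -/

set_option autoImplicit false

namespace Pool.Agent.Lib.MP_2733b3_lc

open Finset RT

namespace EX

section Cube

variable {V : Type} [Fintype V] [DecidableEq V]

theorem ext_not (F : (V → Bool) → Bool) (z : V → ℝ) :
    RT.ext (fun x => !F x) z = 1 - RT.ext F z := by
  rw [← RT.sum_bias z, RT.ext, RT.ext, pr_eq, pr_eq, ← sum_sub_distrib]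
  refine sum_congr rfl fun x _ => ?_
  cases F x <;> simp

theorem der2_not (F : (V → Bool) → Bool) (z : V → ℝ) {i j : V} (hij : i ≠ j) :
    der2 (fun x => !F x) z i j = -der2 F z i j := by
  have h := sum_odd (fun x : V → Bool => sg (x i) / 2 * (sg (x j) / 2) *
    ∏ v ∈ univ \ {i, j}, (1 + sg (x v) * z v) / 2) i fun x => by
      have e : ∏ v ∈ univ \ {i, j}, (1 + sg (flp x i v) * z v) / 2 =
          ∏ v ∈ univ \ {i, j}, (1 + sg (x v) * z v) / 2 := by
        refine prod_congr rfl fun v hv => ?_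
        have : v ≠ i := by rintro rfl; simp at hv
        simp [flp, this]
      have e1 : flp x i i = !x i := by simp [flp]
      have e2 : flp x i j = x j := by simp [flp, hij.symm]
      simp only [e, e1, e2, RT.sg_not]
      ring
  rw [eq_neg_iff_add_eq_zero, ← h, der2, der2, ← sum_add_distrib]
  refine sum_congr rfl fun x _ => ?_
  cases F x <;> simp

theorem ext_low {S : Type} [Fintype S] {μ : S → ℝ} (h0 : ∀ s, 0 ≤ μ s) (h1 : ∑ s, μ s = 1)
    {ξ : S → V → ℝ} {B σ d : ℝ} (hB : 1 ≤ B) (hd0 : 0 ≤ d) (hd1 : d ≤ 1) (hσ : 0 ≤ σ)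
    (hξ : ∀ s v, |ξ s v| ≤ B) (hm : ∀ v, ∑ s, μ s * ξ s v = 0)
    (hc : ∀ i j, i ≠ j → |∑ s, μ s * (ξ s i * ξ s j)| ≤ σ)
    (F : (V → Bool) → Bool) {z : V → ℝ} (hz : ∀ v, |z v| ≤ 1) :
    RT.ext F z - d ^ 2 * σ * (∑ i, ∑ j, if i = j then 0 else |der2 F z i j|) -
        d ^ 3 * (B ^ Fintype.card V * 4 ^ Fintype.card V) ≤
      ∑ s, μ s * RT.ext F (z + fun v => d * ξ s v) := by
  have h := ext_step h0 h1 hB hd0 hd1 hσ hξ hm hc (fun x => !F x) hz
  have e : (∑ i, ∑ j, if i = j then 0 else |der2 (fun x => !F x) z i j|) =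
      ∑ i, ∑ j, if i = j then 0 else |der2 F z i j| := by
    refine sum_congr rfl fun i _ => sum_congr rfl fun j _ => ?_
    split_ifs with hij
    · rfl
    · rw [der2_not F z hij, abs_neg]
  simp only [ext_not, mul_sub, mul_one, sum_sub_distrib, h1, e] at h
  linarith

theorem mgf {z c : V → ℝ} (hz : ∀ v, |z v| ≤ 1) (hc : ∀ v, |c v| ≤ 1 / 2) :
    ∑ x : V → Bool, bias z x * Real.exp (∑ v, c v * sg (x v)) ≤
      Real.exp (∑ v, c v * z v + ∑ v, c v ^ 2) := by
  have h := sum_bias_prod z fun v b => Real.exp (c v * sg b)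
  rw [← sum_add_distrib]
  simp only [Real.exp_sum]
  rw [h]
  refine prod_le_prod (fun v _ => ?_) fun v _ => ?_
  · have := abs_le.1 (hz v)
    have h1 : 0 ≤ (1 + z v) / 2 := by linarith
    have h2 : 0 ≤ (1 - z v) / 2 := by linarith
    positivity
  · obtain ⟨z1, z2⟩ := abs_le.1 (hz v)
    obtain ⟨c1, c2⟩ := abs_le.1 (hc v)
    have a1 := (abs_le.1 (Real.abs_exp_sub_one_sub_id_le (x := c v * (1 - z v))
      (abs_le.2 ⟨by nlinarith, by nlinarith⟩))).2
    have a2 := (abs_le.1 (Real.abs_exp_sub_one_sub_id_le (x := -(c v * (1 + z v)))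
      (abs_le.2 ⟨by nlinarith, by nlinarith⟩))).2
    have e1 : Real.exp (c v * sg false) = Real.exp (c v * z v) * Real.exp (c v * (1 - z v)) := by
      rw [← Real.exp_add, sg_false]; congr 1; ring
    have e2 : Real.exp (c v * sg true) =
        Real.exp (c v * z v) * Real.exp (-(c v * (1 + z v))) := by
      rw [← Real.exp_add, sg_true]; congr 1; ring
    rw [e1, e2, Real.exp_add]
    have a3 := Real.add_one_le_exp (c v ^ 2)
    have a4 : (1 + z v) / 2 * Real.exp (c v * (1 - z v)) +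
        (1 - z v) / 2 * Real.exp (-(c v * (1 + z v))) ≤ Real.exp (c v ^ 2) := by
      have b1 := mul_le_mul_of_nonneg_left a1 (show 0 ≤ (1 + z v) / 2 by linarith)
      have b2 := mul_le_mul_of_nonneg_left a2 (show 0 ≤ (1 - z v) / 2 by linarith)
      nlinarith [mul_nonneg (sq_nonneg (c v)) (sq_nonneg (z v))]
    have := mul_le_mul_of_nonneg_left a4 (Real.exp_pos (c v * z v)).le
    linarith

end Cube

variable {l : ℕ}

/-- Two tables as one instance. -/
def jn {α : Type} (p q : (Fin l → Bool) → α) (v : Var l) : α := cond v.1 (q v.2) (p v.2)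

theorem sum_jn (g : (Var l → Bool) → ℝ) : ∑ x, g x = ∑ q, ∑ p, g (jn p q) := by
  rw [← Fintype.sum_prod_type']
  refine (Fintype.sum_bijective (fun a : ((Fin l → Bool) → Bool) × ((Fin l → Bool) → Bool) =>
    jn a.2 a.1) ⟨fun a b h => ?_, fun x => ⟨(fun b => x (true, b), fun a => x (false, a)), ?_⟩⟩
    _ _ fun _ => rfl).symm
  · exact Prod.ext (funext fun v => congrFun h (true, v)) (funext fun v => congrFun h (false, v))
  · funext ⟨a, b⟩
    cases a <;> rfl

theorem wal_bound {g : (Fin l → Bool) → ℝ} (hg : ∀ b, |g b| ≤ 1) {θ : ℝ}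
    (hθ : |θ| * sig l ≤ 1 / 2) :
    (∀ a, |θ * sig l ^ 3 * ∑ b, chi a b * g b| ≤ 1 / 2) ∧
      ∑ a, (θ * sig l ^ 3 * ∑ b, chi a b * g b) ^ 2 ≤ θ ^ 2 * sig l ^ 2 := by
  have hs := sig_pos l
  have h2 := sig_sq l
  constructor
  · intro a
    have h1 : |∑ b, chi a b * g b| ≤ 2 ^ l := by
      rw [← sum_one l]
      refine (abs_sum_le_sum_abs _ _).trans (sum_le_sum fun b _ => ?_)
      rw [abs_mul, abs_chi, one_mul]
      exact hg b
    rw [abs_mul, abs_mul, abs_of_pos (pow_pos hs 3)]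
    calc |θ| * sig l ^ 3 * |∑ b, chi a b * g b| ≤ |θ| * sig l ^ 3 * 2 ^ l := by gcongr
      _ = |θ| * sig l * (sig l ^ 2 * 2 ^ l) := by ring
      _ ≤ 1 / 2 := by rw [h2, mul_one]; exact hθ
  · simp only [mul_pow]
    rw [← mul_sum, parseval]
    have h1 : ∑ b, g b ^ 2 ≤ 2 ^ l := by
      rw [← sum_one l]
      exact sum_le_sum fun b _ => (sq_le_one_iff_abs_le_one _).2 (hg b)
    calc θ ^ 2 * (sig l ^ 3) ^ 2 * (2 ^ l * ∑ b, g b ^ 2)
        ≤ θ ^ 2 * (sig l ^ 3) ^ 2 * (2 ^ l * 2 ^ l) := by gcongr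
      _ = θ ^ 2 * sig l ^ 2 * (sig l ^ 2 * 2 ^ l) ^ 2 := by ring
      _ = θ ^ 2 * sig l ^ 2 := by rw [h2]; ring

theorem round {z : Var l → ℝ} (hz : ∀ v, |z v| ≤ 1) {θ : ℝ} (hθ : |θ| * sig l ≤ 1 / 2) :
    ∑ x, bias z x * Real.exp (θ * Phi x) ≤ Real.exp (θ * phi z + 2 * (θ ^ 2 * sig l ^ 2)) := by
  rw [sum_jn]
  have e1 : ∀ p q : (Fin l → Bool) → Bool, bias z (jn p q) =
      bias (fun b => z (true, b)) q * bias (fun a => z (false, a)) p := by
    intro p q
    simp only [bias, Fintype.prod_prod_type, Fintype.prod_bool, jn, cond_true, cond_false]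
  have e2 : ∀ p q : (Fin l → Bool) → Bool, θ * Phi (jn p q) =
      ∑ a, (θ * sig l ^ 3 * ∑ b, chi a b * sg (q b)) * sg (p a) := by
    intro p q
    simp only [Phi, jn, cond_true, cond_false, mul_sum, sum_mul]
    exact sum_congr rfl fun a _ => sum_congr rfl fun b _ => by ring
  have e3 : ∀ q : (Fin l → Bool) → Bool,
      ∑ a, (θ * sig l ^ 3 * ∑ b, chi a b * sg (q b)) * z (false, a) =
      ∑ b, (θ * sig l ^ 3 * ∑ a, chi b a * z (false, a)) * sg (q b) := by
    intro q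
    simp only [mul_sum, sum_mul]
    rw [sum_comm]
    exact sum_congr rfl fun a _ => sum_congr rfl fun b _ => by rw [chi_comm a b]; ring
  have e4 : ∑ b, (θ * sig l ^ 3 * ∑ a, chi b a * z (false, a)) * z (true, b) = θ * phi z := by
    simp only [phi, mul_sum, sum_mul]
    rw [sum_comm]
    exact sum_congr rfl fun a _ => sum_congr rfl fun b _ => by rw [chi_comm a b]; ring
  obtain ⟨w1, w2⟩ := wal_bound (g := fun a => z (false, a)) (fun a => hz _) hθ
  have s2 := mgf (z := fun b => z (true, b)) (fun b => hz _) w1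
  rw [e4] at s2
  have s1 : ∀ q : (Fin l → Bool) → Bool, ∑ p, bias z (jn p q) * Real.exp (θ * Phi (jn p q)) ≤
      Real.exp (θ ^ 2 * sig l ^ 2) * (bias (fun b => z (true, b)) q *
        Real.exp (∑ b, (θ * sig l ^ 3 * ∑ a, chi b a * z (false, a)) * sg (q b))) := by
    intro q
    obtain ⟨u1, u2⟩ := wal_bound (g := fun b => sg (q b)) (fun b => (RT.abs_sg _).le) hθ
    have s := mgf (z := fun a => z (false, a)) (fun a => hz _) u1
    rw [e3] at s
    simp only [e1, e2, mul_assoc (bias _ q)]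
    rw [← mul_sum, mul_left_comm, ← Real.exp_add]
    refine mul_le_mul_of_nonneg_left (s.trans (Real.exp_le_exp.2 ?_))
      (RT.bias_nonneg (fun b => hz _) q)
    linarith
  refine (sum_le_sum fun q _ => s1 q).trans ?_
  rw [← mul_sum]
  refine (mul_le_mul_of_nonneg_left s2 (Real.exp_pos _).le).trans ?_
  rw [← Real.exp_add]
  exact Real.exp_le_exp.2 (by linarith)

open Classical in
/-- The increment, switched off at the frozen coordinates. -/
noncomputable def mv (z : Var l → ℝ) (s : (Fin l → Bool) → Bool) (v : Var l) : ℝ :=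
  (if |z v| ≤ 1 / 4 then 1 else 0) * xi s v

/-- One step of the walk as an operator on functions. -/
noncomputable def stp (d : ℝ) (G : (Var l → ℝ) → ℝ) (z : Var l → ℝ) : ℝ :=
  ∑ s, bias 0 s * G (z + fun v => d * mv z s v)

theorem abs_mv_le (z : Var l → ℝ) (s : (Fin l → Bool) → Bool) (v : Var l) :
    |mv z s v| ≤ 2 ^ l := by
  unfold mv
  split_ifs
  · rw [one_mul]; exact abs_xi_le s v
  · simp

theorem mv_mean (z : Var l → ℝ) (v : Var l) : ∑ s, bias 0 s * mv z s v = 0 := by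
  simp only [mv, mul_left_comm (bias 0 _), ← mul_sum, xi_mean, mul_zero]

theorem mv_cov_le (z : Var l → ℝ) (i j : Var l) (hij : i ≠ j) :
    |∑ s, bias 0 s * (mv z s i * mv z s j)| ≤ sig l := by
  unfold mv
  split_ifs
  · simpa using xi_cov_le i j hij
  all_goals simpa using (sig_pos l).le

variable {d : ℝ}

theorem stay (hd0 : 0 ≤ d) (hd : d * 2 ^ l ≤ 1 / 4) {z : Var l → ℝ} (hz : ∀ v, |z v| ≤ 1 / 2)
    (s : (Fin l → Bool) → Bool) (v : Var l) : |(z + fun v => d * mv z s v) v| ≤ 1 / 2 := by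
  simp only [Pi.add_apply]
  by_cases h : |z v| ≤ 1 / 4
  · refine (abs_add_le _ _).trans ?_
    rw [abs_mul, abs_of_nonneg hd0]
    have := mul_le_mul_of_nonneg_left (abs_mv_le z s v) hd0
    linarith
  · rw [mv, if_neg h, zero_mul, mul_zero, add_zero]
    exact hz v

theorem iter_sum' {X : Type} [Fintype X] (c : X → ℝ) (G : X → (Var l → ℝ) → ℝ) (k : ℕ) :
    (stp d)^[k] (fun z => ∑ x, c x * G x z) = fun z => ∑ x, c x * (stp d)^[k] (G x) z := by
  induction k with
  | zero => rfl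
  | succ k ih =>
    simp only [Function.iterate_succ_apply', ih]
    funext z
    simp only [stp, mul_sum]
    rw [sum_comm]
    exact sum_congr rfl fun x _ => sum_congr rfl fun s _ => by ring

theorem iter_le (hd0 : 0 ≤ d) (hd : d * 2 ^ l ≤ 1 / 4) (K : ℕ) (G : (Var l → ℝ) → ℝ)
    (H : ℕ → (Var l → ℝ) → ℝ) (h0 : ∀ z, (∀ v, |z v| ≤ 1 / 2) → G z ≤ H 0 z)
    (h : ∀ k < K, ∀ z, (∀ v, |z v| ≤ 1 / 2) → stp d (H k) z ≤ H (k + 1) z) :
    ∀ k ≤ K, ∀ z, (∀ v, |z v| ≤ 1 / 2) → (stp d)^[k] G z ≤ H k z := by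
  intro k
  induction k with
  | zero => exact fun _ => h0
  | succ k ih =>
    intro hk z hz
    rw [Function.iterate_succ_apply']
    refine le_trans (sum_le_sum fun s _ => ?_) (h k hk z hz)
    exact mul_le_mul_of_nonneg_left (ih (by omega) _ (stay hd0 hd hz s)) (bias0_nonneg s)

theorem le_iter (hd0 : 0 ≤ d) (hd : d * 2 ^ l ≤ 1 / 4) (G : (Var l → ℝ) → ℝ)
    (H : ℕ → (Var l → ℝ) → ℝ) (h0 : ∀ z, (∀ v, |z v| ≤ 1 / 2) → H 0 z ≤ G z)
    (h : ∀ k z, (∀ v, |z v| ≤ 1 / 2) → H (k + 1) z ≤ stp d (H k) z) :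
    ∀ k z, (∀ v, |z v| ≤ 1 / 2) → H k z ≤ (stp d)^[k] G z := by
  intro k
  induction k with
  | zero => exact h0
  | succ k ih =>
    intro z hz
    rw [Function.iterate_succ_apply']
    refine le_trans (h k z hz) (sum_le_sum fun s _ => ?_)
    exact mul_le_mul_of_nonneg_left (ih _ (stay hd0 hd hz s)) (bias0_nonneg s)

theorem stp_lin (G : (Var l → ℝ) → ℝ) (a c : ℝ) (z : Var l → ℝ) :
    stp d (fun z => a * G z + c) z = a * stp d G z + c := by
  simp only [stp, mul_add, sum_add_distrib, ← sum_mul, RT.sum_bias, one_mul, mul_sum]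
  congr 1
  exact sum_congr rfl fun s _ => by ring

end EX

end Pool.Agent.Lib.MP_2733b3_lc
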