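import Pool.Agent.Lib.MP_2733b3_lc.Basic

/-! The numerical estimates. -/

set_option autoImplicit false

namespace Pool.Agent.Lib.MP_2733b3_lc

open Finset

/-- Number of instances in a block whose code has length `m`. -/
def rr (m : ℕ) : ℕ := 768 * (m ^ 2 + 3) ^ 2 * m

theorem poly_le_exp (c k : ℕ) : ∃ n1, ∀ n ≥ n1, c * n ^ k < 2 ^ n := by
  have h := tendsto_pow_const_div_const_pow_of_one_lt k (show (1 : ℝ) < 2 by norm_num)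
  have h2 := h.eventually (gt_mem_nhds (show (0 : ℝ) < 1 / (c + 1) by positivity))
  obtain ⟨n1, hn⟩ := Filter.eventually_atTop.1 h2
  refine ⟨n1, fun n hn' => ?_⟩
  have h3 := hn n hn'
  rw [div_lt_div_iff₀ (by positivity) (by positivity)] at h3
  have h4 : (0 : ℝ) ≤ (n : ℝ) ^ k := by positivity
  have : (c : ℝ) * (n : ℝ) ^ k < 2 ^ n := by nlinarith
  exact_mod_cast this

theorem rr_le : ∃ n1, ∀ m ≥ n1, rr m ≤ 2 ^ m := by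
  obtain ⟨n1, h⟩ := poly_le_exp (768 * 16) 5
  refine ⟨max n1 1, fun m hm => le_trans ?_ (h m (le_trans (le_max_left _ _) hm)).le⟩
  have h1 : 1 ≤ m := le_trans (le_max_right _ _) hm
  have h2 : m ^ 2 + 3 ≤ 4 * m ^ 2 := by nlinarith
  calc rr m ≤ 768 * (4 * m ^ 2) ^ 2 * m :=
        Nat.mul_le_mul_right _ (Nat.mul_le_mul_left _ (Nat.pow_le_pow_left h2 2))
    _ = _ := by ring

theorem sum_Icc_le (n T : ℕ) (hn : 1 ≤ n) (hT : T ≤ 2 ^ n) (g : ℕ → ℝ) (c : ℝ) (hc : 0 ≤ c)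
    (h : ∀ m, n ≤ m → g m ≤ c / 2 ^ n) : ∑ m ∈ Icc n T, g m ≤ c := by
  refine (sum_le_card_nsmul _ _ _ fun m hm => h m (mem_Icc.1 hm).1).trans ?_
  have h1 : ((Icc n T).card : ℝ) ≤ 2 ^ n := by
    rw [Nat.card_Icc]
    exact_mod_cast (show T + 1 - n ≤ 2 ^ n by omega)
  rw [nsmul_eq_mul]
  calc _ ≤ 2 ^ n * (c / 2 ^ n) := mul_le_mul_of_nonneg_right h1 (by positivity)
    _ = c := by field_simp

theorem sig_le (l e : ℕ) (h : 2 * e ≤ l) : sig l ≤ 1 / 2 ^ e := by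
  have h1 : (1 : ℝ) ≤ √2 := Real.one_le_sqrt.2 (by norm_num)
  have h2 : (√2)⁻¹ ^ (2 * e) = (1 : ℝ) / 2 ^ e := by
    rw [pow_mul, inv_pow, Real.sq_sqrt (by norm_num), inv_pow, one_div]
  rw [← h2]
  exact pow_le_pow_of_le_one (by positivity) (inv_le_one_of_one_le₀ h1) h

theorem term_gamma (n m t : ℕ) (hn : 16 ≤ n) (hm : n ≤ m) (hr : rr m ≤ 2 ^ m)
    (ht : t ≤ 2 ^ (2 * n)) :
    (2 : ℝ) ^ m * (rr m * (16 * (t : ℝ) ^ 2 * sig (m ^ 2))) ≤ 1 / 2 ^ n := by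
  have h1 := sig_le (m ^ 2) (2 * m + 4 + 5 * n) (by nlinarith)
  have h2 : (rr m : ℝ) ≤ 2 ^ m := by exact_mod_cast hr
  have h3 : (t : ℝ) ≤ 2 ^ (2 * n) := by exact_mod_cast ht
  have h4 : 0 ≤ sig (m ^ 2) := by unfold sig; positivity
  calc _ ≤ (2 : ℝ) ^ m * (2 ^ m * (16 * (2 ^ (2 * n)) ^ 2 * (1 / 2 ^ (2 * m + 4 + 5 * n)))) := by
        gcongr
    _ = _ := by field_simp; ring

theorem term_zero (n m : ℕ) (hn : 16 ≤ n) (hm : n ≤ m) (hr : rr m ≤ 2 ^ m) :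
    (2 : ℝ) ^ m * (rr m * (3 * (1 / 2 ^ (m ^ 2)))) ≤ 1 / 4 / 2 ^ n := by
  have h2 : (rr m : ℝ) ≤ 2 ^ m := by exact_mod_cast hr
  have h1 : (1 : ℝ) / 2 ^ (m ^ 2) ≤ 1 / 2 ^ (2 * m + 4 + n) :=
    one_div_le_one_div_of_le (by positivity) (pow_le_pow_right₀ (by norm_num) (by nlinarith))
  calc _ ≤ (2 : ℝ) ^ m * (2 ^ m * (4 * (1 / 2 ^ (2 * m + 4 + n)))) := by gcongr; norm_num
    _ = _ := by field_simp; ring

theorem term_one (n m : ℕ) (hn : 16 ≤ n) (hm : n ≤ m) :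
    (2 : ℝ) ^ m * (3 * (1 - 1 / (256 * (((m ^ 2 : ℕ) : ℝ) + 3) ^ 2)) ^ rr m) ≤ 1 / 4 / 2 ^ n := by
  set x : ℝ := 1 / (256 * (((m ^ 2 : ℕ) : ℝ) + 3) ^ 2) with hx
  have hx1 : x ≤ 1 := by
    rw [hx, div_le_one (by positivity)]
    have : (0 : ℝ) ≤ ((m ^ 2 : ℕ) : ℝ) := Nat.cast_nonneg _
    nlinarith
  have h1 : (1 - x) ^ rr m ≤ Real.exp (-x) ^ rr m :=
    pow_le_pow_left₀ (by linarith) (by linarith [Real.add_one_le_exp (-x)]) _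
  have h2 : Real.exp (-x) ^ rr m = Real.exp (-1) ^ (3 * m) := by
    rw [← Real.exp_nat_mul, ← Real.exp_nat_mul]
    congr 1
    rw [hx, rr]
    push_cast
    field_simp
    ring
  have h3 : Real.exp (-1) ≤ 1 / 2 := by
    rw [Real.exp_neg, one_div]
    exact inv_anti₀ (by norm_num) (by linarith [Real.add_one_le_exp (1 : ℝ)])
  have h4 : Real.exp (-1) ^ (3 * m) ≤ (1 / 2) ^ (m + 4 + n) :=
    (pow_le_pow_left₀ (Real.exp_pos _).le h3 _).trans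
      (pow_le_pow_of_le_one (by norm_num) (by norm_num) (by omega))
  calc _ ≤ (2 : ℝ) ^ m * (4 * (1 / 2) ^ (m + 4 + n)) := by
        have := (h1.trans h2.le).trans h4
        have h0 : (0 : ℝ) ≤ (1 - x) ^ rr m := pow_nonneg (by linarith) _
        gcongr; norm_num
    _ = _ := by rw [one_div_pow]; field_simp; ring

theorem p2_mul {a b i j : ℕ} (ha : a ≤ 2 ^ i) (hb : b ≤ 2 ^ j) : a * b ≤ 2 ^ (i + j) := by
  rw [pow_add]; exact Nat.mul_le_mul ha hb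

theorem p2_add {a b i : ℕ} (ha : a ≤ 2 ^ i) (hb : b ≤ 2 ^ i) : a + b ≤ 2 ^ (i + 1) := by
  rw [pow_succ]; omega

theorem p2_pow {a i : ℕ} (ha : a ≤ 2 ^ i) (k : ℕ) : a ^ k ≤ 2 ^ (i * k) := by
  rw [pow_mul]; exact Nat.pow_le_pow_left ha k

theorem p2_le {a i j : ℕ} (ha : a ≤ 2 ^ i) (h : i ≤ j) : a ≤ 2 ^ j :=
  ha.trans (Nat.pow_le_pow_right (by norm_num) h)

theorem num_K (n T D q : ℕ) (hn : n ≤ T) (hT : 16 * D + 16 ≤ T) (hq : q ≤ 2 ^ (2 * T)) :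
    1 + 4 * (2 * (2 ^ n * 2 ^ n) + 1) ^ (2 * D) * q * (4 + 2 * (2 ^ n * 2 ^ n)) ≤ 2 ^ T ^ 3 := by
  have h0 : 2 ^ n ≤ 2 ^ T := p2_le le_rfl hn
  have h1 := p2_mul (show 2 ≤ 2 ^ 1 by norm_num) (p2_mul h0 h0)
  have h3 := p2_add h1 Nat.one_le_two_pow
  have h4 := p2_add (p2_le (show 4 ≤ 2 ^ 2 by norm_num) (by omega)) h1
  refine p2_le (p2_add Nat.one_le_two_pow (p2_mul (p2_mul (p2_mul (show 4 ≤ 2 ^ 2 by norm_num)
    (p2_pow h3 (2 * D))) hq) h4)) ?_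
  have : T * (16 * D + 16) ≤ T * T := Nat.mul_le_mul_left _ hT
  have : T * T * 1 ≤ T * T * T := Nat.mul_le_mul_left _ (by omega)
  have : D * 1 ≤ D * T := Nat.mul_le_mul_left _ (by omega)
  nlinarith

theorem num_K' (T q : ℕ) (hT : 16 ≤ T) (hq : q ≤ 2 ^ (2 * T)) :
    q * (1 + (3 + 2 * 2 ^ (T ^ 2 + 1)) * (1 + 3 * 2 ^ (T ^ 2 + 1))) ≤ 2 ^ T ^ 3 := by
  have h1 := p2_add (p2_le (show 3 ≤ 2 ^ 2 by norm_num) (by omega))
    (p2_mul (show 2 ≤ 2 ^ 2 by norm_num) (le_refl (2 ^ (T ^ 2 + 1))))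
  have h2 := p2_add Nat.one_le_two_pow
    (p2_mul (show 3 ≤ 2 ^ 2 by norm_num) (le_refl (2 ^ (T ^ 2 + 1))))
  refine p2_le (p2_mul hq (p2_add Nat.one_le_two_pow (p2_mul h1 h2))) ?_
  have : T ^ 2 * 16 ≤ T ^ 2 * T := Nat.mul_le_mul_left _ hT
  nlinarith

theorem num_one (n T D q i : ℕ) (hn : n ≤ T) (hT : 16 * D + 16 ≤ T) (hq : q ≤ 2 ^ (2 * T))
    (hi : i ≤ 2 ^ (3 * T)) :
    4 * (q * (3 * ((1 + i * (32 * (2 ^ (T ^ 2 + 1)) ^ 3 * (2 ^ n + 1) + 1)) * (2 ^ T ^ 3) ^ D))) ≤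
      2 ^ T ^ 4 := by
  have h0 := p2_add (p2_le (le_refl (2 ^ n)) hn) Nat.one_le_two_pow
  have h1 := p2_add (p2_mul (p2_mul (show 32 ≤ 2 ^ 5 by norm_num)
    (p2_pow (le_refl (2 ^ (T ^ 2 + 1))) 3)) h0) Nat.one_le_two_pow
  refine p2_le (p2_mul (show 4 ≤ 2 ^ 2 by norm_num) (p2_mul hq (p2_mul
    (show 3 ≤ 2 ^ 2 by norm_num) (p2_mul (p2_add Nat.one_le_two_pow (p2_mul hi h1))
      (p2_pow (le_refl (2 ^ T ^ 3)) D))))) ?_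
  have a1 : T ^ 3 * (16 * D + 16) ≤ T ^ 3 * T := Nat.mul_le_mul_left _ hT
  have a2 : T ^ 2 * 16 ≤ T ^ 2 * T := Nat.mul_le_mul_left _ (by omega)
  have a3 : T * 16 ≤ T * T := Nat.mul_le_mul_left _ (by omega)
  have a4 : T ^ 4 = T ^ 3 * T := by ring
  have a5 : T ^ 3 = T ^ 2 * T := by ring
  have a6 : T ^ 2 = T * T := by ring
  nlinarith

theorem num_poly (d c : ℕ) : ∃ n1, ∀ n ≥ n1, ∀ T, 1 ≤ T → T ≤ n ^ d →
    144 * T ^ 2 * (c * (44 * (T ^ 4) ^ 2 * T)) ^ (d + 1) < 2 ^ n := by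
  obtain ⟨n1, h⟩ := poly_le_exp (144 * (c * 44) ^ (d + 1)) (d * (2 + 9 * (d + 1)))
  refine ⟨n1, fun n hn T _ hT => lt_of_le_of_lt ?_ (h n hn)⟩
  calc _ = 144 * (c * 44) ^ (d + 1) * T ^ (2 + 9 * (d + 1)) := by
        rw [pow_add T 2, pow_mul T 9, show c * (44 * (T ^ 4) ^ 2 * T) = (c * 44) * T ^ 9 by ring,
          mul_pow]; ring
    _ ≤ _ := by rw [pow_mul n d]; gcongr

end Pool.Agent.Lib.MP_2733b3_lc
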