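import Pool.Agent.Lib.MP_2733b3_lc.Core
import Pool.Agent.Lib.MP_2733b3_lc.Num

/-! The layout of one stage inside the oracle. -/

set_option autoImplicit false

namespace Pool.Agent.Lib.MP_2733b3_lc

open Finset

/-- The strings of region `m`. -/
def Reg (m : ℕ) (s : List Bool) : Prop :=
  (∃ u j sd x, u.length = m ∧ x.length = m ^ 2 ∧ s = cell u j sd x) ∨
    ∃ y z, y.length = m ∧ s = rowc y z

/-- The oracles agree outside the regions from `m` on. -/
def Agree (m : ℕ) (A B : List Bool → Bool) : Prop := ∀ s, (∀ k, m ≤ k → ¬ Reg k s) → B s = A s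

/-- Block `u` can be decoded to the right bit. -/
def Promise (b : List Bool → (List Bool → Bool) → Bool) (A : List Bool → Bool) (u : List Bool) :
    Prop :=
  (b u A = true → 2 / 3 ≤ pacc A u (u.length ^ 2) (rr u.length)) ∧
    (b u A = false → pacc A u (u.length ^ 2) (rr u.length) ≤ 1 / 3)

/-- The encoded bits have short certificates. -/
def BCert (b : List Bool → (List Bool → Bool) → Bool) : Prop :=
  ∀ u : List Bool, Cert u.length (fun s => s.length ≤ u.length) (b u)

theorem length_cell (u : List Bool) (j : ℕ) (sd : Bool) (x : List Bool) :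
    (cell u j sd x).length = 2 * u.length + 2 * j + 2 * x.length + 9 := by
  simp [cell, length_code]; omega

theorem Reg.lt {m : ℕ} {s : List Bool} (h : Reg m s) : m < s.length := by
  rcases h with ⟨u, j, sd, x, h1, _, rfl⟩ | ⟨y, z, h1, rfl⟩
  · rw [length_cell]; omega
  · simp [rowc, length_code]; omega

theorem Reg.unique {m k : ℕ} {s : List Bool} (h : Reg m s) (h' : Reg k s) : m = k := by
  rcases h with ⟨u, j, sd, x, h1, _, rfl⟩ | ⟨y, z, h1, rfl⟩ <;>
    rcases h' with ⟨u', j', sd', x', h2, _, h3⟩ | ⟨y', z', h2, h3⟩ <;>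
    have := code_injective h3 <;> simp at this
  · rw [← h1, ← h2, this.1]
  · rw [← h1, ← h2, this.1]

theorem not_reg_help (m : ℕ) (xs : List (List Bool)) : ¬ Reg m (help xs) := by
  rintro (⟨u', j', sd', x', _, _, h3⟩ | ⟨y', z', _, h3⟩) <;>
    have := code_injective h3 <;> simp at this

/-- Blocks of the stage. -/
abbrev QQ (n T : ℕ) := Σ m : Icc n T, (Fin m → Bool)

/-- Instances of the stage. -/
abbrev II (n T : ℕ) := Σ q : QQ n T, Fin (rr q.1)

/-- Lengths of the instances. -/
abbrev ln (n T : ℕ) : II n T → ℕ := fun i => (i.1.1 : ℕ) ^ 2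

/-- The strings of the stage. -/
def emb (n T : ℕ) : (Fin n → Bool) × (Fin n → Bool) ⊕ (Σ i, Var (ln n T i)) → List Bool :=
  Sum.elim (fun p => rowc (List.ofFn p.1) (List.ofFn p.2))
    fun c => cell (List.ofFn c.1.1.2) c.1.2 c.2.1 (List.ofFn c.2.2)

theorem emb_injective (n T : ℕ) : Function.Injective (emb n T) := by
  rintro (⟨y, z⟩ | ⟨⟨⟨⟨m, hm⟩, u⟩, j⟩, sd, x⟩) (⟨y', z'⟩ | ⟨⟨⟨⟨m', hm'⟩, u'⟩, j'⟩, sd', x'⟩) h <;>
    have := code_injective h <;> simp only [List.cons.injEq, and_true, true_and] at this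
  · rw [List.ofFn_injective this.1, List.ofFn_injective this.2]
  · simp at this
  · simp at this
  · obtain ⟨h1, h2, h3, h4⟩ := this
    have e1 : m = m' := by simpa using congrArg List.length h1
    subst e1
    have e2 := List.ofFn_injective h1
    subst e2
    have e3 : j = j' := Fin.ext (by simpa using congrArg List.length h2)
    subst e3 h3
    rw [List.ofFn_injective h4]

theorem emb_reg (n T : ℕ) (p : (Fin n → Bool) × (Fin n → Bool) ⊕ (Σ i, Var (ln n T i))) :
    ∃ k, n ≤ k ∧ Reg k (emb n T p) := by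
  rcases p with ⟨y, z⟩ | ⟨⟨⟨⟨m, hm⟩, u⟩, j⟩, sd, x⟩
  · exact ⟨n, le_rfl, Or.inr ⟨_, _, by simp, rfl⟩⟩
  · exact ⟨m, (mem_Icc.1 hm).1, Or.inl ⟨_, _, _, _, by simp, by simp, rfl⟩⟩

/-- The layered system of the stage. -/
noncomputable def stageSys (n T : ℕ) (hn : 2 ≤ n) (b : List Bool → (List Bool → Bool) → Bool)
    (hb : BCert b) (A : List Bool → Bool) :
    Sys ((Fin n → Bool) × (Fin n → Bool)) (QQ n T) (Σ i, Var (ln n T i)) where
  blk c := c.1.1
  lev q := Nat.log n q.1
  b q α := b (List.ofFn q.2) (Function.extend (emb n T) α A)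
  w := T
  cert q α h := by
    classical
    obtain ⟨S, s1, s2, s3⟩ := hb _ _ h
    refine ⟨univ.filter fun p => emb n T p ∈ S, ?_, fun p hp => ?_, fun β hβ => s3 _ fun s hs => ?_⟩
    · refine le_trans (card_le_card_of_injOn (emb n T) (fun p hp => by simpa using hp)
        (emb_injective n T).injOn) (s1.trans ?_)
      simpa using (mem_Icc.1 q.1.2).2
    · rcases p with p | ⟨⟨⟨⟨m, hm⟩, u⟩, j⟩, sd, x⟩
      · trivial
      · have h1 := s2 _ (mem_filter.1 hp).2
        simp only [emb, Sum.elim_inr, length_cell, List.length_ofFn, ln] at h1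
        have h2 := (mem_Icc.1 hm).1
        show Nat.log n m < Nat.log n q.1
        have h3 : 1 ≤ Nat.log n m := Nat.log_pos (by omega) h2
        have h4 : n ^ Nat.log n m ≤ m := Nat.pow_log_le_self n (by omega)
        have h5 : n ^ (Nat.log n m * 2) ≤ q.1 := by
          rw [pow_mul]; exact le_trans (Nat.pow_le_pow_left h4 2) (by omega)
        have := Nat.le_log_of_pow_le (by omega) h5
        omega
    · by_cases hs' : ∃ p, emb n T p = s
      · obtain ⟨p, rfl⟩ := hs'
        rw [(emb_injective n T).extend_apply, (emb_injective n T).extend_apply]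
        exact hβ p (by simpa using hs)
      · rw [Function.extend_apply' _ _ _ hs', Function.extend_apply' _ _ _ hs']

theorem one_sub_prod_le {ι : Type} (s : Finset ι) (a : ι → ℝ) (h0 : ∀ i, 0 ≤ a i)
    (h1 : ∀ i, a i ≤ 1) : 1 - ∏ i ∈ s, (1 - a i) ≤ ∑ i ∈ s, a i := by
  classical
  induction s using Finset.induction_on with
  | empty => simp
  | insert i s hi ih =>
    rw [prod_insert hi, sum_insert hi]
    have h2 : ∏ i ∈ s, (1 - a i) ≤ 1 :=
      prod_le_one (fun i _ => sub_nonneg.2 (h1 i)) fun i _ => by linarith [h0 i]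
    nlinarith [h0 i]

theorem prod_fiber {n T : ℕ} (q : QQ n T) (g : II n T → ℝ) :
    ∏ i ∈ univ.filter (fun i : II n T => i.1 = q), g i = ∏ j : Fin (rr q.1), g ⟨q, j⟩ := by
  rw [prod_filter, Fintype.prod_sigma, prod_eq_single q (fun q' _ h => by simp [h]) (by simp)]
  simp

theorem promise_stage (hphi : PhiStmt) (n T : ℕ) (hn : 2 ≤ n)
    (b : List Bool → (List Bool → Bool) → Bool) (hb : BCert b) (A : List Bool → Bool)
    (X0 X1 : ∀ i, Var (ln n T i) → Bool)
    (h0 : ∀ q, ∑ i ∈ univ.filter (fun i : II n T => i.1 = q), Phi (X0 i) ^ 2 ≤ 1 / 3)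
    (h1 : ∀ q, ∏ i ∈ univ.filter (fun i : II n T => i.1 = q), (1 - Phi (X1 i) ^ 2) ≤ 1 / 3)
    (R : (Fin n → Bool) × (Fin n → Bool) → Bool) (u : List Bool) (hu : u.length ∈ Icc n T) :
    Promise b (Function.extend (emb n T) ((stageSys n T hn b hb A).cf (R, smp X0 X1)) A) u := by
  set S := stageSys n T hn b hb A with hS
  let q : QQ n T := ⟨⟨u.length, hu⟩, u.get⟩
  have e0 : List.ofFn q.2 = u := List.ofFn_get u
  have e1 : b u (Function.extend (emb n T) (S.cf (R, smp X0 X1)) A) = S.ty q (R, smp X0 X1) := by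
    rw [← e0]; rfl
  have e2 : ∀ j : Fin (rr u.length),
      inst (Function.extend (emb n T) (S.cf (R, smp X0 X1)) A) u (u.length ^ 2) j =
      if S.ty q (R, smp X0 X1) = true then X1 ⟨q, j⟩ else X0 ⟨q, j⟩ := by
    intro j
    funext v
    have := (emb_injective n T).extend_apply (S.cf (R, smp X0 X1)) A (Sum.inr ⟨⟨q, j⟩, v⟩)
    simp only [emb, Sum.elim_inr, e0] at this
    rw [inst]
    refine this.trans ?_
    rw [Sys.cf, Sum.elim_inr, S.val_eq]
    show smp X0 X1 (S.ty q (R, smp X0 X1)) _ = _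
    cases S.ty q (R, smp X0 X1) <;> simp [smp]
  unfold Promise pacc
  rw [e1, prod_range]
  simp only [e2]
  refine ⟨fun h => ?_, fun h => ?_⟩
  · have := h1 q
    rw [prod_fiber] at this
    simp only [h, if_true]
    linarith
  · have := one_sub_prod_le (univ.filter (fun i : II n T => i.1 = q)) (fun i => Phi (X0 i) ^ 2)
      (fun i => sq_nonneg _) fun i => (hphi _).1 _
    rw [prod_fiber] at this
    simp only [h, Bool.false_eq_true, if_false]
    exact this.trans (h0 q)

end Pool.Agent.Lib.MP_2733b3_lc
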