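import Pool.Agent.Lib.MP_2733b3_lc.GDefs
import Pool.Agent.Lib.MP_2733b3_lc.Layout

/-! Encoded bits given by NAND trees, and the language with one false row. -/

set_option autoImplicit false

namespace Pool.Agent.Lib.MP_2733b3_lc

/-- The encoded bits are NAND trees of depth `j` over gates with short certificates. -/
def BDeep (j : ℕ) (b : List Bool → (List Bool → Bool) → Bool) : Prop :=
  ∃ (g : List Bool → List (List Bool) → (List Bool → Bool) → Bool) (bd : List Bool → ℕ),
    (∀ u, b u = g u []) ∧ (∀ u, bd u ≤ u.length) ∧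
    (∀ u ys, ys.length = j → Cert u.length (fun s => s.length ≤ u.length) (g u ys)) ∧
    ∀ u ys A, ys.length < j →
      (g u ys A = true ↔ ∃ y : List Bool, y.length ≤ bd u ∧ g u (ys ++ [y]) A = false)

/-- The NAND tree of depth `k` over strings of length exactly `n`. -/
def Nd (n : ℕ) : ℕ → (List (List Bool) → Prop) → Prop
  | 0, P => P []
  | k + 1, P => ∃ y : List Bool, y.length = n ∧ ¬ Nd n k fun ys => P (y :: ys)

/-- The value of row `y`, a NAND tree of depth `k`. -/
def RowV (A : List Bool → Bool) (k : ℕ) (y : List Bool) : Prop :=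
  Nd y.length k fun zs => A (rowc y (code zs)) = true

/-- Exactly one row of length `m` is false. -/
def Uniq (A : List Bool → Bool) (k m : ℕ) : Prop :=
  ∃ y0 : List Bool, y0.length = m ∧ ∀ y : List Bool, y.length = m → (¬ RowV A k y ↔ y = y0)

open Classical in
/-- Some false row starts with the bit `true`. -/
noncomputable def LK (A : List Bool → Bool) (k : ℕ) (x : List Bool) : Bool :=
  decide (∃ y : List Bool, y.length = x.length ∧ y.headD false = true ∧ ¬ RowV A k y)

/-- The encoding of Sigma_(j+1). -/
def EncStmt : Prop :=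
  ∀ j : ℕ, ∃ b : List Bool → (List Bool → Bool) → Bool, BDeep j b ∧
    ∀ (m0 : ℕ) (A : List Bool → Bool), HelpOK A →
      (∀ u : List Bool, m0 ≤ u.length → Promise b A u) → ∀ L, InPH A (j + 1) true L → InBQP A L

/-- The hard language lies in both classes, and there is a first oracle. -/
def LangStmt : Prop :=
  ∀ k : ℕ, (∀ A, InPH A (k + 1) true (LK A k)) ∧
    (∀ A, (∀ m, Uniq A k m) → InPH A (k + 1) false (LK A k)) ∧
    ∃ A, HelpOK A ∧ ∀ m, Uniq A k m

end Pool.Agent.Lib.MP_2733b3_lc
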