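import Pool.Agent.Lib.MP_2733b3_lc.GInd

/-! The finite core for deep systems over trees with hidden pointers. -/

set_option autoImplicit false

namespace Pool.Agent.Lib.MP_2733b3_lc

open Finset

variable {Y Z Q I : Type} [DecidableEq Y] [DecidableEq Z] [Fintype Y] [Fintype Z] [Fintype Q]
  [Fintype I] [DecidableEq I] {l : I → ℕ}

open Classical in
theorem Sys.dense_tail2 (S : Sys (Y × Z) Q (Σ i, Var (l i))) {w : ℕ} {dp : Q → ℕ}
    {ch : Q → Q → Prop} (hS : S.Deep w dp ch) (u : ℕ) (q : Q) (R D : ℕ)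
    (hR : 1 ≤ R) (hw : 1 ≤ w) (hD : S.lev q < D) (K : ℝ) (hK1 : 1 ≤ K) (i : I)
    (hK : Fintype.card Q * (1 + (3 + 2 * Fintype.card (Var (l i))) *
      (1 + 3 * Fintype.card (Var (l i))) : ℝ) ≤ K) (a : Y → Z) (X0 X1 : ∀ i, Var (l i) → Bool)
    (z : Var (l i) → ℝ) (hz : ∀ v, |z v| ≤ 1 / 2) :
    pr (bias z) (fun x => (Fintype.card Y + 1) * (44 * R ^ 2 * w) ^ D <
      sens (fun x => decide (S.Dense u q (a, smp X0 (Function.update X1 i x)))) x) ≤
      (Fintype.card Y + 1) * (K ^ D * (1 / 2) ^ R) := by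
  let Ry : Option Y → Y × Z → Bool := fun o => o.elim (row a) fun y => flp (row a) (y, a y)
  have h1 := pr_exists_le' (bias_nonneg hz) _ _ fun o : Option Y =>
    hS.sens_tail (bias z) (bias_nonneg hz) (sum_bias z).le (bias_flp hz) (Ry o)
      (fun x => smp X0 (Function.update X1 i x)) (smp_flp X0 X1 i) R hR hw K hK1 hK D
  rw [Fintype.card_option] at h1
  push_cast at h1
  refine le_trans (pr_mono (bias_nonneg hz) fun x hx => ?_) h1
  by_contra hc
  push Not at hc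
  have h2 := cnt_exists_le (univ : Finset (Option Y)) _ _ fun o _ => hc o q hD
  rw [card_univ, Fintype.card_option] at h2
  refine absurd (le_trans (cnt_mono fun v hv => ?_) h2) (not_le.2 hx)
  by_contra hc2
  push Not at hc2
  apply hv
  have h3 := hc2 none (mem_univ _)
  have h4 := fun y => hc2 (some y) (mem_univ _)
  simp only [Ry, Option.elim] at h3 h4
  exact decide_eq_decide.2 (by simp only [Sys.Dense, h3, h4])

theorem core2 (hrt : RTStmt) (hphi : PhiStmt) [Nonempty Z] {B : Type} [Fintype B] [DecidableEq B]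
    (S : Sys (Y × Z) Q (Σ i, Var (l i))) {w : ℕ} {dp : Q → ℕ} {ch : Q → Q → Prop}
    (hS : S.Deep w dp ch) (bl : I → B) (R D u : ℕ) (hR : 1 ≤ R) (hw : 1 ≤ w)
    (hD : ∀ q, S.lev q < D) (K Vm η : ℝ) (hV : ∀ i, (Fintype.card (Var (l i)) : ℝ) ≤ Vm)
    (hK1 : 1 ≤ K) (hη : K ^ D * (1 / 2) ^ R ≤ η) (hup : ∀ q, up (S.Dense u q) ≤ η)
    (hK' : Fintype.card Q * (1 + (3 + 2 * Vm) * (1 + 3 * Vm)) ≤ K)
    (hΓ : ∑ i, 16 * (((Fintype.card Y + 1) * (44 * R ^ 2 * w) ^ D : ℕ) : ℝ) ^ 2 * sig (l i) ≤ 1)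
    (h1 : Fintype.card Q * (3 * ((1 + Fintype.card I * (32 * Vm ^ 3 * (Fintype.card Y + 1) + 1)) *
      η)) ≤ 1 / 4)
    (h2 : ∑ i, (3 : ℝ) * (1 / 2 ^ l i) ≤ 1 / 4)
    (h3 : ∑ q, 3 * ∏ i ∈ univ.filter (fun i => bl i = q),
      (1 - 1 / (256 * ((l i : ℝ) + 3) ^ 2)) ≤ 1 / 4) :
    ∃ (a : Y → Z) (X0 X1 : ∀ i, Var (l i) → Bool),
      (∀ q, ¬ S.Dense u q (a, smp X0 X1)) ∧
      (∀ q, ∑ i ∈ univ.filter (fun i => bl i = q), Phi (X0 i) ^ 2 ≤ 1 / 3) ∧
      ∀ q, ∏ i ∈ univ.filter (fun i => bl i = q), (1 - Phi (X1 i) ^ 2) ≤ 1 / 3 := by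
  classical
  have hη0 : 0 < η := lt_of_lt_of_le (by positivity) hη
  choose Dd d0 d1 d2 d3 using fun i => hrt (l i) η hη0
  have hz0 : ∀ (i : I) (v : Var (l i)), |(0 : Var (l i) → ℝ) v| ≤ 1 / 2 := fun i v => by simp
  have b0 : ∀ i (x : Var (l i) → Bool), 0 ≤ bias 0 x := fun i => bias_nonneg (hz0 i)
  let c0 : ℝ := 1 / Fintype.card (Y → Z)
  have hc0 : ∑ _a : Y → Z, c0 = 1 := by
    have : (Fintype.card (Y → Z) : ℝ) ≠ 0 := by exact_mod_cast Fintype.card_ne_zero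
    simp only [sum_const, card_univ, nsmul_eq_mul, c0]; field_simp
  let pu : (∀ i, Var (l i) → Bool) → ℝ := fun X => ∏ i, bias 0 (X i)
  let pd : (∀ i, Var (l i) → Bool) → ℝ := fun X => ∏ i, Dd i (X i)
  have pu0 : ∀ X, 0 ≤ pu X := fun X => prod_nonneg fun i _ => b0 i _
  have pd0 : ∀ X, 0 ≤ pd X := fun X => prod_nonneg fun i _ => d0 i _
  have pu1 : ∑ X, pu X = 1 := by
    rw [sum_prod_weights (fun i => bias (0 : Var (l i) → ℝ))]; simp [sum_bias]
  have pd1 : ∑ X, pd X = 1 := by rw [sum_prod_weights Dd]; simp [d1]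
  let f : (Y → Z) × (∀ i, Var (l i) → Bool) → ℝ := fun p => c0 * pu p.2
  have f0 : ∀ p, 0 ≤ f p := fun p => mul_nonneg (by positivity) (pu0 _)
  have f1 : ∑ p, f p = 1 := by
    rw [Fintype.sum_prod_type]
    simp only [f, ← mul_sum, pu1, mul_one, hc0]
  -- the ideal world
  have hid : ∀ q, ∑ p, f p * pr pu (fun X => S.Dense u q (p.1, smp p.2 X)) ≤ η := by
    intro q
    let c1 : ℝ := c0 * (∏ i, (1 / 2) ^ Fintype.card (Var (l i))) *
      ∏ i, (1 / 2) ^ Fintype.card (Var (l i))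
    have e1 : ∀ p X, f p * pu X = c1 := fun p X => by simp only [f, pu, bias_zero, c1]
    have hs : ∑ _ω : (Y → Z) × (Bool → (Σ i, Var (l i)) → Bool), c1 = 1 := by
      rw [← (smpE (A := Y → Z) l).sum_comp (fun _ => c1), Fintype.sum_prod_type]
      refine (sum_congr rfl fun p _ => ?_).trans f1
      rw [← mul_one (f p), ← pu1, mul_sum]
      exact sum_congr rfl fun X _ => (e1 p X).symm
    have hc1 : c1 = 1 / Fintype.card ((Y → Z) × (Bool → (Σ i, Var (l i)) → Bool)) := by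
      rw [sum_const, card_univ, nsmul_eq_mul] at hs
      exact eq_one_div_of_mul_eq_one_right hs
    rw [← pr_prod f pu (fun p => S.Dense u q (p.1.1, smp p.1.2 p.2))]
    simp only [e1]
    refine le_trans (le_of_eq (pr_equiv (smpE (A := Y → Z) l) (fun _ => c1) (S.Dense u q))) ?_
    rw [hc1]
    exact hup q
  have hVm : 0 ≤ Vm ^ 3 * Fintype.card I := by
    by_cases hI : Nonempty I
    · obtain ⟨i⟩ := hI
      have : 0 ≤ Vm := le_trans (Nat.cast_nonneg _) (hV i)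
      positivity
    · rw [not_nonempty_iff] at hI; simp
  -- the real world
  let μ : ((Y → Z) × (∀ i, Var (l i) → Bool)) × (∀ i, Var (l i) → Bool) → ℝ :=
    fun p => f p.1 * pd p.2
  have μ0 : ∀ p, 0 ≤ μ p := fun p => mul_nonneg (f0 _) (pd0 _)
  have μ1 : ∑ p, μ p = 1 := by
    rw [Fintype.sum_prod_type]
    simp only [μ, ← mul_sum, pd1, mul_one, f1]
  have hre : ∀ q, pr μ (fun p => S.Dense u q (p.1.1, smp p.1.2 p.2)) ≤
      3 * ((1 + Fintype.card I * (32 * Vm ^ 3 * (Fintype.card Y + 1) + 1)) * η) := by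
    intro q
    rw [pr_prod f pd (fun p => S.Dense u q (p.1.1, smp p.1.2 p.2))]
    by_cases hI : Nonempty I
    swap
    · rw [not_nonempty_iff] at hI
      have : pd = pu := funext fun X => by simp [pd, pu]
      rw [this]
      refine (hid q).trans ?_
      simp only [Fintype.card_eq_zero, Nat.cast_zero, zero_mul, add_zero, one_mul]
      linarith
    obtain ⟨i0⟩ := hI
    have hV0 : 0 ≤ Vm := le_trans (Nat.cast_nonneg _) (hV i0)
    set η' := (32 * Vm ^ 3 * (Fintype.card Y + 1) + 1) * η with hη'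
    have hp : ∀ p : (Y → Z) × (∀ i, Var (l i) → Bool),
        pr pd (fun X => S.Dense u q (p.1, smp p.2 X)) ≤
        3 * (pr pu (fun X => S.Dense u q (p.1, smp p.2 X)) + Fintype.card I * η') := by
      intro p
      have hh := hybrid (fun i => bias (0 : Var (l i) → ℝ)) Dd b0 d0 (fun i => sum_bias _) d1
        (fun i => 16 * (((Fintype.card Y + 1) * (44 * R ^ 2 * w) ^ D : ℕ) : ℝ) ^ 2 * sig (l i))
        (fun i => by unfold sig; positivity) η' (by positivity)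
        (fun X => S.Dense u q (p.1, smp p.2 X)) fun i X => by
          have hVi := hV i
          have hVi0 : (0 : ℝ) ≤ Fintype.card (Var (l i)) := Nat.cast_nonneg _
          have := d3 i _ _ _ (S.dense_tail2 hS u q R D hR hw (hD q) K hK1 i
            (le_trans (mul_le_mul_of_nonneg_left (by nlinarith) (Nat.cast_nonneg _)) hK')
            p.1 p.2 X)
          simp only [decide_eq_true_eq] at this
          refine this.trans (mul_le_mul_of_nonneg_left ?_ (Real.exp_pos _).le)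
          have h5 : (Fintype.card (Var (l i)) : ℝ) ^ 3 ≤ Vm ^ 3 := pow_le_pow_left₀ hVi0 hVi 3
          have h6 := mul_le_mul_of_nonneg_right h5
            (show (0 : ℝ) ≤ (Fintype.card Y + 1) * η by positivity)
          have h7 := mul_le_mul_of_nonneg_left hη (show (0 : ℝ) ≤
            32 * (Fintype.card (Var (l i)) : ℝ) ^ 3 * (Fintype.card Y + 1) by positivity)
          rw [hη']
          nlinarith
      refine hh.trans (mul_le_mul_of_nonneg_right ?_ (add_nonneg (pr_nonneg pu0 _) (by positivity)))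
      exact (Real.exp_le_exp.2 hΓ).trans (Real.exp_one_lt_d9.le.trans (by norm_num))
    refine le_trans (sum_le_sum fun p _ => mul_le_mul_of_nonneg_left (hp p) (f0 p)) ?_
    have e2 : ∑ p, f p * (3 * (pr pu (fun X => S.Dense u q (p.1, smp p.2 X)) +
        Fintype.card I * η')) = 3 * (∑ p, f p * pr pu (fun X => S.Dense u q (p.1, smp p.2 X)) +
        (∑ p, f p) * (Fintype.card I * η')) := by
      rw [sum_mul, ← sum_add_distrib, mul_sum]
      exact sum_congr rfl fun p _ => by ring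
    rw [e2, f1]
    have := hid q
    rw [hη']
    nlinarith
  have hA := pr_exists_le' μ0 _ _ hre
  have hB : pr μ (fun p => ∃ q, 1 / 3 < ∑ i ∈ univ.filter (fun i => bl i = q), Phi (p.1.2 i) ^ 2)
      ≤ 1 / 4 := by
    refine le_trans (pr_mono μ0 fun p ⟨q, hq⟩ => ⟨q, mem_univ q, hq⟩)
      ((pr_exists_mem μ0 univ _).trans (le_trans (sum_le_sum fun q _ =>
        pr_markov μ0 _ fun p => sum_nonneg fun i _ => sq_nonneg _) (le_trans (le_of_eq ?_) h2)))
    rw [← sum_fiberwise univ bl]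
    refine sum_congr rfl fun q _ => ?_
    have e3 : ∀ g : (∀ i, Var (l i) → Bool) → ℝ, ∑ p, μ p * g p.1.2 = ∑ X, pu X * g X := by
      intro g
      rw [Fintype.sum_prod_type, Fintype.sum_prod_type, ← one_mul (∑ X, pu X * g X), ← hc0,
        sum_mul]
      refine sum_congr rfl fun a _ => ?_
      rw [mul_sum]
      refine sum_congr rfl fun X _ => ?_
      show ∑ X1, c0 * pu X * pd X1 * g X = _
      rw [← sum_mul, ← mul_sum, pd1]; ring
    rw [e3 (fun X => ∑ i ∈ univ.filter (fun i => bl i = q), Phi (X i) ^ 2), ← mul_sum]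
    congr 1
    simp only [mul_sum]
    rw [sum_comm]
    refine sum_congr rfl fun i _ => ?_
    have := expect_prod (fun i => bias (0 : Var (l i) → ℝ)) (fun i x => Phi x ^ 2)
      (fun i => sum_bias _) {i}
    simp only [prod_singleton] at this
    rw [this, (hphi _).2]
  have hC : pr μ (fun p => ∃ q, 1 / 3 <
      ∏ i ∈ univ.filter (fun i => bl i = q), (1 - Phi (p.2 i) ^ 2)) ≤ 1 / 4 := by
    refine le_trans (pr_mono μ0 fun p ⟨q, hq⟩ => ⟨q, mem_univ q, hq⟩)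
      ((pr_exists_mem μ0 univ _).trans (le_trans (sum_le_sum fun q _ => le_trans
        (pr_markov μ0 _ fun p => prod_nonneg fun i _ => sub_nonneg.2 ((hphi _).1 _)) ?_) h3))
    refine mul_le_mul_of_nonneg_left ?_ (by norm_num)
    rw [Fintype.sum_prod_type]
    simp only [μ, mul_assoc, ← mul_sum, ← sum_mul, f1, one_mul]
    rw [expect_prod Dd (fun i x => 1 - Phi x ^ 2) d1]
    refine prod_le_prod (fun i _ => sum_nonneg fun x _ =>
      mul_nonneg (d0 i x) (sub_nonneg.2 ((hphi _).1 _))) fun i _ => ?_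
    set m : ℝ := 1 / (16 * ((l i : ℝ) + 3)) with hm
    have m0 : 0 ≤ m := by positivity
    have e4 : 1 / (256 * ((l i : ℝ) + 3) ^ 2) = m ^ 2 := by rw [hm]; field_simp; norm_num
    have e5 : ∑ x, Dd i x * (1 - Phi x ^ 2) ≤
        ∑ x, (Dd i x * (1 + m ^ 2) - 2 * m * (Dd i x * Phi x)) :=
      sum_le_sum fun x _ => by nlinarith [mul_nonneg (d0 i x) (sq_nonneg (Phi x - m))]
    rw [sum_sub_distrib, ← sum_mul, ← mul_sum, d1] at e5
    have := mul_le_mul_of_nonneg_left (d2 i) m0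
    rw [e4]
    nlinarith
  have hall := (pr_or μ0 _ _).trans (add_le_add (hA.trans h1) ((pr_or μ0 _ _).trans
    (add_le_add hB hC)))
  obtain ⟨p, hp⟩ := exists_not_of_pr_lt (lt_of_le_of_lt hall (by rw [μ1]; norm_num))
  push Not at hp
  exact ⟨p.1.1, p.1.2, p.2, hp.1, hp.2.1, hp.2.2⟩

theorem core3 (hrt : RTStmt) (hphi : PhiStmt) [Nonempty Z] {B : Type} [Fintype B] [DecidableEq B]
    {j : ℕ} (S : Sys (Z × Z × Leaf Z j) Q (Σ i, Var (l i))) {w : ℕ} {dp : Q → ℕ}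
    {ch : Q → Q → Prop} (hS : S.Deep w dp ch) (hd : ∀ q, dp q ≤ j) (bl : I → B) (R D : ℕ)
    (hR : 1 ≤ R) (hw : 1 ≤ w) (hD : ∀ q, S.lev q < D) (hZ : 2 * w ≤ Fintype.card Z)
    (hu : 2 * ((2 * D + 4) * (44 * R ^ 2 * w)) ^ D ≤ Fintype.card Z) (K Vm : ℝ) (hD1 : 1 ≤ D)
    (hV : ∀ i, (Fintype.card (Var (l i)) : ℝ) ≤ Vm)
    (hK : ((2 + 4 * (2 * Fintype.card (Z × Z) + 1) ^ (2 * D) * Fintype.card Q *
      (4 + 2 * Fintype.card (Z × Z))) * (1 + 2 * Fintype.card Z) : ℝ) ≤ K)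
    (hK' : Fintype.card Q * (1 + (3 + 2 * Vm) * (1 + 3 * Vm)) ≤ K)
    (hΓ : ∑ i, 16 * (((Fintype.card Z + 1) * (44 * R ^ 2 * w) ^ D : ℕ) : ℝ) ^ 2 * sig (l i) ≤ 1)
    (h1 : Fintype.card Q * (3 * ((1 + Fintype.card I * (32 * Vm ^ 3 * (Fintype.card Z + 1) + 1)) *
      (K ^ (D * (j + 1)) * (1 / 2) ^ R))) ≤ 1 / 4)
    (h2 : ∑ i, (3 : ℝ) * (1 / 2 ^ l i) ≤ 1 / 4)
    (h3 : ∑ q, 3 * ∏ i ∈ univ.filter (fun i => bl i = q),
      (1 - 1 / (256 * ((l i : ℝ) + 3) ^ 2)) ≤ 1 / 4) :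
    ∃ (b : Z → Z → Ptr Z j) (a : Z → Z) (X0 X1 : ∀ i, Var (l i) → Bool),
      (∀ q, ¬ (S.pull b).Dense (((2 * D + 4) * (44 * R ^ 2 * w)) ^ D) q (a, smp X0 X1)) ∧
      (∀ q, ∑ i ∈ univ.filter (fun i => bl i = q), Phi (X0 i) ^ 2 ≤ 1 / 3) ∧
      ∀ q, ∏ i ∈ univ.filter (fun i => bl i = q), (1 - Phi (X1 i) ^ 2) ≤ 1 / 3 := by
  classical
  set K0 : ℝ := 2 + 4 * (2 * Fintype.card (Z × Z) + 1) ^ (2 * D) * Fintype.card Q *
    (4 + 2 * Fintype.card (Z × Z)) with hK0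
  have k0 : 1 ≤ K0 := le_trans (by norm_num) (le_add_of_nonneg_right (by positivity))
  have k1 : (1 : ℝ) ≤ 1 + 2 * Fintype.card Z := le_add_of_nonneg_right (by positivity)
  have hK1 : 1 ≤ K := le_trans (by nlinarith) hK
  have h4 := Sys.tree_ideal (Q := Q) hR hw hZ hK0.ge hu j _ S dp ch hS hd hD
  obtain ⟨b, hb⟩ := exists_up_le (S.Fl (((2 * D + 4) * (44 * R ^ 2 * w)) ^ D))
  have h5 : (K0 ^ D * (1 + 2 * Fintype.card Z)) ^ (j + 1) ≤ K ^ (D * (j + 1)) := by
    rw [pow_mul]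
    refine pow_le_pow_left₀ (by positivity) (le_trans ?_ (pow_le_pow_left₀ (by positivity) hK D)) _
    rw [mul_pow]
    exact mul_le_mul_of_nonneg_left (le_self_pow₀ k1 (by omega)) (by positivity)
  refine ⟨b, core2 hrt hphi (S.pull b) (hS.pull b) bl R D _ hR hw hD K Vm _ hV hK1
    (mul_le_mul_of_nonneg_right (pow_le_pow_right₀ hK1 (Nat.le_mul_of_pos_right _ (by omega)))
      (by positivity)) (fun q => ?_) hK' hΓ h1 h2 h3⟩
  refine le_trans (up_mono fun ω hω => ?_) (hb.trans (h4.trans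
    (mul_le_mul_of_nonneg_right h5 (by positivity))))
  refine ⟨q, false, ?_⟩
  simp only [Sys.half, Sys.act_false]
  exact hω

end Pool.Agent.Lib.MP_2733b3_lc
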