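import Pool.Agent.Lib.MP_2733b3_lc.Core

/-! Deep systems: every block is decided by a short certificate or is a NAND of lower blocks. -/

set_option autoImplicit false

namespace Pool.Agent.Lib.MP_2733b3_lc

open Finset

theorem Cert.subst {P P' : Type} {w : ℕ} {Low : P → Prop} {Low' : P' → Prop}
    {g : (P → Bool) → Bool} (h : Cert w Low g) (F : (P' → Bool) → P → Bool) (π : P → Option P')
    (h1 : ∀ α β p, (∀ p', π p = some p' → α p' = β p') → F α p = F β p)
    (h2 : ∀ p p', Low p → π p = some p' → Low' p') : Cert w Low' fun α => g (F α) := by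
  classical
  intro α ha
  obtain ⟨S, s1, s2, s3⟩ := h _ ha
  refine ⟨(S.image π).eraseNone, ((card_eraseNone_le _).trans card_image_le).trans s1,
    fun p' hp => ?_, fun β hβ => s3 _ fun p hp => h1 _ _ _ fun p' e => hβ p' ?_⟩
  · obtain ⟨p, hp1, hp2⟩ := mem_image.1 (mem_eraseNone.1 hp)
    exact h2 p p' (s2 p hp1) hp2
  · exact mem_eraseNone.2 (mem_image.2 ⟨p, hp, e⟩)

theorem Cert.of_dep {P : Type} [Fintype P] {Low : P → Prop} {g : (P → Bool) → Bool}
    (h : ∀ α β, (∀ p, Low p → β p = α p) → g β = g α) : Cert (Fintype.card P) Low g := by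
  classical
  intro α ha
  exact ⟨univ.filter Low, card_le_univ _, fun p hp => (mem_filter.1 hp).2, fun β hβ =>
    (h α β fun p hp => hβ p (mem_filter.2 ⟨mem_univ _, hp⟩)).trans ha⟩

theorem Cert.false {P : Type} (w : ℕ) (Low : P → Prop) : Cert w Low fun _ => false :=
  fun _ h => absurd h (by simp)

namespace Sys

variable {P Q C : Type} (S : Sys P Q C)

/-- The bits and cells below level `i`. -/
def Low (i : ℕ) : P ⊕ C → Prop := Sum.elim (fun _ => True) fun c => S.lev (S.blk c) < i

/-- Every block has certificates of size `w` or is a NAND of its children. -/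
def Deep (w : ℕ) (dp : Q → ℕ) (ch : Q → Q → Prop) : Prop :=
  ∀ q, Cert w (S.Low (S.lev q)) (S.b q) ∨
    ((∀ h, ch q h → S.lev h < S.lev q ∧ dp h < dp q) ∧
      ∀ α, S.b q α = true ↔ ∃ h, ch q h ∧ S.b h α = false)

/-- The bits, cells and types below level `i`. -/
def Low2 (i : ℕ) : (P ⊕ C) ⊕ Q → Prop := Sum.elim (S.Low i) fun h => S.lev h < i

/-- The visible configuration together with the types. -/
noncomputable def ex (σ : (P → Bool) × (Bool → C → Bool)) : (P ⊕ C) ⊕ Q → Bool :=
  Sum.elim (S.cf σ) fun h => S.ty h σ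

theorem Low.mono {i j : ℕ} (h : i ≤ j) {p : P ⊕ C} (hp : S.Low i p) : S.Low j p := by
  cases p with
  | inl p => trivial
  | inr c => exact lt_of_lt_of_le hp h

theorem Low2.mono {i j : ℕ} (h : i ≤ j) {p : (P ⊕ C) ⊕ Q} (hp : S.Low2 i p) : S.Low2 j p := by
  cases p with
  | inl p => exact Low.mono S h hp
  | inr c => exact lt_of_lt_of_le hp h

variable {S}

theorem Deep.exists_cert {w : ℕ} {dp : Q → ℕ} {ch : Q → Q → Prop} (hS : S.Deep w dp ch)
    (hw : 1 ≤ w) (q : Q) : ∃ g : ((P ⊕ C) ⊕ Q → Bool) → Bool, Cert w (S.Low2 (S.lev q)) g ∧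
      ∀ α, S.b q α = g (Sum.elim α fun h => S.b h α) := by
  classical
  rcases hS q with h | ⟨h1, h2⟩
  · refine ⟨fun γ => S.b q fun p => γ (Sum.inl p), h.subst (fun γ p => γ (Sum.inl p))
      (fun p => some (Sum.inl p)) (fun α β p hp => hp _ rfl) fun p p' hp e => ?_, fun α => rfl⟩
    cases e
    exact hp
  · refine ⟨fun γ => decide (∃ h, ch q h ∧ γ (Sum.inr h) = false), fun γ hγ => ?_, fun α => ?_⟩
    · obtain ⟨h, a1, a2⟩ := of_decide_eq_true hγ
      refine ⟨{Sum.inr h}, by simpa using hw, fun p hp => ?_, fun β hβ =>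
        decide_eq_true ⟨h, a1, (hβ _ (mem_singleton_self _)).trans a2⟩⟩
      rw [mem_singleton.1 hp]
      exact (h1 h a1).1
    · exact Bool.eq_iff_iff.2 (by rw [h2]; simp)

/-- Sensitivity tail of the types of a deep system. -/
theorem Deep.sens_tail {w : ℕ} {dp : Q → ℕ} {ch : Q → Q → Prop} (hS : S.Deep w dp ch)
    {V : Type} [Fintype V] [DecidableEq V] [Fintype P] [Fintype Q] [Fintype C]
    (μ : (V → Bool) → ℝ) (hμ : ∀ x, 0 ≤ μ x) (h1 : ∑ x, μ x ≤ 1)
    (hq : ∀ x v, μ x ≤ 3 * μ (flp x v)) (R0 : P → Bool) (Xf : (V → Bool) → Bool → C → Bool)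
    (hX : ∀ x β c, cnt (fun v => Xf (flp x v) β c ≠ Xf x β c) ≤ 1) (R : ℕ) (hR : 1 ≤ R)
    (hw : 1 ≤ w) (K : ℝ) (hK1 : 1 ≤ K)
    (hK : Fintype.card Q * (1 + (3 + 2 * Fintype.card V) * (1 + 3 * Fintype.card V) : ℝ) ≤ K)
    (i : ℕ) :
    pr μ (fun x => ∃ q, S.lev q < i ∧ (44 * R ^ 2 * w) ^ i <
      cnt (fun v => S.ty q (R0, Xf (flp x v)) ≠ S.ty q (R0, Xf x))) ≤ K ^ i * (1 / 2) ^ R := by
  classical
  choose g g1 g2 using hS.exists_cert hw
  let T : Sys P Q (C ⊕ Q) :=
    { blk := Sum.elim S.blk id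
      lev := S.lev
      b := fun q α => g q fun p => α (Equiv.sumAssoc P C Q p)
      w := w
      cert := fun q => (g1 q).subst (fun α p => α (Equiv.sumAssoc P C Q p))
        (fun p => some (Equiv.sumAssoc P C Q p)) (fun α β p hp => hp _ rfl) fun p p' hp e => by
          cases e
          rcases p with (p | c) | h
          · trivial
          · exact hp
          · exact hp }
  have e : ∀ (X : Bool → C → Bool) q,
      T.ty q (R0, fun β => Sum.elim (X β) fun _ => β) = S.ty q (R0, X) := by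
    intro X
    have e0 : ∀ q, T.b q (Sum.elim R0 (Sum.elim (S.val (R0, X)) fun h => S.ty h (R0, X))) =
        S.ty q (R0, X) := fun q => by
      rw [ty, g2]
      show g q _ = _
      congr 1
      funext p
      rcases p with (p | c) | h <;> rfl
    have e1 := T.val_unique (R0, fun β => Sum.elim (X β) fun _ => β)
      (Sum.elim (S.val (R0, X)) fun h => S.ty h (R0, X)) fun c => by
        rw [e0]
        cases c with
        | inl c => exact S.val_eq (R0, X) c
        | inr h => rfl
    intro q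
    rw [ty, cf, e1, e0]
  have := T.sens_tail μ hμ h1 hq R0 (fun x β => Sum.elim (Xf x β) fun _ => β)
    (fun x β c => by
      cases c with
      | inl c => exact hX x β c
      | inr h =>
        exact le_trans (le_of_le_of_eq (cnt_mono fun v hv => hv rfl) cnt_false) (Nat.zero_le _))
    R hR hw K hK1 hK i
  simp only [e] at this
  exact this

end Sys

end Pool.Agent.Lib.MP_2733b3_lc
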