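import Pool.Agent.Lib.MP_2733b3_lc.Defs

/-!
The levels of the polynomial hierarchy relative to an oracle `A`.
-/

set_option autoImplicit false

namespace Pool.Agent.Lib.MP_2733b3_lc

/-- `k` alternating quantifiers over strings of length at most `n` in front of `P`; the first one
is existential if the flag is `true` and universal if it is `false`. -/
def Alt (n : ℕ) : ℕ → Bool → (List (List Bool) → Prop) → Prop
  | 0, _, P => P []
  | k + 1, true, P => ∃ y : List Bool, y.length ≤ n ∧ Alt n k false fun ys => P (y :: ys)
  | k + 1, false, P => ∀ y : List Bool, y.length ≤ n → Alt n k true fun ys => P (y :: ys)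

/-- `L` is in Sigma_k (flag `true`) or Pi_k (flag `false`) relative to `A`. -/
def InPH (A : List Bool → Bool) (k : ℕ) (s : Bool) (L : List Bool → Bool) : Prop :=
  ∃ (p : Polynomial ℕ) (R : List Bool × List (List Bool) → Bool), InP A R ∧
    ∀ x, L x = true ↔ Alt (p.eval x.length) k s fun ys => R (x, ys) = true

end Pool.Agent.Lib.MP_2733b3_lc
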