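import Pool.Agent.Lib.MP_2733b3_lc.GBase
import Pool.Agent.Lib.MP_2733b3_lc.Encode

/-! The encoding of Sigma_(j+1) relative to the oracle into bits given by NAND trees. -/

set_option autoImplicit false

namespace Pool.Agent.Lib.MP_2733b3_lc

open Finset Pool.Agent.Shared.PolyTime

theorem Alt.congr (n : ℕ) : ∀ (k : ℕ) (s : Bool) (P P' : List (List Bool) → Prop),
    (∀ ys : List (List Bool), ys.length = k → (∀ y ∈ ys, y.length ≤ n) → (P ys ↔ P' ys)) →
    (Alt n k s P ↔ Alt n k s P')
  | 0, s, P, P', h => by
    cases s <;> exact h [] rfl (by simp)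
  | k + 1, true, P, P', h => exists_congr fun y => and_congr_right fun hy =>
      Alt.congr n k false _ _ fun ys h1 h2 => h (y :: ys) (by simp [h1]) (by simpa [hy] using h2)
  | k + 1, false, P, P', h => forall_congr' fun y => forall_congr' fun hy =>
      Alt.congr n k true _ _ fun ys h1 h2 => h (y :: ys) (by simp [h1]) (by simpa [hy] using h2)

theorem Alt.not (n : ℕ) : ∀ (k : ℕ) (s : Bool) (P : List (List Bool) → Prop),
    (¬ Alt n k s P ↔ Alt n k (!s) fun ys => ¬ P ys)
  | 0, s, P => by cases s <;> rfl
  | k + 1, true, P => by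
    simp only [Alt, Bool.not_true, not_exists, not_and]
    exact forall_congr' fun y => forall_congr' fun _ => Alt.not n k false _
  | k + 1, false, P => by
    simp only [Alt, Bool.not_false, not_forall, exists_prop]
    exact exists_congr fun y => and_congr_right fun _ => Alt.not n k true _

theorem Encode.Acc.dep {α : Type} (A : List Bool → Bool) (q : α × List Bool → List Bool)
    (o : α × List Bool → Bool) (a : α) (k n : ℕ) :
    ∃ S : Finset (List Bool), S.card ≤ n ∧ (∀ s ∈ S, s.length ≤ n) ∧
      ∀ B : List Bool → Bool, (∀ s ∈ S, B s = A s) →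
        (Encode.Acc B q o a k n ↔ Encode.Acc A q o a k n) := by
  classical
  by_cases hk : k ≤ n
  swap
  · exact ⟨∅, by simp, by simp, fun B _ => ⟨fun h => absurd h.1 hk, fun h => absurd h.1 hk⟩⟩
  refine ⟨((range k).image fun i => q (a, ans A q a i)).filter fun s => s.length ≤ n,
    (card_filter_le _ _).trans (card_image_le.trans ((card_range k).trans_le hk)),
    fun s hs => (mem_filter.1 hs).2, fun B hB => ?_⟩
  have key : (∀ i < k, (q (a, ans A q a i)).length ≤ n ∨ (q (a, ans B q a i)).length ≤ n) →
      ∀ i ≤ k, ans B q a i = ans A q a i := by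
    intro h i
    induction i with
    | zero => exact fun _ => rfl
    | succ i ih =>
      intro hi
      have e := ih (by omega)
      have h2 := h i (by omega)
      rw [e, or_self] at h2
      rw [Encode.ans_succ, Encode.ans_succ, e,
        hB _ (mem_filter.2 ⟨mem_image_of_mem _ (mem_range.2 (by omega)), h2⟩)]
  constructor
  · intro h
    have e := key fun i hi => Or.inr (h.2.1 i hi)
    exact ⟨hk, fun i hi => e i hi.le ▸ h.2.1 i hi, e k le_rfl ▸ h.2.2⟩
  · intro h
    have e := key fun i hi => Or.inl (h.2.1 i hi)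
    exact ⟨hk, fun i hi => (e i hi.le).symm ▸ h.2.1 i hi, (e k le_rfl).symm ▸ h.2.2⟩

open Encode in
theorem enc_proof (hc : CircStmt) : EncStmt := by
  classical
  intro j
  have c1 := (pt_countable ((List Bool × List (List Bool)) × List Bool) (List Bool)).to_subtype
  have c2 := (pt_countable ((List Bool × List (List Bool)) × List Bool) Bool).to_subtype
  have c3 := (pt_countable (List Bool × List (List Bool)) (List Bool)).to_subtype
  have c4 : Nonempty ({f : (List Bool × List (List Bool)) × List Bool → List Bool | PT f} ×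
      {f : (List Bool × List (List Bool)) × List Bool → Bool | PT f} ×
      {f : List Bool × List (List Bool) → List Bool | PT f}) :=
    ⟨⟨_, PT.const []⟩, ⟨_, PT.const true⟩, ⟨_, PT.const []⟩⟩
  obtain ⟨en, hen⟩ := exists_surjective_nat
    ({f : (List Bool × List (List Bool)) × List Bool → List Bool | PT f} ×
      {f : (List Bool × List (List Bool)) × List Bool → Bool | PT f} ×
      {f : List Bool × List (List Bool) → List Bool | PT f})
  let cd : ℕ × List Bool × List Bool × List Bool → List Bool := fun t =>
    code [List.replicate t.1 true, t.2.1, t.2.2.1, t.2.2.2]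
  have hcd : Function.Injective cd := by
    rintro ⟨e, x, w, p⟩ ⟨e', x', w', p'⟩ h
    have h4 := code_injective h
    simp only [List.cons.injEq, List.replicate_inj, or_true, and_true] at h4
    obtain ⟨rfl, rfl, rfl, rfl⟩ := h4
    rfl
  obtain ⟨dec, hdec⟩ : ∃ dec : List Bool → ℕ × List Bool × List Bool × List Bool,
      ∀ t, dec (cd t) = t := ⟨_, Function.leftInverse_invFun hcd⟩
  let Ac : List Bool → (List Bool → Bool) → List (List Bool) → Prop := fun u A zs =>
    Acc A (en (dec u).1).1.1 (en (dec u).1).2.1.1 ((dec u).2.1, zs)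
      ((en (dec u).1).2.2.1 ((dec u).2.1, zs)).length u.length
  let bd : List Bool → ℕ := fun u => min (dec u).2.2.1.length u.length
  let g : List Bool → List (List Bool) → (List Bool → Bool) → Bool := fun u ys A =>
    decide (Alt (bd u) (j + 1 - ys.length) true fun zs => (Ac u A (ys ++ zs) ↔ Even ys.length))
  refine ⟨fun u => g u [], ⟨g, bd, fun _ => rfl, fun u => min_le_right _ _, fun u ys hy A h => ?_,
    fun u ys A hy => ?_⟩, ?_⟩
  · have e : j + 1 - ys.length = 0 + 1 := by omega
    simp only [g, e, Alt, decide_eq_true_eq] at h ⊢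
    obtain ⟨y, h1, h2⟩ := h
    obtain ⟨S, s1, s2, s3⟩ := Acc.dep A (en (dec u).1).1.1 (en (dec u).1).2.1.1
      ((dec u).2.1, ys ++ [y]) ((en (dec u).1).2.2.1 ((dec u).2.1, ys ++ [y])).length u.length
    exact ⟨S, s1, s2, fun B hB => ⟨y, h1, (s3 B hB).trans h2⟩⟩
  · have e : j + 1 - ys.length = (j + 1 - (ys.length + 1)) + 1 := by omega
    simp only [g, decide_eq_true_eq, decide_eq_false_iff_not, List.length_append,
      List.length_singleton]
    rw [e]
    refine exists_congr fun y => and_congr_right fun _ => ?_
    rw [Alt.not]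
    refine Alt.congr _ _ _ _ _ fun zs _ _ => ?_
    rw [Nat.even_add_one, List.append_assoc, List.singleton_append]
    tauto
  rintro m0 A hA hP L ⟨p', R, ⟨q, o, p, hq, ho, hR⟩, hL⟩
  obtain ⟨r, hr, hr'⟩ := PT.unary_poly (α := List Bool × List (List Bool)) p
  obtain ⟨e, he⟩ := hen (⟨q, PT.ofIsPolyTime hq⟩, ⟨o, PT.ofIsPolyTime ho⟩, ⟨r, hr⟩)
  obtain ⟨Q, hQ⟩ := PB.length (PT.ofIsPolyTime hq)
  obtain ⟨G, hG, hG'⟩ := hc
  have t1 : PT fun x : List Bool => p'.eval x.length := pt_eval (by fun_prop) p'
  have b1 : PB fun x : List Bool => p'.eval x.length :=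
    PBe.eval (PB.length (f := fun x : List Bool => x) PT.id') p'
  obtain ⟨s, hs⟩ : ∃ s : List Bool → ℕ,
      s = fun x => 6 * x.length + 1 + (j + 1) * (6 * p'.eval x.length + 1) := ⟨_, rfl⟩
  have t2 : PT s := by rw [hs]; fun_prop
  have b2 : PB s := by rw [hs]; fun_prop
  have t3 : PT fun x => p.eval (s x) := pt_eval t2 p
  have b3 : PB fun x => p.eval (s x) := PBe.eval b2 p
  have t4 : PT fun x => Q.eval (2 * s x + 1 + 3 * p.eval (s x)) := pt_eval (by fun_prop) Q
  have b4 : PB fun x => Q.eval (2 * s x + 1 + 3 * p.eval (s x)) :=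
    PBe.eval (f := fun x => 2 * s x + 1 + 3 * p.eval (s x))
      (show PB fun x => 2 * s x + 1 + 3 * p.eval (s x) by fun_prop) Q
  obtain ⟨g', hg⟩ : ∃ g : List Bool → ℕ,
      g = fun x => m0 + p.eval (s x) + Q.eval (2 * s x + 1 + 3 * p.eval (s x)) := ⟨_, rfl⟩
  have t5 : PT g' := by rw [hg]; fun_prop
  have b5 : PB g' := by rw [hg]; fun_prop
  have t6 : PT fun x : List Bool => List.replicate (p'.eval x.length) true :=
    PT.replicate t1 b1 (PT.const _)
  have t7 : PT fun x => List.replicate (g' x) true := PT.replicate t5 b5 (PT.const _)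
  obtain ⟨U, hU⟩ : ∃ U : List Bool → List Bool, U = fun x => code [List.replicate e true, x,
      List.replicate (p'.eval x.length) true, List.replicate (g' x) true] := ⟨_, rfl⟩
  have t8 : PT U := by
    have : PT fun x : List Bool => [List.replicate e true, x,
        List.replicate (p'.eval x.length) true, List.replicate (g' x) true] :=
      (PT.const _).cons (PT.id'.cons (t6.cons (t7.cons (PT.const _))))
    rw [hU]
    unfold code enc
    exact this.flatMap (by fun_prop)
  have l1 : ∀ x, g' x ≤ (U x).length ∧ p'.eval x.length ≤ (U x).length := by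
    intro x
    rw [hU]
    simp only [length_code, List.map_cons, List.map_nil, List.sum_cons, List.length_replicate]
    omega
  have key : ∀ x, g (U x) [] A = true ↔ L x = true := by
    intro x
    have hd : dec (U x) = (e, x, List.replicate (p'.eval x.length) true,
        List.replicate (g' x) true) := by
      rw [hU]; exact hdec (e, x, _, _)
    have hb : bd (U x) = p'.eval x.length := by
      simp only [bd, hd, List.length_replicate]
      exact min_eq_left (l1 x).2
    rw [hL]
    simp only [g, decide_eq_true_eq, List.length_nil, Nat.sub_zero, hb]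
    refine Alt.congr _ _ _ _ _ fun ys h1 h2 => ?_
    have h3 : sz (x, ys) ≤ s x := by
      have := sz_list_le (l := ys) (B := 3 * p'.eval x.length) fun y hy => by
        rw [sz_listBool]; have := h2 y hy; omega
      rw [hs, sz_pair, sz_listBool]
      beta_reduce
      rw [h1] at this
      nlinarith
    have h4 := eval_mono p h3
    have h5 := (l1 x).1
    rw [hg] at h5
    beta_reduce at h5
    simp only [Ac, hd, he, hr', List.nil_append, Even.zero, iff_true]
    rw [hR]
    refine ⟨fun h => h.2.2, fun h => ⟨by omega, fun i hi => ?_, h⟩⟩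
    have h6 : sz ((x, ys), ans A q (x, ys) i) ≤ 2 * s x + 1 + 3 * p.eval (s x) := by
      rw [sz_pair, sz_listBool, length_ans]
      omega
    have h7 := (hQ ((x, ys), ans A q (x, ys) i)).trans (eval_mono Q h6)
    beta_reduce at h7
    omega
  have t9 : PT fun x => (U x, List.replicate ((U x).length ^ 2) true,
      List.replicate (rr (U x).length) true) := by
    unfold rr
    refine t8.pair (PT.pair (PT.replicate ?_ ?_ (PT.const _)) (PT.replicate ?_ ?_ (PT.const _))) <;>
      fun_prop
  refine ⟨_, (hG.comp' t9).isPolyTime, fun x => ?_⟩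
  have h1 := hP (U x) (le_trans (by rw [hg]; beta_reduce; omega) (l1 x).1)
  rw [hG' A hA, List.length_replicate, List.length_replicate]
  refine ⟨fun h => h1.1 ((key x).2 h), fun h => h1.2 ?_⟩
  rw [← Bool.not_eq_true, key, h]
  simp

end Pool.Agent.Lib.MP_2733b3_lc
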