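import Pool.Agent.Lib.MP_2733b3_lc.GDeep

/-! The ideal world for a deep system, given that the children are stable at the half moves. -/

set_option autoImplicit false

namespace Pool.Agent.Lib.MP_2733b3_lc

open Finset

namespace Sys

variable {Y Z Q C : Type} [DecidableEq Y] [DecidableEq Z] [Fintype Y] [Fintype Z]
  (S : Sys (Y × Z) Q C)

/-- After a half move, most ways to put the zero back keep the type of a block in `K`. -/
def Up (K : Q → Prop) (ω : (Y → Z) × (Bool → C → Bool)) : Prop :=
  ∀ y β h, K h → 2 * cnt (fun z : Z => S.ty h (S.act (true, (y, z)) (S.half β ω y)) ≠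
    S.ty h (S.half β ω y)) ≤ Fintype.card Z

/-- The invariant of the induction. -/
def Good2 (i n U : ℕ) (ω : (Y → Z) × (Bool → C → Bool)) : Prop :=
  (∀ (k : Bool × Bool) (W : List (Bool × Y × Z)), W.length ≤ n → ∀ p : (Y × Z ⊕ C) ⊕ Q,
    S.Low2 i p →
    cnt (fun m : Y × Z => S.ex (S.run W (S.act (k.1, m) (S.half k.2 ω m.1))) p ≠
      S.ex (S.run W (row ω.1, ω.2)) p) ≤ U) ∧
  ∀ q, S.lev q < i → ∀ β,
    cnt (fun m : Y × Z => S.ty q (S.half β ω m.1) ≠ S.ty q (row ω.1, ω.2)) ≤ U

theorem good2_zero (n : ℕ) (ω : (Y → Z) × (Bool → C → Bool)) :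
    S.Good2 0 n (Fintype.card Z) ω :=
  ⟨fun k W _ p hp => by
    rcases p with (p | c) | h
    · exact S.row_part k W ω p
    · exact absurd hp (Nat.not_lt_zero _)
    · exact absurd hp (Nat.not_lt_zero _),
  fun _ hq => absurd hq (Nat.not_lt_zero _)⟩

variable {S}

/-- The deterministic part of the induction step. -/
theorem good2_succ {w : ℕ} {dp : Q → ℕ} {ch : Q → Q → Prop} (hS : S.Deep w dp ch) (K : Q → Prop)
    (hKc : ∀ q h, dp h < dp q → K h) (i n U τ : ℕ)
    (ω : (Y → Z) × (Bool → C → Bool)) (hU : Fintype.card Z ≤ U)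
    (hw : 1 ≤ w) (hτ : w * U ≤ τ) (hZ : 2 * w ≤ Fintype.card Z) (hup : S.Up K ω)
    (hG : S.Good2 i (n + 2) U ω)
    (hT : ∀ (k : Bool × Bool) (W : List (Bool × Y × Z)), W.length ≤ n → ∀ q, S.lev q < i + 1 →
      cnt (fun m : Y × Z => S.ty q (S.run W (S.act (k.1, m) (S.half k.2 ω m.1))) ≠
        S.ty q (S.run W (row ω.1, ω.2))) ≤ τ) :
    S.Good2 (i + 1) n ((n + 4) * τ) ω := by
  classical
  have hUτ : U ≤ τ := le_trans (Nat.le_mul_of_pos_left _ hw) hτ
  have hH : ∀ q, S.lev q < i + 1 → ∀ β,
      cnt (fun m : Y × Z => S.ty q (S.half β ω m.1) ≠ S.ty q (row ω.1, ω.2)) ≤ 2 * τ := by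
    intro q hq β
    cases h0 : S.ty q (row ω.1, ω.2) with
    | true =>
      rcases hS q with hc | ⟨hc1, hc2⟩
      · obtain ⟨T, t1, t2, t3⟩ := hc _ h0
        have h1 : ∀ p ∈ T, cnt (fun m : Y × Z =>
            S.cf (S.half β ω m.1) p ≠ S.cf (row ω.1, ω.2) p) ≤ U := by
          intro p hp
          cases p with
          | inl p =>
            refine le_trans (cnt_mono fun m hm => ?_) ((cnt_fst_eq p.1).trans hU)
            by_contra hc
            exact hm (flp_ne _ fun h => hc (by rw [h]))
          | inr c =>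
            have := hG.1 (true, β) [] (by simp) (Sum.inl (Sum.inr c))
              (Low.mono S (by omega) (t2 _ hp))
            refine le_trans (le_of_eq (cnt_congr fun m => ?_)) this
            simp only [run, List.foldr_nil, ex, cf, Sum.elim_inl, Sum.elim_inr, val_act]
        have h2 := cnt_exists_le T _ U h1
        have h3 : cnt (fun m : Y × Z => S.ty q (S.half β ω m.1) ≠ true) ≤ _ :=
          le_trans (cnt_mono fun m hm => by
            by_contra hc
            push Not at hc
            exact hm (t3 _ hc)) h2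
        have := Nat.mul_le_mul_right U t1
        omega
      · obtain ⟨h, a1, a2⟩ := (hc2 _).1 h0
        have h1 := hG.2 h (by have := (hc1 h a1).1; omega) β
        refine le_trans (cnt_mono fun m hm => ?_) (h1.trans (by omega))
        exact fun e => hm ((hc2 _).2 ⟨h, a1, e.trans a2⟩)
    | false =>
      have h1 := hT (true, β) [] (by simp) q hq
      refine le_trans (cnt_half (fun y => S.ty q (S.half β ω y) ≠ false) _ fun y hy => ?_)
        (Nat.mul_le_mul_left 2 h1)
      have hy' : S.ty q (S.half β ω y) = true := by simpa using hy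
      rcases hS q with hc | ⟨hc1, hc2⟩
      · obtain ⟨T, t1, _, t3⟩ := hc _ hy'
        have h2 := cnt_exists_le T (fun p (z : Z) => p = Sum.inl (y, z)) 1 fun p _ => by
          cases p with
          | inl p => exact cnt_le_one p.2 fun z hz => by cases hz; rfl
          | inr c => exact le_trans (le_of_le_of_eq (cnt_mono fun z hz => by cases hz) cnt_false)
                      (Nat.zero_le _)
        refine le_trans (Nat.mul_le_mul_left 2 (le_trans (cnt_mono fun z hz => ?_) h2)) (by omega)
        by_contra hc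
        push Not at hc
        apply hz
        simp only [run, List.foldr_nil, h0]
        rw [ty, t3]
        · simp
        · intro p hp
          cases p with
          | inl p => exact flp_ne _ fun h => hc _ hp (by rw [h])
          | inr c => simp only [cf, Sum.elim_inr, val_act]
      · obtain ⟨h, a1, a2⟩ := (hc2 _).1 hy'
        refine le_trans (Nat.mul_le_mul_left 2 (cnt_mono fun z hz => ?_))
          (hup y β h (hKc q h (hc1 h a1).2))
        intro e
        apply hz
        simp only [run, List.foldr_nil, h0]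
        rw [ty, (hc2 _).2 ⟨h, a1, e.trans a2⟩]
        simp
  refine ⟨fun k W hW p hp => ?_, fun q hq β => (hH q hq β).trans (by nlinarith)⟩
  rcases p with (p | c) | q
  · exact (S.row_part k W ω p).trans (by nlinarith)
  · have hq : S.lev (S.blk c) < i + 1 := hp
    have h1 := cnt_exists_le (range (n + 1)) (fun j (m : Y × Z) =>
      S.ty (S.blk c) (S.run (W.drop j) (S.act (k.1, m) (S.half k.2 ω m.1))) ≠
        S.ty (S.blk c) (S.run (W.drop j) (row ω.1, ω.2))) τ fun j _ =>
      hT k _ (by rw [List.length_drop]; omega) _ hq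
    have h2 := hH _ hq k.2
    rw [card_range] at h1
    refine le_trans (cnt_mono fun m hm => ?_) ((cnt_or _ _).trans
      ((Nat.add_le_add h1 h2).trans (by nlinarith)))
    by_contra hc
    push Not at hc
    obtain ⟨c1, c2⟩ := hc
    have c3 : ∀ j, S.ty (S.blk c) (S.run (W.drop j) (S.act (k.1, m) (S.half k.2 ω m.1))) =
        S.ty (S.blk c) (S.run (W.drop j) (row ω.1, ω.2)) := by
      intro j
      by_cases hj : j < n + 1
      · exact c1 j (mem_range.2 hj)
      · have := c1 n (mem_range.2 (by omega))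
        rw [List.drop_eq_nil_of_le hW] at this
        rw [List.drop_eq_nil_of_le (by omega)]
        exact this
    have c4 := c3 n
    rw [List.drop_eq_nil_of_le hW] at c4
    simp only [run, List.foldr_nil] at c4
    apply hm
    simp only [ex, cf, Sum.elim_inl, Sum.elim_inr]
    have c0 := c3 0
    rw [List.drop_zero] at c0
    rw [S.val_eq, S.val_eq, c0]
    refine S.run_snd W _ _ c (fun β => ?_) c3 _
    rw [act_snd, c4, c2, half, act_snd, ← half, c2]
    simp
  · exact (hT k W hW q hp).trans (by nlinarith)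

theorem ideal2 {w : ℕ} {dp : Q → ℕ} {ch : Q → Q → Prop} (hS : S.Deep w dp ch) (Kp : Q → Prop)
    (hKc : ∀ q h, dp h < dp q → Kp h) [Fintype Q] [Fintype C] [DecidableEq C] [Nonempty Z]
    (μ : (Y → Z) × (Bool → C → Bool) → ℝ)
    (hμ : ∀ ω, 0 ≤ μ ω) (h1 : ∑ ω, μ ω ≤ 1) (hc : ∀ ω ω', μ ω = μ ω') (R D : ℕ) (hR : 1 ≤ R)
    (hw : 1 ≤ w) (hZ : 2 * w ≤ Fintype.card Z) (K : ℝ)
    (hK : (2 + 4 * (2 * Fintype.card (Y × Z) + 1) ^ (2 * D) * Fintype.card Q *
      (4 + 2 * Fintype.card (Y × Z)) : ℝ) ≤ K) (i : ℕ) (hi : i ≤ D) :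
    pr μ (fun ω => ¬ S.Good2 i (2 * (D - i))
      (((2 * D + 4) * (44 * R ^ 2 * w)) ^ i * Fintype.card Z) ω) ≤
      K ^ i * ((1 / 2) ^ R + pr μ (fun ω => ¬ S.Up Kp ω)) := by
  classical
  have hK1 : 1 ≤ K := le_trans (by norm_num) (le_trans (le_add_of_nonneg_right (by positivity)) hK)
  have hν : 0 ≤ pr μ (fun ω => ¬ S.Up Kp ω) := pr_nonneg hμ _
  set ν := pr μ (fun ω => ¬ S.Up Kp ω) with hνd
  set ε := (1 / 2) ^ R + ν with hε
  have k2 : (0 : ℝ) ≤ (1 / 2) ^ R := by positivity
  have hε0 : 0 ≤ ε := by positivity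
  choose g g1 g2 using hS.exists_cert hw
  have g3 : ∀ q σ, S.ty q σ = g q (S.ex σ) := fun q σ => g2 q _
  induction i with
  | zero =>
    refine le_trans (le_of_le_of_eq (pr_mono hμ fun ω h => h ?_) pr_false) (by positivity)
    simpa using S.good2_zero _ ω
  | succ i ih =>
    replace ih := ih (by omega)
    set a := (2 * D + 4) * (44 * R ^ 2 * w) with ha
    set U := a ^ i * Fintype.card Z with hU
    set n := 2 * (D - (i + 1)) with hn
    have hn2 : 2 * (D - i) = n + 2 := by omega
    rw [hn2] at ih
    have hZU : Fintype.card Z ≤ U := Nat.le_mul_of_pos_left _ (by positivity)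
    have hZ1 : 1 ≤ Fintype.card Z := Fintype.card_pos
    set τ := 22 * R ^ 2 * (w * (2 * U)) with hτ
    obtain ⟨ws, hws, hmem⟩ := exists_words (Bool × Y × Z) n
    have k1 : (1 : ℝ) ≤ K ^ i := one_le_pow₀ hK1
    have k6 : ε ≤ K ^ i * ε := le_mul_of_one_le_left hε0 k1
    have hone : ∀ x ∈ (univ : Finset (Bool × Bool)) ×ˢ ws ×ˢ (univ : Finset Q),
        pr μ (fun ω => S.lev x.2.2 < i + 1 ∧ τ < cnt (fun m : Y × Z =>
          S.ty x.2.2 (S.run x.2.1 (S.act (x.1.1, m) (S.half x.1.2 ω m.1))) ≠
            S.ty x.2.2 (S.run x.2.1 (row ω.1, ω.2)))) ≤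
          (4 + 2 * Fintype.card (Y × Z) : ℝ) * (K ^ i * ε) := by
      rintro ⟨k, W, q⟩ hx
      have hW : W.length ≤ n := (hmem W).1 (mem_product.1 (mem_product.1 hx).2).1
      by_cases hlev : S.lev q < i + 1
      · have low : ∀ p : (Y × Z ⊕ C) ⊕ Q, S.Low2 (S.lev q) p → S.Low2 i p :=
          fun p hp => Low2.mono S (by omega) hp
        have hs := step μ hμ h1 (S.mvE k) (fun ω m => by
          rw [hc ω (S.mvE k (ω, m)).1]; linarith [hμ (S.mvE k (ω, m)).1])
          (fun ω => S.ex (S.run W (row ω.1, ω.2))) (g1 q) (2 * U) R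
          (by omega) hw hR (S.Good2 i (n + 2) U)
          (fun ω hG p hp => by
            refine le_trans (le_of_eq (cnt_congr fun m => ?_))
              ((hG.1 k W (by omega) p (low p hp)).trans (by omega))
            rw [← S.emb_mv]; rfl)
          (fun ω hG p hp => by
            refine le_trans (le_of_eq (cnt_congr fun m => ?_))
              ((hG.1 k.swap W (by omega) p (low p hp)).trans (by omega))
            rw [← S.emb_mv]; rfl)
          (fun ω hG m' p hp => by
            have h2 := hG.1 k (W ++ [(k.1, m'), (k.2, (m'.1, ω.1 m'.1))]) (by simp; omega) p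
              (low p hp)
            refine le_trans (cnt_mono fun m hm => ?_) ((cnt_or _ _).trans
              ((Nat.add_le_add h2 (cnt_fst_eq (Z := Z) m'.1)).trans (by omega)))
            by_contra hcon
            push Not at hcon
            apply hm
            show S.ex (S.run W (row (S.mv k ((S.mv k (ω, m)).1, m')).1.1,
              (S.mv k ((S.mv k (ω, m)).1, m')).1.2)) p =
              S.ex (S.run W (row (S.mv k (ω, m')).1.1, (S.mv k (ω, m')).1.2)) p
            rw [S.emb_mv, S.emb_mv, half, S.emb_mv]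
            have e1 : (S.mv k (ω, m)).1.1 m'.1 = ω.1 m'.1 :=
              Function.update_of_ne (fun h => hcon.2 h.symm) _ _
            rw [e1]
            have := hcon.1
            simp only [run, List.foldr_append, List.foldr_cons, List.foldr_nil] at this
            exact this)
        refine le_trans (pr_mono hμ fun ω hω => ?_) (hs.trans ?_)
        · refine lt_of_lt_of_le hω.2 (le_of_eq (cnt_congr fun m => ?_))
          rw [← S.emb_mv, g3, g3]; rfl
        · have k3 : (0 : ℝ) ≤ 3 + 2 * Fintype.card (Y × Z) := by positivity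
          have k5 := mul_le_mul_of_nonneg_left ih k3
          nlinarith
      · exact le_trans (le_of_le_of_eq (pr_mono hμ fun x hx => hlev hx.1) pr_false)
          (by positivity)
    have hall := pr_exists_le hμ _ _ _ hone
    have hU' : (n + 4) * τ ≤ a ^ (i + 1) * Fintype.card Z := by
      have : a ^ (i + 1) * Fintype.card Z = (2 * D + 4) * τ := by
        rw [hτ, hU, pow_succ]; generalize a ^ i = y; rw [ha]; ring
      rw [this]
      exact Nat.mul_le_mul_right _ (by omega)
    refine le_trans (pr_mono hμ fun ω hω => ?_) ((pr_or hμ _ _).trans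
      ((add_le_add ((pr_or hμ _ _).trans (add_le_add ih hνd.ge)) hall).trans ?_))
    · by_contra hcon
      push Not at hcon
      have hg := good2_succ hS Kp hKc i n U τ ω hZU hw (by
        rw [hτ]
        exact le_trans (Nat.mul_le_mul_left _ (by omega))
          (Nat.le_mul_of_pos_left _ (by positivity))) hZ hcon.1.2 hcon.1.1
        (fun k W hW q hq => hcon.2 (k, W, q) (by simp [hmem, hW]) hq)
      exact hω ⟨fun k W hW p hp => (hg.1 k W hW p hp).trans hU',
        fun q hq β => (hg.2 q hq β).trans hU'⟩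
    · have c1 : (((univ : Finset (Bool × Bool)) ×ˢ ws ×ˢ (univ : Finset Q)).card : ℝ) ≤
          4 * (2 * Fintype.card (Y × Z) + 1) ^ (2 * D) * Fintype.card Q := by
        have : ws.card ≤ (2 * Fintype.card (Y × Z) + 1) ^ (2 * D) := by
          refine hws.trans (le_trans (le_of_eq (by simp))
            (Nat.pow_le_pow_right (n := 2 * Fintype.card (Y × Z) + 1) (by omega)
              (show n ≤ 2 * D by omega)))
        have h3 : ((univ : Finset (Bool × Bool)) ×ˢ ws ×ˢ (univ : Finset Q)).card ≤
            4 * (2 * Fintype.card (Y × Z) + 1) ^ (2 * D) * Fintype.card Q := by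
          rw [card_product, card_product, card_univ, card_univ, mul_assoc]
          exact Nat.mul_le_mul (by simp) (Nat.mul_le_mul_right _ this)
        exact_mod_cast h3
      have c2 : (0 : ℝ) ≤ K ^ i * ε := by positivity
      have c3 := mul_le_mul_of_nonneg_right c1
        (show (0 : ℝ) ≤ (4 + 2 * Fintype.card (Y × Z)) * (K ^ i * ε) by positivity)
      have c4 := mul_le_mul_of_nonneg_right hK c2
      rw [pow_succ K, mul_comm (K ^ i) K, mul_assoc K]
      nlinarith

end Sys

end Pool.Agent.Lib.MP_2733b3_lc
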