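import Pool.Agent.Lib.MP_2733b3_lc.GTree

/-! The ideal world for trees of every depth. -/

set_option autoImplicit false

namespace Pool.Agent.Lib.MP_2733b3_lc

open Finset

variable {Z Q C : Type} [DecidableEq Z]

theorem pb_full {j : ℕ} (a : Z → Z) (y : Z) (b0 : Z → Z → Ptr Z (j + 1)) (a' : Z → Z)
    (b' : Z → Z → Ptr Z j) (v : C → Bool) (ε : Empty → Bool) :
    pb (Function.update b0 y fun z => (a' z, b' z)) (Sum.elim (flp (row a) (y, a y)) v) =
      rs y (fun p : Z × Z × Leaf Z (j + 1) => cfg (j + 1) (row a (p.1, p.2.1)) (b0 p.1 p.2.1) p.2.2)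
        v (pb b' (Sum.elim (row a') ε)) := by
  funext p
  rcases p with ⟨y1, z, u, p⟩ | c
  · by_cases h : y1 = y
    · subst h
      simp only [pb, rs, Sum.elim_inl, if_true, Function.update_self, full_row]
      show cfg j _ (b' z u) p = cfg j (row a' (z, u)) (b' z u) p
      simp [row]
    · simp only [pb, rs, Sum.elim_inl, h, if_false, Function.update_of_ne h]
      rw [flp_ne _ (by simp [h])]
  · rfl

theorem pb_half {j : ℕ} (a : Z → Z) (y z0 : Z) (b0 : Z → Z → Ptr Z (j + 1)) (a' : Z → Z)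
    (b' : Z → Z → Ptr Z j) (v : C → Bool) (ε : Empty → Bool) :
    pb (Function.update b0 y fun z => (a' z, b' z))
        (Sum.elim (flp (flp (row a) (y, a y)) (y, z0)) v) =
      rs y (fun p : Z × Z × Leaf Z (j + 1) => cfg (j + 1) (row a (p.1, p.2.1)) (b0 p.1 p.2.1) p.2.2)
        v (pb b' (Sum.elim (flp (row a') (z0, a' z0)) ε)) := by
  funext p
  rcases p with ⟨y1, z, u, p⟩ | c
  · by_cases h : y1 = y
    · subst h
      simp only [pb, rs, Sum.elim_inl, if_true, Function.update_self]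
      show cfg j (!(flp (flp (row a) (y1, a y1)) (y1, z0) (y1, z) && decide (u = a' z))) (b' z u) p =
        cfg j (flp (row a') (z0, a' z0) (z, u)) (b' z u) p
      by_cases hz : z = z0
      · subst hz
        have : flp (flp (row a) (y1, a y1)) (y1, z) (y1, z) = false := by
          rw [flp, Function.update_self, full_row]; rfl
        rw [this, full_row]
        simp
      · rw [flp_ne _ (by simp [hz]), full_row, flp_ne _ (by simp [hz])]
        simp [row]
    · simp only [pb, rs, Sum.elim_inl, h, if_false, Function.update_of_ne h]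
      rw [flp_ne _ (by simp [h]), flp_ne _ (by simp [h])]
  · rfl

namespace Sys

variable [Fintype Z]

/-- Some type changes at too many half moves. -/
def Fl {j : ℕ} (S : Sys (Z × Z × Leaf Z j) Q C) (u : ℕ)
    (x : (Z → Z → Ptr Z j) × ((Z → Z) × (Bool → C → Bool))) : Prop :=
  ∃ q β, u < cnt (fun y => (S.pull x.1).ty q ((S.pull x.1).half β x.2 y) ≠
    (S.pull x.1).ty q (row x.2.1, x.2.2))

variable [Fintype Q] [Nonempty Z] {w R D : ℕ} {K : ℝ}

theorem fl_step [Fintype C] [DecidableEq C] (hR : 1 ≤ R) (hw : 1 ≤ w)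
    (hZ : 2 * w ≤ Fintype.card Z)
    (hK : (2 + 4 * (2 * Fintype.card (Z × Z) + 1) ^ (2 * D) * Fintype.card Q *
      (4 + 2 * Fintype.card (Z × Z)) : ℝ) ≤ K) {j : ℕ} (S : Sys (Z × Z × Leaf Z j) Q C)
    {dp : Q → ℕ} {ch : Q → Q → Prop} (hS : S.Deep w dp ch) (hd : ∀ q, dp q ≤ j)
    (hD : ∀ q, S.lev q < D) :
    up (S.Fl (((2 * D + 4) * (44 * R ^ 2 * w)) ^ D)) ≤ K ^ D * ((1 / 2) ^ R +
      up (fun x : (Z → Z → Ptr Z j) × ((Z → Z) × (Bool → C → Bool)) =>
        ¬ (S.pull x.1).Up (fun h => dp h < j) x.2)) := by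
  have hK0 : 0 ≤ K := le_trans (by positivity) hK
  rw [up_prod, up_prod]
  have h1 : ∀ b : Z → Z → Ptr Z j,
      up (fun ω => S.Fl (((2 * D + 4) * (44 * R ^ 2 * w)) ^ D) (b, ω)) ≤
      K ^ D * ((1 / 2) ^ R + up (fun ω => ¬ (S.pull b).Up (fun h => dp h < j) ω)) := by
    intro b
    refine le_trans (up_mono fun ω hω hg => ?_) (ideal2 (hS.pull b) (fun h => dp h < j)
      (fun q h hh => lt_of_lt_of_le hh (hd q)) _ (fun _ => by positivity) sum_unif_le
      (fun _ _ => rfl) R D hR hw hZ K hK D le_rfl)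
    obtain ⟨q, β, hq⟩ := hω
    have h4 := hg.2 q (hD q) β
    rw [cnt_fst (fun y => (S.pull b).ty q ((S.pull b).half β ω y) ≠
      (S.pull b).ty q (row ω.1, ω.2))] at h4
    exact absurd (Nat.le_of_mul_le_mul_right h4 Fintype.card_pos) (not_le.2 hq)
  refine (sum_le_sum fun b _ => mul_le_mul_of_nonneg_left (h1 b) (by positivity)).trans ?_
  have h2 := sum_unif_le (A := Z → Z → Ptr Z j)
  have h3 : (0 : ℝ) ≤ K ^ D * (1 / 2) ^ R := by positivity
  have h4 := mul_le_of_le_one_left h3 h2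
  rw [sum_mul] at h4
  rw [mul_add, mul_sum]
  refine le_trans (le_of_eq ?_) (add_le_add h4 le_rfl)
  rw [← sum_add_distrib]
  exact sum_congr rfl fun b _ => by ring

theorem tree_ideal (hR : 1 ≤ R) (hw : 1 ≤ w) (hZ : 2 * w ≤ Fintype.card Z)
    (hK : (2 + 4 * (2 * Fintype.card (Z × Z) + 1) ^ (2 * D) * Fintype.card Q *
      (4 + 2 * Fintype.card (Z × Z)) : ℝ) ≤ K)
    (hu : 2 * ((2 * D + 4) * (44 * R ^ 2 * w)) ^ D ≤ Fintype.card Z) (j : ℕ) :
    ∀ (C : Type) [Fintype C] [DecidableEq C] (S : Sys (Z × Z × Leaf Z j) Q C) (dp : Q → ℕ)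
      (ch : Q → Q → Prop), S.Deep w dp ch → (∀ q, dp q ≤ j) → (∀ q, S.lev q < D) →
      up (S.Fl (((2 * D + 4) * (44 * R ^ 2 * w)) ^ D)) ≤
        (K ^ D * (1 + 2 * Fintype.card Z)) ^ (j + 1) * (1 / 2) ^ R := by
  have hK1 : 1 ≤ K := le_trans (by norm_num) (le_trans (le_add_of_nonneg_right (by positivity)) hK)
  have k0 : (1 : ℝ) ≤ K ^ D := one_le_pow₀ hK1
  have k1 : (0 : ℝ) ≤ (1 / 2) ^ R := by positivity
  have k2 : (0 : ℝ) ≤ Fintype.card Z := Nat.cast_nonneg _
  have k3 : (1 : ℝ) ≤ K ^ D * (1 + 2 * Fintype.card Z) := by nlinarith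
  induction j with
  | zero =>
    intro C _ _ S dp ch hS hd hD
    refine (fl_step hR hw hZ hK S hS hd hD).trans ?_
    have : up (fun x : (Z → Z → Ptr Z 0) × ((Z → Z) × (Bool → C → Bool)) =>
        ¬ (S.pull x.1).Up (fun h => dp h < 0) x.2) ≤ 0 :=
      le_of_le_of_eq (up_mono fun x hx => hx fun _ _ _ h => absurd h (Nat.not_lt_zero _)) pr_false
    rw [zero_add, pow_one, mul_assoc]
    refine mul_le_mul_of_nonneg_left ?_ (by positivity)
    nlinarith
  | succ j ih =>
    intro C _ _ S dp ch hS hd hD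
    refine (fl_step hR hw hZ hK S hS hd hD).trans ?_
    set u := ((2 * D + 4) * (44 * R ^ 2 * w)) ^ D with hud
    set x := (K ^ D * (1 + 2 * Fintype.card Z)) ^ (j + 1) * (1 / 2) ^ R with hx
    have hx0 : 0 ≤ x := by positivity
    have hx1 : (1 / 2) ^ R ≤ x := le_mul_of_one_le_left k1 (one_le_pow₀ k3)
    let E : Z → (Z → Z → Ptr Z (j + 1)) → (Z → Z) → (C → Bool) → Prop := fun y b a v =>
      ∃ h, dp h < j + 1 ∧ Fintype.card Z < 2 * cnt (fun z =>
        S.b h (pb b (Sum.elim (flp (flp (row a) (y, a y)) (y, z)) v)) ≠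
          S.b h (pb b (Sum.elim (flp (row a) (y, a y)) v)))
    have hE : ∀ y a v, up (fun b => E y b a v) ≤ x := by
      intro y a v
      refine up_update_le _ y x hx0 fun b0 => ?_
      let e : (Z → Z → Ptr Z j) × ((Z → Z) × (Bool → Empty → Bool)) ≃ (Z → Ptr Z (j + 1)) :=
        { toFun := fun s z => (s.2.1 z, s.1 z)
          invFun := fun t => (fun z => (t z).2, fun z => (t z).1, fun _ e => e.elim)
          left_inv := fun s => Prod.ext rfl (Prod.ext rfl (funext fun _ => funext fun e => e.elim))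
          right_inv := fun t => rfl }
      rw [← up_equiv e]
      refine le_trans (up_mono fun s hs => ?_) (ih Empty (S.res dp (j + 1) y
        (fun p : Z × Z × Leaf Z (j + 1) => cfg (j + 1) (row a (p.1, p.2.1)) (b0 p.1 p.2.1) p.2.2) v)
        _ ch (hS.res (j + 1) y _ v) (fun q => by split_ifs <;> omega) hD)
      obtain ⟨h, h1, h2⟩ := hs
      refine ⟨h, false, lt_of_lt_of_le (by omega) (le_of_eq (cnt_congr fun z => ?_) :
        cnt (fun z => S.b h (pb (Function.update b0 y (e s))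
          (Sum.elim (flp (flp (row a) (y, a y)) (y, z)) v)) ≠
          S.b h (pb (Function.update b0 y (e s)) (Sum.elim (flp (row a) (y, a y)) v))) ≤ _)⟩
      simp only [half, act_false, ty, cf, pull, res, h1, if_true]
      rw [← pb_full, ← pb_half]
      rfl
    have hB : ∀ yβ : Z × Bool,
        up (fun s : (Z → Z → Ptr Z (j + 1)) × ((Z → Z) × (Bool → C → Bool)) =>
          E yβ.1 s.1 s.2.1 ((S.pull s.1).val ((S.pull s.1).half yβ.2 s.2 yβ.1))) ≤ x := by
      rintro ⟨y, β⟩
      choose e he using fun (b : Z → Z → Ptr Z (j + 1)) (a : Z → Z) =>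
        (S.pull b).exists_nf (β, (y, a y)) (row a)
      have h1 := up_equiv (Equiv.prodCongrRight fun b => Equiv.prodCongrRight fun a => e b a)
        (fun s : (Z → Z → Ptr Z (j + 1)) × ((Z → Z) × (Bool → C → Bool)) =>
          E y s.1 s.2.1 (s.2.2 false))
      refine le_trans (le_of_le_of_eq (up_mono fun s hs => ?_) h1) ?_
      · show E y s.1 s.2.1 (e s.1 s.2.1 s.2.2 false)
        rw [he]
        exact hs
      · rw [← up_equiv (Equiv.prodComm _ _)]
        exact up_prod_le _ x hx0 fun s => hE y s.1 (s.2 false)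
    have hA := pr_exists_le' (fun _ => by positivity) _ x hB
    have hU : up (fun x : (Z → Z → Ptr Z (j + 1)) × ((Z → Z) × (Bool → C → Bool)) =>
        ¬ (S.pull x.1).Up (fun h => dp h < j + 1) x.2) ≤ Fintype.card (Z × Bool) * x := by
      refine le_trans (up_mono fun s hs => ?_) hA
      simp only [Up, not_forall, not_le] at hs
      obtain ⟨y, β, h, h1, h2⟩ := hs
      refine ⟨(y, β), h, h1, lt_of_lt_of_le h2 (le_of_eq ?_)⟩
      congr 1
      refine cnt_congr fun z => ?_
      rw [ty, ty, cf, cf, val_act]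
      rfl
    rw [Fintype.card_prod, Fintype.card_bool] at hU
    push_cast at hU
    rw [pow_succ (K ^ D * _), mul_right_comm, ← hx, mul_comm x, mul_assoc]
    refine mul_le_mul_of_nonneg_left ?_ (by positivity)
    nlinarith

end Sys

end Pool.Agent.Lib.MP_2733b3_lc
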