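import Pool.Agent.Lib.MP_2733b3_lc.GStage
import Pool.Agent.Lib.MP_2733b3_lc.Iter
import Pool.Agent.Lib.MP_2733b3_lc.BBBV

/-! Iteration of the stages and the limit oracle, keeping one false row at every length. -/

set_option autoImplicit false

namespace Pool.Agent.Lib.MP_2733b3_lc

open Finset Pool.Agent.Shared.PolyTime

open BBBV in
theorem bbbv6 {Y : Type} [Fintype Y] (A : List Bool → Bool) (B : Y → List Bool → Bool) (u k : ℕ)
    (gs : List (ℕ × ℕ × List ℕ)) (h : ∀ s, cnt (fun y => B y s ≠ A s) ≤ u)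
    (hY : 576 * gs.length ^ 2 * u < Fintype.card Y) :
    ∃ y, |acc (B y) k gs - acc A k gs| < 1 / 6 := by
  by_contra hn
  simp only [not_exists, not_lt] at hn
  have h1 := sum_err A B u h gs _ (sq_init (k := k))
  have h2 : ∀ y, (1 : ℝ) / 6 ≤ 2 * err A (B y)
      (fun e' : Fin (k + 1) → Bool => if e' = fun _ => false then (1 : ℂ) else 0) gs := fun y => by
    have a1 := acc_diff _ _ ((sq_run (B y) gs _).trans (sq_init (k := k)))
      ((sq_run A gs _).trans sq_init)
    have a2 := BBBV.hybrid A (B y) gs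
      (fun e' : Fin (k + 1) → Bool => if e' = fun _ => false then (1 : ℂ) else 0)
      (fun e' : Fin (k + 1) → Bool => if e' = fun _ => false then (1 : ℂ) else 0)
    rw [sub_self, show BBBV.sq (0 : (Fin (k + 1) → Bool) → ℂ) = 0 by simp [BBBV.sq],
      Real.sqrt_zero, zero_add] at a2
    have a3 := hn y
    unfold acc at a3
    linarith
  have h3 := sum_le_sum fun y (_ : y ∈ univ) => h2 y
  rw [← mul_sum, sum_const, card_univ, nsmul_eq_mul] at h3
  have h4 : (576 : ℝ) * (gs.length : ℝ) ^ 2 * u < Fintype.card Y := by exact_mod_cast hY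
  have h5 : (0 : ℝ) < Fintype.card Y := lt_of_le_of_lt (by positivity) h4
  have h6 : (Fintype.card Y : ℝ) ≤ 24 * gs.length * √(Fintype.card Y * u) := by linarith
  have h7 := pow_le_pow_left₀ h5.le h6 2
  rw [mul_pow, Real.sq_sqrt (by positivity)] at h7
  nlinarith

theorem cnt_comp {M M' : Type} [Fintype M] [Fintype M'] {f : M' → M} (hf : Function.Injective f)
    (E : M → Prop) : cnt (fun m => E (f m)) ≤ cnt E := by
  classical
  unfold cnt
  exact card_le_card_of_injOn f (fun m hm => by simpa using hm) hf.injOn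

variable {j : ℕ} {g : List Bool → List (List Bool) → (List Bool → Bool) → Bool}
  {bd : List Bool → ℕ} {A B : List Bool → Bool}

theorem RowV.congr {k : ℕ} {y : List Bool} (h : ∀ s, B (rowc y s) = A (rowc y s)) :
    RowV B k y ↔ RowV A k y := by simp only [RowV, h]

theorem Uniq.congr {k m : ℕ} (h : ∀ y s : List Bool, y.length = m → B (rowc y s) = A (rowc y s))
    (hA : Uniq A k m) : Uniq B k m := by
  obtain ⟨y0, h0, h1⟩ := hA
  exact ⟨y0, h0, fun y hy => by rw [RowV.congr fun s => h y s hy, h1 y hy]⟩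

theorem Agree.promise2 (hg : GD j g bd) {m : ℕ} (h : Agree m A B) {u : List Bool}
    (hu : u.length < m) (hp : Promise (fun u => g u []) A u) : Promise (fun u => g u []) B u := by
  have e1 : g u [] B = g u [] A := hg.dep u (fun s hs => h.short (by omega)) j [] (by simp)
  have e2 : ∀ j, inst B u (u.length ^ 2) j = inst A u (u.length ^ 2) j := fun j =>
    funext fun v => h.reg (Or.inl ⟨u, j, v.1, _, rfl, by simp, rfl⟩) hu
  unfold Promise pacc at hp ⊢
  simpa only [e1, e2] using hp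

/-- The invariant of the construction. -/
def Good3 (j : ℕ) (g : List Bool → List (List Bool) → (List Bool → Bool) → Bool) (m0 m : ℕ)
    (A : List Bool → Bool) : Prop :=
  Good (fun u => g u []) m0 m A ∧ ∀ k, Uniq A (j + 1) k

theorem Good3.step (hg : GD j g bd) {m0 n T : ℕ} (hA : Good3 j g m0 n A) (h : Agree n A B)
    (hp : ∀ v : List Bool, v.length ∈ Icc n T → Promise (fun u => g u []) B v)
    (h5 : ∀ y' s : List Bool, y'.length ≠ n → B (rowc y' s) = A (rowc y' s)) (y : Fin n → Bool)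
    (h6 : ∀ y', ¬ RowV B (j + 1) (List.ofFn y') ↔ y' = y) : Good3 j g m0 (T + 1) B := by
  refine ⟨⟨h.help hA.1.1, fun u h1 h2 => if h3 : u.length < n then
    h.promise2 hg h3 (hA.1.2 u h1 h3) else hp u (mem_Icc.2 ⟨by omega, by omega⟩)⟩, fun k => ?_⟩
  by_cases hk : k = n
  · subst hk
    refine ⟨List.ofFn y, by simp, fun y' hy => ?_⟩
    subst hy
    have := h6 y'.get
    rw [List.ofFn_get] at this
    rw [this]
    exact ⟨fun e => by rw [← e, List.ofFn_get], fun e =>
      List.ofFn_injective ((List.ofFn_get y').trans e)⟩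
  · exact (hA.2 k).congr fun y' s hy => h5 y' s (by omega)

theorem Agree.LK {m k : ℕ} (h : Agree m A B) {x : List Bool} (hx : x.length < m) :
    LK B k x = LK A k x := by
  unfold MP_2733b3_lc.LK
  refine decide_eq_decide.2 (exists_congr fun y => and_congr_right fun hy => ?_)
  rw [RowV.congr fun s => h.reg (Or.inr ⟨y, s, hy, rfl⟩) hx]

/-- The generator `G` errs on the hard language. -/
def Fail2 (k : ℕ) (A : List Bool → Bool) (G : List Bool → List Bool × List (ℕ × ℕ × List ℕ)) :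
    Prop :=
  ∃ x, ¬ ((LK A k x = true → 2 / 3 ≤ acc A (G x).1.length (G x).2) ∧
    (LK A k x = false → acc A (G x).1.length (G x).2 ≤ 1 / 3))

theorem extend2 (hrt : RTStmt) (hphi : PhiStmt) (hg : GD j g bd) : ∃ m0, ∀ m, m0 ≤ m →
    ∀ A, Good3 j g m0 m A → ∀ n, m ≤ n → ∃ B, Agree m A B ∧ Good3 j g m0 n B := by
  obtain ⟨m0, -, h⟩ := stage_fin2 hrt hphi j 1
  refine ⟨m0, fun m hm A hA n hn => ?_⟩
  induction n, hn using Nat.le_induction with
  | base => exact ⟨A, fun _ _ => rfl, hA⟩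
  | succ n hn ih =>
    obtain ⟨B, h1, h2⟩ := ih
    obtain ⟨_, C, _, -, -, h3, h4, h5, h6⟩ := h n (hm.trans hn) n le_rfl (by simp) g bd hg B
    exact ⟨C fun _ => false, h1.trans hn (h3 _), h2.step hg (h3 _) (h4 _) (h5 _) _ (h6 _)⟩

theorem diag2 (hrt : RTStmt) (hphi : PhiStmt) (hg : GD j g bd) :
    ∃ m0, ∀ G : List Bool → List Bool × List (ℕ × ℕ × List ℕ), PT G → ∀ m, m0 ≤ m →
    ∀ A, Good3 j g m0 m A → ∃ n B, m < n ∧ Agree m A B ∧ Good3 j g m0 n B ∧
      ∀ C, Agree n B C → Fail2 (j + 1) C G := by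
  classical
  obtain ⟨m0, h0⟩ := extend2 hrt hphi hg
  refine ⟨m0, fun G hG m hm A hA => ?_⟩
  obtain ⟨q, hq⟩ : PB fun x => sz (G x) := PB.sz hG
  obtain ⟨d, hd⟩ := poly_le_pow q
  obtain ⟨n1, hn1, h⟩ := stage_fin2 hrt hphi j (d + 1)
  obtain ⟨n, hn⟩ : ∃ n, n = m + n1 := ⟨_, rfl⟩
  obtain ⟨A1, a1, a2⟩ := h0 m hm A hA (n + 1) (by omega)
  set T := (n + 1) ^ (d + 1) with hT
  have hnT : n + 1 ≤ T := Nat.le_self_pow (by omega) _
  obtain ⟨A0, B, u, c1, c2, c3, c4, c5, c6⟩ := h (n + 1) (by omega) T hnT le_rfl g bd hg A1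
  set x := List.replicate (n + 1) true with hx
  have hxl : x.length = n + 1 := by simp [hx]
  have hs : sz (G x).2 ≤ T := by
    have h1 : sz (G x) ≤ q.eval (sz x) := hq x
    rw [sz_listBool, hxl, sz_prod] at h1
    have h2 := hd (n + 1) (by omega)
    have h3 : (n + 1) ^ d ≤ T := Nat.pow_le_pow_right (by omega) (by omega)
    omega
  obtain ⟨c, hc⟩ : ∃ c : Bool, c = decide (acc A0 (G x).1.length (G x).2 ≤ 1 / 2) := ⟨_, rfl⟩
  obtain ⟨y, hy⟩ := bbbv6 A0 (fun y : Fin n → Bool => B (Fin.cons c y)) u (G x).1.length (G x).2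
    (fun s => (cnt_comp (Fin.cons_right_injective (α := fun _ => Bool) c)
      fun y => B y s ≠ A0 s).trans (c2 s)) (by
    have h1 : (G x).2.length ^ 2 ≤ T ^ 2 := Nat.pow_le_pow_left ((length_le_sz _).trans hs) 2
    simp only [Fintype.card_fun, Fintype.card_bool, Fintype.card_fin]
    have h2 := Nat.mul_le_mul_right u (Nat.mul_le_mul_left 576 h1)
    rw [pow_succ 2] at c1
    nlinarith)
  have hacc : ∀ B C, Agree (T + 1) B C →
      acc C (G x).1.length (G x).2 = acc B (G x).1.length (G x).2 := fun B C hC =>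
    local_proof _ _ _ _ fun g hg s e => hC.short (by
      have h1 := sz_mem hg
      have h2 := length_le_sz g.2.2
      rw [sz_prod, sz_prod g.2] at h1
      omega)
  have hL : LK (B (Fin.cons c y)) (j + 1) x = c := by
    rw [Bool.eq_iff_iff, LK, decide_eq_true_iff, hxl]
    constructor
    · rintro ⟨y', h1, h2, h3⟩
      have e : List.ofFn (fun i : Fin (n + 1) => y'.get (i.cast h1.symm)) = y' := by
        rw [← List.ofFn_congr h1, List.ofFn_get]
      rw [← e] at h2 h3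
      rw [(c6 _ _).1 h3] at h2
      simpa using h2
    · exact fun e => ⟨List.ofFn (Fin.cons c y : Fin (n + 1) → Bool), by simp, by simpa using e,
        (c6 _ _).2 rfl⟩
  refine ⟨T + 1, B (Fin.cons c y), by omega, a1.trans (by omega) (c3 _),
    a2.step hg (c3 _) (c4 _) (c5 _) _ (c6 _), fun C hC => ⟨x, fun hh => ?_⟩⟩
  rw [hC.LK (by omega), hacc _ _ hC, hL] at hh
  have := abs_lt.1 hy
  by_cases h1 : acc A0 (G x).1.length (G x).2 ≤ 1 / 2
  · have := hh.1 (hc.trans (decide_eq_true h1))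
    linarith
  · have := hh.2 (hc.trans (decide_eq_false h1))
    linarith

theorem limit2 (hrt : RTStmt) (hphi : PhiStmt) (hg : GD j g bd) (A0 : List Bool → Bool)
    (h0 : HelpOK A0) (h1 : ∀ m, Uniq A0 (j + 1) m)
    (G : ℕ → List Bool → List Bool × List (ℕ × ℕ × List ℕ)) (hG : ∀ i, PT (G i)) :
    ∃ m0 A, HelpOK A ∧ (∀ u : List Bool, m0 ≤ u.length → Promise (fun u => g u []) A u) ∧
      (∀ m, Uniq A (j + 1) m) ∧ ∀ i, Fail2 (j + 1) A (G i) := by
  obtain ⟨m0, h⟩ := diag2 hrt hphi hg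
  let X := {p : ℕ × (List Bool → Bool) // m0 ≤ p.1 ∧ Good3 j g m0 p.1 p.2}
  have hs : ∀ (i : ℕ) (p : X), ∃ p' : X, p.1.1 < p'.1.1 ∧ Agree p.1.1 p.1.2 p'.1.2 ∧
      ∀ C, Agree p'.1.1 p'.1.2 C → Fail2 (j + 1) C (G i) := fun i p => by
    obtain ⟨n, B, h1, h2, h3, h4⟩ := h (G i) (hG i) p.1.1 p.2.1 p.1.2 p.2.2
    exact ⟨⟨(n, B), p.2.1.trans h1.le, h3⟩, h1, h2, h4⟩
  choose f f1 f2 f3 using hs
  let s : ℕ → X := fun i => Nat.rec ⟨(m0, A0), le_rfl, ⟨h0, fun u h1 h2 => by omega⟩, h1⟩ f i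
  have e : ∀ i, s (i + 1) = f i (s i) := fun _ => rfl
  have hi : ∀ i, i ≤ (s i).1.1 := fun i => by
    induction i with
    | zero => exact Nat.zero_le _
    | succ i ih => rw [e]; exact lt_of_le_of_lt ih (f1 i _)
  have hc : ∀ i j, i ≤ j → (s i).1.1 ≤ (s j).1.1 ∧ Agree (s i).1.1 (s i).1.2 (s j).1.2 := by
    intro i j hij
    induction j, hij using Nat.le_induction with
    | base => exact ⟨le_rfl, fun _ _ => rfl⟩
    | succ j hj ih => rw [e]; exact ⟨ih.1.trans (f1 j _).le, ih.2.trans ih.1 (f2 j _)⟩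
  have hl : ∀ i, Agree (s i).1.1 (s i).1.2 fun w => (s w.length).1.2 w := fun i w hw => by
    rcases le_total i w.length with h1 | h1
    · exact (hc _ _ h1).2 w hw
    · exact ((hc _ _ h1).2.short (hi _)).symm
  refine ⟨m0, _, (hl 0).help (s 0).2.2.1.1, fun u hu => ?_, fun m => ?_,
    fun i => f3 i (s i) _ (hl (i + 1))⟩
  · exact (hl (u.length + 1)).promise2 hg (hi _)
      ((s (u.length + 1)).2.2.1.2 u hu (hi (u.length + 1)))
  · exact ((s (m + 1)).2.2.2 m).congr fun y w hy =>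
      (hl (m + 1)).reg (Or.inr ⟨y, w, hy, rfl⟩) (hi (m + 1))

end Pool.Agent.Lib.MP_2733b3_lc
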