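import Pool.Agent.Lib.MP_2733b3_lc.GEncode

/-! The hard language lies in Sigma_(k+1) and in Pi_(k+1), and a first oracle. -/

set_option autoImplicit false

namespace Pool.Agent.Lib.MP_2733b3_lc

open Finset Pool.Agent.Shared.PolyTime

theorem Alt.const (n : ℕ) (c : Prop) : ∀ (k : ℕ) (s : Bool), (Alt n k s fun _ => c) ↔ c
  | 0, s => by cases s <;> rfl
  | k + 1, true => ⟨fun ⟨_, _, h⟩ => (Alt.const n c k false).1 h,
      fun h => ⟨[], Nat.zero_le _, (Alt.const n c k false).2 h⟩⟩
  | k + 1, false => ⟨fun h => (Alt.const n c k true).1 (h [] (Nat.zero_le _)),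
      fun h _ _ => (Alt.const n c k true).2 h⟩

/-- Pad `y` to the length of `x`. -/
def pad (x y : List Bool) : List Bool := (y ++ x).take x.length

theorem length_pad (x y : List Bool) : (pad x y).length = x.length := by simp [pad]

theorem pad_eq {x y : List Bool} (h : y.length = x.length) : pad x y = y := by
  rw [pad, ← h, List.take_left]

theorem alt_nd (x : List Bool) : ∀ (k : ℕ) (P : List (List Bool) → Prop),
    (Alt x.length k true fun ys => (P (ys.map (pad x)) ↔ Even k)) ↔ Nd x.length k P
  | 0, P => by simp [Alt, Nd]
  | k + 1, P => by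
    have key : ∀ y, (Alt x.length k false fun ys => (P ((y :: ys).map (pad x)) ↔ Even (k + 1))) ↔
        ¬ Nd x.length k fun ys => P (pad x y :: ys) := by
      intro y
      rw [← alt_nd x k, Alt.not]
      refine Alt.congr _ _ _ _ _ fun ys _ _ => ?_
      rw [Nat.even_add_one, List.map_cons]
      tauto
    simp only [Alt, Nd, key]
    exact ⟨fun ⟨y, _, h⟩ => ⟨pad x y, length_pad x y, h⟩,
      fun ⟨y, h1, h⟩ => ⟨y, h1.le, by rwa [pad_eq h1]⟩⟩

theorem inP_row (A : List Bool → Bool) (f : Bool → Bool → Bool) :
    InP A fun a : List Bool × List (List Bool) => f ((pad a.1 (a.2.headD [])).headD false)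
      (A (rowc (pad a.1 (a.2.headD [])) (code (a.2.tail.map (pad a.1))))) := by
  refine ⟨fun a => rowc (pad a.1.1 (a.1.2.headD [])) (code (a.1.2.tail.map (pad a.1.1))),
    fun a => f ((pad a.1.1 (a.1.2.headD [])).headD false) (a.2.headD false), 1,
    PT.isPolyTime ?_, PT.isPolyTime ?_, fun a => by simp [ans]⟩
  · unfold rowc code enc pad
    fun_prop
  · have e : ∀ b c, f b c = cond b (cond c (f true true) (f true false))
        (cond c (f false true) (f false false)) := by
      intro b c; cases b <;> cases c <;> rfl
    refine PT.of_eq ?_ fun a => (e _ _).symm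
    unfold pad
    fun_prop

theorem nd_fold (n : ℕ) : ∀ (k : ℕ) (s : Bool),
    (Nd n k fun zs => zs.foldl (fun s c => !(s && c.all fun b => !b)) s = true) ↔ s = true
  | 0, s => by simp [Nd]
  | k + 1, s => by
    simp only [Nd, List.foldl_cons, nd_fold n k]
    exact ⟨fun ⟨y, _, h⟩ => by cases s <;> simp at h ⊢,
      fun h => ⟨List.replicate n false, by simp, by simp [h]⟩⟩

theorem lang_proof : LangStmt := by
  classical
  intro k
  have row : ∀ (A : List Bool → Bool) (x y : List Bool),
      (Alt x.length k true fun zs =>
        (A (rowc (pad x y) (code (zs.map (pad x)))) = true ↔ Even k)) ↔ RowV A k (pad x y) := by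
    intro A x y
    rw [RowV, length_pad]
    exact alt_nd x k fun zs => A (rowc (pad x y) (code zs)) = true
  refine ⟨fun A => ⟨Polynomial.X, _, inP_row A fun b c => b && !(c == decide (Even k)),
    fun x => ?_⟩, fun A hA => ⟨Polynomial.X, _, inP_row A fun b c => b || (c == decide (Even k)),
    fun x => ?_⟩, ?_⟩
  · have key : ∀ y, (Alt x.length k false fun zs => ((pad x y).headD false &&
        !(A (rowc (pad x y) (code (zs.map (pad x)))) == decide (Even k))) = true) ↔
        ((pad x y).headD false = true ∧ ¬ RowV A k (pad x y)) := by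
      intro y
      cases (pad x y).headD false
      · simp [Alt.const]
      · rw [← row, Alt.not]
        simp only [true_and, Bool.not_true]
        refine Alt.congr _ _ _ _ _ fun zs _ _ => ?_
        cases A (rowc (pad x y) (code (zs.map (pad x)))) <;> simp
    simp only [LK, decide_eq_true_eq, Polynomial.eval_X, Alt, List.headD_cons, List.tail_cons, key]
    exact ⟨fun ⟨y, h1, h⟩ => ⟨y, h1.le, by rwa [pad_eq h1]⟩,
      fun ⟨y, _, h⟩ => ⟨pad x y, length_pad x y, h⟩⟩
  · have key : ∀ y, (Alt x.length k true fun zs => ((pad x y).headD false ||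
        (A (rowc (pad x y) (code (zs.map (pad x)))) == decide (Even k))) = true) ↔
        ((pad x y).headD false = true ∨ RowV A k (pad x y)) := by
      intro y
      cases (pad x y).headD false
      · rw [← row]
        simp only [Bool.false_eq_true, false_or]
        refine Alt.congr _ _ _ _ _ fun zs _ _ => ?_
        cases A (rowc (pad x y) (code (zs.map (pad x)))) <;> simp
      · simp [Alt.const]
    simp only [LK, decide_eq_true_eq, Polynomial.eval_X, Alt, List.headD_cons, List.tail_cons, key]
    obtain ⟨y0, h0, h1⟩ := hA x.length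
    constructor
    · rintro ⟨y, a1, a2, a3⟩ y' _
      by_contra hc
      rw [not_or] at hc
      rw [(h1 _ (length_pad x y')).1 hc.2, ← (h1 y a1).1 a3] at hc
      exact hc.1 a2
    · intro h
      have h2 := (h1 y0 h0).2 rfl
      have h3 := h y0 h0.le
      rw [pad_eq h0] at h3
      exact ⟨y0, h0, h3.resolve_right h2, h2⟩
  · let f : List (List Bool) ⊕ List Bool × List (List Bool) → List Bool :=
      Sum.elim help fun p => rowc p.1 (code p.2)
    have hf : Function.Injective f := by
      rintro (a | ⟨y, zs⟩) (b | ⟨y', zs'⟩) h <;> have := code_injective h <;> simp at this ⊢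
      · exact this
      · exact ⟨this.1, code_injective this.2⟩
    let v : List (List Bool) ⊕ List Bool × List (List Bool) → Bool :=
      Sum.elim (fun xs => xs.any fun x => x.all fun b => !b)
        fun p => p.2.foldl (fun s c => !(s && c.all fun b => !b)) (!(p.1.all fun b => !b))
    refine ⟨Function.extend f v fun _ => false, fun xs => hf.extend_apply v _ (Sum.inl xs),
      fun m => ⟨List.replicate m false, by simp, fun y hy => ?_⟩⟩
    have e : ∀ zs, Function.extend f v (fun _ => false) (rowc y (code zs)) =
        zs.foldl (fun s c => !(s && c.all fun b => !b)) (!(y.all fun b => !b)) :=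
      fun zs => hf.extend_apply v _ (Sum.inr (y, zs))
    simp only [RowV, e, nd_fold]
    rw [List.eq_replicate_iff]
    simp [hy]

end Pool.Agent.Lib.MP_2733b3_lc
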