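import Pool.Agent.Lib.MP_2733b3_lc.GCore
import Pool.Agent.Lib.MP_2733b3_lc.GBase

/-! The layout of one stage for NAND trees. -/

set_option autoImplicit false

namespace Pool.Agent.Lib.MP_2733b3_lc

open Finset

theorem Cert.mono {P : Type} {w w' : ℕ} {Low Low' : P → Prop} {g : (P → Bool) → Bool}
    (h : Cert w Low g) (hw : w ≤ w') (hl : ∀ p, Low p → Low' p) : Cert w' Low' g := fun α ha => by
  obtain ⟨S, s1, s2, s3⟩ := h α ha
  exact ⟨S, s1.trans hw, fun p hp => hl p (s2 p hp), s3⟩

theorem Cert.extend {P L : Type} {w : ℕ} {Low : L → Prop} {g : (L → Bool) → Bool}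
    (h : Cert w Low g) {e : P → L} (he : Function.Injective e) (A : L → Bool) :
    Cert w (fun p => Low (e p)) fun α => g (Function.extend e α A) := by
  classical
  refine h.subst (fun α => Function.extend e α A)
    (fun s => if hs : ∃ p, e p = s then some hs.choose else none) (fun α β s hs => ?_)
    fun s p hl hp => ?_
  · by_cases h1 : ∃ p, e p = s
    · have h2 := hs h1.choose (dif_pos h1)
      rw [← h1.choose_spec, he.extend_apply, he.extend_apply, h2]
    · rw [Function.extend_apply' _ _ _ h1, Function.extend_apply' _ _ _ h1]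
  · by_cases h1 : ∃ p, e p = s
    · rw [dif_pos h1] at hp
      cases hp
      rwa [h1.choose_spec]
    · rw [dif_neg h1] at hp
      cases hp

/-- The gates form NAND trees of depth `j`. -/
structure GD (j : ℕ) (g : List Bool → List (List Bool) → (List Bool → Bool) → Bool)
    (bd : List Bool → ℕ) : Prop where
  le : ∀ u, bd u ≤ u.length
  bot : ∀ u ys, ys.length = j → Cert u.length (fun s => s.length ≤ u.length) (g u ys)
  nand : ∀ u ys A, ys.length < j →
    (g u ys A = true ↔ ∃ y : List Bool, y.length ≤ bd u ∧ g u (ys ++ [y]) A = false)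

theorem GD.dep {j : ℕ} {g : List Bool → List (List Bool) → (List Bool → Bool) → Bool}
    {bd : List Bool → ℕ} (h : GD j g bd) (u : List Bool) {A B : List Bool → Bool}
    (hAB : ∀ s : List Bool, s.length ≤ u.length → A s = B s) :
    ∀ (i : ℕ) (ys : List (List Bool)), ys.length + i = j → g u ys A = g u ys B := by
  intro i
  induction i with
  | zero => exact fun ys hy => (h.bot u ys hy).dep hAB
  | succ i ih =>
    intro ys hy
    rw [Bool.eq_iff_iff, h.nand u ys A (by omega), h.nand u ys B (by omega)]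
    exact exists_congr fun y => by rw [ih (ys ++ [y]) (by simp; omega)]

theorem exists_WW (T j : ℕ) : ∃ s : Finset (List (List Bool)), s.card ≤ (3 ^ T + 1) ^ j ∧
    ∀ ys, ys ∈ s ↔ ys.length ≤ j ∧ ∀ y ∈ ys, y.length ≤ T := by
  classical
  obtain ⟨s1, a1, a2⟩ := exists_words Bool T
  obtain ⟨s2, b1, b2⟩ := exists_words s1 j
  refine ⟨s2.image (List.map Subtype.val), card_image_le.trans (b1.trans
    (Nat.pow_le_pow_left (by simpa using a1) _)), fun ys => ?_⟩
  rw [mem_image]
  constructor
  · rintro ⟨zs, h1, rfl⟩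
    refine ⟨by simpa using (b2 zs).1 h1, fun y hy => ?_⟩
    obtain ⟨z, _, rfl⟩ := List.mem_map.1 hy
    exact (a2 _).1 z.2
  · rintro ⟨h1, h2⟩
    refine ⟨ys.attachWith _ fun y hy => (a2 y).2 (h2 y hy), (b2 _).2 (by simpa using h1), by simp⟩

/-- The possible lists of witnesses. -/
noncomputable def WW (T j : ℕ) : Finset (List (List Bool)) := (exists_WW T j).choose

theorem mem_WW {T j : ℕ} {ys : List (List Bool)} :
    ys ∈ WW T j ↔ ys.length ≤ j ∧ ∀ y ∈ ys, y.length ≤ T := (exists_WW T j).choose_spec.2 ys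

/-- The strings along the path to a leaf. -/
def lf {n : ℕ} : ∀ j, Leaf (Fin n → Bool) j → List (List Bool)
  | 0, _ => []
  | j + 1, p => List.ofFn p.1 :: lf j p.2

theorem lf_injective {n : ℕ} : ∀ j, Function.Injective (lf (n := n) j)
  | 0 => fun _ _ _ => rfl
  | j + 1 => fun p p' h => by
    simp only [lf, List.cons.injEq] at h
    exact Prod.ext (List.ofFn_injective h.1) (lf_injective j h.2)

theorem nd_cfg {n : ℕ} : ∀ (j : ℕ) (s : Bool) (π : Ptr (Fin n → Bool) j)
    (F : List (List Bool) → Prop), (∀ p, F (lf j p) ↔ cfg j s π p = true) → (Nd n j F ↔ s = true)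
  | 0, s, _, F, h => h ()
  | j + 1, s, π, F, h => by
    have ih : ∀ z : Fin n → Bool, Nd n j (fun ys => F (List.ofFn z :: ys)) ↔
        (!(s && decide (z = π.1))) = true := fun z => nd_cfg j _ (π.2 z) _ fun p => h (z, p)
    constructor
    · rintro ⟨y, rfl, hy⟩
      have := ih y.get
      rw [List.ofFn_get] at this
      rw [this] at hy
      cases s
      · simp at hy
      · rfl
    · intro hs
      refine ⟨List.ofFn π.1, by simp, ?_⟩
      rw [ih, hs]
      simp

/-- The strings of the stage. -/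
def emb2 (n T j : ℕ) : (Fin n → Bool) × (Fin n → Bool) × Leaf (Fin n → Bool) j ⊕
    (Σ i, Var (ln n T i)) → List Bool :=
  Sum.elim (fun p => rowc (List.ofFn p.1) (code (lf (j + 1) p.2))) fun c => emb n T (Sum.inr c)

theorem emb2_injective (n T j : ℕ) : Function.Injective (emb2 n T j) := by
  rintro (⟨y, z⟩ | c) (⟨y', z'⟩ | c') h
  · have := code_injective h
    simp only [List.cons.injEq, and_true, true_and] at this
    rw [List.ofFn_injective this.1, lf_injective (j + 1) (code_injective this.2)]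
  · have := code_injective h
    simp at this
  · have := code_injective h
    simp at this
  · rw [Sum.inr.inj (emb_injective n T h)]

theorem emb2_reg (n T j : ℕ) (p : (Fin n → Bool) × (Fin n → Bool) × Leaf (Fin n → Bool) j ⊕
    (Σ i, Var (ln n T i))) : ∃ k, n ≤ k ∧ Reg k (emb2 n T j p) := by
  rcases p with ⟨y, z⟩ | c
  · exact ⟨n, le_rfl, Or.inr ⟨_, _, by simp, rfl⟩⟩
  · exact emb_reg n T (Sum.inr c)

theorem log_cell {n T : ℕ} (hn : 2 ≤ n) (c : Σ i, Var (ln n T i)) (m' : ℕ)
    (h1 : (emb n T (Sum.inr c)).length ≤ m') : Nat.log n c.1.1.1 < Nat.log n m' := by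
  obtain ⟨⟨⟨⟨m, hm⟩, u⟩, j⟩, sd, x⟩ := c
  simp only [emb, Sum.elim_inr, length_cell, List.length_ofFn, ln] at h1
  have h2 := (mem_Icc.1 hm).1
  show Nat.log n m < Nat.log n m'
  have h3 : 1 ≤ Nat.log n m := Nat.log_pos (by omega) h2
  have h4 : n ^ Nat.log n m ≤ m := Nat.pow_log_le_self n (by omega)
  have h5 : n ^ (Nat.log n m * 2) ≤ m' := by
    rw [pow_mul]; exact le_trans (Nat.pow_le_pow_left h4 2) (by omega)
  have := Nat.le_log_of_pow_le (by omega) h5
  omega

variable {j : ℕ} {g : List Bool → List (List Bool) → (List Bool → Bool) → Bool}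
  {bd : List Bool → ℕ}

theorem low_cell {n T : ℕ} (hn : 2 ≤ n) (j m i : ℕ)
    (p : (Fin n → Bool) × (Fin n → Bool) × Leaf (Fin n → Bool) j ⊕ (Σ i, Var (ln n T i)))
    (hp : (emb2 n T j p).length ≤ m) :
    Sum.elim (fun _ => True) (fun c : Σ i, Var (ln n T i) =>
      Nat.log n c.1.1.1 * (j + 1) + (j - 0) < Nat.log n m * (j + 1) + i) p := by
  cases p with
  | inl p => trivial
  | inr c =>
    have h1 := Nat.mul_le_mul_right (j + 1) (Nat.succ_le_of_lt (log_cell hn c m hp))
    rw [Nat.succ_mul] at h1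
    show Nat.log n c.1.1.1 * (j + 1) + (j - 0) < _
    omega

/-- The layered system of the stage. -/
noncomputable def stageSys2 (n T : ℕ) (hn : 2 ≤ n) (hg : GD j g bd) (A : List Bool → Bool) :
    Sys ((Fin n → Bool) × (Fin n → Bool) × Leaf (Fin n → Bool) j) (QQ n T × WW T j)
      (Σ i, Var (ln n T i)) where
  blk c := (c.1.1, ⟨[], mem_WW.2 (by simp)⟩)
  lev q := Nat.log n q.1.1 * (j + 1) + (j - q.2.1.length)
  b q α := g (List.ofFn q.1.2) q.2.1 (Function.extend (emb2 n T j) α A)
  w := _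
  cert q := Cert.of_dep fun α β h => hg.dep _ (fun s hs => by
      by_cases hs' : ∃ p, emb2 n T j p = s
      · obtain ⟨p, rfl⟩ := hs'
        rw [(emb2_injective n T j).extend_apply, (emb2_injective n T j).extend_apply]
        exact h p (low_cell hn j _ _ p (by simpa using hs))
      · rw [Function.extend_apply' _ _ _ hs', Function.extend_apply' _ _ _ hs'])
    (j - q.2.1.length) _ (by have := (mem_WW.1 q.2.2).1; omega)

theorem stage_deep (n T : ℕ) (hn : 2 ≤ n) (hg : GD j g bd) (A : List Bool → Bool) :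
    (stageSys2 n T hn hg A).Deep T (fun q => j - q.2.1.length) fun q h => h.1 = q.1 ∧
      ∃ y : List Bool, y.length ≤ bd (List.ofFn q.1.2) ∧ h.2.1 = q.2.1 ++ [y] := by
  intro q
  have h0 := mem_WW.1 q.2.2
  have hT : (List.ofFn q.1.2).length ≤ T := by simpa using (mem_Icc.1 q.1.1.2).2
  by_cases hq : q.2.1.length = j
  · exact Or.inl (((hg.bot _ _ hq).extend (emb2_injective n T j) A).mono hT fun p hp =>
      low_cell hn j _ _ p (by simpa using hp))
  · have hq' : q.2.1.length < j := lt_of_le_of_ne h0.1 hq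
    refine Or.inr ⟨fun h ⟨h1, y, _, h2⟩ => ?_, fun α => ?_⟩
    · simp only [stageSys2, h1, h2, List.length_append, List.length_singleton]
      omega
    · refine (hg.nand _ _ _ hq').trans ⟨fun ⟨y, h1, h2⟩ => ?_, fun ⟨h, ⟨h1, y, h2, h3⟩, h4⟩ => ?_⟩
      · refine ⟨(q.1, ⟨q.2.1 ++ [y], mem_WW.2 ⟨by simp; omega, fun z hz => ?_⟩⟩),
          ⟨rfl, y, h1, rfl⟩, h2⟩
        rcases List.mem_append.1 hz with hz | hz
        · exact h0.2 z hz
        · rw [List.mem_singleton.1 hz]
          exact (h1.trans (hg.le _)).trans hT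
      · refine ⟨y, h2, ?_⟩
        simp only [stageSys2] at h4
        rw [h1, h3] at h4
        exact h4

theorem promise_stage2 (hphi : PhiStmt) (n T : ℕ) (hn : 2 ≤ n) (hg : GD j g bd)
    (A : List Bool → Bool) (b0 : (Fin n → Bool) → (Fin n → Bool) → Ptr (Fin n → Bool) j)
    (X0 X1 : ∀ i, Var (ln n T i) → Bool)
    (h0 : ∀ q, ∑ i ∈ univ.filter (fun i : II n T => i.1 = q), Phi (X0 i) ^ 2 ≤ 1 / 3)
    (h1 : ∀ q, ∏ i ∈ univ.filter (fun i : II n T => i.1 = q), (1 - Phi (X1 i) ^ 2) ≤ 1 / 3)
    (R : (Fin n → Bool) × (Fin n → Bool) → Bool) (u : List Bool) (hu : u.length ∈ Icc n T) :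
    Promise (fun u => g u []) (Function.extend (emb2 n T j)
      (pb b0 (((stageSys2 n T hn hg A).pull b0).cf (R, smp X0 X1))) A) u := by
  set S := (stageSys2 n T hn hg A).pull b0 with hS
  let q : QQ n T := ⟨⟨u.length, hu⟩, u.get⟩
  let q' : QQ n T × WW T j := (q, ⟨[], mem_WW.2 (by simp)⟩)
  have e0 : List.ofFn q.2 = u := List.ofFn_get u
  have e1 : g u [] (Function.extend (emb2 n T j) (pb b0 (S.cf (R, smp X0 X1))) A) =
      S.ty q' (R, smp X0 X1) := by
    rw [← e0]; rfl
  have e2 : ∀ i : Fin (rr u.length),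
      inst (Function.extend (emb2 n T j) (pb b0 (S.cf (R, smp X0 X1))) A) u (u.length ^ 2) i =
      if S.ty q' (R, smp X0 X1) = true then X1 ⟨q, i⟩ else X0 ⟨q, i⟩ := by
    intro i
    funext v
    have := (emb2_injective n T j).extend_apply (pb b0 (S.cf (R, smp X0 X1))) A
      (Sum.inr ⟨⟨q, i⟩, v⟩)
    simp only [emb2, emb, Sum.elim_inr, e0] at this
    rw [inst]
    refine this.trans ?_
    rw [pb, Sum.elim_inr, Sys.cf, Sum.elim_inr, S.val_eq]
    show smp X0 X1 (S.ty q' (R, smp X0 X1)) _ = _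
    cases S.ty q' (R, smp X0 X1) <;> simp [smp]
  unfold Promise pacc
  beta_reduce
  rw [e1, prod_range]
  simp only [e2]
  refine ⟨fun h => ?_, fun h => ?_⟩
  · have := h1 q
    rw [prod_fiber] at this
    simp only [h, if_true]
    linarith
  · have := one_sub_prod_le (univ.filter (fun i : II n T => i.1 = q)) (fun i => Phi (X0 i) ^ 2)
      (fun i => sq_nonneg _) fun i => (hphi _).1 _
    rw [prod_fiber] at this
    simp only [h, Bool.false_eq_true, if_false]
    exact this.trans (h0 q)

end Pool.Agent.Lib.MP_2733b3_lc
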