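import Pool.Agent.Lib.MP_2733b3_lc.Layout

/-! One stage: a no-oracle and its yes-variants that differ sparsely. -/

set_option autoImplicit false

namespace Pool.Agent.Lib.MP_2733b3_lc

open Finset

theorem sum_QQ (n T : ℕ) (g : ℕ → ℝ) :
    ∑ q : QQ n T, g q.1 = ∑ m ∈ Icc n T, (2 : ℝ) ^ m * g m := by
  rw [Fintype.sum_sigma, ← sum_coe_sort (Icc n T) (fun m => (2 : ℝ) ^ m * g m)]
  exact sum_congr rfl fun m _ => by simp

theorem sum_II (n T : ℕ) (g : ℕ → ℝ) :
    ∑ i : II n T, g i.1.1 = ∑ m ∈ Icc n T, (2 : ℝ) ^ m * (rr m * g m) := by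
  rw [Fintype.sum_sigma, ← sum_QQ n T (fun m => rr m * g m)]
  exact sum_congr rfl fun q _ => by simp

theorem card_QQ (n T : ℕ) : Fintype.card (QQ n T) ≤ 2 ^ (2 * T) := by
  rw [Fintype.card_sigma]
  refine (sum_le_card_nsmul _ _ (2 ^ T) fun m _ => ?_).trans ?_
  · simpa using Nat.pow_le_pow_right (by norm_num) (mem_Icc.1 m.2).2
  · rw [two_mul, pow_add, smul_eq_mul]
    refine Nat.mul_le_mul_right _ ?_
    have : T < 2 ^ T := Nat.lt_two_pow_self
    simp only [card_univ, Fintype.card_coe, Nat.card_Icc]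
    omega

theorem card_II (n T : ℕ) (h : ∀ m, n ≤ m → rr m ≤ 2 ^ m) :
    Fintype.card (II n T) ≤ 2 ^ (3 * T) := by
  rw [Fintype.card_sigma]
  refine (sum_le_card_nsmul _ _ (2 ^ T) fun q _ => ?_).trans ?_
  · rw [Fintype.card_fin]
    exact p2_le (h _ (mem_Icc.1 q.1.2).1) (mem_Icc.1 q.1.2).2
  · rw [smul_eq_mul, card_univ]
    exact p2_le (p2_mul (card_QQ n T) le_rfl) (by omega)

theorem stage_fin (hrt : RTStmt) (hphi : PhiStmt) (d : ℕ) : ∃ n1, 2 ≤ n1 ∧ ∀ n ≥ n1, ∀ T, n ≤ T →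
    T ≤ n ^ d → ∀ b, BCert b → ∀ A : List Bool → Bool,
    ∃ (A0 : List Bool → Bool) (B : (Fin n → Bool) → List Bool → Bool) (u : ℕ),
      144 * T ^ 2 * u < 2 ^ n ∧ (∀ s, cnt (fun y => B y s ≠ A0 s) ≤ u) ∧
      Agree n A A0 ∧ (∀ y, Agree n A (B y)) ∧
      (∀ v : List Bool, v.length ∈ Icc n T → Promise b A0 v ∧ ∀ y, Promise b (B y) v) ∧
      (∀ y : List Bool, y.length = n → ∃ z : List Bool, z.length = n ∧ A0 (rowc y z) = false) ∧
      ∀ y (z : List Bool), z.length = n → B y (rowc (List.ofFn y) z) = true := by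
  classical
  obtain ⟨n2, hrr⟩ := rr_le
  obtain ⟨n3, hpoly⟩ := num_poly d (2 * (d + 1) + 4)
  refine ⟨n2 + n3 + 16 * (d + 1) + 16, by omega, fun n hn T hnT hT b hb A => ?_⟩
  have hn2 : 2 ≤ n := by omega
  set S := stageSys n T hn2 b hb A with hS
  have hw : S.w = T := rfl
  set a1 := (44 * (T ^ 4) ^ 2 * T) with ha1
  set u := ((2 * (d + 1) + 4) * a1) ^ (d + 1) with hu
  have hp : 144 * T ^ 2 * u < 2 ^ n := hpoly n (by omega) T (by omega) hT
  have ha0 : 0 < a1 := by have : 0 < T := by omega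
                          positivity
  have hu1 : 1 ≤ u := Nat.one_le_pow _ _ (by positivity)
  have hT2 : 2 * T ≤ 2 ^ n := by
    have : T ^ 2 * 1 ≤ T ^ 2 * u := Nat.mul_le_mul_left _ hu1
    nlinarith
  have hcY : Fintype.card (Fin n → Bool) = 2 ^ n := by simp
  have hrr' : ∀ m, n ≤ m → rr m ≤ 2 ^ m := fun m hm => hrr m (by omega)
  have ht : (2 ^ n + 1) * a1 ^ (d + 1) ≤ 2 ^ (2 * n) := by
    have h1 : a1 ^ (d + 1) ≤ u := Nat.pow_le_pow_left (Nat.le_mul_of_pos_left _ (by omega)) _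
    have h2 : 1 * u ≤ T ^ 2 * u := Nat.mul_le_mul_right _ (Nat.one_le_pow _ _ (by omega))
    have h3 : 1 ≤ 2 ^ n := Nat.one_le_two_pow
    rw [two_mul n, pow_add 2]
    generalize a1 ^ (d + 1) = w at h1 ⊢
    nlinarith
  obtain ⟨a, X0, X1, c1, c2, c3⟩ := core hrt hphi S (fun i => i.1) (T ^ 4) (d + 1)
    (Nat.one_le_pow _ _ (by omega)) (by rw [hw]; omega)
    (fun q => Nat.lt_succ_of_le (by
      have := Nat.log_mono_right (b := n) ((mem_Icc.1 q.1.2).2.trans hT)
      rwa [Nat.log_pow (by omega)] at this))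
    (by rw [hw, hcY]; exact hT2) (2 ^ T ^ 3) (2 ^ (T ^ 2 + 1))
    (fun i => by
      have : Fintype.card (Var (ln n T i)) ≤ 2 ^ (T ^ 2 + 1) := by
        simp only [Fintype.card_prod, Fintype.card_bool, Fintype.card_fun, Fintype.card_fin]
        rw [pow_succ']
        exact Nat.mul_le_mul_left _ (p2_le le_rfl (Nat.pow_le_pow_left (mem_Icc.1 i.1.1.2).2 2))
      exact_mod_cast this)
    (by
      rw [Fintype.card_prod, hcY]
      exact_mod_cast num_K n T (d + 1) _ hnT (by omega) (card_QQ n T))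
    (by exact_mod_cast num_K' T _ (by omega) (card_QQ n T))
    (by
      rw [hw, hcY, sum_II n T (fun m => 16 * (((2 ^ n + 1) * a1 ^ (d + 1) : ℕ) : ℝ) ^ 2 *
        sig (m ^ 2))]
      exact sum_Icc_le n T (by omega) (by omega) _ 1 (by norm_num) fun m hm =>
        term_gamma n m _ (by omega) hm (hrr' m hm) ht)
    (by
      have := num_one n T (d + 1) _ _ hnT (by omega) (card_QQ n T) (card_II n T hrr')
      have h2 : (4 * (Fintype.card (QQ n T) * (3 * ((1 + Fintype.card (II n T) *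
          (32 * (2 ^ (T ^ 2 + 1)) ^ 3 * (2 ^ n + 1) + 1)) * (2 ^ T ^ 3) ^ (d + 1)))) : ℝ) ≤
          2 ^ T ^ 4 := by exact_mod_cast this
      rw [hcY, one_div_pow]
      push_cast
      have h3 : (0 : ℝ) < 2 ^ T ^ 4 := by positivity
      rw [← div_le_one h3] at h2
      refine le_trans (le_of_eq ?_) (div_le_div_of_nonneg_right h2 (show (0 : ℝ) ≤ 4 by norm_num))
      ring)
    (by
      rw [sum_II n T (fun m => 3 * (1 / 2 ^ (m ^ 2)))]
      exact sum_Icc_le n T (by omega) (by omega) _ _ (by norm_num) fun m hm =>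
        term_zero n m (by omega) hm (hrr' m hm))
    (by
      simp only [prod_fiber, ln, prod_const, card_univ, Fintype.card_fin]
      rw [sum_QQ n T (fun m => 3 * (1 - 1 / (256 * (((m ^ 2 : ℕ) : ℝ) + 3) ^ 2)) ^ rr m)]
      exact sum_Icc_le n T (by omega) (by omega) _ _ (by norm_num) fun m hm =>
        term_one n m (by omega) hm)
  have hag : ∀ α, Agree n A (Function.extend (emb n T) α A) := fun α s hs =>
    Function.extend_apply' _ _ _ fun ⟨p, hp⟩ => by
      obtain ⟨k, h1, h2⟩ := emb_reg n T p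
      exact hs k h1 (hp ▸ h2)
  have hrow : ∀ α (y z : Fin n → Bool), Function.extend (emb n T) α A
      (rowc (List.ofFn y) (List.ofFn z)) = α (Sum.inl (y, z)) := fun α y z =>
    (emb_injective n T).extend_apply α A (Sum.inl (y, z))
  refine ⟨Function.extend (emb n T) (S.cf (row a, smp X0 X1)) A,
    fun y => Function.extend (emb n T) (S.cf (flp (row a) (y, a y), smp X0 X1)) A, u, hp,
    fun s => ?_, hag _, fun y => hag _, fun v hv => ⟨promise_stage hphi n T hn2 b hb A X0 X1 c2 c3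
      _ v hv, fun y => promise_stage hphi n T hn2 b hb A X0 X1 c2 c3 _ v hv⟩, fun y hy => ?_,
    fun y z hz => ?_⟩
  · by_cases hs : ∃ p, emb n T p = s
    · obtain ⟨p, rfl⟩ := hs
      simp only [(emb_injective n T).extend_apply]
      rcases p with p | c
      · refine le_trans (cnt_le_one p.1 fun y hy => ?_) hu1
        by_contra hc
        exact hy (flp_ne _ fun h => hc (by rw [h]))
      · refine le_trans (cnt_mono fun y hy => ?_) (not_lt.1 (c1 (S.blk c)))
        intro h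
        apply hy
        simp only [Sys.cf, Sum.elim_inr]
        rw [S.val_eq, S.val_eq, h]
    · simp only [Function.extend_apply' _ _ _ hs]
      exact le_trans (le_of_le_of_eq (cnt_mono fun y hy => hy rfl) cnt_false) (Nat.zero_le _)
  · subst hy
    refine ⟨List.ofFn (a y.get), by simp, ?_⟩
    have := hrow (S.cf (row a, smp X0 X1)) y.get (a y.get)
    rw [List.ofFn_get] at this
    refine this.trans ?_
    simp [Sys.cf, row]
  · subst hz
    have := hrow (S.cf (flp (row a) (y, a y), smp X0 X1)) y z.get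
    rw [List.ofFn_get] at this
    refine this.trans ?_
    by_cases h : z.get = a y
    · simp [Sys.cf, row, flp, h]
    · simp [Sys.cf, row, flp, h]

end Pool.Agent.Lib.MP_2733b3_lc
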