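import Pool.Agent.Lib.MP_2733b3_lc.GLayout
import Pool.Agent.Lib.MP_2733b3_lc.Stage

/-! One stage: a hybrid oracle without false row and its variants with one false row. -/

set_option autoImplicit false

namespace Pool.Agent.Lib.MP_2733b3_lc

open Finset

theorem num_K2 (n T D q : ℕ) (hn : n ≤ T) (hT : 16 * D + 16 ≤ T) (hq : q ≤ 2 ^ T ^ 2) :
    (2 + 4 * (2 * (2 ^ n * 2 ^ n) + 1) ^ (2 * D) * q * (4 + 2 * (2 ^ n * 2 ^ n))) *
      (1 + 2 * 2 ^ n) ≤ 2 ^ T ^ 3 := by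
  have h0 : 2 ^ n ≤ 2 ^ T := p2_le le_rfl hn
  have h1 := p2_mul (show 2 ≤ 2 ^ 1 by norm_num) (p2_mul h0 h0)
  have h3 := p2_add h1 Nat.one_le_two_pow
  have h4 := p2_add (p2_le (show 4 ≤ 2 ^ 2 by norm_num) (by omega)) h1
  have h5 := p2_add Nat.one_le_two_pow (p2_mul (show 2 ≤ 2 ^ 1 by norm_num) h0)
  refine p2_le (p2_mul (p2_add (p2_le (show 2 ≤ 2 ^ 1 by norm_num) (by omega))
    (p2_mul (p2_mul (p2_mul (show 4 ≤ 2 ^ 2 by norm_num) (p2_pow h3 (2 * D))) hq) h4)) h5) ?_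
  have : T * (16 * D + 16) ≤ T * T := Nat.mul_le_mul_left _ hT
  have : T * T * 16 ≤ T * T * T := Nat.mul_le_mul_left _ (by omega)
  have : D * 1 ≤ D * T := Nat.mul_le_mul_left _ (by omega)
  nlinarith

theorem num_K3 (T q : ℕ) (hT : 16 ≤ T) (hq : q ≤ 2 ^ T ^ 2) :
    q * (1 + (3 + 2 * 2 ^ (T ^ 2 + 1)) * (1 + 3 * 2 ^ (T ^ 2 + 1))) ≤ 2 ^ T ^ 3 := by
  have h1 := p2_add (p2_le (show 3 ≤ 2 ^ 2 by norm_num) (by omega))
    (p2_mul (show 2 ≤ 2 ^ 2 by norm_num) (le_refl (2 ^ (T ^ 2 + 1))))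
  have h2 := p2_add Nat.one_le_two_pow
    (p2_mul (show 3 ≤ 2 ^ 2 by norm_num) (le_refl (2 ^ (T ^ 2 + 1))))
  refine p2_le (p2_mul hq (p2_add Nat.one_le_two_pow (p2_mul h1 h2))) ?_
  have : T ^ 2 * 16 ≤ T ^ 2 * T := Nat.mul_le_mul_left _ hT
  nlinarith

theorem num_one2 (n T D q i : ℕ) (hn : n ≤ T) (hT : 16 * D + 16 ≤ T) (hq : q ≤ 2 ^ T ^ 2)
    (hi : i ≤ 2 ^ (3 * T)) :
    4 * (q * (3 * ((1 + i * (32 * (2 ^ (T ^ 2 + 1)) ^ 3 * (2 ^ n + 1) + 1)) * (2 ^ T ^ 3) ^ D))) ≤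
      2 ^ T ^ 4 := by
  have h0 := p2_add (p2_le (le_refl (2 ^ n)) hn) Nat.one_le_two_pow
  have h1 := p2_add (p2_mul (p2_mul (show 32 ≤ 2 ^ 5 by norm_num)
    (p2_pow (le_refl (2 ^ (T ^ 2 + 1))) 3)) h0) Nat.one_le_two_pow
  refine p2_le (p2_mul (show 4 ≤ 2 ^ 2 by norm_num) (p2_mul hq (p2_mul
    (show 3 ≤ 2 ^ 2 by norm_num) (p2_mul (p2_add Nat.one_le_two_pow (p2_mul hi h1))
      (p2_pow (le_refl (2 ^ T ^ 3)) D))))) ?_
  have a1 : T ^ 3 * (16 * D + 16) ≤ T ^ 3 * T := Nat.mul_le_mul_left _ hT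
  have a2 : T ^ 2 * 16 ≤ T ^ 2 * T := Nat.mul_le_mul_left _ (by omega)
  have a3 : T * 16 ≤ T * T := Nat.mul_le_mul_left _ (by omega)
  have a4 : T ^ 4 = T ^ 3 * T := by ring
  have a5 : T ^ 3 = T ^ 2 * T := by ring
  have a6 : T ^ 2 = T * T := by ring
  nlinarith

theorem num_poly2 (d c D : ℕ) : ∃ n1, ∀ n ≥ n1, ∀ T, T ≤ n ^ d →
    1152 * T ^ 2 * (c * (44 * (T ^ 4) ^ 2 * T)) ^ D < 2 ^ n := by
  obtain ⟨n1, h⟩ := poly_le_exp (1152 * (c * 44) ^ D) (d * (2 + 9 * D))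
  refine ⟨n1, fun n hn T hT => lt_of_le_of_lt ?_ (h n hn)⟩
  calc _ = 1152 * (c * 44) ^ D * T ^ (2 + 9 * D) := by
        rw [pow_add T 2, pow_mul T 9, show c * (44 * (T ^ 4) ^ 2 * T) = (c * 44) * T ^ 9 by ring,
          mul_pow]; ring
    _ ≤ _ := by rw [pow_mul n d]; gcongr

theorem card_GG (n T j : ℕ) (hT : 3 * j + 2 ≤ T) :
    Fintype.card (QQ n T × WW T j) ≤ 2 ^ T ^ 2 := by
  rw [Fintype.card_prod, Fintype.card_coe]
  have h1 : 3 ^ T ≤ 2 ^ (2 * T) := by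
    rw [pow_mul]; exact Nat.pow_le_pow_left (by norm_num) _
  have h2 : (WW T j).card ≤ (3 ^ T + 1) ^ j := (exists_WW T j).choose_spec.1
  refine p2_le (p2_mul (card_QQ n T) (h2.trans (p2_pow (p2_add h1 Nat.one_le_two_pow) j))) ?_
  have : T * (3 * j + 2) ≤ T * T := Nat.mul_le_mul_left _ hT
  have : j * 1 ≤ j * T := Nat.mul_le_mul_left _ (by omega)
  nlinarith

theorem stage_fin2 (hrt : RTStmt) (hphi : PhiStmt) (j d : ℕ) : ∃ n1, 2 ≤ n1 ∧ ∀ n ≥ n1, ∀ T,
    n ≤ T → T ≤ n ^ d → ∀ g bd, GD j g bd → ∀ A : List Bool → Bool,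
    ∃ (A0 : List Bool → Bool) (B : (Fin n → Bool) → List Bool → Bool) (u : ℕ),
      1152 * T ^ 2 * u < 2 ^ n ∧ (∀ s, cnt (fun y => B y s ≠ A0 s) ≤ u) ∧
      (∀ y, Agree n A (B y)) ∧
      (∀ y (v : List Bool), v.length ∈ Icc n T → Promise (fun u => g u []) (B y) v) ∧
      (∀ y (y' s : List Bool), y'.length ≠ n → B y (rowc y' s) = A (rowc y' s)) ∧
      ∀ y y', ¬ RowV (B y) (j + 1) (List.ofFn y') ↔ y' = y := by
  classical
  obtain ⟨n2, hrr⟩ := rr_le
  obtain ⟨D, hD⟩ : ∃ D, D = (d + 1) * (j + 1) := ⟨_, rfl⟩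
  have hD1 : j + 1 ≤ D := hD ▸ Nat.le_mul_of_pos_left _ (by omega)
  have hD2 : D ≤ D * (j + 1) := Nat.le_mul_of_pos_right _ (by omega)
  obtain ⟨n3, hpoly⟩ := num_poly2 d (2 * D + 4) D
  refine ⟨n2 + n3 + 16 * (D * (j + 1)) + 16, by omega, fun n hn T hnT hT g bd hg A => ?_⟩
  have hn2 : 2 ≤ n := by omega
  set S := stageSys2 n T hn2 hg A with hS
  set a1 := (44 * (T ^ 4) ^ 2 * T) with ha1
  set u := ((2 * D + 4) * a1) ^ D with hu
  have hp : 1152 * T ^ 2 * u < 2 ^ n := hpoly n (by omega) T hT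
  have ha0 : 0 < a1 := by have : 0 < T := by omega
                          positivity
  have hu1 : 1 ≤ u := Nat.one_le_pow _ _ (by positivity)
  have hT2 : 2 * T ≤ 2 ^ n := by
    have : T ^ 2 * 1 ≤ T ^ 2 * u := Nat.mul_le_mul_left _ hu1
    nlinarith
  have h2u : 1 * u ≤ T ^ 2 * u := Nat.mul_le_mul_right _ (Nat.one_le_pow _ _ (by omega))
  have hcY : Fintype.card (Fin n → Bool) = 2 ^ n := by simp
  have hrr' : ∀ m, n ≤ m → rr m ≤ 2 ^ m := fun m hm => hrr m (by omega)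
  have ht : (2 ^ n + 1) * a1 ^ D ≤ 2 ^ (2 * n) := by
    have h1 : a1 ^ D ≤ u := Nat.pow_le_pow_left (Nat.le_mul_of_pos_left _ (by omega)) _
    have h3 : 1 ≤ 2 ^ n := Nat.one_le_two_pow
    rw [two_mul n, pow_add 2]
    generalize a1 ^ D = w at h1 ⊢
    nlinarith
  have hcG := card_GG n T j (by omega)
  obtain ⟨b0, a, X0, X1, c1, c2, c3⟩ := core3 hrt hphi S (stage_deep n T hn2 hg A)
    (fun q => Nat.sub_le _ _) (fun i => i.1) (T ^ 4) D
    (Nat.one_le_pow _ _ (by omega)) (by omega)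
    (fun q => by
      have := Nat.log_mono_right (b := n) ((mem_Icc.1 q.1.1.2).2.trans hT)
      rw [Nat.log_pow (by omega)] at this
      have h2 := Nat.mul_le_mul_right (j + 1) this
      show Nat.log n q.1.1 * (j + 1) + (j - q.2.1.length) < D
      rw [hD, Nat.succ_mul d]
      omega)
    (by rw [hcY]; exact hT2) (by rw [hcY, ← ha1, ← hu]; nlinarith) (2 ^ T ^ 3) (2 ^ (T ^ 2 + 1))
    (by omega)
    (fun i => by
      have : Fintype.card (Var (ln n T i)) ≤ 2 ^ (T ^ 2 + 1) := by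
        simp only [Fintype.card_prod, Fintype.card_bool, Fintype.card_fun, Fintype.card_fin]
        rw [pow_succ']
        exact Nat.mul_le_mul_left _ (p2_le le_rfl (Nat.pow_le_pow_left (mem_Icc.1 i.1.1.2).2 2))
      exact_mod_cast this)
    (by
      rw [Fintype.card_prod (Fin n → Bool), hcY]
      exact_mod_cast num_K2 n T D _ hnT (by omega) hcG)
    (by exact_mod_cast num_K3 T _ (by omega) hcG)
    (by
      rw [hcY, sum_II n T (fun m => 16 * (((2 ^ n + 1) * a1 ^ D : ℕ) : ℝ) ^ 2 * sig (m ^ 2))]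
      exact sum_Icc_le n T (by omega) (by omega) _ 1 (by norm_num) fun m hm =>
        term_gamma n m _ (by omega) hm (hrr' m hm) ht)
    (by
      have := num_one2 n T (D * (j + 1)) _ _ hnT (by omega) hcG (card_II n T hrr')
      have h2 : (4 * (Fintype.card (QQ n T × WW T j) * (3 * ((1 + Fintype.card (II n T) *
          (32 * (2 ^ (T ^ 2 + 1)) ^ 3 * (2 ^ n + 1) + 1)) * (2 ^ T ^ 3) ^ (D * (j + 1))))) : ℝ) ≤
          2 ^ T ^ 4 := by exact_mod_cast this
      rw [hcY, one_div_pow]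
      push_cast
      have h3 : (0 : ℝ) < 2 ^ T ^ 4 := by positivity
      rw [← div_le_one h3] at h2
      refine le_trans (le_of_eq ?_) (div_le_div_of_nonneg_right h2 (show (0 : ℝ) ≤ 4 by norm_num))
      ring)
    (by
      rw [sum_II n T (fun m => 3 * (1 / 2 ^ (m ^ 2)))]
      exact sum_Icc_le n T (by omega) (by omega) _ _ (by norm_num) fun m hm =>
        term_zero n m (by omega) hm (hrr' m hm))
    (by
      simp only [prod_fiber, ln, prod_const, card_univ, Fintype.card_fin]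
      rw [sum_QQ n T (fun m => 3 * (1 - 1 / (256 * (((m ^ 2 : ℕ) : ℝ) + 3) ^ 2)) ^ rr m)]
      exact sum_Icc_le n T (by omega) (by omega) _ _ (by norm_num) fun m hm =>
        term_one n m (by omega) hm)
  set S' := S.pull b0 with hS'
  have hag : ∀ α, Agree n A (Function.extend (emb2 n T j) α A) := fun α s hs =>
    Function.extend_apply' _ _ _ fun ⟨p, hp⟩ => by
      obtain ⟨k, h1, h2⟩ := emb2_reg n T j p
      exact hs k h1 (hp ▸ h2)
  refine ⟨Function.extend (emb2 n T j) (pb b0 (S'.cf (row a, smp X0 X1))) A,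
    fun y => Function.extend (emb2 n T j) (pb b0 (S'.cf (flp (row a) (y, a y), smp X0 X1))) A,
    u, hp, fun s => ?_, fun y => hag _,
    fun y v hv => promise_stage2 hphi n T hn2 hg A b0 X0 X1 c2 c3 _ v hv, fun y y' s hy => ?_,
    fun y y' => ?_⟩
  · by_cases hs : ∃ p, emb2 n T j p = s
    · obtain ⟨p, rfl⟩ := hs
      simp only [(emb2_injective n T j).extend_apply]
      rcases p with p | c
      · refine le_trans (cnt_le_one p.1 fun y hy => ?_) hu1
        by_contra hc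
        apply hy
        simp only [pb, Sys.cf, Sum.elim_inl]
        rw [flp_ne _ fun h => hc (congrArg Prod.fst h).symm]
      · refine le_trans (cnt_mono fun y hy => ?_) (not_lt.1 (c1 (S'.blk c)))
        intro h
        apply hy
        simp only [pb, Sys.cf, Sum.elim_inr]
        rw [S'.val_eq, S'.val_eq, h]
    · simp only [Function.extend_apply' _ _ _ hs]
      exact le_trans (le_of_le_of_eq (cnt_mono fun y hy => hy rfl) cnt_false) (Nat.zero_le _)
  · refine Function.extend_apply' _ _ _ ?_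
    rintro ⟨p | c, hp⟩
    · have := code_injective hp
      simp only [List.cons.injEq, and_true, true_and] at this
      exact hy (by rw [← this.1]; simp)
    · have := code_injective hp
      simp at this
  · rw [RowV, List.length_ofFn, nd_cfg (j + 1) (decide (y' ≠ y)) (a y', b0 y') _ fun p => ?_]
    · simp
    · have := (emb2_injective n T j).extend_apply
        (pb b0 (S'.cf (flp (row a) (y, a y), smp X0 X1))) A (Sum.inl (y', p))
      refine (Iff.of_eq (congrArg (· = true) this)).trans ?_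
      show cfg j (flp (row a) (y, a y) (y', p.1)) (b0 y' p.1) p.2 = true ↔
        cfg j (!(decide (y' ≠ y) && decide (p.1 = a y'))) (b0 y' p.1) p.2 = true
      by_cases h : y' = y
      · subst h
        rw [full_row]
        simp
      · rw [flp_ne _ (by simp [h])]
        simp [row, h]

end Pool.Agent.Lib.MP_2733b3_lc
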