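import Pool.Agent.Lib.MP_2733b3_lc.GIdeal

/-! Trees with hidden pointers and the induction on their depth. -/

set_option autoImplicit false

namespace Pool.Agent.Lib.MP_2733b3_lc

open Finset

/-- Uniform probability. -/
noncomputable def up {Ω : Type} [Fintype Ω] (E : Ω → Prop) : ℝ :=
  pr (fun _ => (1 : ℝ) / Fintype.card Ω) E

section
variable {A B : Type} [Fintype A] [Fintype B]

theorem sum_unif_le : ∑ _a : A, (1 : ℝ) / Fintype.card A ≤ 1 := by
  rw [sum_const, card_univ, nsmul_eq_mul, mul_one_div]
  exact div_self_le_one _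

theorem up_nonneg (E : A → Prop) : 0 ≤ up E := pr_nonneg (fun _ => by positivity) E

theorem up_mono {E E' : A → Prop} (h : ∀ a, E a → E' a) : up E ≤ up E' :=
  pr_mono (fun _ => by positivity) h

theorem up_equiv (e : A ≃ B) (E : B → Prop) : up (fun a => E (e a)) = up E := by
  unfold up
  rw [Fintype.card_congr e]
  exact pr_equiv e (fun _ => (1 : ℝ) / Fintype.card B) E

theorem up_prod (E : A × B → Prop) :
    up E = ∑ a, (1 : ℝ) / Fintype.card A * up (fun b => E (a, b)) := by
  unfold up
  rw [← pr_prod (fun _ : A => (1 : ℝ) / Fintype.card A) (fun _ : B => (1 : ℝ) / Fintype.card B) E]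
  congr 1
  funext p
  rw [Fintype.card_prod, Nat.cast_mul, one_div_mul_one_div]

theorem up_prod_le (E : A × B → Prop) (x : ℝ) (hx : 0 ≤ x) (h : ∀ a, up (fun b => E (a, b)) ≤ x) :
    up E ≤ x := by
  rw [up_prod]
  refine (sum_le_sum fun a _ => mul_le_mul_of_nonneg_left (h a) (by positivity)).trans ?_
  rw [← sum_mul]
  exact mul_le_of_le_one_left hx sum_unif_le

theorem up_update_le [DecidableEq A] [Nonempty B] (E : (A → B) → Prop) (y : A) (x : ℝ) (hx : 0 ≤ x)
    (h : ∀ b, up (fun t => E (Function.update b y t)) ≤ x) : up E ≤ x := by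
  rw [← up_equiv ((Equiv.prodComm _ _).trans (Equiv.funSplitAt y B).symm)]
  refine up_prod_le _ x hx fun r => ?_
  obtain ⟨t0⟩ := ‹Nonempty B›
  refine le_trans (up_mono fun t ht => ?_) (h ((Equiv.funSplitAt y B).symm (t0, r)))
  have : Function.update ((Equiv.funSplitAt y B).symm (t0, r)) y t =
      (Equiv.funSplitAt y B).symm (t, r) := by
    funext a
    by_cases ha : a = y
    · subst ha; simp [Equiv.funSplitAt, Equiv.piSplitAt]
    · simp [Equiv.funSplitAt, Equiv.piSplitAt, ha]
  rw [this]
  exact ht

theorem exists_up_le [Nonempty A] (E : A × B → Prop) : ∃ a, up (fun b => E (a, b)) ≤ up E := by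
  by_contra hc
  push Not at hc
  have h1 : ∑ _a : A, (1 : ℝ) / Fintype.card A * up E <
      ∑ a, (1 : ℝ) / Fintype.card A * up (fun b => E (a, b)) :=
    sum_lt_sum_of_nonempty univ_nonempty fun a _ => mul_lt_mul_of_pos_left (hc a) (by
      have : (0 : ℝ) < Fintype.card A := by exact_mod_cast Fintype.card_pos
      positivity)
  have h2 : (Fintype.card A : ℝ) ≠ 0 := by exact_mod_cast Fintype.card_ne_zero
  rw [← up_prod, sum_const, card_univ, nsmul_eq_mul, ← mul_assoc, mul_one_div_cancel h2,
    one_mul] at h1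
  exact lt_irrefl _ h1

end

/-- The leaves of the tree of depth `j`. -/
def Leaf (Z : Type) : ℕ → Type
  | 0 => Unit
  | j + 1 => Z × Leaf Z j

/-- A pointer to a child at every inner node of the tree of depth `j`. -/
def Ptr (Z : Type) : ℕ → Type
  | 0 => Unit
  | j + 1 => Z × (Z → Ptr Z j)

instance Leaf.fintype (Z : Type) [Fintype Z] : ∀ j, Fintype (Leaf Z j)
  | 0 => inferInstanceAs (Fintype Unit)
  | j + 1 => haveI := Leaf.fintype Z j; inferInstanceAs (Fintype (Z × Leaf Z j))

instance Ptr.fintype (Z : Type) [Fintype Z] [DecidableEq Z] : ∀ j, Fintype (Ptr Z j)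
  | 0 => inferInstanceAs (Fintype Unit)
  | j + 1 => haveI := Ptr.fintype Z j; inferInstanceAs (Fintype (Z × (Z → Ptr Z j)))

instance Ptr.nonempty (Z : Type) [Nonempty Z] : ∀ j, Nonempty (Ptr Z j)
  | 0 => inferInstanceAs (Nonempty Unit)
  | j + 1 => haveI := Ptr.nonempty Z j; inferInstanceAs (Nonempty (Z × (Z → Ptr Z j)))

variable {Z Q C : Type} [DecidableEq Z]

/-- The leaves below a node in state `s`: a true node has one false child, a false node none. -/
def cfg : ∀ j, Bool → Ptr Z j → Leaf Z j → Bool
  | 0, s, _, _ => s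
  | j + 1, s, π, p => cfg j (!(s && decide (p.1 = π.1))) (π.2 p.1) p.2

/-- The leaves as functions of the states of the nodes of depth two. -/
def pb {j : ℕ} (b : Z → Z → Ptr Z j) (α : Z × Z ⊕ C → Bool) : Z × Z × Leaf Z j ⊕ C → Bool :=
  Sum.elim (fun p => cfg j (α (Sum.inl (p.1, p.2.1))) (b p.1 p.2.1) p.2.2) fun c => α (Sum.inr c)

/-- Everything outside row `y` is frozen. -/
def rs {L : Type} (y : Z) (R : Z × L → Bool) (v : C → Bool) (α : L ⊕ Empty → Bool) :
    Z × L ⊕ C → Bool :=
  Sum.elim (fun p => if p.1 = y then α (Sum.inl p.2) else R p) v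

theorem Cert.pb {j w : ℕ} {L : C → Prop} {g : (Z × Z × Leaf Z j ⊕ C → Bool) → Bool}
    (h : Cert w (Sum.elim (fun _ => True) L) g) (b : Z → Z → Ptr Z j) :
    Cert w (Sum.elim (fun _ => True) L) fun α => g (pb b α) :=
  h.subst (MP_2733b3_lc.pb b)
    (fun p => some (Sum.elim (fun p => Sum.inl (p.1, p.2.1)) Sum.inr p))
    (fun α β p hp => by
      cases p with
      | inl p => simp only [MP_2733b3_lc.pb, Sum.elim_inl]; rw [hp (Sum.inl (p.1, p.2.1)) rfl]
      | inr c => exact hp _ rfl)
    fun p p' hp e => by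
      cases e
      cases p with
      | inl p => trivial
      | inr c => exact hp

theorem Cert.rs {L : Type} {w : ℕ} {Low : Z × L ⊕ C → Prop} {g : (Z × L ⊕ C → Bool) → Bool}
    (h : Cert w Low g) (y : Z) (R : Z × L → Bool) (v : C → Bool) (L' : Empty → Prop) :
    Cert w (Sum.elim (fun _ => True) L') fun α => g (rs y R v α) :=
  h.subst (MP_2733b3_lc.rs y R v) (Sum.elim (fun p => some (Sum.inl p.2)) fun _ => none)
    (fun α β p hp => by
      cases p with
      | inl p => simp only [MP_2733b3_lc.rs, Sum.elim_inl]; rw [hp _ rfl]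
      | inr c => rfl)
    fun p p' _ e => by
      cases p with
      | inl p => cases e; trivial
      | inr c => cases e

theorem full_row (a : Z → Z) (y z : Z) : flp (row a) (y, a y) (y, z) = true := by
  by_cases h : z = a y <;> simp [row, flp, h]

namespace Sys

/-- The system over the states of the nodes of depth two. -/
def pull {j : ℕ} (S : Sys (Z × Z × Leaf Z j) Q C) (b : Z → Z → Ptr Z j) : Sys (Z × Z) Q C where
  blk := S.blk
  lev := S.lev
  b q α := S.b q (pb b α)
  w := S.w
  cert q := (S.cert q).pb b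

theorem Deep.pull {j w : ℕ} {S : Sys (Z × Z × Leaf Z j) Q C} {dp : Q → ℕ} {ch : Q → Q → Prop}
    (h : S.Deep w dp ch) (b : Z → Z → Ptr Z j) : (S.pull b).Deep w dp ch := fun q =>
  (h q).imp (fun h => h.pb b) fun h => ⟨h.1, fun _ => h.2 _⟩

/-- The blocks of depth below `j` as functions of row `y`. -/
def res {L : Type} (S : Sys (Z × L) Q C) (dp : Q → ℕ) (j : ℕ) (y : Z) (R : Z × L → Bool)
    (v : C → Bool) : Sys L Q Empty where
  blk := Empty.elim
  lev := S.lev
  b q α := if dp q < j then S.b q (rs y R v α) else false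
  w := S.w
  cert q := by
    by_cases h : dp q < j
    · simp only [h, if_true]
      exact (S.cert q).rs y R v _
    · simp only [h, if_false]
      exact Cert.false _ _

theorem Deep.res {L : Type} {w : ℕ} {S : Sys (Z × L) Q C} {dp : Q → ℕ} {ch : Q → Q → Prop}
    (h : S.Deep w dp ch) (j : ℕ) (y : Z) (R : Z × L → Bool) (v : C → Bool) :
    (S.res dp j y R v).Deep w (fun q => if dp q < j then dp q else 0) ch := by
  intro q
  by_cases hq : dp q < j
  · rcases h q with h1 | ⟨h1, h2⟩
    · left
      simp only [Sys.res, hq, if_true]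
      exact h1.rs y R v _
    · right
      refine ⟨fun c hc => ⟨(h1 c hc).1, ?_⟩, fun α => ?_⟩
      · have := (h1 c hc).2
        simp only [hq, this.trans hq, if_true]
        exact this
      · simp only [Sys.res, hq, if_true]
        rw [h2]
        exact exists_congr fun c => and_congr_right fun hc => by
          rw [if_pos ((h1 c hc).2.trans hq)]
  · left
    simp only [Sys.res, hq, if_false]
    exact Cert.false _ _

theorem exists_nf {P : Type} [DecidableEq P] [Fintype C] [DecidableEq C] (S : Sys P Q C)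
    (l : Bool × P) (R : P → Bool) : ∃ e : (Bool → C → Bool) ≃ (Bool → C → Bool),
      ∀ X, e X false = S.val (S.act l (R, X)) := by
  let f : (Bool → C → Bool) → Bool → C → Bool := fun X β c =>
    (S.act l (R, X)).2 (xor β (S.ty (S.blk c) (S.act l (R, X)))) c
  have f0 : ∀ X, f X false = S.val (S.act l (R, X)) := fun X => funext fun c => by
    rw [S.val_eq]; simp [f]
  have hf : Function.Injective f := by
    intro X X' h
    have h1 : S.val (S.act l (R, X)) = S.val (S.act l (R, X')) := by rw [← f0, ← f0, h]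
    have h2 : ∀ q, S.ty q (S.act l (R, X)) = S.ty q (S.act l (R, X')) := fun q => by
      rw [ty, ty, cf, cf, h1]; rfl
    have h3 : S.act l (R, X) = S.act l (R, X') := by
      refine Prod.ext rfl (funext fun β => funext fun c => ?_)
      have := congrFun (congrFun h (xor β (S.ty (S.blk c) (S.act l (R, X))))) c
      simp only [f] at this
      rw [← h2] at this
      simpa using this
    have h4 := congrArg (S.act l) h3
    rw [act_act, act_act] at h4
    exact congrArg Prod.snd h4
  exact ⟨Equiv.ofBijective f (Finite.injective_iff_bijective.1 hf), f0⟩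

end Sys

end Pool.Agent.Lib.MP_2733b3_lc
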