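import Pool.Agent.Lib.MP_2733b3_lc.Moves

/-! In the ideal world, removing the zero of a row changes the type of each block for few rows. -/

set_option autoImplicit false

namespace Pool.Agent.Lib.MP_2733b3_lc

open Finset

theorem cnt_fst {Y Z : Type} [Fintype Y] [Fintype Z] (E : Y → Prop) :
    cnt (fun m : Y × Z => E m.1) = cnt E * Fintype.card Z := by
  classical
  rw [cnt_eq_sum, cnt_eq_sum, Fintype.sum_prod_type, sum_mul]
  exact sum_congr rfl fun y _ => by by_cases h : E y <;> simp [h]

theorem cnt_fst_eq {Y Z : Type} [Fintype Y] [Fintype Z] (y : Y) :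
    cnt (fun m : Y × Z => m.1 = y) ≤ Fintype.card Z := by
  rw [cnt_fst (fun y' => y' = y)]
  have := cnt_le_one (E := fun y' => y' = y) y fun _ h => h
  nlinarith

theorem cnt_half {Y Z : Type} [Fintype Y] [Fintype Z] (E : Y → Prop) (F : Y × Z → Prop)
    (h : ∀ y, E y → 2 * cnt (fun z => ¬ F (y, z)) ≤ Fintype.card Z) :
    cnt (fun m : Y × Z => E m.1) ≤ 2 * cnt F := by
  classical
  rw [cnt_eq_sum, cnt_eq_sum F, Fintype.sum_prod_type, Fintype.sum_prod_type, mul_sum]
  refine sum_le_sum fun y _ => ?_
  by_cases hy : E y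
  · have h1 := h y hy
    have h2 := cnt_split (fun _ : Z => True) (fun z => F (y, z))
    have h3 : cnt (fun _ : Z => True) = Fintype.card Z := by simp [cnt]
    simp only [true_and] at h2
    rw [← cnt_eq_sum (fun z => F (y, z))]
    simp only [hy, if_true, sum_const, card_univ, smul_eq_mul, mul_one]
    omega
  · simp [hy]

namespace Sys

variable {Y Z Q C : Type} [DecidableEq Y] [DecidableEq Z] [Fintype Y] [Fintype Z]
  (S : Sys (Y × Z) Q C)

/-- The invariant of the induction. -/
def Good (i n U : ℕ) (ω : (Y → Z) × (Bool → C → Bool)) : Prop :=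
  (∀ (k : Bool × Bool) (W : List (Bool × Y × Z)), W.length ≤ n → ∀ p : Y × Z ⊕ C,
    Sum.elim (fun _ => True) (fun c => S.lev (S.blk c) < i) p →
    cnt (fun m : Y × Z => S.cf (S.run W (S.act (k.1, m) (S.half k.2 ω m.1))) p ≠
      S.cf (S.run W (row ω.1, ω.2)) p) ≤ U) ∧
  ∀ q, S.lev q < i → ∀ β,
    cnt (fun m : Y × Z => S.ty q (S.half β ω m.1) ≠ S.ty q (row ω.1, ω.2)) ≤ U

theorem row_part (k : Bool × Bool) (W : List (Bool × Y × Z)) (ω : (Y → Z) × (Bool → C → Bool))
    (p : Y × Z) : cnt (fun m : Y × Z => S.cf (S.run W (S.act (k.1, m) (S.half k.2 ω m.1)))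
      (Sum.inl p) ≠ S.cf (S.run W (row ω.1, ω.2)) (Sum.inl p)) ≤ Fintype.card Z := by
  refine le_trans (cnt_mono fun m hm => ?_) (cnt_fst_eq p.1)
  by_contra hc
  apply hm
  refine S.run_fst W _ _ p ?_
  have h1 : p ≠ m := fun h => hc (by rw [h])
  have h2 : p ≠ (m.1, ω.1 m.1) := fun h => hc (by rw [h])
  show flp (flp (row ω.1) (m.1, ω.1 m.1)) m p = row ω.1 p
  rw [flp_ne _ h1, flp_ne _ h2]

theorem good_zero (n : ℕ) (ω : (Y → Z) × (Bool → C → Bool)) :
    S.Good 0 n (Fintype.card Z) ω :=
  ⟨fun k W _ p hp => by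
    cases p with
    | inl p => exact S.row_part k W ω p
    | inr c => exact absurd hp (Nat.not_lt_zero _),
  fun _ hq => absurd hq (Nat.not_lt_zero _)⟩

/-- The deterministic part of the induction step. -/
theorem good_succ (i n U τ : ℕ) (ω : (Y → Z) × (Bool → C → Bool)) (hU : Fintype.card Z ≤ U)
    (hw : 1 ≤ S.w) (hτ : S.w * U ≤ τ) (hZ : 2 * S.w ≤ Fintype.card Z)
    (hG : S.Good i (n + 2) U ω)
    (hT : ∀ (k : Bool × Bool) (W : List (Bool × Y × Z)), W.length ≤ n → ∀ q, S.lev q < i + 1 →
      cnt (fun m : Y × Z => S.ty q (S.run W (S.act (k.1, m) (S.half k.2 ω m.1))) ≠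
        S.ty q (S.run W (row ω.1, ω.2))) ≤ τ) :
    S.Good (i + 1) n ((n + 4) * τ) ω := by
  classical
  have hUτ : U ≤ τ := le_trans (Nat.le_mul_of_pos_left _ hw) hτ
  have hH : ∀ q, S.lev q < i + 1 → ∀ β,
      cnt (fun m : Y × Z => S.ty q (S.half β ω m.1) ≠ S.ty q (row ω.1, ω.2)) ≤ 2 * τ := by
    intro q hq β
    cases h0 : S.ty q (row ω.1, ω.2) with
    | true =>
      obtain ⟨T, t1, t2, t3⟩ := S.cert q _ h0
      have h1 : ∀ p ∈ T, cnt (fun m : Y × Z =>
          S.cf (S.half β ω m.1) p ≠ S.cf (row ω.1, ω.2) p) ≤ U := by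
        intro p hp
        cases p with
        | inl p =>
          refine le_trans (cnt_mono fun m hm => ?_) ((cnt_fst_eq p.1).trans hU)
          by_contra hc
          exact hm (flp_ne _ fun h => hc (by rw [h]))
        | inr c =>
          have := hG.1 (true, β) [] (by simp) (Sum.inr c)
            (by have := t2 _ hp; simp only [Sum.elim_inr] at this ⊢; omega)
          refine le_trans (le_of_eq (cnt_congr fun m => ?_)) this
          simp only [run, List.foldr_nil, cf, Sum.elim_inr, val_act]
      have h2 := cnt_exists_le T _ U h1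
      have h3 : cnt (fun m : Y × Z => S.ty q (S.half β ω m.1) ≠ true) ≤ _ :=
        le_trans (cnt_mono fun m hm => by
          by_contra hc
          push Not at hc
          exact hm (t3 _ hc)) h2
      have := Nat.mul_le_mul_right U t1
      omega
    | false =>
      have h1 := hT (true, β) [] (by simp) q hq
      refine le_trans (cnt_half (fun y => S.ty q (S.half β ω y) ≠ false) _ fun y hy => ?_)
        (Nat.mul_le_mul_left 2 h1)
      obtain ⟨T, t1, _, t3⟩ := S.cert q _ (by simpa using hy : S.ty q (S.half β ω y) = true)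
      have h2 := cnt_exists_le T (fun p (z : Z) => p = Sum.inl (y, z)) 1 fun p _ => by
        cases p with
        | inl p => exact cnt_le_one p.2 fun z hz => by cases hz; rfl
        | inr c => exact le_trans (le_of_le_of_eq (cnt_mono fun z hz => by cases hz) cnt_false)
                    (Nat.zero_le _)
      refine le_trans (Nat.mul_le_mul_left 2 (le_trans (cnt_mono fun z hz => ?_) h2)) (by omega)
      by_contra hc
      push Not at hc
      apply hz
      simp only [run, List.foldr_nil, h0]
      rw [ty, t3]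
      · simp
      · intro p hp
        cases p with
        | inl p => exact flp_ne _ fun h => hc _ hp (by rw [h])
        | inr c => simp only [cf, Sum.elim_inr, val_act]
  refine ⟨fun k W hW p hp => ?_, fun q hq β => (hH q hq β).trans (by nlinarith)⟩
  cases p with
  | inl p => exact (S.row_part k W ω p).trans (by nlinarith)
  | inr c =>
    have hq : S.lev (S.blk c) < i + 1 := hp
    have h1 := cnt_exists_le (range (n + 1)) (fun j (m : Y × Z) =>
      S.ty (S.blk c) (S.run (W.drop j) (S.act (k.1, m) (S.half k.2 ω m.1))) ≠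
        S.ty (S.blk c) (S.run (W.drop j) (row ω.1, ω.2))) τ fun j _ =>
      hT k _ (by rw [List.length_drop]; omega) _ hq
    have h2 := hH _ hq k.2
    rw [card_range] at h1
    refine le_trans (cnt_mono fun m hm => ?_) ((cnt_or _ _).trans
      ((Nat.add_le_add h1 h2).trans (by nlinarith)))
    by_contra hc
    push Not at hc
    obtain ⟨c1, c2⟩ := hc
    have c3 : ∀ j, S.ty (S.blk c) (S.run (W.drop j) (S.act (k.1, m) (S.half k.2 ω m.1))) =
        S.ty (S.blk c) (S.run (W.drop j) (row ω.1, ω.2)) := by
      intro j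
      by_cases hj : j < n + 1
      · exact c1 j (mem_range.2 hj)
      · have := c1 n (mem_range.2 (by omega))
        rw [List.drop_eq_nil_of_le hW] at this
        rw [List.drop_eq_nil_of_le (by omega)]
        exact this
    have c4 := c3 n
    rw [List.drop_eq_nil_of_le hW] at c4
    simp only [run, List.foldr_nil] at c4
    apply hm
    simp only [cf, Sum.elim_inr]
    have c0 := c3 0
    rw [List.drop_zero] at c0
    rw [S.val_eq, S.val_eq, c0]
    refine S.run_snd W _ _ c (fun β => ?_) c3 _
    rw [act_snd, c4, c2, half, act_snd, ← half, c2]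
    simp

theorem ideal [Fintype Q] [Fintype C] [DecidableEq C] [Nonempty Z] (μ : (Y → Z) × (Bool → C → Bool) → ℝ)
    (hμ : ∀ ω, 0 ≤ μ ω) (h1 : ∑ ω, μ ω ≤ 1) (hc : ∀ ω ω', μ ω = μ ω') (R D : ℕ) (hR : 1 ≤ R)
    (hw : 1 ≤ S.w) (hZ : 2 * S.w ≤ Fintype.card Z) (K : ℝ)
    (hK : (1 + 4 * (2 * Fintype.card (Y × Z) + 1) ^ (2 * D) * Fintype.card Q *
      (4 + 2 * Fintype.card (Y × Z)) : ℝ) ≤ K) (i : ℕ) (hi : i ≤ D) :
    pr μ (fun ω => ¬ S.Good i (2 * (D - i))
      (((2 * D + 4) * (44 * R ^ 2 * S.w)) ^ i * Fintype.card Z) ω) ≤ K ^ i * (1 / 2) ^ R := by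
  classical
  have hK1 : 1 ≤ K := le_trans (le_add_of_nonneg_right (by positivity)) hK
  induction i with
  | zero =>
    refine le_trans (le_of_le_of_eq (pr_mono hμ fun ω h => h ?_) pr_false) (by positivity)
    simpa using S.good_zero _ ω
  | succ i ih =>
    replace ih := ih (by omega)
    set a := (2 * D + 4) * (44 * R ^ 2 * S.w) with ha
    set U := a ^ i * Fintype.card Z with hU
    set n := 2 * (D - (i + 1)) with hn
    have hn2 : 2 * (D - i) = n + 2 := by omega
    rw [hn2] at ih
    have hZU : Fintype.card Z ≤ U := Nat.le_mul_of_pos_left _ (by positivity)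
    have hZ1 : 1 ≤ Fintype.card Z := Fintype.card_pos
    set τ := 22 * R ^ 2 * (S.w * (2 * U)) with hτ
    obtain ⟨ws, hws, hmem⟩ := exists_words (Bool × Y × Z) n
    have hone : ∀ x ∈ (univ : Finset (Bool × Bool)) ×ˢ ws ×ˢ (univ : Finset Q),
        pr μ (fun ω => S.lev x.2.2 < i + 1 ∧ τ < cnt (fun m : Y × Z =>
          S.ty x.2.2 (S.run x.2.1 (S.act (x.1.1, m) (S.half x.1.2 ω m.1))) ≠
            S.ty x.2.2 (S.run x.2.1 (row ω.1, ω.2)))) ≤
          (4 + 2 * Fintype.card (Y × Z) : ℝ) * (K ^ i * (1 / 2) ^ R) := by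
      rintro ⟨k, W, q⟩ hx
      have hW : W.length ≤ n := (hmem W).1 (mem_product.1 (mem_product.1 hx).2).1
      by_cases hlev : S.lev q < i + 1
      · have low : ∀ p : Y × Z ⊕ C, Sum.elim (fun _ => True)
            (fun c => S.lev (S.blk c) < S.lev q) p →
            Sum.elim (fun _ => True) (fun c => S.lev (S.blk c) < i) p := by
          intro p hp
          cases p with
          | inl p => trivial
          | inr c => simp only [Sum.elim_inr] at hp ⊢; omega
        have hs := step μ hμ h1 (S.mvE k) (fun ω m => by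
          rw [hc ω (S.mvE k (ω, m)).1]; linarith [hμ (S.mvE k (ω, m)).1]) (fun ω => S.cf (S.run W (row ω.1, ω.2))) (S.cert q) (2 * U) R
          (by omega) hw hR (S.Good i (n + 2) U)
          (fun ω hG p hp => by
            refine le_trans (le_of_eq (cnt_congr fun m => ?_))
              ((hG.1 k W (by omega) p (low p hp)).trans (by omega))
            rw [← S.emb_mv]; rfl)
          (fun ω hG p hp => by
            refine le_trans (le_of_eq (cnt_congr fun m => ?_))
              ((hG.1 k.swap W (by omega) p (low p hp)).trans (by omega))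
            rw [← S.emb_mv]; rfl)
          (fun ω hG m' p hp => by
            have h2 := hG.1 k (W ++ [(k.1, m'), (k.2, (m'.1, ω.1 m'.1))]) (by simp; omega) p
              (low p hp)
            refine le_trans (cnt_mono fun m hm => ?_) ((cnt_or _ _).trans
              ((Nat.add_le_add h2 (cnt_fst_eq (Z := Z) m'.1)).trans (by omega)))
            by_contra hcon
            push Not at hcon
            apply hm
            show S.cf (S.run W (row (S.mv k ((S.mv k (ω, m)).1, m')).1.1,
              (S.mv k ((S.mv k (ω, m)).1, m')).1.2)) p =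
              S.cf (S.run W (row (S.mv k (ω, m')).1.1, (S.mv k (ω, m')).1.2)) p
            rw [S.emb_mv, S.emb_mv, half, S.emb_mv]
            have e1 : (S.mv k (ω, m)).1.1 m'.1 = ω.1 m'.1 :=
              Function.update_of_ne (fun h => hcon.2 h.symm) _ _
            rw [e1]
            have := hcon.1
            simp only [run, List.foldr_append, List.foldr_cons, List.foldr_nil] at this
            exact this)
        refine le_trans (pr_mono hμ fun ω hω => ?_) (hs.trans ?_)
        · refine lt_of_lt_of_le hω.2 (le_of_eq (cnt_congr fun m => ?_))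
          rw [← S.emb_mv]; rfl
        · have k1 : (1 : ℝ) ≤ K ^ i := one_le_pow₀ hK1
          have k2 : (0 : ℝ) ≤ (1 / 2) ^ R := by positivity
          have k3 : (0 : ℝ) ≤ 3 + 2 * Fintype.card (Y × Z) := by positivity
          have k5 := mul_le_mul_of_nonneg_left ih k3
          nlinarith
      · exact le_trans (le_of_le_of_eq (pr_mono hμ fun x hx => hlev hx.1) pr_false)
          (by positivity)
    have hall := pr_exists_le hμ _ _ _ hone
    have hU' : (n + 4) * τ ≤ a ^ (i + 1) * Fintype.card Z := by
      have : a ^ (i + 1) * Fintype.card Z = (2 * D + 4) * τ := by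
        rw [hτ, hU, pow_succ]; generalize a ^ i = y; rw [ha]; ring
      rw [this]
      exact Nat.mul_le_mul_right _ (by omega)
    refine le_trans (pr_mono hμ fun ω hω => ?_) ((pr_or hμ _ _).trans
      ((add_le_add ih hall).trans ?_))
    · by_contra hcon
      push Not at hcon
      have hg := S.good_succ i n U τ ω hZU hw (by
        rw [hτ]
        exact le_trans (Nat.mul_le_mul_left _ (by omega))
          (Nat.le_mul_of_pos_left _ (by positivity))) hZ hcon.1
        (fun k W hW q hq => hcon.2 (k, W, q) (by simp [hmem, hW]) hq)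
      exact hω ⟨fun k W hW p hp => (hg.1 k W hW p hp).trans hU',
        fun q hq β => (hg.2 q hq β).trans hU'⟩
    · have c1 : (((univ : Finset (Bool × Bool)) ×ˢ ws ×ˢ (univ : Finset Q)).card : ℝ) ≤
          4 * (2 * Fintype.card (Y × Z) + 1) ^ (2 * D) * Fintype.card Q := by
        have : ws.card ≤ (2 * Fintype.card (Y × Z) + 1) ^ (2 * D) := by
          refine hws.trans (le_trans (le_of_eq (by simp))
            (Nat.pow_le_pow_right (n := 2 * Fintype.card (Y × Z) + 1) (by omega)
              (show n ≤ 2 * D by omega)))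
        have h3 : ((univ : Finset (Bool × Bool)) ×ˢ ws ×ˢ (univ : Finset Q)).card ≤
            4 * (2 * Fintype.card (Y × Z) + 1) ^ (2 * D) * Fintype.card Q := by
          rw [card_product, card_product, card_univ, card_univ, mul_assoc]
          exact Nat.mul_le_mul (by simp) (Nat.mul_le_mul_right _ this)
        exact_mod_cast h3
      have c2 : (0 : ℝ) ≤ K ^ i * (1 / 2) ^ R := by positivity
      have c3 := mul_le_mul_of_nonneg_right c1
        (show (0 : ℝ) ≤ (4 + 2 * Fintype.card (Y × Z)) * (K ^ i * (1 / 2) ^ R) by positivity)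
      have c4 := mul_le_mul_of_nonneg_right hK c2
      rw [pow_succ K, mul_comm (K ^ i) K, mul_assoc K]
      nlinarith

end Sys

end Pool.Agent.Lib.MP_2733b3_lc
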