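import Pool.Agent.Lib.MP_2733b3_lc.Sys

/-! Plain and cascading flips of row bits, words in them, and relocation moves. -/

set_option autoImplicit false

namespace Pool.Agent.Lib.MP_2733b3_lc

open Finset

theorem exists_words (L : Type) [Fintype L] (n : ℕ) : ∃ s : Finset (List L),
    s.card ≤ (Fintype.card L + 1) ^ n ∧ ∀ W : List L, W ∈ s ↔ W.length ≤ n := by
  classical
  induction n with
  | zero => exact ⟨{[]}, by simp, fun W => by simp⟩
  | succ n ih =>
    obtain ⟨s, h0, hs⟩ := ih
    refine ⟨insert [] ((univ ×ˢ s).image fun p : L × List L => p.1 :: p.2), ?_, fun W => ?_⟩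
    · refine (card_insert_le _ _).trans ?_
      have h1 := card_image_le (s := (univ : Finset L) ×ˢ s)
        (f := fun p : L × List L => p.1 :: p.2)
      rw [card_product, card_univ] at h1
      have h2 : 1 ≤ (Fintype.card L + 1) ^ n := Nat.one_le_pow _ _ (by omega)
      have h3 := Nat.mul_le_mul_left (Fintype.card L) h0
      have h4 : (Fintype.card L + 1) ^ (n + 1) =
        Fintype.card L * (Fintype.card L + 1) ^ n + (Fintype.card L + 1) ^ n := by ring
      omega
    · cases W with
      | nil => simp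
      | cons a W => simp [hs]

namespace Sys

variable {P Q C : Type} [DecidableEq P] (S : Sys P Q C)

/-- Flip a plain bit; with flag `true` the samples are exchanged so that the cells keep their
values. -/
noncomputable def act (l : Bool × P) (σ : (P → Bool) × (Bool → C → Bool)) :
    (P → Bool) × (Bool → C → Bool) :=
  (flp σ.1 l.2, fun β c => σ.2 (xor β (l.1 && xor (S.ty (S.blk c) σ)
    (S.b (S.blk c) (Sum.elim (flp σ.1 l.2) (S.val σ))))) c)

theorem val_act (p : P) (σ : (P → Bool) × (Bool → C → Bool)) :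
    S.val (S.act (true, p) σ) = S.val σ := by
  refine S.val_unique _ _ fun c => ?_
  rw [S.val_eq]
  simp only [act, Bool.true_and]
  congr 1
  generalize S.ty (S.blk c) σ = x
  generalize S.b (S.blk c) (Sum.elim (flp σ.1 p) (S.val σ)) = y
  cases x <;> cases y <;> rfl

theorem act_false (p : P) (σ : (P → Bool) × (Bool → C → Bool)) :
    S.act (false, p) σ = (flp σ.1 p, σ.2) := by simp [act]

theorem act_snd (l : Bool × P) (σ : (P → Bool) × (Bool → C → Bool)) (β : Bool) (c : C) :
    (S.act l σ).2 β c =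
      σ.2 (xor β (l.1 && xor (S.ty (S.blk c) σ) (S.ty (S.blk c) (S.act l σ)))) c := by
  obtain ⟨k, p⟩ := l
  cases k
  · simp [act]
  · have : S.ty (S.blk c) (S.act (true, p) σ) =
        S.b (S.blk c) (Sum.elim (flp σ.1 p) (S.val σ)) := by
      rw [ty, cf, val_act]; rfl
    rw [this]; rfl

theorem act_act (l : Bool × P) (σ : (P → Bool) × (Bool → C → Bool)) :
    S.act l (S.act l σ) = σ := by
  have h1 : (S.act l (S.act l σ)).1 = σ.1 := flp_flp _ _
  obtain ⟨k, p⟩ := l
  cases k
  · rw [act_false, act_false, flp_flp]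
  · refine Prod.ext h1 (funext fun β => funext fun c => ?_)
    have h2 : S.ty (S.blk c) (S.act (true, p) (S.act (true, p) σ)) = S.ty (S.blk c) σ := by
      rw [ty, cf, val_act, val_act, h1]; rfl
    rw [act_snd, act_snd, h2]
    congr 1
    generalize S.ty (S.blk c) σ = x
    generalize S.ty (S.blk c) (S.act (true, p) σ) = y
    cases x <;> cases y <;> cases β <;> rfl

/-- Apply a word of flips, last letter first. -/
noncomputable def run (W : List (Bool × P)) (σ : (P → Bool) × (Bool → C → Bool)) :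
    (P → Bool) × (Bool → C → Bool) := W.foldr S.act σ

theorem run_fst (W : List (Bool × P)) (σ σ' : (P → Bool) × (Bool → C → Bool)) (p : P)
    (h : σ.1 p = σ'.1 p) : (S.run W σ).1 p = (S.run W σ').1 p := by
  induction W with
  | nil => exact h
  | cons l W ih =>
    show flp (S.run W σ).1 l.2 p = flp (S.run W σ').1 l.2 p
    by_cases hp : p = l.2
    · subst hp; simp [flp, ih]
    · rw [flp_ne _ hp, flp_ne _ hp, ih]

theorem run_snd (W : List (Bool × P)) (σ σ' : (P → Bool) × (Bool → C → Bool)) (c : C)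
    (h : ∀ β, σ.2 β c = σ'.2 β c)
    (ht : ∀ j, S.ty (S.blk c) (S.run (W.drop j) σ) = S.ty (S.blk c) (S.run (W.drop j) σ')) :
    ∀ β, (S.run W σ).2 β c = (S.run W σ').2 β c := by
  induction W with
  | nil => exact h
  | cons l W ih =>
    intro β
    have h0 := ht 0
    have h1 := ht 1
    have h2 := ih fun j => ht (j + 1)
    show (S.act l (S.run W σ)).2 β c = (S.act l (S.run W σ')).2 β c
    rw [act_snd, act_snd, h2]
    simp only [List.drop_zero, List.drop_succ_cons] at h0 h1
    rw [h1]
    exact congrArg (fun t => (S.run W σ').2 (xor β (l.1 && xor _ t)) c) h0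

end Sys

/-- Rows with exactly one zero. -/
def row {Y Z : Type} [DecidableEq Z] (a : Y → Z) : Y × Z → Bool := fun p => decide (p.2 ≠ a p.1)

theorem row_update {Y Z : Type} [DecidableEq Y] [DecidableEq Z] (a : Y → Z) (y : Y) (z : Z) :
    row (Function.update a y z) = flp (flp (row a) (y, a y)) (y, z) := by
  funext ⟨y', z'⟩
  by_cases hy : y' = y
  · subst hy
    by_cases h1 : z' = z
    · subst h1
      by_cases h2 : z' = a y'
      · rw [← h2, flp_flp]; simp [row, ← h2]
      · simp [flp, row, h2]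
    · by_cases h2 : z' = a y'
      · subst h2; simp [flp, row, h1]
      · simp [flp, row, h1, h2]
  · simp [flp, row, hy]

namespace Sys

variable {Y Z Q C : Type} [DecidableEq Y] [DecidableEq Z] (S : Sys (Y × Z) Q C)

/-- Take the zero out of row `y`. -/
noncomputable def half (β : Bool) (ω : (Y → Z) × (Bool → C → Bool)) (y : Y) :
    (Y × Z → Bool) × (Bool → C → Bool) := S.act (β, (y, ω.1 y)) (row ω.1, ω.2)

/-- Move the zero of row `y` to `z`. -/
noncomputable def mv (k : Bool × Bool) (p : ((Y → Z) × (Bool → C → Bool)) × (Y × Z)) :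
    ((Y → Z) × (Bool → C → Bool)) × (Y × Z) :=
  ((Function.update p.1.1 p.2.1 p.2.2, (S.act (k.1, p.2) (S.half k.2 p.1 p.2.1)).2),
    (p.2.1, p.1.1 p.2.1))

theorem emb_mv (k : Bool × Bool) (ω : (Y → Z) × (Bool → C → Bool)) (m : Y × Z) :
    (row (S.mv k (ω, m)).1.1, (S.mv k (ω, m)).1.2) = S.act (k.1, m) (S.half k.2 ω m.1) :=
  Prod.ext (row_update ω.1 m.1 m.2) rfl

theorem mv_mv (k : Bool × Bool) (p : ((Y → Z) × (Bool → C → Bool)) × (Y × Z)) :
    S.mv k.swap (S.mv k p) = p := by
  obtain ⟨ω, m⟩ := p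
  have h1 : S.half k.1 (S.mv k (ω, m)).1 m.1 = S.half k.2 ω m.1 := by
    rw [half, emb_mv]
    have : (S.mv k (ω, m)).1.1 m.1 = m.2 := by simp [mv]
    rw [this, act_act]
  refine Prod.ext (Prod.ext ?_ ?_) ?_
  · simp [mv]
  · show (S.act (k.2, (m.1, ω.1 m.1)) (S.half k.1 (S.mv k (ω, m)).1 m.1)).2 = ω.2
    rw [h1, half, act_act]
  · simp [mv]

/-- The move as a bijection. -/
noncomputable def mvE (k : Bool × Bool) : ((Y → Z) × (Bool → C → Bool)) × (Y × Z) ≃
    ((Y → Z) × (Bool → C → Bool)) × (Y × Z) :=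
  ⟨S.mv k, S.mv k.swap, S.mv_mv k, fun p => by simpa using S.mv_mv k.swap p⟩

end Sys

end Pool.Agent.Lib.MP_2733b3_lc
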