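import Pool.Agent.Lib.MP_2733b3_lc.ECore

/-! Numerical bounds for the two kinds of steps. -/

set_option autoImplicit false

namespace Pool.Agent.Lib.MP_2733b3_lc

namespace EX

theorem lin_le (m : ℕ) (hm : 60 ≤ m) : 20 * m * m + 1 ≤ 2 ^ m :=
  le_trans (by nlinarith [Nat.mul_le_mul hm hm]) (cube_le m (by omega))

theorem gates_le (c m j : ℕ) (hc : c ≤ 2 ^ (3 * m)) :
    c * (3 ^ 2 ^ m + 1) ^ j + 1 ≤ 2 ^ (3 * m + (2 * 2 ^ m + 1) * j + 1) := by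
  have h1 : 3 ^ 2 ^ m ≤ 2 ^ (2 * 2 ^ m) := by
    rw [pow_mul]; exact Nat.pow_le_pow_left (by norm_num) _
  exact p2_add (p2_mul hc (p2_pow (p2_add h1 Nat.one_le_two_pow) j)) Nat.one_le_two_pow

theorem num_t2 (c m : ℕ) (hm : 60 ≤ m) (hc : c ≤ 2 ^ (3 * m)) :
    16 * ((c * (44 * (2 ^ (4 * m)) ^ 2 * 2 ^ m) ^ (m + 2) : ℕ) : ℝ) ^ 2 * sig (m ^ 3) ≤ 1 / 2 := by
  have h1 : 44 ≤ 2 ^ m := le_trans (by norm_num) (Nat.pow_le_pow_right two_pos hm)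
  have h2 : c * (44 * (2 ^ (4 * m)) ^ 2 * 2 ^ m) ^ (m + 2) ≤
      (44 * (2 ^ (4 * m)) ^ 2 * 2 ^ (3 * m)) ^ (m + 2) := by
    rw [show 3 * m = m + 2 * m by ring, pow_add 2 m, ← mul_assoc, mul_pow _ (2 ^ (2 * m)),
      mul_comm c, ← pow_mul 2 (2 * m)]
    exact Nat.mul_le_mul_left _ (p2_le hc (by nlinarith))
  refine le_trans ?_ (num_t m hm)
  have h5 := (RT.sig_pos (m ^ 3)).le
  gcongr

theorem num_K2' (c m : ℕ) (hm : 60 ≤ m) (hc : c ≤ 2 ^ (3 * m)) :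
    ((c * (3 ^ 2 ^ m + 1) ^ m + 1 : ℕ) : ℝ) * (1 + (3 + 2 * Fintype.card (Var (m ^ 3))) *
      (1 + 3 * Fintype.card (Var (m ^ 3))) : ℝ) ≤ 2 ^ (3 * (2 ^ m) ^ 2) := by
  have h1 : ((c * (3 ^ 2 ^ m + 1) ^ m + 1 : ℕ) : ℝ) ≤ 2 ^ (3 * m + (2 * 2 ^ m + 1) * m + 1) := by
    exact_mod_cast gates_le c m m hc
  have h3 : (1 : ℝ) ≤ 2 ^ m ^ 3 := one_le_pow₀ (by norm_num)
  have h4 : (Fintype.card (Var (m ^ 3)) : ℝ) = 2 * 2 ^ m ^ 3 := by simp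
  have h5 : (1 + (3 + 2 * (2 * 2 ^ m ^ 3)) * (1 + 3 * (2 * 2 ^ m ^ 3)) : ℝ) ≤
      2 ^ (m ^ 3 * 2 + 7) := by
    rw [pow_add, pow_mul]; nlinarith
  rw [h4]
  refine (mul_le_mul h1 h5 (by positivity) (by positivity)).trans ?_
  rw [← pow_add]
  refine pow_le_pow_right₀ (by norm_num) ?_
  have hl := cube_le m (by omega)
  have b1 : m ≤ 2 ^ m := Nat.lt_two_pow_self.le
  generalize 2 ^ m = T at hl b1 ⊢
  nlinarith

theorem num_p2 (m c : ℕ) (hm : 60 ≤ m) (hc : c ≤ 2 ^ (3 * m)) :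
    8 * (32 * (Fintype.card (Var (m ^ 3)) : ℝ) ^ 3 *
      ((2 ^ (3 * (2 ^ m) ^ 2)) ^ (m + 2) * (1 / 2) ^ 2 ^ (4 * m)) +
      1 / 2 ^ (3 * 2 ^ (3 * m) + 5) + Real.exp (2 - 1 / (4096 * sig (m ^ 3)))) < 1 / 8 ^ c := by
  obtain ⟨M, hM⟩ : ∃ M : ℕ, M = 2 ^ (3 * m) := ⟨_, rfl⟩
  have hM1 : 2 ≤ M := hM ▸ Nat.one_lt_two_pow (by omega)
  have hl := cube_le m (by omega)
  have a1 : 32 * (Fintype.card (Var (m ^ 3)) : ℝ) ^ 3 *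
      ((2 ^ (3 * (2 ^ m) ^ 2)) ^ (m + 2) * (1 / 2) ^ 2 ^ (4 * m)) ≤ 1 / 2 ^ (3 * M + 5) := by
    have h4 : (Fintype.card (Var (m ^ 3)) : ℝ) = 2 ^ (m ^ 3 + 1) := by simp [pow_succ']
    have h5 : 5 + (m ^ 3 + 1) * 3 + 3 * (2 ^ m) ^ 2 * (m + 2) + (3 * M + 5) ≤ 2 ^ (4 * m) := by
      have b1 : m + 2 ≤ 2 ^ m := le_trans (by nlinarith [Nat.mul_le_mul hm hm]) hl
      rw [hM, mul_comm 3 m, mul_comm 4 m, pow_mul, pow_mul]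
      generalize 2 ^ m = T at hl b1 ⊢
      generalize m ^ 3 = l at hl ⊢
      have b2 : 3 * T ^ 2 * (m + 2) ≤ 3 * T ^ 2 * T := Nat.mul_le_mul_left _ b1
      have b3 : 60 ≤ T := by omega
      have b4 : 60 * T ^ 3 ≤ T ^ 4 := by rw [pow_succ' T 3]; exact Nat.mul_le_mul_right _ b3
      have b5 : 60 * T ^ 2 ≤ T ^ 3 := by rw [pow_succ' T 2]; exact Nat.mul_le_mul_right _ b3
      nlinarith
    rw [h4, one_div_pow, ← pow_mul, ← pow_mul, show (32 : ℝ) = 2 ^ 5 by norm_num, ← pow_add,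
      mul_one_div, ← mul_div_assoc, ← pow_add, div_le_div_iff₀ (by positivity) (by positivity),
      ← pow_add, one_mul]
    exact pow_le_pow_right₀ (by norm_num) h5
  have a2 : Real.exp (2 - 1 / (4096 * sig (m ^ 3))) ≤ 1 / 2 ^ (3 * M + 5) := by
    have h1 := sig_le (m ^ 3) (3 * m + 15) (by nlinarith [Nat.mul_le_mul hm hm])
    have h2 := RT.sig_pos (m ^ 3)
    have h3 : (2 : ℝ) ^ (3 * m + 15) = M * 32768 := by rw [hM, pow_add]; norm_num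
    have h4 : (2 : ℝ) ≤ M := by exact_mod_cast hM1
    rw [h3, le_div_iff₀ (by positivity)] at h1
    have h5 : 8 * (M : ℝ) ≤ 1 / (4096 * sig (m ^ 3)) := by
      rw [le_div_iff₀ (by positivity)]; linarith
    have h6 := RT.two_pow_le_exp (3 * M + 5)
    rw [le_div_iff₀ (by positivity)]
    refine (mul_le_mul_of_nonneg_left h6 (Real.exp_pos _).le).trans ?_
    rw [← Real.exp_add]
    refine Real.exp_le_one_iff.2 ?_
    push_cast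
    linarith
  have a3 : (8 : ℝ) ^ c ≤ 2 ^ (3 * M) := by
    rw [pow_mul, show (2 : ℝ) ^ 3 = 8 by norm_num]
    exact pow_le_pow_right₀ (by norm_num) (hM ▸ hc)
  rw [← hM, lt_div_iff₀ (by positivity)]
  calc _ ≤ (8 * (3 * (1 / 2 ^ (3 * M + 5)))) * (2 : ℝ) ^ (3 * M) :=
        mul_le_mul (by linarith) a3 (by positivity) (by positivity)
    _ = 3 / 4 := by rw [pow_add]; field_simp; norm_num
    _ < 1 := by norm_num

theorem num_u (c m D : ℕ) (hm : 60 ≤ m) (hc : c ≤ 2 ^ (3 * m)) (h1 : 1 ≤ D) (hD : D ≤ m) :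
    2 * (c * ((2 * D + 4) * (44 * (2 ^ (5 * m)) ^ 2 * 2 ^ m)) ^ D) ≤ 2 ^ (20 * m * D) := by
  have a1 : 44 ≤ 2 ^ m := le_trans (by norm_num) (Nat.pow_le_pow_right two_pos hm)
  have a2 : 2 * D + 4 ≤ 2 ^ m := le_trans (by nlinarith) (lin_le m hm)
  exact p2_le (p2_mul (i := 1) le_rfl (p2_mul hc (p2_pow (p2_mul a2
    (p2_mul (p2_mul a1 (p2_pow le_rfl 2)) le_rfl)) D))) (by nlinarith)

theorem num_K4 (c m j n : ℕ) (hm : 60 ≤ m) (hc : c ≤ 2 ^ (3 * m)) (hj : j + 2 ≤ m)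
    (hn : n ≤ 2 ^ m) : 2 + 4 * (2 * (2 ^ n * 2 ^ n) + 1) ^ (2 * (j + 2)) *
      (c * (3 ^ 2 ^ m + 1) ^ j + 1) * (4 + 2 * (2 ^ n * 2 ^ n)) ≤ 2 ^ (7 * (2 ^ m) ^ 2) := by
  have a1 : 2 * (2 ^ n * 2 ^ n) ≤ 2 ^ (2 * n + 2) :=
    p2_le (p2_mul (i := 1) le_rfl (p2_mul le_rfl le_rfl)) (by omega)
  have a2 : 4 ≤ 2 ^ (2 * n + 2) := p2_le (i := 2) le_rfl (by omega)
  refine p2_le (p2_add (p2_le (i := 1) le_rfl (by omega)) (p2_mul (p2_mul (p2_mul (i := 2) le_rfl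
    (p2_pow (p2_add a1 Nat.one_le_two_pow) _)) (gates_le c m j hc)) (p2_add a2 a1))) ?_
  have b1 := lin_le m hm
  generalize 2 ^ m = T at hn b1 ⊢
  have b2 : (2 * n + 2 + 1) * (2 * (j + 2)) ≤ (2 * T + 3) * (2 * m) :=
    Nat.mul_le_mul (by omega) (by omega)
  have b3 : (2 * T + 1) * j ≤ (2 * T + 1) * m := Nat.mul_le_mul_left _ (by omega)
  have b4 : 60 * m ≤ T := by nlinarith
  nlinarith

theorem num_eta (c m j n : ℕ) (hm : 60 ≤ m) (hc : c ≤ 2 ^ (3 * m)) (hj : j + 2 ≤ m)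
    (hn : n ≤ 2 ^ m) : (((2 : ℝ) ^ (7 * (2 ^ m) ^ 2)) ^ (j + 2) * (1 + 2 * 2 ^ n)) ^ (j + 1) *
      (1 / 2) ^ 2 ^ (5 * m) ≤ 1 / 8 ^ c / 2 := by
  have a1 : ((2 ^ (7 * (2 ^ m) ^ 2)) ^ (j + 2) * (1 + 2 * 2 ^ n)) ^ (j + 1) * (8 ^ c * 2) ≤
      2 ^ 2 ^ (5 * m) := by
    refine p2_le (p2_mul (p2_pow (p2_mul (p2_pow le_rfl _) (p2_add Nat.one_le_two_pow
      (p2_mul (i := 1) le_rfl le_rfl))) _) (p2_mul (p2_pow (i := 3) le_rfl c) (j := 1) le_rfl)) ?_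
    have b1 : m ≤ 2 ^ m := Nat.lt_two_pow_self.le
    rw [mul_comm 3 m, pow_mul] at hc
    rw [mul_comm 5 m, pow_mul]
    generalize 2 ^ m = T at hn b1 hc ⊢
    have b3 : 60 ≤ T := by omega
    have b2 : (7 * T ^ 2 * (j + 2) + (1 + n + 1)) * (j + 1) ≤ (7 * T ^ 2 * T + (T + 2)) * T :=
      Nat.mul_le_mul (Nat.add_le_add (Nat.mul_le_mul_left _ (by omega)) (by omega)) (by omega)
    have b4 : 60 * T ^ 3 ≤ T ^ 4 := by rw [pow_succ' T 3]; exact Nat.mul_le_mul_right _ b3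
    have b5 : 60 * T ^ 2 ≤ T ^ 3 := by rw [pow_succ' T 2]; exact Nat.mul_le_mul_right _ b3
    have b6 : 60 * T ^ 4 ≤ T ^ 5 := by rw [pow_succ' T 4]; exact Nat.mul_le_mul_right _ b3
    nlinarith
  rw [one_div_pow, mul_one_div, div_div, div_le_div_iff₀ (by positivity) (by positivity), one_mul]
  exact_mod_cast a1

end EX

end Pool.Agent.Lib.MP_2733b3_lc
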