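import Pool.Agent.Lib.MP_2733b3_lc.PTree
import Pool.Agent.Lib.MP_2733b3_lc.PNum

/-! An oracle with planted instances and diagonal steps. -/

set_option autoImplicit false

namespace Pool.Agent.Lib.MP_2733b3_lc

open Finset

namespace EX

/-- The names of the rows used at a step. -/
abbrev ZZ (m j : ℕ) := Fin (20 * m * (j + 2) + 1) → Bool

/-- The string of a leaf. -/
def el (m j : ℕ) (p : ZZ m j × ZZ m j × Leaf (ZZ m j) j) : List Bool :=
  rowc (List.ofFn p.1) (code (lf (j + 1) p.2))

theorem el_inj (m j : ℕ) : Function.Injective (el m j) := by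
  rintro ⟨y, z⟩ ⟨y', z'⟩ h
  have := code_injective h
  simp only [List.cons.injEq, and_true, true_and] at this
  rw [List.ofFn_injective this.1, lf_injective (j + 1) (code_injective this.2)]

theorem el_long (m j : ℕ) (p : ZZ m j × ZZ m j × Leaf (ZZ m j) j) : m < (el m j p).length := by
  have : m ≤ 20 * m * (j + 2) := by nlinarith
  simp only [el, rowc, length_code, List.map_cons, List.sum_cons, List.length_ofFn]
  omega

variable (m j : ℕ → ℕ) (r N : ℕ)

/-- The random data of an item. -/
def T0 : BI r N ⊕ Fin N → Type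
  | .inl i => Var (i.1.1.1.length ^ 3) → Bool
  | .inr t => (ZZ (m t) (j t) → ZZ (m t) (j t) → Ptr (ZZ (m t) (j t)) (j t)) ×
      (ZZ (m t) (j t) → ZZ (m t) (j t))

/-- The chosen data of an item. -/
def T1 : BI r N ⊕ Fin N → Type
  | .inl i => Var (i.1.1.1.length ^ 3) → Bool
  | .inr t => T0 m j r N (.inr t) × Option (ZZ (m t) (j t))

noncomputable instance : ∀ i, Fintype (T0 m j r N i)
  | .inl _ => inferInstanceAs (Fintype (Var _ → Bool))
  | .inr _ => inferInstanceAs (Fintype (_ × _))

instance : ∀ i, Nonempty (T0 m j r N i)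
  | .inl _ => inferInstanceAs (Nonempty (Var _ → Bool))
  | .inr _ => inferInstanceAs (Nonempty (_ × _))

/-- All strings that are set. -/
def ee : (Σ i : BI r N, Var (i.1.1.1.length ^ 3)) ⊕ (Σ t : Fin N,
    ZZ (m t) (j t) × ZZ (m t) (j t) × Leaf (ZZ (m t) (j t)) (j t)) → List Bool :=
  Sum.elim (em r N) fun c => el _ _ c.2

/-- The oracle. -/
noncomputable def orc (A0 : List Bool → Bool) (X : ∀ i, T1 m j r N i) : List Bool → Bool :=
  Function.extend (ee m j r N) (Sum.elim (fun c => X (.inl c.1) c.2)
    fun c => lv (X (.inr c.1)).1 (X (.inr c.1)).2 c.2) A0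

variable {m j} (h60 : ∀ t, 60 ≤ m t) (hj : ∀ t, j t + 2 ≤ m t) (hm : ∀ t t', t < t' → 2 ^ m t < m t')
include h60 hj hm

theorem ee_inj : Function.Injective (ee m j r N) := by
  have key : ∀ t t', t < t' → 20 * m t * (j t + 2) < 20 * m t' * (j t' + 2) := by
    intro t t' h
    have h1 := lin_le (m t) (h60 t)
    have h2 := Nat.mul_le_mul_left (20 * m t) (hj t)
    have h3 := hm t t' h
    nlinarith
  rintro (c | ⟨t, p⟩) (c' | ⟨t', p'⟩) h
  · rw [em_inj r N h]
  · simpa using code_injective h
  · simpa using code_injective h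
  · have h1 := code_injective h
    simp only [List.cons.injEq, and_true, true_and] at h1
    have h2 := congrArg List.length h1.1
    rw [List.length_ofFn, List.length_ofFn] at h2
    obtain rfl : t = t' := Fin.ext (by
      rcases lt_trichotomy (t : ℕ) t' with h | h | h
      exacts [absurd (key _ _ h) (by omega), h, absurd (key _ _ h) (by omega)])
    obtain rfl : p = p' := el_inj _ _ h
    rfl

theorem fin_core2 (o : List Bool → (List Bool → Bool) → Bool)
    (ho : ∀ u, Cert (2 ^ u.length) (fun s : List Bool => s.length ≤ 2 ^ u.length) (o u))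
    (γ : ℕ → List (List Bool) → (List Bool → Bool) → Bool)
    (hγ : ∀ t, TV (j t) (2 ^ m t) (2 ^ m t) (fun s : List Bool => s.length ≤ 2 ^ m t) (γ t))
    (hr : r ≤ 2 ^ 17) :
    ∃ A, HelpOK A ∧ (∀ u : List Bool, 60 ≤ u.length → u.length ≤ N →
      ∀ i < r, good (o u A) (inst A u (u.length ^ 3) i)) ∧ ∀ t < N, ∃ π w,
        (∀ p, A (el (m t) (j t) p) = lv π w p) ∧ γ t [] A = w.isNone ∧
          ∀ y, w = some y → y 0 = true := by
  classical
  obtain ⟨A0, hA0⟩ := exists_help
  have hi := ee_inj r N h60 hj hm
  let lev : BI r N ⊕ Fin N → ℕ := Sum.elim (fun i => i.1.1.1.length) fun t => m t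
  let jq : BI r N ⊕ Fin N → ℕ := Sum.elim (fun _ => 0) fun t => j t
  let tr : BI r N ⊕ Fin N → List (List Bool) → (List Bool → Bool) → Bool :=
    Sum.elim (fun i _ => o i.1.1.1) fun t => γ t
  have htr : ∀ q, TV (jq q) (2 ^ lev q) (2 ^ lev q) (fun s : List Bool => s.length ≤ 2 ^ lev q)
      (tr q) := by
    rintro (i | t)
    exacts [TV.of_cert (ho _), hγ t]
  have hlev : ∀ q, 60 ≤ lev q ∧ jq q ≤ lev q := by
    rintro (i | t)
    exacts [⟨i.1.2, Nat.zero_le _⟩, ⟨h60 t, (Nat.le_add_right _ 2).trans (hj t)⟩]
  have hle : ∀ t, t ≤ m t := fun t => by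
    induction t with
    | zero => exact Nat.zero_le _
    | succ t ih => exact lt_of_le_of_lt (ih.trans Nat.lt_two_pow_self.le) (hm t _ (by omega))
  have hcard : ∀ (k : ℕ) (s : Finset (BI r N ⊕ Fin N)), 60 ≤ k → (∀ q ∈ s, lev q ≤ k) →
      s.card ≤ 2 ^ (3 * k) := by
    intro k s hk hs
    have h1 := card_le_card_of_injOn (s := s) (Sum.map (fun i : BI r N => (i.1.1.1, i.2))
      fun t : Fin N => (t : ℕ)) (t := ((univ.image fun c : Sh k => c.1) ×ˢ univ).disjSum
        (range (k + 1))) (by
        rintro (i | t) h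
        · simpa [lev] using hs _ h
        · simpa [Nat.lt_succ_iff] using (hle t).trans (hs _ h))
      (Function.Injective.injOn (Function.Injective.sumMap (fun i i' h => by
        simp only [Prod.mk.injEq] at h
        exact Prod.ext (Subtype.ext (Subtype.ext h.1)) h.2) Fin.val_injective))
    rw [card_disjSum, card_product, card_univ, Fintype.card_fin, card_range] at h1
    have h2 : (univ.image fun c : Sh k => c.1).card ≤ 2 ^ (2 * k) := by
      rw [pow_mul]
      exact card_image_le.trans ((card_Sh k).trans (Nat.pow_le_pow_left (by norm_num) k))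
    have h3 : k + 1 ≤ 2 ^ (2 * k + 17) := p2_le Nat.lt_two_pow_self (by omega)
    exact p2_le (h1.trans (p2_add (p2_mul h2 hr) h3)) (by omega)
  obtain ⟨X, hX⟩ := process (T0 := T0 m j r N) (T := T1 m j r N)
    (fun i => match i with | .inl _ => id | .inr _ => fun π => (π, none)) lev
    (fun q X => tr q [] (orc m j r N A0 X))
    (fun i => match i with
      | .inl _ => good
      | .inr _ => fun β x => β = x.2.isNone ∧ ∀ y, x.2 = some y → y 0 = true) (by
    intro q s hq hs a ρ hp
    have hs' : ∀ q' ∈ insert q s, lev q' ≤ lev q := by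
      rw [forall_mem_insert]; exact ⟨le_rfl, hs⟩
    have c1 := hcard _ s (hlev q).1 hs
    have c2 := hcard _ _ (hlev q).1 hs'
    rw [← Fintype.card_coe] at c2
    have c3 : ∀ q' ∈ insert q s, TV (jq q') (2 ^ lev q) (2 ^ lev q)
        (fun s : List Bool => s.length ≤ 2 ^ lev q) (tr q') := fun q' h =>
      have := Nat.pow_le_pow_right two_pos (hs' q' h)
      (htr q').mono this this fun _ h => h.trans this
    rcases q with i | t
    · have key := plant2 (i.1.1.1.length ^ 3) (fun β X x => decide
        ((∀ q ∈ s, tr q [] (orc m j r N A0 (Function.update (ρ X) (.inl i) x)) = a q) ∧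
          tr (.inl i) [] (orc m j r N A0 (Function.update (ρ X) (.inl i) x)) = β)) _ _ _ _
        (by positivity) (num_t2 _ _ i.1.2 c2) (fun β X z hz => tail3 (2 ^ lev (.inl i))
          (lev (.inl i)) Nat.one_le_two_pow (fun q : ↥(insert (Sum.inl i) s) => tr q)
          (fun q => jq q) (fun q => (hlev q).2.trans (hs' q q.2)) (fun q => c3 q q.2)
          (fun x => orc m j r N A0 (Function.update (ρ X) (.inl i) x)) (fun x p => ?_) _
          (fun x x' h => ?_) _ Nat.one_le_two_pow _ (one_le_pow₀ one_le_two)
          (num_K2' _ _ i.1.2 c2) z hz) (num_p2 _ _ i.1.2 c1)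
        (hp.trans (up_mono fun p h => by
          simp only [decide_eq_true_eq]
          rcases Bool.eq_false_or_eq_true (tr (.inl i) []
            (orc m j r N A0 (Function.update (ρ p.1) (.inl i) p.2))) with h1 | h1
          exacts [Or.inl ⟨h, h1⟩, Or.inr ⟨h, h1⟩]))
      · obtain ⟨β, x, h1, h2⟩ := key
        exact ⟨β, x, h1, by simpa only [decide_eq_true_eq] using h2⟩
      · have hv : Function.Injective fun v => em r N ⟨i, v⟩ := fun v v' h => by
          simpa using em_inj r N h
        have e0 : ∀ x : T1 m j r N (.inl i), orc m j r N A0 (Function.update (ρ X) (.inl i) x) p =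
            Function.extend (fun v => em r N ⟨i, v⟩) x (orc m j r N A0 (ρ X)) p := by
          intro x
          by_cases h0 : ∃ v, em r N ⟨i, v⟩ = p
          · obtain ⟨v, rfl⟩ := h0
            refine Eq.trans ?_ (hv.extend_apply _ _ v).symm
            exact (hi.extend_apply _ _ (.inl ⟨i, v⟩)).trans (by simp)
          refine Eq.trans ?_ (Function.extend_apply' _ _ _ h0).symm
          by_cases h1 : ∃ c, ee m j r N c = p
          · obtain ⟨⟨k, v⟩ | ⟨t, c⟩, rfl⟩ := h1
            · have : k ≠ i := by rintro rfl; exact h0 ⟨v, rfl⟩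
              simp [orc, hi.extend_apply, this]
            · simp [orc, hi.extend_apply]
          · simp [orc, Function.extend_apply' _ _ _ h1]
        have e1 : ∀ x : Var (i.1.1.1.length ^ 3) → Bool,
            orc m j r N A0 (Function.update (ρ X) (.inl i) x) p =
            Function.extend (fun v => em r N ⟨i, v⟩) x (orc m j r N A0 (ρ X)) p := e0
        simp only [e1]
        by_cases h0 : ∃ v, em r N ⟨i, v⟩ = p
        · obtain ⟨v, rfl⟩ := h0
          refine cnt_le_one v fun v' h => ?_
          by_contra hc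
          rw [hv.extend_apply, hv.extend_apply] at h
          exact h (flp_ne x (Ne.symm hc))
        · simp [Function.extend_apply' _ _ _ h0, cnt]
      · refine decide_eq_decide.2 (and_congr (forall₂_congr fun q hq => ?_) ?_)
        · rw [h ⟨q, mem_insert_of_mem hq⟩]
        · rw [h ⟨_, mem_insert_self _ _⟩]
    · have e0 : ∀ (X : ∀ i, T1 m j r N i) x, orc m j r N A0 (Function.update X (.inr t) x) =
          Function.extend (el (m t) (j t)) (lv x.1 x.2) (orc m j r N A0 X) := by
        intro X x
        funext p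
        by_cases h0 : ∃ c, el (m t) (j t) c = p
        · obtain ⟨c, rfl⟩ := h0
          rw [(el_inj _ _).extend_apply]
          exact (hi.extend_apply _ _ (.inr ⟨t, c⟩)).trans (by simp)
        rw [Function.extend_apply' _ _ _ h0]
        by_cases h1 : ∃ c, ee m j r N c = p
        · obtain ⟨⟨k, v⟩ | ⟨t', c⟩, rfl⟩ := h1
          · simp [orc, hi.extend_apply]
          · have : t' ≠ t := by rintro rfl; exact h0 ⟨c, rfl⟩
            simp [orc, hi.extend_apply, this]
        · simp [orc, Function.extend_apply' _ _ _ h1]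
      have eo : ∀ (X : ∀ i, T1 m j r N i) π w, orc m j r N A0 (Function.update X (.inr t) (π, w)) =
          Function.extend (el (m t) (j t)) (lv π w) (orc m j r N A0 X) := fun X π w => e0 X (π, w)
      have hn : 20 * m t * (j t + 2) + 1 ≤ 2 ^ m t :=
        le_trans (Nat.succ_le_succ (Nat.mul_le_mul_left _ (hj t))) (lin_le _ (h60 t))
      have hu := num_u _ _ (j t + 2) (h60 t) c2 (by omega) (hj t)
      have hpos : 1 ≤ Fintype.card ↥(insert (Sum.inr t) s) :=
        Fintype.card_pos_iff.2 ⟨⟨_, mem_insert_self _ _⟩⟩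
      have key := dstep (Y := Fin (20 * m t * (j t + 2)) → Bool)
        (fun X π w => ∀ q ∈ s, tr q [] (orc m j r N A0 (Function.update (ρ X) (.inr t)
          (π, w.map (Fin.cons true)))) = a q)
        (fun X π w => tr (.inr t) [] (orc m j r N A0 (Function.update (ρ X) (.inr t)
          (π, w.map (Fin.cons true)))))
        (fun p => ∃ q : ↥(insert (Sum.inr t) s), ((2 * (j t + 2) + 4) *
          (44 * (2 ^ (5 * m t)) ^ 2 * 2 ^ m t)) ^ (j t + 2) < cnt fun y =>
            tr q [] (Function.extend (el (m t) (j t)) (lv p.2 (some y)) (orc m j r N A0 (ρ p.1))) ≠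
            tr q [] (Function.extend (el (m t) (j t)) (lv p.2 none) (orc m j r N A0 (ρ p.1))))
        _ (fun X π hB hE => ?_) (up_prod_le _ _ (by positivity) fun X => ?_) hp
      · obtain ⟨π, w, h⟩ := key
        refine ⟨w.isNone, (π, w.map (Fin.cons true)), ⟨by cases w <;> rfl, fun y hy => ?_⟩, h⟩
        cases w
        · simp at hy
        · rw [← Option.some.inj hy]; rfl
      · push Not at hB
        simp only [eo, Option.map_some, Option.map_none] at hE ⊢
        refine le_trans (Nat.mul_le_mul_left _ ?_) (hu.trans (by simp))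
        refine le_trans (cnt_mono fun y hy => ?_) ((cnt_comp (Fin.cons_right_injective true) _).trans
          (cnt_exists_le (univ : Finset ↥(insert (Sum.inr t) s)) _ _ fun q _ => hB q))
        by_contra hc
        push Not at hc
        exact hy ⟨fun q hq => (hc ⟨q, mem_insert_of_mem hq⟩ (mem_univ _)).trans (hE q hq),
          hc ⟨_, mem_insert_self _ _⟩ (mem_univ _)⟩
      · have key := hide (2 ^ m t) (j t) (2 ^ m t)
          (2 ^ (5 * m t)) (fun (q : ↥(insert (Sum.inr t) s)) ys α =>
            tr q (if q.1 = .inr t then ys else [])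
              (Function.extend (el (m t) (j t)) α (orc m j r N A0 (ρ X))))
          (fun q => if q.1 = .inr t then j t else 0) (fun q => by split_ifs <;> omega)
          (fun ⟨q, hq'⟩ => ?_) Nat.one_le_two_pow Nat.one_le_two_pow ?_ (2 ^ (7 * (2 ^ m t) ^ 2))
          ?_ ?_
        · refine le_trans (up_mono fun π h => ?_) (key.trans ?_)
          · simpa only [ite_self] using h
          · simp only [Fintype.card_fun, Fintype.card_bool, Fintype.card_fin]
            exact_mod_cast num_eta _ _ _ _ (h60 t) c1 (hj t) hn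
        · by_cases h1 : q = .inr t
          · subst h1
            simp only [if_true]
            exact (hγ t).extend (el_inj _ _) _
          simp only [if_neg h1]
          refine TV.of_cert ?_
          rcases q with i | t'
          · exact (((c3 _ hq').bot [] le_rfl).extend (el_inj _ _) _).mono le_rfl fun _ _ => trivial
          · have h2 : 2 ^ m t' < m t := hm _ _ (by
              rcases lt_trichotomy (t' : ℕ) t with h | h | h
              · exact h
              · exact absurd (congrArg _ (Fin.ext h)) h1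
              · exact absurd (hs' _ hq') (not_le.2 (Nat.lt_two_pow_self.trans (hm _ _ h))))
            refine fun α h => ⟨∅, Nat.zero_le _, by simp, fun β _ => ?_⟩
            refine ((hγ t').dep (fun p hp => ?_) (j t') [] (by simp)).trans h
            have h3 : ¬ ∃ c, el (m t) (j t) c = p := fun ⟨c, hc⟩ => by
              have := el_long _ _ c
              rw [hc] at this
              omega
            rw [Function.extend_apply' _ _ _ h3, Function.extend_apply' _ _ _ h3]
        · simp only [Fintype.card_fun, Fintype.card_bool, Fintype.card_fin]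
          exact p2_le (p2_mul (i := 1) le_rfl le_rfl) (by nlinarith)
        · simp only [Fintype.card_prod, Fintype.card_fun, Fintype.card_bool, Fintype.card_fin]
          exact_mod_cast num_K4 _ _ _ _ (h60 t) c2 (hj t) hn
        · simp only [Fintype.card_fun, Fintype.card_bool, Fintype.card_fin]
          exact p2_le (le_trans (Nat.mul_le_mul_left _ (Nat.le_mul_of_pos_left _ hpos)) hu)
            (by omega))
  refine ⟨orc m j r N A0 X, fun xs => ?_, fun u h1 h2 i hi' => ?_, fun t ht => ?_⟩
  · rw [orc, Function.extend_apply' _ _ _ ?_]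
    · exact hA0 xs
    · rintro ⟨c | c, hc⟩ <;> simpa using code_injective hc
  · have e : inst (orc m j r N A0 X) u (u.length ^ 3) i =
        X (.inl (⟨⟨u, h2⟩, h1⟩, ⟨i, hi'⟩)) := by
      funext v
      exact hi.extend_apply _ _ (.inl ⟨(⟨⟨u, h2⟩, h1⟩, ⟨i, hi'⟩), v⟩)
    rw [e]
    exact hX (.inl (⟨⟨u, h2⟩, h1⟩, ⟨i, hi'⟩))
  · exact ⟨(X (.inr ⟨t, ht⟩)).1, (X (.inr ⟨t, ht⟩)).2,
      fun p => hi.extend_apply _ _ (.inr ⟨⟨t, ht⟩, p⟩), hX (.inr ⟨t, ht⟩)⟩

end EX

end Pool.Agent.Lib.MP_2733b3_lc
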