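import Pool.Agent.Lib.MP_2733b3_lc.PCore
import Pool.Agent.Lib.MP_2733b3_lc.EEnc
import Pool.Agent.Lib.MP_2733b3_lc.GEncode

/-! The schedule of the diagonal steps and the limit oracle. -/

set_option autoImplicit false

namespace Pool.Agent.Lib.MP_2733b3_lc

open Finset Pool.Agent.Shared.PolyTime Encode

namespace EX

theorem enc_ph (j : ℕ) : ∃ g bd, GD j g bd ∧ ∀ A L, InPH A (j + 1) true L →
    ∃ U : List Bool → List Bool, PT U ∧ ∀ x, g (U x) [] A = true ↔ L x = true := by
  classical
  have c1 := (pt_countable ((List Bool × List (List Bool)) × List Bool) (List Bool)).to_subtype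
  have c2 := (pt_countable ((List Bool × List (List Bool)) × List Bool) Bool).to_subtype
  have c3 := (pt_countable (List Bool × List (List Bool)) (List Bool)).to_subtype
  have c4 : Nonempty ({f : (List Bool × List (List Bool)) × List Bool → List Bool | PT f} ×
      {f : (List Bool × List (List Bool)) × List Bool → Bool | PT f} ×
      {f : List Bool × List (List Bool) → List Bool | PT f}) :=
    ⟨⟨_, PT.const []⟩, ⟨_, PT.const true⟩, ⟨_, PT.const []⟩⟩
  obtain ⟨en, hen⟩ := exists_surjective_nat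
    ({f : (List Bool × List (List Bool)) × List Bool → List Bool | PT f} ×
      {f : (List Bool × List (List Bool)) × List Bool → Bool | PT f} ×
      {f : List Bool × List (List Bool) → List Bool | PT f})
  let cd : ℕ × List Bool × List Bool × List Bool → List Bool := fun t =>
    code [List.replicate t.1 true, t.2.1, t.2.2.1, t.2.2.2]
  have hcd : Function.Injective cd := by
    rintro ⟨e, x, w, p⟩ ⟨e', x', w', p'⟩ h
    have h4 := code_injective h
    simp only [List.cons.injEq, List.replicate_inj, or_true, and_true] at h4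
    obtain ⟨rfl, rfl, rfl, rfl⟩ := h4
    rfl
  obtain ⟨dec, hdec⟩ : ∃ dec : List Bool → ℕ × List Bool × List Bool × List Bool,
      ∀ t, dec (cd t) = t := ⟨_, Function.leftInverse_invFun hcd⟩
  let Ac : List Bool → (List Bool → Bool) → List (List Bool) → Prop := fun u A zs =>
    Acc A (en (dec u).1).1.1 (en (dec u).1).2.1.1 ((dec u).2.1, zs)
      ((en (dec u).1).2.2.1 ((dec u).2.1, zs)).length u.length
  let bd : List Bool → ℕ := fun u => min (dec u).2.2.1.length u.length
  let g : List Bool → List (List Bool) → (List Bool → Bool) → Bool := fun u ys A =>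
    decide (Alt (bd u) (j + 1 - ys.length) true fun zs => (Ac u A (ys ++ zs) ↔ Even ys.length))
  refine ⟨g, bd, ⟨fun u => min_le_right _ _, fun u ys hy A h => ?_, fun u ys A hy => ?_⟩, ?_⟩
  · have e : j + 1 - ys.length = 0 + 1 := by omega
    simp only [g, e, Alt, decide_eq_true_eq] at h ⊢
    obtain ⟨y, h1, h2⟩ := h
    obtain ⟨S, s1, s2, s3⟩ := Acc.dep A (en (dec u).1).1.1 (en (dec u).1).2.1.1
      ((dec u).2.1, ys ++ [y]) ((en (dec u).1).2.2.1 ((dec u).2.1, ys ++ [y])).length u.length
    exact ⟨S, s1, s2, fun B hB => ⟨y, h1, (s3 B hB).trans h2⟩⟩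
  · have e : j + 1 - ys.length = (j + 1 - (ys.length + 1)) + 1 := by omega
    simp only [g, decide_eq_true_eq, decide_eq_false_iff_not, List.length_append,
      List.length_singleton]
    rw [e]
    refine exists_congr fun y => and_congr_right fun _ => ?_
    rw [Alt.not]
    refine Alt.congr _ _ _ _ _ fun zs _ _ => ?_
    rw [Nat.even_add_one, List.append_assoc, List.singleton_append]
    tauto
  rintro A L ⟨p', R, ⟨q, o, p, hq, ho, hR⟩, hL⟩
  obtain ⟨r, hr, hr'⟩ := PT.unary_poly (α := List Bool × List (List Bool)) p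
  obtain ⟨e, he⟩ := hen (⟨q, PT.ofIsPolyTime hq⟩, ⟨o, PT.ofIsPolyTime ho⟩, ⟨r, hr⟩)
  obtain ⟨Q, hQ⟩ := PB.length (PT.ofIsPolyTime hq)
  have t1 : PT fun x : List Bool => p'.eval x.length := pt_eval (by fun_prop) p'
  have b1 : PB fun x : List Bool => p'.eval x.length :=
    PBe.eval (PB.length (f := fun x : List Bool => x) PT.id') p'
  obtain ⟨s, hs⟩ : ∃ s : List Bool → ℕ,
      s = fun x => 6 * x.length + 1 + (j + 1) * (6 * p'.eval x.length + 1) := ⟨_, rfl⟩
  have t2 : PT s := by rw [hs]; fun_prop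
  have b2 : PB s := by rw [hs]; fun_prop
  have t3 : PT fun x => p.eval (s x) := pt_eval t2 p
  have b3 : PB fun x => p.eval (s x) := PBe.eval b2 p
  have t4 : PT fun x => Q.eval (2 * s x + 1 + 3 * p.eval (s x)) := pt_eval (by fun_prop) Q
  have b4 : PB fun x => Q.eval (2 * s x + 1 + 3 * p.eval (s x)) :=
    PBe.eval (f := fun x => 2 * s x + 1 + 3 * p.eval (s x))
      (show PB fun x => 2 * s x + 1 + 3 * p.eval (s x) by fun_prop) Q
  obtain ⟨g', hg⟩ : ∃ g : List Bool → ℕ,
      g = fun x => p.eval (s x) + Q.eval (2 * s x + 1 + 3 * p.eval (s x)) := ⟨_, rfl⟩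
  have t5 : PT g' := by rw [hg]; fun_prop
  have b5 : PB g' := by rw [hg]; fun_prop
  have t6 : PT fun x : List Bool => List.replicate (p'.eval x.length) true :=
    PT.replicate t1 b1 (PT.const _)
  have t7 : PT fun x => List.replicate (g' x) true := PT.replicate t5 b5 (PT.const _)
  obtain ⟨U, hU⟩ : ∃ U : List Bool → List Bool, U = fun x => code [List.replicate e true, x,
      List.replicate (p'.eval x.length) true, List.replicate (g' x) true] := ⟨_, rfl⟩
  have t8 : PT U := by
    have : PT fun x : List Bool => [List.replicate e true, x,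
        List.replicate (p'.eval x.length) true, List.replicate (g' x) true] :=
      (PT.const _).cons (PT.id'.cons (t6.cons (t7.cons (PT.const _))))
    rw [hU]
    unfold code enc
    exact this.flatMap (by fun_prop)
  have l1 : ∀ x, g' x ≤ (U x).length ∧ p'.eval x.length ≤ (U x).length := by
    intro x
    rw [hU]
    simp only [length_code, List.map_cons, List.map_nil, List.sum_cons, List.length_replicate]
    omega
  have key : ∀ x, g (U x) [] A = true ↔ L x = true := by
    intro x
    have hd : dec (U x) = (e, x, List.replicate (p'.eval x.length) true,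
        List.replicate (g' x) true) := by
      rw [hU]; exact hdec (e, x, _, _)
    have hb : bd (U x) = p'.eval x.length := by
      simp only [bd, hd, List.length_replicate]
      exact min_eq_left (l1 x).2
    rw [hL]
    simp only [g, decide_eq_true_eq, List.length_nil, Nat.sub_zero, hb]
    refine Alt.congr _ _ _ _ _ fun ys h1 h2 => ?_
    have h3 : sz (x, ys) ≤ s x := by
      have := sz_list_le (l := ys) (B := 3 * p'.eval x.length) fun y hy => by
        rw [sz_listBool]; have := h2 y hy; omega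
      rw [hs, sz_pair, sz_listBool]
      beta_reduce
      rw [h1] at this
      nlinarith
    have h4 := eval_mono p h3
    have h5 := (l1 x).1
    rw [hg] at h5
    beta_reduce at h5
    simp only [Ac, hd, he, hr', List.nil_append, Even.zero, iff_true]
    rw [hR]
    refine ⟨fun h => h.2.2, fun h => ⟨by omega, fun i hi => ?_, h⟩⟩
    have h6 : sz ((x, ys), ans A q (x, ys) i) ≤ 2 * s x + 1 + 3 * p.eval (s x) := by
      rw [sz_pair, sz_listBool, length_ans]
      omega
    have h7 := (hQ ((x, ys), ans A q (x, ys) i)).trans (eval_mono Q h6)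
    beta_reduce at h7
    omega
  exact ⟨U, t8, key⟩

theorem lim (A : ℕ → List Bool → Bool) : ∃ C : List Bool → Bool, ∀ F : Set (List Bool), F.Finite →
    ∀ n, ∃ N, n ≤ N ∧ ∀ s ∈ F, A N s = C s := by
  classical
  let C : List Bool → Bool := fun s => decide (∀ᶠ N in Filter.hyperfilter ℕ, A N s = true)
  have e : ∀ s, ∀ᶠ N in Filter.hyperfilter ℕ, A N s = C s := by
    intro s
    by_cases h : ∀ᶠ N in Filter.hyperfilter ℕ, A N s = true
    · simpa only [C, decide_eq_true h] using h
    · simpa only [C, decide_eq_false h, Bool.not_eq_true] using Ultrafilter.eventually_not.2 h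
  exact ⟨C, fun F hF n => (((Filter.eventually_ge_atTop n).filter_mono
    Nat.hyperfilter_le_atTop).and ((Filter.eventually_all_finite hF).2 fun s _ => e s)).exists⟩

theorem lk_eq {m j : ℕ} {A : List Bool → Bool} {π : _} {w : Option (ZZ m j)}
    (h : ∀ p, A (el m j p) = lv π w p) (hw : ∀ y, w = some y → y 0 = true) :
    LK A (j + 1) (List.replicate (20 * m * (j + 2) + 1) true) = true ↔ w.isNone = false := by
  have key : ∀ y : ZZ m j, RowV A (j + 1) (List.ofFn y) ↔ w ≠ some y := fun y => by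
    rw [RowV, List.length_ofFn, nd_cfg (j + 1) (decide (w ≠ some y)) (π.2 y, π.1 y) _ fun p => ?_,
      decide_eq_true_iff]
    exact Bool.eq_iff_iff.1 (h (y, p))
  simp only [LK, decide_eq_true_eq, List.length_replicate]
  constructor
  · rintro ⟨y, h1, -, h2⟩
    have h3 : List.ofFn (fun i : Fin (20 * m * (j + 2) + 1) => y[i]) = y :=
      List.ext_getElem (by simp [h1]) fun i _ _ => by rw [List.getElem_ofFn]; rfl
    rw [← h3, key, not_not] at h2
    rw [h2]
    rfl
  · intro h1
    obtain ⟨y, rfl⟩ := Option.isSome_iff_exists.1 (Option.isNone_eq_false_iff.1 h1)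
    exact ⟨List.ofFn y, List.length_ofFn, by rw [List.ofFn_succ]; exact hw y rfl,
      by rw [key, not_not]⟩

theorem sched (j : ℕ → ℕ) (U : ℕ → List Bool → List Bool) (hU : ∀ t, PT (U t)) :
    ∃ m : ℕ → ℕ, (∀ t, 60 ≤ m t) ∧ (∀ t, j t + 2 ≤ m t) ∧ (∀ t t', t < t' → 2 ^ m t < m t') ∧
      ∀ t, (U t (List.replicate (20 * m t * (j t + 2) + 1) true)).length ≤ 2 ^ m t := by
  have key : ∀ t lo, ∃ m, lo < m ∧ 60 ≤ m ∧ j t + 2 ≤ m ∧
      (U t (List.replicate (20 * m * (j t + 2) + 1) true)).length ≤ 2 ^ m := by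
    intro t lo
    obtain ⟨Q, hQ⟩ := PB.length (hU t)
    obtain ⟨d, hd⟩ := poly_le_pow Q
    obtain ⟨n1, hn⟩ := poly_le_exp 1 (3 * d)
    obtain ⟨m, hm⟩ : ∃ m, m = lo + 60 + j t + n1 := ⟨_, rfl⟩
    have h60 : 60 ≤ m := by omega
    refine ⟨m, by omega, h60, by omega, (hQ _).trans ?_⟩
    have h1 : 20 * m * (j t + 2) + 1 ≤ m ^ 3 := by
      have : 20 * m * (j t + 2) ≤ 20 * m * m := Nat.mul_le_mul_left _ (by omega)
      nlinarith [Nat.mul_le_mul h60 h60]
    have h2 := hn m (by omega)
    rw [one_mul, pow_mul] at h2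
    change Q.eval (sz _) ≤ _
    rw [sz_listBool, List.length_replicate]
    exact (eval_mono Q (Nat.mul_le_mul_left 3 h1)).trans ((hd _ (by nlinarith)).trans h2.le)
  choose f f1 f2 f3 f4 using key
  let m : ℕ → ℕ := fun t => Nat.rec (f 0 0) (fun t x => f (t + 1) (2 ^ x)) t
  have e : ∀ t, ∃ lo, m t = f t lo := fun t => by cases t <;> exact ⟨_, rfl⟩
  refine ⟨m, fun t => ?_, fun t => ?_, fun t t' h => ?_, fun t => ?_⟩
  · obtain ⟨lo, h⟩ := e t
    exact h ▸ f2 t lo
  · obtain ⟨lo, h⟩ := e t
    exact h ▸ f3 t lo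
  · induction t', h using Nat.le_induction with
    | base => exact f1 _ _
    | succ t' _ ih => exact ih.trans (Nat.lt_two_pow_self.trans (f1 _ _))
  · obtain ⟨lo, h⟩ := e t
    exact h ▸ f4 t lo

theorem world2 {b : List Bool → (List Bool → Bool) → Bool} (hb : BCert b) :
    ∃ A : List Bool → Bool, (∀ j, ¬ InPH A (j + 1) true (LK A (j + 1))) ∧
      ∀ (V : List Bool × List Bool → List Bool) (r : List Bool → List Bool), PT V → PT r →
        InBQP A fun x => b (V (x, List.replicate (2 ^ (r x).length) true)) A := by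
  obtain ⟨σ, h1, h2⟩ := enc_exp
  obtain ⟨n, hn⟩ : ∃ n : ℕ, n = 2 ^ 17 := ⟨_, rfl⟩
  choose g bd hg hL using enc_ph
  have c1 := (pt_countable (List Bool) (List Bool)).to_subtype
  have c2 : Nonempty (ℕ × {f : List Bool → List Bool | PT f}) := ⟨0, _, PT.const []⟩
  obtain ⟨en, hen⟩ := exists_surjective_nat (ℕ × {f : List Bool → List Bool | PT f})
  obtain ⟨m, m1, m2, m3, m4⟩ := sched (fun t => (en t).1) (fun t => (en t).2.1) fun t => (en t).2.2
  have ho : ∀ u, Cert (2 ^ u.length) (fun s : List Bool => s.length ≤ 2 ^ u.length) (b (σ u)) :=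
    fun u => (hb (σ u)).mono (h1 u) fun _ h => h.trans (h1 u)
  have hγ := fun t => (TV.of_gd (hg (en t).1) _).mono (m4 t) (m4 t) fun _ h => h.trans (m4 t)
  choose A a1 a2 a3 using fun N => fin_core2 n N m1 m2 m3 _ ho _ hγ hn.le
  obtain ⟨C, hC⟩ := lim A
  obtain ⟨G, hG, hG'⟩ := circ_proof
  refine ⟨C, fun j hj => ?_, fun V r hV hr => ?_⟩
  · obtain ⟨U, t1, t2⟩ := hL j C _ hj
    obtain ⟨t, ht⟩ := hen (j, ⟨U, t1⟩)
    obtain ⟨N, hN, h⟩ := hC _ ((Set.finite_range (el (m t) (en t).1)).union
      (List.finite_length_le Bool (2 ^ m t))) (t + 1)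
    obtain ⟨π, w, w1, w2, w3⟩ := a3 N t hN
    have e1 := lk_eq (A := C) (fun p => (h _ (Or.inl ⟨p, rfl⟩)).symm.trans (w1 p)) w3
    rw [(hγ t).dep (fun p hp => h p (Or.inr hp)) (en t).1 [] (by simp), List.take_nil] at w2
    obtain ⟨rfl, rfl⟩ : (en t).1 = j ∧ (en t).2.1 = U := by rw [ht]; exact ⟨rfl, rfl⟩
    rw [← t2, w2] at e1
    cases w <;> simp at e1
  have hC1 : HelpOK C := fun xs => by
    obtain ⟨N, -, h⟩ := hC _ (Set.finite_singleton (help xs)) 0
    rw [← h _ rfl, a1]
  obtain ⟨W, hW, h3⟩ := h2 V r hV hr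
  have t : PT fun x => (W x, List.replicate ((W x).length ^ 3) true, List.replicate n true) :=
    hW.pair (PT.pair (PT.replicate (by fun_prop) (by fun_prop) (PT.const _)) (PT.const _))
  refine ⟨_, (hG.comp' t).isPolyTime, fun x => ?_⟩
  simp only [hG' C hC1, List.length_replicate, ← (h3 x).2]
  refine pacc_good hn fun i hi => ?_
  obtain ⟨N, hN, h⟩ := hC _ ((Set.finite_range fun v : Var ((W x).length ^ 3) =>
    cell (W x) i v.1 (List.ofFn v.2)).union (List.finite_length_le Bool (2 ^ (W x).length)))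
    (W x).length
  have e1 : inst C (W x) ((W x).length ^ 3) i = inst (A N) (W x) ((W x).length ^ 3) i :=
    funext fun v => (h _ (Or.inl ⟨v, rfl⟩)).symm
  rw [e1, ← (ho (W x)).dep fun p hp => h p (Or.inr hp)]
  exact a2 N _ (h3 x).1 hN i hi

end EX

end Pool.Agent.Lib.MP_2733b3_lc
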