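import Pool.Agent.Lib.MP_2733b3_lc.EFix
import Pool.Agent.Lib.MP_2733b3_lc.GIter

/-! Fixing random items one at a time. -/

set_option autoImplicit false

namespace Pool.Agent.Lib.MP_2733b3_lc

open Finset RT

namespace EX

section
variable {A B : Type} [Fintype A] [Fintype B]

theorem up_true [Nonempty A] : up (fun _ : A => True) = 1 := by
  simp [up, pr]

theorem up_or (E E' : A → Prop) : up (fun a => E a ∨ E' a) ≤ up E + up E' :=
  pr_or (fun _ => by positivity) E E'

theorem up_fst [Nonempty B] (E : A → Prop) : up (fun p : A × B => E p.1) = up E := by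
  classical
  rw [up_prod, up.eq_1 E, pr]
  refine sum_congr rfl fun a _ => ?_
  by_cases h : E a
  · simp [h, up_true]
  · simp [h, up, pr]

theorem exists_up_ge [Nonempty A] (E : A × B → Prop) : ∃ a, up E ≤ up (fun b => E (a, b)) := by
  obtain ⟨a, -, ha⟩ := exists_max_image univ (fun a => up fun b => E (a, b)) univ_nonempty
  exact ⟨a, up_prod_le E _ (up_nonneg _) fun a' => ha a' (mem_univ _)⟩

theorem up_half [Nonempty A] (E : A → Prop) (h : 2 * cnt (fun a => ¬ E a) ≤ Fintype.card A) :
    1 / 2 ≤ up E := by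
  classical
  have h1 := up_or E fun a => ¬ E a
  have h2 : up (fun a => E a ∨ ¬ E a) = 1 := by simp only [em, up_true]
  have h3 : up (fun a => ¬ E a) = cnt (fun a => ¬ E a) / Fintype.card A := by
    rw [up, pr, cnt_eq_sum, Nat.cast_sum, sum_div]
    exact sum_congr rfl fun a _ => by by_cases h : E a <;> simp [h]
  have h4 : (0 : ℝ) < Fintype.card A := by exact_mod_cast Fintype.card_pos
  have h5 : (cnt (fun a => ¬ E a) : ℝ) / Fintype.card A ≤ 1 / 2 := by
    rw [div_le_div_iff₀ h4 two_pos]
    exact_mod_cast (by omega : cnt (fun a => ¬ E a) * 2 ≤ 1 * Fintype.card A)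
  linarith

end

theorem process {I : Type} [Fintype I] [DecidableEq I] {T0 T : I → Type} [∀ i, Fintype (T0 i)]
    [∀ i, Nonempty (T0 i)] (ι : ∀ i, T0 i → T i) (lev : I → ℕ) (out : I → (∀ i, T i) → Bool)
    (ok : ∀ i, Bool → T i → Prop)
    (H : ∀ i (s : Finset I), i ∉ s → (∀ j ∈ s, lev j ≤ lev i) →
      ∀ (a : I → Bool) (ρ : (∀ i, T0 i) → ∀ i, T i),
      1 / 8 ^ s.card ≤ up (fun p : (∀ i, T0 i) × T0 i =>
        ∀ j ∈ s, out j (Function.update (ρ p.1) i (ι i p.2)) = a j) →
      ∃ β x, ok i β x ∧ 1 / 8 ^ s.card / 8 ≤ up (fun X =>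
        (∀ j ∈ s, out j (Function.update (ρ X) i x) = a j) ∧
          out i (Function.update (ρ X) i x) = β)) :
    ∃ X, ∀ i, ok i (out i X) (X i) := by
  have key : ∀ s : Finset I, ∃ (a : I → Bool) (Y : ∀ i, T i), (∀ i ∈ s, ok i (a i) (Y i)) ∧
      1 / 8 ^ s.card ≤ up (fun X : ∀ i, T0 i =>
        ∀ j ∈ s, out j (s.piecewise Y fun i => ι i (X i)) = a j) := by
    intro s
    induction s using Finset.induction_on_max_value lev with
    | empty =>
      exact ⟨fun _ => false, fun i => ι i (Classical.arbitrary _), by simp, by simp [up_true]⟩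
    | insert i s hi hl ih =>
      obtain ⟨a, Y, h1, h2⟩ := ih
      have ne : ∀ j ∈ s, j ≠ i := fun j hj e => hi (e ▸ hj)
      obtain ⟨β, x, x1, x2⟩ := H i s hi hl a (fun X => s.piecewise Y fun i => ι i (X i)) (by
        rw [← up_fst (B := T0 i), ← up_equiv (Function.Involutive.toPerm
          (fun p : (∀ i, T0 i) × T0 i => (Function.update p.1 i p.2, p.1 i))
          fun p => by simp)] at h2
        refine h2.trans (up_mono fun p hp j hj => Eq.trans (congrArg _ ?_) (hp j hj))
        funext k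
        change _ = s.piecewise Y (fun k => ι k (Function.update p.1 i p.2 k)) k
        by_cases hk : k = i
        · subst hk; simp [hi]
        · by_cases hs : k ∈ s <;> simp [hk, hs])
      refine ⟨Function.update a i β, Function.update Y i x, fun j hj => ?_, ?_⟩
      · rcases mem_insert.1 hj with rfl | hj
        · simpa using x1
        · rw [Function.update_of_ne (ne j hj), Function.update_of_ne (ne j hj)]
          exact h1 j hj
      · rw [card_insert_of_notMem hi, pow_succ, ← div_div]
        refine x2.trans (up_mono fun X hX => ?_)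
        have e : (insert i s).piecewise (Function.update Y i x) (fun i => ι i (X i)) =
            Function.update (s.piecewise Y fun i => ι i (X i)) i x := by
          funext k
          by_cases hk : k = i
          · subst hk; simp
          · by_cases hs : k ∈ s <;> simp [hk, hs]
        rw [e, forall_mem_insert, Function.update_self]
        exact ⟨hX.2, fun j hj => by rw [Function.update_of_ne (ne j hj)]; exact hX.1 j hj⟩
  obtain ⟨a, Y, h1, h2⟩ := key univ
  refine ⟨Y, fun i => ?_⟩
  by_contra hc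
  have h3 := h2.trans (up_mono (E' := fun _ => False) fun X h => hc (by
    have := h i (mem_univ i)
    rw [piecewise_univ] at this
    exact this ▸ h1 i (mem_univ i)))
  rw [up, pr_false] at h3
  exact absurd h3 (not_le.2 (by positivity))

theorem plant2 {Ω : Type} [Fintype Ω] [Nonempty Ω] (l : ℕ)
    (F : Bool → Ω → (Var l → Bool) → Bool) (t : ℕ) (ν η p : ℝ) (hη : 0 < η)
    (hγ : 16 * (t : ℝ) ^ 2 * sig l ≤ 1 / 2)
    (ht : ∀ β r (z : Var l → ℝ), (∀ v, |z v| ≤ 1 / 2) →
      pr (bias z) (fun x => t < sens (F β r) x) ≤ ν)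
    (hp : 8 * (32 * (Fintype.card (Var l) : ℝ) ^ 3 * ν + η +
      Real.exp (2 - 1 / (4096 * sig l))) < p)
    (h : p ≤ up (fun q : Ω × (Var l → Bool) => F true q.1 q.2 = true ∨ F false q.1 q.2 = true)) :
    ∃ β x, good β x ∧ p / 8 ≤ up (fun r => F β r x = true) := by
  classical
  obtain ⟨β, hβ⟩ : ∃ β, p / 2 ≤ up (fun q : Ω × (Var l → Bool) => F β q.1 q.2 = true) := by
    by_contra hc
    push Not at hc
    linarith [h.trans (up_or _ _), hc true, hc false]
  obtain ⟨D, D0, D1, D2, D3⟩ := low l β η hη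
  by_contra hc
  push Not at hc
  obtain ⟨τ, hτ⟩ : ∃ τ, τ = 32 * (Fintype.card (Var l) : ℝ) ^ 3 * ν + η := ⟨_, rfl⟩
  rw [← hτ] at hp
  have eb : (bias 0 : (Var l → Bool) → ℝ) = fun _ => (1 : ℝ) / Fintype.card (Var l → Bool) := by
    funext x
    rw [bias_zero]
    simp
  have a1 : up (fun q : Ω × (Var l → Bool) => F β q.1 q.2 = true) / 2 - τ ≤
      ∑ r, un _ r * pr D (fun x => F β r x = true) := by
    have e : τ = ∑ r, un Ω r * τ := by rw [← sum_mul, sum_un, one_mul]
    rw [up_prod, e, sum_div, ← sum_sub_distrib]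
    refine sum_le_sum fun r _ => ?_
    have := mul_le_mul_of_nonneg_left (D3 _ t ν hγ (ht β r)) (un_nonneg r)
    rw [← hτ, eb] at this
    unfold up
    unfold un at this ⊢
    linarith
  have a2 : ∑ r, un _ r * pr D (fun x => F β r x = true) =
      ∑ x, D x * up (fun r => F β r x = true) := by
    unfold up pr un
    simp only [mul_sum]
    rw [sum_comm]
    refine sum_congr rfl fun x _ => sum_congr rfl fun X _ => ?_
    split_ifs <;> ring
  have p0 : 0 ≤ p := by
    have := (RT.pr_nonneg (fun x => bias0_nonneg x) _).trans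
      (ht β (Classical.arbitrary _) 0 fun v => by simp)
    have : 0 ≤ τ := by rw [hτ]; positivity
    linarith [Real.exp_pos (2 - 1 / (4096 * sig l))]
  have a3 : ∑ x, D x * up (fun r => F β r x = true) ≤ p / 8 + pr D (fun x => ¬ good β x) := by
    rw [← one_mul (p / 8), ← D1, sum_mul, pr.eq_1 D, ← sum_add_distrib]
    refine sum_le_sum fun x _ => ?_
    split_ifs with h
    · have := mul_le_mul_of_nonneg_left (hc β x h).le (D0 x)
      linarith
    · have b1 := mul_le_mul_of_nonneg_left ((up_mono (E := fun r => F β r x = true)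
        fun _ _ => trivial).trans up_true.le) (D0 x)
      have b2 := mul_nonneg (D0 x) p0
      linarith
  linarith

theorem dstep {Ω P Y : Type} [Fintype Ω] [Fintype P] [Fintype Y] [Nonempty P] [Nonempty Y]
    (E : Ω → P → Option Y → Prop) (o : Ω → P → Option Y → Bool) (Bad : Ω × P → Prop) (p : ℝ)
    (hB : ∀ r π, ¬ Bad (r, π) → E r π none →
      2 * cnt (fun y => ¬ (E r π (some y) ∧ o r π (some y) = o r π none)) ≤ Fintype.card Y)
    (h1 : up Bad ≤ p / 2) (h2 : p ≤ up (fun q : Ω × P => E q.1 q.2 none)) :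
    ∃ π w, p / 8 ≤ up (fun r => E r π w ∧ o r π w = w.isNone) := by
  classical
  have a1 := h2.trans ((up_mono (E' := fun q : Ω × P => (Bad q ∨ E q.1 q.2 none ∧
      o q.1 q.2 none = true) ∨ ¬ Bad q ∧ E q.1 q.2 none ∧ o q.1 q.2 none = false) fun q hq => by
    cases o q.1 q.2 none <;> tauto).trans (up_or _ _))
  have a2 := up_or Bad fun q : Ω × P => E q.1 q.2 none ∧ o q.1 q.2 none = true
  have a0 := up_nonneg Bad
  by_cases h : p / 8 ≤ up fun q : Ω × P => E q.1 q.2 none ∧ o q.1 q.2 none = true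
  · rw [← up_equiv (Equiv.prodComm P Ω)] at h
    obtain ⟨π, hπ⟩ := exists_up_ge fun q : P × Ω => E q.2 q.1 none ∧ o q.2 q.1 none = true
    exact ⟨π, none, h.trans hπ⟩
  · have a3 : up (fun q : Ω × P => ¬ Bad q ∧ E q.1 q.2 none ∧ o q.1 q.2 none = false) / 2 ≤
        up (fun q : (Ω × P) × Y => E q.1.1 q.1.2 (some q.2) ∧ o q.1.1 q.1.2 (some q.2) = false) := by
      rw [up_prod fun q : (Ω × P) × Y => _, up, pr, sum_div]
      refine sum_le_sum fun q _ => ?_
      split_ifs with hq
      · have := up_half _ (hB q.1 q.2 hq.1 hq.2.1)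
        rw [hq.2.2] at this
        have h3 : (0 : ℝ) ≤ 1 / Fintype.card (Ω × P) := by positivity
        nlinarith
      · rw [zero_div]
        exact mul_nonneg (by positivity) (up_nonneg _)
    rw [← up_equiv (⟨fun q => ((q.2, q.1.1), q.1.2), fun q => ((q.1.2, q.2), q.1.1),
      fun _ => rfl, fun _ => rfl⟩ : (P × Y) × Ω ≃ (Ω × P) × Y)] at a3
    obtain ⟨π, hπ⟩ := exists_up_ge fun q : (P × Y) × Ω =>
      E q.2 q.1.1 (some q.1.2) ∧ o q.2 q.1.1 (some q.1.2) = false
    refine ⟨π.1, some π.2, le_trans ?_ (a3.trans hπ)⟩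
    linarith [not_le.1 h]

end EX

end Pool.Agent.Lib.MP_2733b3_lc
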