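import Pool.Agent.Lib.MP_2733b3_lc.PProc
import Pool.Agent.Lib.MP_2733b3_lc.EClos

/-! Families of NAND trees: sensitivity tails and hidden rows. -/

set_option autoImplicit false

namespace Pool.Agent.Lib.MP_2733b3_lc

open Finset

namespace EX

/-- A NAND tree of depth `j` with witnesses of length at most `T` over gates with certificates. -/
structure TV {V : Type} (j w T : ℕ) (Low : V → Prop) (g : List (List Bool) → (V → Bool) → Bool) :
    Prop where
  bot : ∀ ys, j ≤ ys.length → Cert w Low (g ys)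
  nand : ∃ bd ≤ T, ∀ ys α, ys.length < j →
    (g ys α = true ↔ ∃ y : List Bool, y.length ≤ bd ∧ g (ys ++ [y]) α = false)

theorem TV.of_cert {V : Type} {w T : ℕ} {Low : V → Prop} {g : (V → Bool) → Bool}
    (h : Cert w Low g) : TV 0 w T Low fun _ => g :=
  ⟨fun _ _ => h, 0, Nat.zero_le _, fun _ _ h => absurd h (Nat.not_lt_zero _)⟩

theorem TV.mono {V : Type} {j w w' T T' : ℕ} {Low Low' : V → Prop}
    {g : List (List Bool) → (V → Bool) → Bool} (h : TV j w T Low g) (hw : w ≤ w') (hT : T ≤ T')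
    (hl : ∀ p, Low p → Low' p) : TV j w' T' Low' g :=
  ⟨fun ys hy => (h.bot ys hy).mono hw hl, let ⟨bd, h1, h2⟩ := h.nand; ⟨bd, h1.trans hT, h2⟩⟩

theorem TV.extend {V L : Type} {j w T : ℕ} {Low : L → Prop}
    {g : List (List Bool) → (L → Bool) → Bool} (h : TV j w T Low g) {e : V → L}
    (he : Function.Injective e) (A : L → Bool) :
    TV j w T (fun _ => True) fun ys α => g ys (Function.extend e α A) :=
  ⟨fun ys hy => ((h.bot ys hy).extend he A).mono le_rfl fun _ _ => trivial,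
    let ⟨bd, h1, h2⟩ := h.nand; ⟨bd, h1, fun ys _ hy => h2 ys _ hy⟩⟩

theorem TV.dep {V : Type} {j w T : ℕ} {Low : V → Prop} {g : List (List Bool) → (V → Bool) → Bool}
    (h : TV j w T Low g) {α β : V → Bool} (hab : ∀ p, Low p → α p = β p) (i : ℕ) :
    ∀ ys : List (List Bool), j ≤ ys.length + i → g ys α = g ys β := by
  induction i with
  | zero => exact fun ys hy => (h.bot ys hy).dep hab
  | succ i ih =>
    intro ys hy
    by_cases h1 : j ≤ ys.length
    · exact (h.bot ys h1).dep hab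
    · obtain ⟨bd, -, h2⟩ := h.nand
      rw [Bool.eq_iff_iff, h2 ys α (not_le.1 h1), h2 ys β (not_le.1 h1)]
      exact exists_congr fun y => and_congr_right fun _ => by
        rw [ih (ys ++ [y]) (by simp; omega)]

theorem TV.of_gd {j : ℕ} {g : List Bool → List (List Bool) → (List Bool → Bool) → Bool}
    {bd : List Bool → ℕ} (h : GD j g bd) (u : List Bool) :
    TV j u.length u.length (fun s : List Bool => s.length ≤ u.length)
      fun ys A => g u (ys.take j) A := by
  refine ⟨fun ys hy => h.bot u _ (by simp [hy]), bd u, h.le u, fun ys A hy => ?_⟩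
  rw [List.take_of_length_le hy.le, h.nand u ys A hy]
  exact exists_congr fun y => by rw [List.take_of_length_le (by simp; omega)]

variable {P C S : Type} [Fintype P] [Fintype C] (T J : ℕ)
  (g : S → List (List Bool) → (P ⊕ C → Bool) → Bool)

/-- The system of all gates of a family of trees. -/
noncomputable def tsys : Sys P (Option (S × WW T J)) C where
  blk _ := none
  lev q := q.elim 0 fun q => J - q.2.1.length + 1
  b q := q.elim (fun _ => false) fun q => g q.1 q.2.1
  w := Fintype.card (P ⊕ C)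
  cert q := by
    cases q with
    | none => exact Cert.false _ _
    | some q =>
      exact Cert.of_dep fun α β h => congrArg _ (funext fun p => h p (by cases p <;> simp))

theorem tsys_ty (q : S × WW T J) (R : P → Bool) (X : Bool → C → Bool) :
    (tsys T J g).ty (some q) (R, X) = g q.1 q.2.1 (Sum.elim R (X false)) := by
  rw [Sys.ty, Sys.cf, (tsys T J g).val_unique (R, X) (X false) fun _ => rfl]
  rfl

theorem tsys_deep {w : ℕ} (jq : S → ℕ) (hJ : ∀ q, jq q ≤ J)
    (h : ∀ q, TV (jq q) w T (fun _ => True) (g q)) :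
    ∃ ch, (tsys T J g).Deep w (fun q => q.elim 0 fun q => jq q.1 - q.2.1.length) ch := by
  choose bd b1 b2 using fun q => (h q).nand
  refine ⟨fun q h => ∃ q1 q2, q = some q1 ∧ h = some q2 ∧ q2.1 = q1.1 ∧
    ∃ y : List Bool, y.length ≤ bd q1.1 ∧ q2.2.1 = q1.2.1 ++ [y], ?_⟩
  rintro (_ | q)
  · exact Or.inl (Cert.false _ _)
  have h0 := mem_WW.1 q.2.2
  have h3 := hJ q.1
  by_cases hq : jq q.1 ≤ q.2.1.length
  · exact Or.inl (((h q.1).bot _ hq).mono le_rfl fun p _ => by cases p <;> simp [Sys.Low, tsys])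
  refine Or.inr ⟨?_, fun α => (b2 _ _ α (not_le.1 hq)).trans ⟨fun ⟨y, h1, h2⟩ => ?_, ?_⟩⟩
  · rintro _ ⟨_, q2, ⟨⟩, rfl, h1, y, -, h2⟩
    simp only [tsys, Option.elim_some, h1, h2, List.length_append, List.length_singleton]
    omega
  · refine ⟨some (q.1, ⟨q.2.1 ++ [y], mem_WW.2 ⟨by simp; omega, fun z hz => ?_⟩⟩),
      ⟨_, _, rfl, rfl, rfl, y, h1, rfl⟩, h2⟩
    rcases List.mem_append.1 hz with hz | hz
    · exact h0.2 z hz
    · rw [List.mem_singleton.1 hz]
      exact h1.trans (b1 _)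
  · rintro ⟨_, ⟨_, q2, ⟨⟩, rfl, h1, y, h2, h4⟩, h5⟩
    refine ⟨y, h2, ?_⟩
    simp only [tsys, Option.elim_some] at h5
    rwa [h1, h4] at h5

theorem card_gates [Fintype S] : Fintype.card (Option (S × WW T J)) ≤
    Fintype.card S * (3 ^ T + 1) ^ J + 1 := by
  rw [Fintype.card_option, Fintype.card_prod, Fintype.card_coe]
  exact Nat.succ_le_succ (Nat.mul_le_mul_left _ (exists_WW T J).choose_spec.1)

theorem tail3 {S V : Type} [Fintype S] [Fintype V] [DecidableEq V] (T J : ℕ) (hT : 1 ≤ T)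
    (g : S → List (List Bool) → (List Bool → Bool) → Bool) (jq : S → ℕ) (hJ : ∀ q, jq q ≤ J)
    (h : ∀ q, TV (jq q) T T (fun s : List Bool => s.length ≤ T) (g q))
    (A : (V → Bool) → List Bool → Bool) (hA : ∀ x s, cnt (fun v => A (flp x v) s ≠ A x s) ≤ 1)
    (F : (V → Bool) → Bool) (hF : ∀ x x', (∀ q, g q [] (A x) = g q [] (A x')) → F x = F x')
    (R : ℕ) (hR : 1 ≤ R) (K : ℝ) (hK1 : 1 ≤ K)
    (hK : ((Fintype.card S * (3 ^ T + 1) ^ J + 1 : ℕ) : ℝ) *
      (1 + (3 + 2 * Fintype.card V) * (1 + 3 * Fintype.card V) : ℝ) ≤ K)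
    (z : V → ℝ) (hz : ∀ v, |z v| ≤ 1 / 2) :
    pr (bias z) (fun x => Fintype.card S * (44 * R ^ 2 * T) ^ (J + 2) < sens F x) ≤
      K ^ (J + 2) * (1 / 2) ^ R := by
  classical
  have he : Function.Injective (Sum.elim (fun e : Empty => e.elim) fun c : Sh T => c.1) := by
    rintro (⟨⟨⟩⟩ | a) (⟨⟨⟩⟩ | b) hab
    exact congrArg _ (Subtype.ext hab)
  obtain ⟨ch, hS⟩ := tsys_deep T J _ jq hJ fun q => (h q).extend he fun _ => false
  have hc := card_gates T J (S := S)
  refine le_trans (pr_mono (bias_nonneg hz) fun x hx => ?_) (hS.sens_tail (bias z) (bias_nonneg hz)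
    (sum_bias z).le (bias_flp hz) (fun e => e.elim) (fun x _ c => A x c.1) (fun x _ c => hA x c.1)
    R hR hT K hK1 (le_trans (mul_le_mul_of_nonneg_right (by exact_mod_cast hc) (by positivity)) hK)
    (J + 2))
  by_contra hn
  push Not at hn
  refine absurd hx (not_lt.2 (le_trans (cnt_mono (E' := fun v => ∃ q ∈ (univ : Finset S),
    g q [] (A (flp x v)) ≠ g q [] (A x)) fun v hv => ?_) (cnt_exists_le _ _ _ fun q _ => ?_)))
  · by_contra hc
    push Not at hc
    exact hv (hF _ _ fun q => hc q (mem_univ q))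
  · have h1 := hn (some (q, ⟨[], mem_WW.2 (by simp)⟩)) (by simp [tsys])
    have h2 : ∀ x, g q [] (Function.extend (Sum.elim (fun e : Empty => e.elim) fun c : Sh T => c.1)
        (Sum.elim (fun e : Empty => e.elim) fun c => A x c.1) fun _ => false) = g q [] (A x) :=
      fun x => (h q).dep (fun p hp => he.extend_apply _ _ (.inr ⟨p, hp⟩)) (jq q) _ (by simp)
    simpa only [tsys_ty, h2] using h1

/-- The leaves when all rows are true except the marked one. -/
def lv {Z : Type} [DecidableEq Z] {j : ℕ} (π : (Z → Z → Ptr Z j) × (Z → Z)) (w : Option Z)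
    (p : Z × Z × Leaf Z j) : Bool :=
  cfg (j + 1) (decide (w ≠ some p.1)) (π.2 p.1, π.1 p.1) p.2

theorem hide {S Z : Type} [Fintype S] [Fintype Z] [DecidableEq Z] [Nonempty Z] (T j w R : ℕ)
    (g : S → List (List Bool) → (Z × Z × Leaf Z j → Bool) → Bool) (jq : S → ℕ)
    (hJ : ∀ q, jq q ≤ j) (h : ∀ q, TV (jq q) w T (fun _ => True) (g q))
    (hR : 1 ≤ R) (hw : 1 ≤ w) (hZ : 2 * w ≤ Fintype.card Z) (K : ℝ)
    (hK : (2 + 4 * (2 * Fintype.card (Z × Z) + 1) ^ (2 * (j + 2)) *
      ((Fintype.card S * (3 ^ T + 1) ^ j + 1 : ℕ) : ℝ) * (4 + 2 * Fintype.card (Z × Z)) : ℝ) ≤ K)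
    (hu : 2 * ((2 * (j + 2) + 4) * (44 * R ^ 2 * w)) ^ (j + 2) ≤ Fintype.card Z) :
    up (fun π : (Z → Z → Ptr Z j) × (Z → Z) => ∃ q,
      ((2 * (j + 2) + 4) * (44 * R ^ 2 * w)) ^ (j + 2) <
        cnt (fun y => g q [] (lv π (some y)) ≠ g q [] (lv π none))) ≤
      (K ^ (j + 2) * (1 + 2 * Fintype.card Z)) ^ (j + 1) * (1 / 2) ^ R := by
  classical
  have hg : ∀ q, TV (jq q) w T (fun _ => True)
      fun ys (α : Z × Z × Leaf Z j ⊕ Empty → Bool) => g q ys fun p => α (.inl p) := fun q =>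
    ⟨fun ys hy => (Cert.subst ((h q).bot ys hy) (fun α p => α (Sum.inl p))
      (fun p => some (Sum.inl p))
      (fun _ _ p hp => hp _ rfl) fun _ _ _ _ => trivial),
      let ⟨bd, h1, h2⟩ := (h q).nand; ⟨bd, h1, fun ys _ hy => h2 ys _ hy⟩⟩
  obtain ⟨ch, hS⟩ := tsys_deep T j _ jq hJ hg
  have hc : (Fintype.card (Option (S × WW T j)) : ℝ) ≤
      ((Fintype.card S * (3 ^ T + 1) ^ j + 1 : ℕ) : ℝ) := by exact_mod_cast card_gates T j
  refine le_trans ?_ (Sys.tree_ideal hR hw hZ (le_trans (by gcongr) hK) hu j Empty _ _ ch hS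
    (by rintro (_ | q); exacts [Nat.zero_le _, (Nat.sub_le _ _).trans (hJ _)])
    (by rintro (_ | q) <;> simp only [tsys, Option.elim] <;> omega))
  rw [← up_fst (B := Bool → Empty → Bool), ← up_equiv (Equiv.prodAssoc _ _ _).symm]
  refine up_mono fun ⟨b, a, X⟩ ⟨q, hq⟩ => ⟨some (q, ⟨[], mem_WW.2 (by simp)⟩), false, ?_⟩
  refine hq.trans_le (le_of_eq (cnt_congr fun y => ?_))
  have e1 : ∀ v : Empty → Bool, (fun p => pb b (Sum.elim (row a) v) (.inl p)) = lv (b, a) none := by
    intro v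
    funext ⟨y', z, p⟩
    simp [pb, lv, cfg, row]
  have e2 : ∀ v : Empty → Bool, (fun p => pb b (Sum.elim (flp (row a) (y, a y)) v) (.inl p)) =
      lv (b, a) (some y) := by
    intro v
    funext ⟨y', z, p⟩
    by_cases hy : y' = y
    · subst hy
      simp [pb, lv, cfg, full_row]
    · have : flp (row a) (y, a y) (y', z) = row a (y', z) := flp_ne _ (by simp [hy])
      simp [pb, lv, cfg, this, row, Ne.symm hy]
  simp only [Sys.ty, Sys.cf, Sys.half, Sys.act_false, Sys.pull, tsys, Option.elim_some, e1, e2]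
  rfl

end EX

end Pool.Agent.Lib.MP_2733b3_lc
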