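import Pool.Agent.Lib.MP_2733b3_lc.RT2

/-! The multiplicative form of the theorem of Raz and Tal. -/

set_option autoImplicit false

namespace Pool.Agent.Lib.MP_2733b3_lc

open Finset

namespace RT

variable {l : ℕ}

/-- The increment at `v` is a linear form in the random signs, with these weights. -/
noncomputable def w (v : Var l) (a : Fin l → Bool) : ℝ :=
  if v.1 = true then sig l * chi a v.2 else if a = v.2 then 1 else 0

/-- The increment of the walk. -/
noncomputable def xi (s : (Fin l → Bool) → Bool) (v : Var l) : ℝ := ∑ a, w v a * sg (s a)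

theorem w_false (a' a : Fin l → Bool) : w (false, a') a = if a = a' then 1 else 0 := by
  simp [w]

theorem w_true (b a : Fin l → Bool) : w (true, b) a = sig l * chi a b := by simp [w]

theorem abs_w_le (v : Var l) (a : Fin l → Bool) : |w v a| ≤ 1 := by
  obtain ⟨_ | _, b⟩ := v
  · rw [w_false]
    split_ifs <;> simp
  · rw [w_true, abs_mul, abs_chi, mul_one, abs_of_pos (sig_pos l)]
    exact sig_le_one l

theorem abs_xi_le (s : (Fin l → Bool) → Bool) (v : Var l) : |xi s v| ≤ 2 ^ l := by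
  refine (abs_sum_le_sum_abs _ _).trans ?_
  rw [← sum_one l]
  refine sum_le_sum fun a _ => ?_
  rw [abs_mul, abs_sg, mul_one]
  exact abs_w_le v a

theorem xi_mean (v : Var l) : ∑ s, bias 0 s * xi s v = 0 := by
  simp only [xi, mul_sum]
  rw [sum_comm]
  refine sum_eq_zero fun a _ => ?_
  have h : ∑ s : (Fin l → Bool) → Bool, bias 0 s * sg (s a) = 0 := sum_bias_sg 0 a
  calc _ = w v a * ∑ s : (Fin l → Bool) → Bool, bias 0 s * sg (s a) := by
        rw [mul_sum]
        exact sum_congr rfl fun s _ => by ring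
    _ = 0 := by rw [h, mul_zero]

theorem xi_cov (i j : Var l) : ∑ s, bias 0 s * (xi s i * xi s j) = ∑ a, w i a * w j a := by
  have h1 : ∀ s : (Fin l → Bool) → Bool, bias 0 s * (xi s i * xi s j) =
      ∑ a, ∑ a', w i a * w j a' * (bias 0 s * (sg (s a) * sg (s a'))) := by
    intro s
    rw [xi, xi, sum_mul_sum, mul_sum]
    refine sum_congr rfl fun a _ => ?_
    rw [mul_sum]
    exact sum_congr rfl fun a' _ => by ring
  simp only [h1]
  rw [sum_comm]
  refine sum_congr rfl fun a _ => ?_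
  rw [sum_comm]
  simp only [← mul_sum, sum_bias0_sg2, mul_ite, mul_one, mul_zero, sum_ite_eq, mem_univ, if_true]

theorem ww_ff (a a' : Fin l → Bool) :
    ∑ c, w (false, a) c * w (false, a') c = if a = a' then 1 else 0 := by
  simp only [w_false, ite_mul, one_mul, zero_mul, sum_ite_eq', mem_univ, if_true]

theorem ww_ft (a b : Fin l → Bool) :
    ∑ c, w (false, a) c * w (true, b) c = sig l * chi a b := by
  simp only [w_false, w_true, ite_mul, one_mul, zero_mul, sum_ite_eq', mem_univ, if_true]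

theorem ww_tt (b b' : Fin l → Bool) :
    ∑ c, w (true, b) c * w (true, b') c = if b = b' then 1 else 0 := by
  have h : ∑ c, w (true, b) c * w (true, b') c = sig l ^ 2 * ∑ c, chi c b * chi c b' := by
    rw [mul_sum]
    exact sum_congr rfl fun c _ => by rw [w_true, w_true]; ring
  rw [h, chi_orth]
  split_ifs
  · exact sig_sq l
  · simp

theorem xi_cov_le (i j : Var l) (hij : i ≠ j) :
    |∑ s, bias 0 s * (xi s i * xi s j)| ≤ sig l := by
  have hs := sig_pos l
  rw [xi_cov]
  obtain ⟨_ | _, a⟩ := i <;> obtain ⟨_ | _, b⟩ := j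
  · rw [ww_ff, if_neg (by simpa using hij), abs_zero]
    exact hs.le
  · rw [ww_ft, abs_mul, abs_chi, mul_one, abs_of_pos hs]
  · simp only [mul_comm (w (true, a) _)]
    rw [ww_ft, abs_mul, abs_chi, mul_one, abs_of_pos hs]
  · rw [ww_tt, if_neg (by simpa using hij), abs_zero]
    exact hs.le

theorem xi_exp (θ : ℝ) (v : Var l) :
    ∑ s, bias 0 s * Real.exp (θ * xi s v) ≤ Real.exp (θ ^ 2 / 2) := by
  have h := sum_bias0_exp fun a => θ * w v a
  have h1 : ∑ a, (θ * w v a) ^ 2 = θ ^ 2 := by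
    have : ∑ a, w v a * w v a = 1 := by
      obtain ⟨_ | _, b⟩ := v
      · rw [ww_ff, if_pos rfl]
      · rw [ww_tt, if_pos rfl]
    rw [← mul_one (θ ^ 2), ← this, mul_sum]
    exact sum_congr rfl fun a _ => by ring
  rw [h1] at h
  refine le_trans (le_of_eq (sum_congr rfl fun s _ => ?_)) h
  rw [xi, mul_sum]
  simp only [mul_assoc]

/-- The multilinear extension of Forrelation. -/
noncomputable def phi (z : Var l → ℝ) : ℝ :=
  sig l ^ 3 * ∑ a, ∑ b, z (false, a) * chi a b * z (true, b)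

theorem sum_Phi_bias (z : Var l → ℝ) : ∑ x, Phi x * bias z x = phi z := by
  have h1 : ∀ x : Var l → Bool, Phi x * bias z x = sig l ^ 3 * ∑ a, ∑ b,
      chi a b * (bias z x * (sg (x (false, a)) * sg (x (true, b)))) := by
    intro x
    rw [Phi, mul_assoc, sum_mul]
    congr 1
    refine sum_congr rfl fun a _ => ?_
    rw [sum_mul]
    exact sum_congr rfl fun b _ => by ring
  simp only [h1]
  rw [← mul_sum, phi, sum_comm]
  congr 1
  refine sum_congr rfl fun a _ => ?_
  rw [sum_comm]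
  refine sum_congr rfl fun b _ => ?_
  rw [← mul_sum, sum_bias_sg2 z (by simp)]
  ring

theorem phi_step (z : Var l → ℝ) (d : ℝ) :
    ∑ s, bias 0 s * phi (z + fun v => d * xi s v) = phi z + d ^ 2 := by
  have h1 : ∀ s : (Fin l → Bool) → Bool, bias 0 s * phi (z + fun v => d * xi s v) =
      sig l ^ 3 * ∑ a, ∑ b, (z (false, a) * chi a b * z (true, b) * bias 0 s +
        d * chi a b * z (true, b) * (bias 0 s * xi s (false, a)) +
        d * chi a b * z (false, a) * (bias 0 s * xi s (true, b)) +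
        d ^ 2 * chi a b * (bias 0 s * (xi s (false, a) * xi s (true, b)))) := by
    intro s
    rw [phi, mul_left_comm, mul_sum]
    congr 1
    refine sum_congr rfl fun a _ => ?_
    rw [mul_sum]
    refine sum_congr rfl fun b _ => ?_
    simp only [Pi.add_apply]
    ring
  have h2 : ∀ a b : Fin l → Bool, ∑ s : (Fin l → Bool) → Bool,
      (z (false, a) * chi a b * z (true, b) * bias 0 s +
        d * chi a b * z (true, b) * (bias 0 s * xi s (false, a)) +
        d * chi a b * z (false, a) * (bias 0 s * xi s (true, b)) +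
        d ^ 2 * chi a b * (bias 0 s * (xi s (false, a) * xi s (true, b)))) =
      z (false, a) * chi a b * z (true, b) + d ^ 2 * sig l * 1 := by
    intro a b
    simp only [sum_add_distrib, ← mul_sum, sum_bias, xi_mean, xi_cov, ww_ft]
    linear_combination d ^ 2 * sig l * chi_mul_self a b
  simp only [h1]
  rw [← mul_sum, sum_comm]
  simp only [fun a => sum_comm (s := (univ : Finset ((Fin l → Bool) → Bool)))
    (t := (univ : Finset (Fin l → Bool))) (f := fun s b =>
      z (false, a) * chi a b * z (true, b) * bias 0 s +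
        d * chi a b * z (true, b) * (bias 0 s * xi s (false, a)) +
        d * chi a b * z (false, a) * (bias 0 s * xi s (true, b)) +
        d ^ 2 * chi a b * (bias 0 s * (xi s (false, a) * xi s (true, b)))), h2]
  simp only [sum_add_distrib, ← mul_sum, sum_one]
  have h3 : ∑ _a : Fin l → Bool, (2 : ℝ) ^ l = 2 ^ l * 2 ^ l := by simp
  rw [phi, mul_add]
  congr 1
  have hs := sig_sq l
  rw [h3]
  calc sig l ^ 3 * (d ^ 2 * sig l * (2 ^ l * 2 ^ l)) = d ^ 2 * (sig l ^ 2 * 2 ^ l) ^ 2 := by ring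
    _ = d ^ 2 := by rw [hs]; ring

/-- The potential controlling the exit from the half cube. -/
noncomputable def pot (θ : ℝ) (z : Var l → ℝ) : ℝ :=
  ∑ v, (Real.exp (θ * (z v - 1 / 2)) + Real.exp (θ * (-z v - 1 / 2)))

theorem pot_nonneg (θ : ℝ) (z : Var l → ℝ) : 0 ≤ pot θ z :=
  sum_nonneg fun v _ => by positivity

theorem pot_out {θ : ℝ} (hθ : 0 ≤ θ) {z : Var l → ℝ} (hz : ¬ ∀ v, |z v| ≤ 1 / 2) :
    1 ≤ pot θ z := by
  obtain ⟨v, hv⟩ := not_forall.1 hz
  refine le_trans ?_ (single_le_sum (f := fun v =>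
    Real.exp (θ * (z v - 1 / 2)) + Real.exp (θ * (-z v - 1 / 2)))
    (fun v _ => by positivity) (mem_univ v))
  have h1 := Real.exp_pos (θ * (z v - 1 / 2))
  have h2 := Real.exp_pos (θ * (-z v - 1 / 2))
  rcases lt_abs.1 (not_le.1 hv) with h | h
  · have := Real.one_le_exp (mul_nonneg hθ (by linarith : 0 ≤ z v - 1 / 2))
    linarith
  · have := Real.one_le_exp (mul_nonneg hθ (by linarith : 0 ≤ -z v - 1 / 2))
    linarith

theorem pot_step (θ d : ℝ) (z : Var l → ℝ) :
    ∑ s, bias 0 s * pot θ (z + fun v => d * xi s v) ≤ Real.exp ((θ * d) ^ 2 / 2) * pot θ z := by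
  simp only [pot, mul_sum]
  rw [sum_comm]
  refine sum_le_sum fun v _ => ?_
  have h1 := mul_le_mul_of_nonneg_left (xi_exp (θ * d) v) (Real.exp_pos (θ * (z v - 1 / 2))).le
  have h2 := mul_le_mul_of_nonneg_left (xi_exp (-(θ * d)) v)
    (Real.exp_pos (θ * (-z v - 1 / 2))).le
  rw [neg_sq] at h2
  rw [mul_sum] at h1 h2
  refine le_trans (le_of_eq ?_) ((add_le_add h1 h2).trans (le_of_eq (by ring)))
  rw [← sum_add_distrib]
  refine sum_congr rfl fun s _ => ?_
  simp only [Pi.add_apply]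
  rw [show θ * (z v + d * xi s v - 1 / 2) = θ * (z v - 1 / 2) + θ * d * xi s v by ring,
    show θ * (-(z v + d * xi s v) - 1 / 2) = θ * (-z v - 1 / 2) + -(θ * d) * xi s v by ring,
    Real.exp_add, Real.exp_add]
  ring

theorem pot_zero (θ : ℝ) : pot θ (0 : Var l → ℝ) = 2 ^ (l + 2) * Real.exp (-(θ / 2)) := by
  unfold pot
  simp only [Pi.zero_apply, neg_zero, zero_sub, sum_const, card_univ, nsmul_eq_mul]
  rw [show θ * -(1 / 2) = -(θ / 2) by ring]
  simp only [Fintype.card_prod, Fintype.card_bool, Fintype.card_fun, Fintype.card_fin]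
  push_cast
  ring

theorem pr_nonneg {X : Type} [Fintype X] {μ : X → ℝ} (h : ∀ x, 0 ≤ μ x) (E : X → Prop) :
    0 ≤ pr μ E := by
  unfold pr
  refine sum_nonneg fun x _ => ?_
  split_ifs
  · exact h x
  · exact le_rfl

theorem two_pow_le_exp (n : ℕ) : (2 : ℝ) ^ n ≤ Real.exp n := by
  rw [← mul_one (n : ℝ), Real.exp_nat_mul]
  refine pow_le_pow_left₀ (by norm_num) ?_ n
  have := Real.add_one_le_exp 1
  linarith

end RT

open RT in
theorem rt_proof (hd : DerivStmt) : RTStmt := by
  intro l η hη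
  obtain ⟨ε, hε⟩ : ∃ ε : ℝ, ε = 1 / (8 * ((l : ℝ) + 3)) := ⟨_, rfl⟩
  have hl : (0 : ℝ) ≤ l := Nat.cast_nonneg l
  have hε0 : 0 < ε := by rw [hε]; positivity
  have hε1 : ε ≤ 1 := by
    rw [hε, div_le_one (by positivity)]
    linarith
  obtain ⟨C, hC⟩ : ∃ C : ℝ,
      C = ((2 : ℝ) ^ l) ^ Fintype.card (Var l) * 4 ^ Fintype.card (Var l) := ⟨_, rfl⟩
  have hC0 : 0 < C := by rw [hC]; positivity
  have hB : (1 : ℝ) ≤ 2 ^ l := one_le_pow₀ (by norm_num)
  obtain ⟨m, hm0, hm1, hm2⟩ : ∃ m : ℝ, 0 < m ∧ m * 2 ^ l ≤ 1 / 2 ∧ m * C ≤ η := by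
    refine ⟨min (1 / 2 / 2 ^ l) (η / C), lt_min (by positivity) (by positivity), ?_, ?_⟩
    · rw [← le_div_iff₀ (by positivity)]
      exact min_le_left _ _
    · rw [← le_div_iff₀ hC0]
      exact min_le_right _ _
  obtain ⟨K, hK⟩ := exists_nat_gt (ε / m ^ 2)
  have hK0 : (0 : ℝ) < K := lt_trans (by positivity) hK
  obtain ⟨d, hd0, hdm, hKd⟩ : ∃ d : ℝ, 0 ≤ d ∧ d ≤ m ∧ K * d ^ 2 = ε := by
    refine ⟨√(ε / K), Real.sqrt_nonneg _, ?_, ?_⟩
    · rw [Real.sqrt_le_left hm0.le, div_le_iff₀ hK0]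
      rw [div_lt_iff₀ (by positivity)] at hK
      linarith
    · rw [Real.sq_sqrt (by positivity)]
      field_simp
  have hdB : d * 2 ^ l ≤ 1 / 2 := (mul_le_mul_of_nonneg_right hdm (by positivity)).trans hm1
  have hdC : d * C ≤ η := (mul_le_mul_of_nonneg_right hdm hC0.le).trans hm2
  have hd1 : d ≤ 1 := by nlinarith
  obtain ⟨h, hh⟩ : ∃ h : ((Fin l → Bool) → Bool) → Var l → ℝ,
      h = fun s v => d * xi s v := ⟨_, rfl⟩
  have hh2 : ∀ s v, |h s v| ≤ 1 / 2 := by
    intro s v
    rw [hh, abs_mul, abs_of_nonneg hd0]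
    exact (mul_le_mul_of_nonneg_left (abs_xi_le s v) hd0).trans hdB
  have h0 : ∀ s : (Fin l → Bool) → Bool, 0 ≤ bias 0 s := bias0_nonneg
  have h1 : ∑ s : (Fin l → Bool) → Bool, bias 0 s = 1 := sum_bias 0
  have hz0 : ∀ v : Var l, |(0 : Var l → ℝ) v| ≤ 1 := fun v => by simp
  have key : ∀ c : (Var l → Bool) → ℝ,
      ∑ x, c x * (step (bias 0) h)^[K] (fun z => bias z x) 0 =
        (step (bias 0) h)^[K] (fun z => ∑ x, c x * bias z x) 0 := by
    intro c
    rw [iter_sum c fun x z => bias z x]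
  refine ⟨fun x => (step (bias 0) h)^[K] (fun z => bias z x) 0, fun x => ?_, ?_, ?_, ?_⟩
  · exact iter_nonneg h0 hh2 (fun z hz => bias_nonneg hz x) K 0 hz0
  · have := key fun _ => 1
    simp only [one_mul, sum_bias, iter_one h1] at this
    exact this
  · have e := key Phi
    simp only [sum_Phi_bias] at e
    simp only [mul_comm _ (Phi _)]
    rw [e]
    obtain ⟨θ, hθ⟩ : ∃ θ : ℝ, θ = 4 * ((l : ℝ) + 3) := ⟨_, rfl⟩
    have hθ0 : 0 ≤ θ := by rw [hθ]; positivity
    have hγ : 1 ≤ Real.exp ((θ * d) ^ 2 / 2) := Real.one_le_exp (by positivity)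
    have low := iter_lower (h := h) (G := phi) (E := pot θ) h0 h1 (sq_nonneg d) hγ (pot_nonneg θ)
      (fun z => by
        by_cases hz : ∀ v, |z v| ≤ 1 / 2
        · rw [step_in _ hz, hh]
          exact pot_step θ d z
        · rw [step_out _ hz]
          exact le_mul_of_one_le_left (pot_nonneg θ z) hγ)
      (fun z => by
        by_cases hz : ∀ v, |z v| ≤ 1 / 2
        · rw [step_in _ hz, hh]
          have := phi_step z d
          have := mul_nonneg (sq_nonneg d) (pot_nonneg θ z)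
          linarith
        · rw [step_out _ hz]
          have := mul_le_mul_of_nonneg_left (pot_out hθ0 hz) (sq_nonneg d)
          linarith) K 0
    refine le_trans ?_ low
    have p0 : phi (0 : Var l → ℝ) = 0 := by simp [phi]
    have e2 : Real.exp ((θ * d) ^ 2 / 2) ^ K * pot θ (0 : Var l → ℝ) ≤ 1 / 2 := by
      rw [pot_zero, ← Real.exp_nat_mul, mul_left_comm, ← Real.exp_add]
      have e3 : K * ((θ * d) ^ 2 / 2) + -(θ / 2) = -((l + 3 : ℕ) : ℝ) := by
        have : K * ((θ * d) ^ 2 / 2) = θ ^ 2 * ε / 2 := by rw [← hKd]; ring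
        rw [this, hθ, hε]
        push_cast
        field_simp
        ring
      rw [e3, Real.exp_neg, ← div_eq_mul_inv, div_le_iff₀ (Real.exp_pos _)]
      have := two_pow_le_exp (l + 3)
      rw [pow_succ] at this
      linarith
    have e4 := mul_le_mul_of_nonneg_left e2 hε0.le
    have e5 : 1 / (16 * ((l : ℝ) + 3)) = ε / 2 := by
      rw [hε]
      field_simp
      ring
    rw [p0, hKd, e5]
    linarith
  · intro F t ν hν
    have hν0 : 0 ≤ ν :=
      (pr_nonneg (fun x => bias0_nonneg x) _).trans (hν 0 fun v => by simp)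
    have hs0 := sig_pos l
    have hs1 := sig_le_one l
    obtain ⟨R, hR⟩ : ∃ R : ℝ, R = 32 * (Fintype.card (Var l) : ℝ) ^ 3 * ν := ⟨_, rfl⟩
    have hR0 : 0 ≤ R := by rw [hR]; positivity
    have ha : 0 ≤ d ^ 2 * (16 * (t : ℝ) ^ 2 * sig l) := by positivity
    have hb : 0 ≤ d ^ 2 * R + d ^ 3 * C := by positivity
    have up := iter_upper (G := RT.ext F) h0 h1 hh2 ha hb
      (fun z hz1 => by
        by_cases hz : ∀ v, |z v| ≤ 1 / 2
        · rw [step_in _ hz, hh]
          have e1 := ext_step h0 h1 hB hd0 hd1 hs0.le abs_xi_le xi_mean xi_cov_le F hz1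
          have e2 := hd (Var l) F z t ν hz (hν z hz)
          rw [← hC] at e1
          rw [← hR] at e2
          have e3 := mul_le_mul_of_nonneg_left e2 (mul_nonneg (sq_nonneg d) hs0.le)
          have e4 := mul_le_mul_of_nonneg_left hs1 (mul_nonneg (sq_nonneg d) hR0)
          unfold RT.ext at e1 ⊢
          linarith
        · rw [step_out _ hz]
          have := mul_nonneg ha (ext_nonneg F hz1)
          linarith) K 0 hz0
    have e1 : RT.ext F = fun z => ∑ x, (if F x = true then 1 else 0) * bias z x := by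
      funext z
      rw [RT.ext, pr_eq]
    rw [pr_eq, key, ← e1, ← hR]
    refine up.trans (mul_le_mul ?_ ?_ ?_ (Real.exp_pos _).le)
    · calc (1 + d ^ 2 * (16 * (t : ℝ) ^ 2 * sig l)) ^ K
          ≤ Real.exp (d ^ 2 * (16 * (t : ℝ) ^ 2 * sig l)) ^ K := by
            refine pow_le_pow_left₀ (by positivity) ?_ K
            rw [add_comm]
            exact Real.add_one_le_exp _
        _ = Real.exp (ε * (16 * (t : ℝ) ^ 2 * sig l)) := by
            rw [← Real.exp_nat_mul, ← hKd, mul_assoc (K : ℝ)]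
        _ ≤ Real.exp (16 * (t : ℝ) ^ 2 * sig l) :=
            Real.exp_le_exp.2 (mul_le_of_le_one_left (by positivity) hε1)
    · have e2 : K * (d ^ 2 * R + d ^ 3 * C) = ε * R + ε * (d * C) := by rw [← hKd]; ring
      have e3 := mul_le_of_le_one_left hR0 hε1
      have e4 := mul_le_of_le_one_left (mul_nonneg hd0 hC0.le) hε1
      rw [e2]
      unfold RT.ext
      linarith
    · have := ext_nonneg F hz0
      positivity

end Pool.Agent.Lib.MP_2733b3_lc
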