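import Pool.Agent.Lib.MP_2733b3_lc.Basic

/-! Moments of product weights on the cube, orthogonality of characters, and the two bounds on
Forrelation. -/

set_option autoImplicit false

namespace Pool.Agent.Lib.MP_2733b3_lc

open Finset

namespace RT

theorem sg_mul_self (b : Bool) : sg b * sg b = 1 := by cases b <;> simp [sg]

theorem abs_sg (b : Bool) : |sg b| = 1 := by cases b <;> simp [sg]

theorem sg_not (b : Bool) : sg (!b) = -sg b := by cases b <;> simp [sg]

theorem sg_false : sg false = 1 := by simp [sg]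

theorem sg_true : sg true = -1 := by simp [sg]

section Cube

variable {V : Type} [Fintype V] [DecidableEq V]

theorem sum_bias_prod (z : V → ℝ) (f : V → Bool → ℝ) :
    ∑ x : V → Bool, bias z x * ∏ v, f v (x v) =
      ∏ v, ((1 + z v) / 2 * f v false + (1 - z v) / 2 * f v true) := by
  have h := Finset.prod_univ_sum (fun _ : V => (univ : Finset Bool))
    (fun v b => (1 + sg b * z v) / 2 * f v b)
  rw [Fintype.piFinset_univ] at h
  have h1 : ∀ x : V → Bool, bias z x * ∏ v, f v (x v) =
      ∏ v, (1 + sg (x v) * z v) / 2 * f v (x v) := by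
    intro x
    rw [bias, ← prod_mul_distrib]
  rw [sum_congr rfl fun x _ => h1 x, ← h]
  refine prod_congr rfl fun v _ => ?_
  rw [Fintype.sum_bool, sg_true, sg_false]
  ring

theorem sum_bias (z : V → ℝ) : ∑ x : V → Bool, bias z x = 1 := by
  have h := sum_bias_prod z fun _ _ => 1
  simp only [prod_const_one, mul_one] at h
  rw [h]
  exact prod_eq_one fun v _ => by ring

theorem sum_bias_sg (z : V → ℝ) (i : V) : ∑ x : V → Bool, bias z x * sg (x i) = z i := by
  have h := sum_bias_prod z fun v b => if v = i then sg b else 1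
  simp only [prod_ite_eq', mem_univ, if_true] at h
  rw [h]
  have h2 : ∀ v, ((1 + z v) / 2 * (if v = i then sg false else 1) +
      (1 - z v) / 2 * (if v = i then sg true else 1)) = if v = i then z v else 1 := by
    intro v
    split_ifs
    · rw [sg_true, sg_false]; ring
    · ring
  simp only [h2, prod_ite_eq', mem_univ, if_true]

theorem sum_bias_sg2 (z : V → ℝ) {i j : V} (hij : i ≠ j) :
    ∑ x : V → Bool, bias z x * (sg (x i) * sg (x j)) = z i * z j := by
  have h := sum_bias_prod z fun v b => (if v = i then sg b else 1) * (if v = j then sg b else 1)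
  simp only [prod_mul_distrib, prod_ite_eq', mem_univ, if_true] at h
  rw [h]
  have h2 : ∀ v, ((1 + z v) / 2 * ((if v = i then sg false else 1) *
      (if v = j then sg false else 1)) +
      (1 - z v) / 2 * ((if v = i then sg true else 1) * (if v = j then sg true else 1))) =
      (if v = i then z v else 1) * (if v = j then z v else 1) := by
    intro v
    split_ifs with h1 h2
    · exact absurd (h1.symm.trans h2) hij
    · rw [sg_true, sg_false]; ring
    · rw [sg_true, sg_false]; ring
    · ring
  simp only [h2, prod_mul_distrib, prod_ite_eq', mem_univ, if_true]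

theorem sum_bias0_sg2 (i j : V) :
    ∑ x : V → Bool, bias 0 x * (sg (x i) * sg (x j)) = if i = j then 1 else 0 := by
  split_ifs with h
  · subst h
    simp only [sg_mul_self, mul_one]
    exact sum_bias 0
  · rw [sum_bias_sg2 0 h]
    simp

theorem sum_bias0_exp (c : V → ℝ) :
    ∑ x : V → Bool, bias 0 x * Real.exp (∑ v, c v * sg (x v)) ≤
      Real.exp ((∑ v, c v ^ 2) / 2) := by
  have h := sum_bias_prod (0 : V → ℝ) fun v b => Real.exp (c v * sg b)
  simp only [Real.exp_sum]
  rw [h, sum_div, Real.exp_sum]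
  refine prod_le_prod (fun v _ => ?_) fun v _ => ?_
  · simp only [Pi.zero_apply]
    positivity
  · have := Real.cosh_le_exp_half_sq (c v)
    rw [Real.cosh_eq] at this
    simp only [Pi.zero_apply, sg_true, sg_false, mul_one, mul_neg]
    linarith

omit [DecidableEq V] in
theorem bias_nonneg {z : V → ℝ} (hz : ∀ v, |z v| ≤ 1) (x : V → Bool) : 0 ≤ bias z x := by
  refine prod_nonneg fun v _ => ?_
  have h := abs_le.1 (hz v)
  cases x v
  · rw [sg_false]; linarith
  · rw [sg_true]; linarith

omit [DecidableEq V] in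
theorem bias0_nonneg (x : V → Bool) : 0 ≤ bias 0 x :=
  bias_nonneg (fun v => by simp) x

omit [DecidableEq V] in
theorem bias0_eq (x y : V → Bool) : bias 0 x = bias 0 y := by simp [bias]

omit [Fintype V] in
theorem flp_flp (x : V → Bool) (i : V) : flp (flp x i) i = x := by
  ext v
  by_cases h : v = i
  · subst h
    simp [flp]
  · simp [flp, h]

theorem sum_odd (G : (V → Bool) → ℝ) (i : V) (hG : ∀ x, G (flp x i) = -G x) :
    ∑ x, G x = 0 := by
  have h : ∑ x, G (flp x i) = ∑ x, G x :=
    Equiv.sum_comp (Function.Involutive.toPerm (fun x => flp x i) fun x => flp_flp x i) G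
  simp only [hG, sum_neg_distrib] at h
  linarith

end Cube

section Chi

variable {l : ℕ}

theorem chi_comm (a b : Fin l → Bool) : chi a b = chi b a := by
  simp only [chi, Bool.and_comm]

theorem chi_mul_self (a b : Fin l → Bool) : chi a b * chi a b = 1 := by
  rw [chi, ← prod_mul_distrib]
  exact prod_eq_one fun i _ => sg_mul_self _

theorem abs_chi (a b : Fin l → Bool) : |chi a b| = 1 := by
  rw [chi, abs_prod]
  exact prod_eq_one fun i _ => abs_sg _

theorem chi_orth (b b' : Fin l → Bool) :
    ∑ a : Fin l → Bool, chi a b * chi a b' = if b = b' then 2 ^ l else 0 := by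
  have h := Finset.prod_univ_sum (fun _ : Fin l => (univ : Finset Bool))
    (fun i c => sg (c && b i) * sg (c && b' i))
  rw [Fintype.piFinset_univ] at h
  have h1 : ∀ a : Fin l → Bool, chi a b * chi a b' =
      ∏ i, sg (a i && b i) * sg (a i && b' i) := by
    intro a
    rw [chi, chi, ← prod_mul_distrib]
  rw [sum_congr rfl fun a _ => h1 a, ← h]
  have h2 : ∀ i, ∑ c : Bool, sg (c && b i) * sg (c && b' i) = if b i = b' i then 2 else 0 := by
    intro i
    rw [Fintype.sum_bool]
    cases b i <;> cases b' i <;> norm_num [sg]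
  simp only [h2]
  split_ifs with hb
  · subst hb
    simp
  · obtain ⟨i, hi⟩ := Function.ne_iff.1 hb
    exact prod_eq_zero (mem_univ i) (if_neg hi)

theorem sig_pos (l : ℕ) : 0 < sig l := by
  unfold sig
  positivity

theorem sig_sq (l : ℕ) : sig l ^ 2 * 2 ^ l = 1 := by
  rw [sig, ← pow_mul, mul_comm l 2, pow_mul, ← mul_pow, inv_pow, Real.sq_sqrt (by norm_num)]
  simp

theorem sig_le_one (l : ℕ) : sig l ≤ 1 := by
  have h := sig_sq l
  have h1 : (1 : ℝ) ≤ 2 ^ l := one_le_pow₀ (by norm_num)
  have h2 := sig_pos l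
  nlinarith [sq_nonneg (sig l)]

theorem parseval (g : (Fin l → Bool) → ℝ) :
    ∑ a, (∑ b, chi a b * g b) ^ 2 = 2 ^ l * ∑ b, g b ^ 2 := by
  have h1 : ∀ a, (∑ b, chi a b * g b) ^ 2 =
      ∑ b, ∑ b', g b * g b' * (chi a b * chi a b') := by
    intro a
    rw [sq, sum_mul_sum]
    exact sum_congr rfl fun b _ => sum_congr rfl fun b' _ => by ring
  simp only [h1]
  rw [sum_comm, mul_sum]
  refine sum_congr rfl fun b _ => ?_
  rw [sum_comm]
  simp only [← mul_sum, chi_orth]
  rw [sum_eq_single b]
  · simp only [if_true]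
    ring
  · intro b' _ hb
    rw [if_neg (Ne.symm hb), mul_zero]
  · intro h
    exact absurd (mem_univ b) h

theorem sum_one (l : ℕ) : ∑ _a : Fin l → Bool, (1 : ℝ) = 2 ^ l := by simp

/-- The Walsh transform of the second table. -/
noncomputable def wal (x : Var l → Bool) (a : Fin l → Bool) : ℝ :=
  ∑ b, chi a b * sg (x (true, b))

theorem Phi_eq (x : Var l → Bool) : Phi x = sig l ^ 3 * ∑ a, sg (x (false, a)) * wal x a := by
  unfold Phi wal
  congr 1
  refine sum_congr rfl fun a _ => ?_
  rw [mul_sum]
  exact sum_congr rfl fun b _ => by ring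

theorem sum_wal_sq (x : Var l → Bool) : ∑ a, wal x a ^ 2 = 2 ^ l * 2 ^ l := by
  unfold wal
  rw [parseval]
  congr 1
  rw [← sum_one l]
  exact sum_congr rfl fun b _ => by rw [sq, sg_mul_self]

theorem wal_flp (x : Var l → Bool) (a a' : Fin l → Bool) :
    wal (flp x (false, a)) a' = wal x a' := by
  unfold wal
  refine sum_congr rfl fun b _ => ?_
  rw [flp, Function.update_of_ne (by simp)]

end Chi

end RT

open RT in
theorem phi_proof : PhiStmt := by
  intro l
  have hs := sig_sq l
  have h6 : (sig l ^ 3) ^ 2 * (2 ^ l * 2 ^ l) = 1 / 2 ^ l := by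
    have hp : (0 : ℝ) < 2 ^ l := by positivity
    rw [eq_div_iff hp.ne']
    calc (sig l ^ 3) ^ 2 * (2 ^ l * 2 ^ l) * 2 ^ l = (sig l ^ 2 * 2 ^ l) ^ 3 := by ring
      _ = 1 := by rw [hs]; norm_num
  refine ⟨fun x => ?_, ?_⟩
  · rw [Phi_eq, mul_pow]
    have h := sum_mul_sq_le_sq_mul_sq univ (fun a => sg (x (false, a))) (wal x)
    have h1 : ∑ a, sg (x (false, a)) ^ 2 = 2 ^ l := by
      rw [← sum_one l]
      exact sum_congr rfl fun b _ => by rw [sq, sg_mul_self]
    rw [h1, sum_wal_sq] at h
    calc (sig l ^ 3) ^ 2 * (∑ a, sg (x (false, a)) * wal x a) ^ 2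
        ≤ (sig l ^ 3) ^ 2 * (2 ^ l * (2 ^ l * 2 ^ l)) :=
          mul_le_mul_of_nonneg_left h (sq_nonneg _)
      _ = (sig l ^ 2 * 2 ^ l) ^ 3 := by ring
      _ = 1 := by rw [hs]; norm_num
  · have h1 : ∀ x : Var l → Bool, bias 0 x * Phi x ^ 2 = (sig l ^ 3) ^ 2 * ∑ a, ∑ a',
        bias 0 x * (sg (x (false, a)) * sg (x (false, a')) * (wal x a * wal x a')) := by
      intro x
      rw [Phi_eq, mul_pow, sq (∑ a, _), sum_mul_sum, mul_left_comm, mul_sum]
      congr 1
      refine sum_congr rfl fun a _ => ?_
      rw [mul_sum]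
      exact sum_congr rfl fun a' _ => by ring
    have h2 : ∀ a a' : Fin l → Bool, a' ≠ a → ∑ x : Var l → Bool,
        bias 0 x * (sg (x (false, a)) * sg (x (false, a')) * (wal x a * wal x a')) = 0 := by
      intro a a' h
      refine sum_odd _ (false, a) fun x => ?_
      rw [wal_flp, wal_flp, bias0_eq (flp x (false, a)) x, flp, Function.update_self,
        Function.update_of_ne (by simpa using h), sg_not]
      ring
    have h3 : ∑ x : Var l → Bool, ∑ a, ∑ a',
        bias 0 x * (sg (x (false, a)) * sg (x (false, a')) * (wal x a * wal x a')) =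
        ∑ a, ∑ x : Var l → Bool, bias 0 x * wal x a ^ 2 := by
      rw [sum_comm]
      refine sum_congr rfl fun a _ => ?_
      rw [sum_comm, sum_eq_single a]
      · exact sum_congr rfl fun x _ => by rw [sg_mul_self]; ring
      · exact fun a' _ h => h2 a a' h
      · exact fun h => absurd (mem_univ a) h
    simp only [h1]
    rw [← mul_sum, h3, sum_comm]
    simp only [← mul_sum, sum_wal_sq]
    rw [← sum_mul, sum_bias, one_mul, h6]

end Pool.Agent.Lib.MP_2733b3_lc
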