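import Pool.Agent.Lib.MP_2733b3_lc.RT1

/-! A stopped random walk in the solid cube, and the second order expansion of a multilinear
extension along one step. -/

set_option autoImplicit false

namespace Pool.Agent.Lib.MP_2733b3_lc

open Finset

namespace RT

section Walk

variable {V S : Type} [Fintype S]

open Classical in
/-- One step of the walk, which stops outside the half cube, as an operator on functions. -/
noncomputable def step (μ : S → ℝ) (h : S → V → ℝ) (G : (V → ℝ) → ℝ) (z : V → ℝ) : ℝ :=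
  if ∀ v, |z v| ≤ 1 / 2 then ∑ s, μ s * G (z + h s) else G z

variable {μ : S → ℝ} {h : S → V → ℝ}

theorem step_in (G : (V → ℝ) → ℝ) {z : V → ℝ} (hz : ∀ v, |z v| ≤ 1 / 2) :
    step μ h G z = ∑ s, μ s * G (z + h s) := by
  unfold step
  rw [if_pos hz]

theorem step_out (G : (V → ℝ) → ℝ) {z : V → ℝ} (hz : ¬ ∀ v, |z v| ≤ 1 / 2) :
    step μ h G z = G z := by
  unfold step
  rw [if_neg hz]

theorem step_sum {X : Type} [Fintype X] (c : X → ℝ) (G : X → (V → ℝ) → ℝ) :
    step μ h (fun z => ∑ x, c x * G x z) = fun z => ∑ x, c x * step μ h (G x) z := by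
  funext z
  by_cases hz : ∀ v, |z v| ≤ 1 / 2
  · simp only [step_in _ hz, mul_sum]
    rw [sum_comm]
    exact sum_congr rfl fun x _ => sum_congr rfl fun s _ => by ring
  · simp only [step_out _ hz]

theorem step_lin (h1 : ∑ s, μ s = 1) (G H : (V → ℝ) → ℝ) (a b c : ℝ) (z : V → ℝ) :
    step μ h (fun z => a * G z + b * H z + c) z = a * step μ h G z + b * step μ h H z + c := by
  by_cases hz : ∀ v, |z v| ≤ 1 / 2
  · simp only [step_in _ hz]
    have : c = ∑ s, μ s * c := by rw [← sum_mul, h1, one_mul]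
    rw [mul_sum, mul_sum]
    conv_rhs => rw [this]
    rw [← sum_add_distrib, ← sum_add_distrib]
    exact sum_congr rfl fun s _ => by ring
  · simp only [step_out _ hz]

theorem step_mono (h0 : ∀ s, 0 ≤ μ s) {G G' : (V → ℝ) → ℝ} (hG : ∀ z, G z ≤ G' z)
    (z : V → ℝ) : step μ h G z ≤ step μ h G' z := by
  by_cases hz : ∀ v, |z v| ≤ 1 / 2
  · simp only [step_in _ hz]
    exact sum_le_sum fun s _ => mul_le_mul_of_nonneg_left (hG _) (h0 s)
  · simp only [step_out _ hz]
    exact hG z

theorem step_mono_cube (h0 : ∀ s, 0 ≤ μ s) (hh : ∀ s v, |h s v| ≤ 1 / 2)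
    {G G' : (V → ℝ) → ℝ} (hG : ∀ z, (∀ v, |z v| ≤ 1) → G z ≤ G' z)
    (z : V → ℝ) (hz1 : ∀ v, |z v| ≤ 1) : step μ h G z ≤ step μ h G' z := by
  by_cases hz : ∀ v, |z v| ≤ 1 / 2
  · simp only [step_in _ hz]
    refine sum_le_sum fun s _ => mul_le_mul_of_nonneg_left (hG _ fun v => ?_) (h0 s)
    have := abs_add_le (z v) (h s v)
    have := hz v
    have := hh s v
    rw [Pi.add_apply]
    linarith
  · simp only [step_out _ hz]
    exact hG z hz1

theorem iter_sum {X : Type} [Fintype X] (c : X → ℝ) (G : X → (V → ℝ) → ℝ) (k : ℕ) :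
    (step μ h)^[k] (fun z => ∑ x, c x * G x z) =
      fun z => ∑ x, c x * (step μ h)^[k] (G x) z := by
  induction k with
  | zero => rfl
  | succ k ih => simp only [Function.iterate_succ_apply', ih, step_sum]

theorem iter_one (h1 : ∑ s, μ s = 1) (k : ℕ) :
    (step μ h)^[k] (fun _ => 1) = fun _ => 1 := by
  induction k with
  | zero => rfl
  | succ k ih =>
    rw [Function.iterate_succ_apply', ih]
    funext z
    by_cases hz : ∀ v, |z v| ≤ 1 / 2
    · simp only [step_in _ hz, mul_one, h1]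
    · simp only [step_out _ hz]

theorem iter_nonneg (h0 : ∀ s, 0 ≤ μ s) (hh : ∀ s v, |h s v| ≤ 1 / 2) {G : (V → ℝ) → ℝ}
    (hG : ∀ z, (∀ v, |z v| ≤ 1) → 0 ≤ G z) (k : ℕ) :
    ∀ z, (∀ v, |z v| ≤ 1) → 0 ≤ (step μ h)^[k] G z := by
  induction k with
  | zero => exact hG
  | succ k ih =>
    intro z hz
    rw [Function.iterate_succ_apply']
    refine le_trans (le_of_eq ?_) (step_mono_cube h0 hh (G := fun _ => 0) ih z hz)
    by_cases hz : ∀ v, |z v| ≤ 1 / 2
    · simp only [step_in _ hz, mul_zero, sum_const_zero]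
    · simp only [step_out _ hz]

theorem iter_upper (h0 : ∀ s, 0 ≤ μ s) (h1 : ∑ s, μ s = 1) (hh : ∀ s v, |h s v| ≤ 1 / 2)
    {G : (V → ℝ) → ℝ} {a b : ℝ} (ha : 0 ≤ a) (hb : 0 ≤ b)
    (hG : ∀ z, (∀ v, |z v| ≤ 1) → step μ h G z ≤ (1 + a) * G z + b) (k : ℕ) :
    ∀ z, (∀ v, |z v| ≤ 1) → (step μ h)^[k] G z ≤ (1 + a) ^ k * (G z + k * b) := by
  induction k with
  | zero => intro z _; simp
  | succ k ih =>
    intro z hz
    rw [Function.iterate_succ_apply']
    have hp : 0 ≤ (1 + a) ^ k := by positivity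
    have e1 := step_mono_cube h0 hh
      (G' := fun z => (1 + a) ^ k * G z + 0 * G z + (1 + a) ^ k * (k * b))
      (fun z hz => (ih z hz).trans (le_of_eq (by ring))) z hz
    rw [step_lin h1] at e1
    have e2 := mul_le_mul_of_nonneg_left (hG z hz) hp
    have e3 : 0 ≤ (1 + a) ^ k * (a * ((k + 1) * b)) := by positivity
    push_cast
    rw [pow_succ]
    nlinarith

theorem iter_lower (h0 : ∀ s, 0 ≤ μ s) (h1 : ∑ s, μ s = 1) {G E : (V → ℝ) → ℝ} {c γ : ℝ}
    (hc : 0 ≤ c) (hγ : 1 ≤ γ) (hE0 : ∀ z, 0 ≤ E z) (hE : ∀ z, step μ h E z ≤ γ * E z)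
    (hG : ∀ z, G z + c - c * E z ≤ step μ h G z) (k : ℕ) :
    ∀ z, G z + k * c - k * c * γ ^ k * E z ≤ (step μ h)^[k] G z := by
  induction k with
  | zero => intro z; simp
  | succ k ih =>
    intro z
    rw [Function.iterate_succ_apply']
    have e1 := step_mono (h := h) h0
      (G := fun z => 1 * G z + (-(k * c * γ ^ k)) * E z + k * c)
      (fun z => (le_of_eq (by ring)).trans (ih z)) z
    rw [step_lin h1] at e1
    have hp : 0 ≤ k * c * γ ^ k := by positivity
    have e2 := mul_le_mul_of_nonneg_left (hE z) hp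
    have e3 : 1 ≤ γ ^ (k + 1) := one_le_pow₀ hγ
    have e4 : c * E z * 1 ≤ c * E z * γ ^ (k + 1) :=
      mul_le_mul_of_nonneg_left e3 (mul_nonneg hc (hE0 z))
    have e5 := hG z
    push_cast
    rw [pow_succ] at e4 ⊢
    nlinarith

end Walk

section Expand

variable {V : Type} [Fintype V] [DecidableEq V]

theorem pr_eq {X : Type} [Fintype X] (μ : X → ℝ) (F : X → Bool) :
    pr μ (fun x => F x = true) = ∑ x, (if F x = true then 1 else 0) * μ x := by
  unfold pr
  refine sum_congr rfl fun x _ => ?_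
  by_cases hx : F x = true <;> simp [hx]

/-- The multilinear extension. -/
noncomputable def ext (F : (V → Bool) → Bool) (z : V → ℝ) : ℝ :=
  pr (bias z) fun x => F x = true

/-- The coefficients of the expansion of the multilinear extension at `z`. -/
noncomputable def co (F : (V → Bool) → Bool) (z : V → ℝ) (T : Finset V) : ℝ :=
  ∑ x : V → Bool, if F x = true then
    (∏ v ∈ T, sg (x v) / 2) * ∏ v ∈ univ \ T, (1 + sg (x v) * z v) / 2 else 0

theorem ext_nonneg (F : (V → Bool) → Bool) {z : V → ℝ} (hz : ∀ v, |z v| ≤ 1) : 0 ≤ ext F z := by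
  rw [ext, pr_eq]
  refine sum_nonneg fun x _ => mul_nonneg ?_ (bias_nonneg hz x)
  split_ifs <;> norm_num

theorem ext_add (F : (V → Bool) → Bool) (z g : V → ℝ) :
    ext F (z + g) = ∑ T ∈ univ.powerset, (∏ v ∈ T, g v) * co F z T := by
  rw [ext, pr_eq]
  simp only [co, mul_sum]
  rw [sum_comm]
  refine sum_congr rfl fun x _ => ?_
  split_ifs
  · have e : bias (z + g) x = ∏ v, (g v * (sg (x v) / 2) + (1 + sg (x v) * z v) / 2) := by
      unfold bias
      exact prod_congr rfl fun v _ => by rw [Pi.add_apply]; ring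
    rw [one_mul, e, prod_add]
    refine sum_congr rfl fun T _ => ?_
    rw [prod_mul_distrib, mul_assoc]
  · simp

theorem co_empty (F : (V → Bool) → Bool) (z : V → ℝ) : co F z ∅ = ext F z := by
  rw [ext, pr_eq, co]
  refine sum_congr rfl fun x _ => ?_
  split_ifs
  · simp [bias]
  · simp

theorem co_pair (F : (V → Bool) → Bool) (z : V → ℝ) {i j : V} (hij : i ≠ j) :
    co F z {i, j} = der2 F z i j := by
  unfold co der2
  refine sum_congr rfl fun x _ => ?_
  rw [prod_pair hij]

theorem abs_co_le (F : (V → Bool) → Bool) {z : V → ℝ} (hz : ∀ v, |z v| ≤ 1) (T : Finset V) :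
    |co F z T| ≤ 2 ^ Fintype.card V := by
  refine (abs_sum_le_sum_abs _ _).trans ?_
  have e : (2 : ℝ) ^ Fintype.card V = ∑ _x : V → Bool, (1 : ℝ) := by simp
  rw [e]
  refine sum_le_sum fun x _ => ?_
  split_ifs
  · rw [abs_mul, abs_prod, abs_prod]
    refine mul_le_one₀ (prod_le_one (fun v _ => abs_nonneg _) fun v _ => ?_)
      (prod_nonneg fun v _ => abs_nonneg _) (prod_le_one (fun v _ => abs_nonneg _) fun v _ => ?_)
    · rw [abs_div, abs_sg]
      norm_num
    · have h1 := abs_add_le 1 (sg (x v) * z v)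
      rw [abs_mul, abs_sg, abs_one, one_mul] at h1
      have := hz v
      rw [abs_div, abs_two]
      linarith
  · simp

theorem sum_pairs (g : Finset V → ℝ) (hg : ∀ T, 0 ≤ g T) :
    ∑ T ∈ (univ : Finset V).powerset, (if T.card = 2 then g T else 0) ≤
      ∑ i, ∑ j, if i = j then 0 else g {i, j} := by
  rw [← sum_filter]
  have h1 : (univ : Finset V).powerset.filter (fun T => T.card = 2) ⊆
      (univ.filter fun p : V × V => ¬ p.1 = p.2).image fun p => ({p.1, p.2} : Finset V) := by
    intro T hT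
    obtain ⟨i, j, hij, rfl⟩ := card_eq_two.1 (mem_filter.1 hT).2
    exact mem_image.2 ⟨(i, j), mem_filter.2 ⟨mem_univ _, hij⟩, rfl⟩
  refine (sum_le_sum_of_subset_of_nonneg h1 fun T _ _ => hg T).trans ?_
  refine (sum_image_le_of_nonneg fun T _ => hg T).trans (le_of_eq ?_)
  rw [sum_filter, Fintype.sum_prod_type]
  refine sum_congr rfl fun i _ => sum_congr rfl fun j _ => ?_
  by_cases hij : i = j <;> simp [hij]

theorem ext_step {S : Type} [Fintype S] {μ : S → ℝ} (h0 : ∀ s, 0 ≤ μ s) (h1 : ∑ s, μ s = 1)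
    {ξ : S → V → ℝ} {B σ d : ℝ} (hB : 1 ≤ B) (hd0 : 0 ≤ d) (hd1 : d ≤ 1) (hσ : 0 ≤ σ)
    (hξ : ∀ s v, |ξ s v| ≤ B) (hm : ∀ v, ∑ s, μ s * ξ s v = 0)
    (hc : ∀ i j, i ≠ j → |∑ s, μ s * (ξ s i * ξ s j)| ≤ σ)
    (F : (V → Bool) → Bool) {z : V → ℝ} (hz : ∀ v, |z v| ≤ 1) :
    ∑ s, μ s * ext F (z + fun v => d * ξ s v) ≤
      ext F z + d ^ 2 * σ * (∑ i, ∑ j, if i = j then 0 else |der2 F z i j|) +
        d ^ 3 * (B ^ Fintype.card V * 4 ^ Fintype.card V) := by
  have e1 : ∑ s, μ s * ext F (z + fun v => d * ξ s v) =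
      ∑ T ∈ univ.powerset, (∑ s, μ s * ∏ v ∈ T, d * ξ s v) * co F z T := by
    simp only [ext_add, mul_sum, sum_mul]
    rw [sum_comm]
    exact sum_congr rfl fun T _ => sum_congr rfl fun s _ => by ring
  have hC : 0 ≤ d ^ 3 * B ^ Fintype.card V * 2 ^ Fintype.card V := by positivity
  have e2 : ∀ T : Finset V, (∑ s, μ s * ∏ v ∈ T, d * ξ s v) * co F z T ≤
      (if T = ∅ then ext F z else 0) + (if T.card = 2 then d ^ 2 * σ * |co F z T| else 0) +
        d ^ 3 * B ^ Fintype.card V * 2 ^ Fintype.card V := by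
    intro T
    rcases Nat.lt_or_ge T.card 3 with h3 | h3
    · have hc3 : T.card = 0 ∨ T.card = 1 ∨ T.card = 2 := by omega
      rcases hc3 with h | h | h
      · rw [card_eq_zero] at h
        subst h
        simp only [prod_empty, mul_one, h1, one_mul, co_empty, if_true, card_empty]
        rw [if_neg (by norm_num)]
        linarith
      · obtain ⟨i, rfl⟩ := card_eq_one.1 h
        have : ∑ s, μ s * ∏ v ∈ {i}, d * ξ s v = 0 := by
          simp only [prod_singleton]
          rw [← mul_zero d, ← hm i, mul_sum]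
          exact sum_congr rfl fun s _ => by ring
        rw [this, if_neg (singleton_ne_empty i), if_neg (by simp)]
        linarith
      · rw [if_pos h, if_neg (by rintro rfl; simp at h)]
        obtain ⟨i, j, hij, rfl⟩ := card_eq_two.1 h
        have : ∑ s, μ s * ∏ v ∈ {i, j}, d * ξ s v = d ^ 2 * ∑ s, μ s * (ξ s i * ξ s j) := by
          rw [mul_sum]
          exact sum_congr rfl fun s _ => by rw [prod_pair hij]; ring
        rw [this]
        have h5 := le_abs_self (d ^ 2 * (∑ s, μ s * (ξ s i * ξ s j)) * co F z {i, j})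
        rw [abs_mul, abs_mul, abs_of_nonneg (sq_nonneg d)] at h5
        have h6 := mul_le_mul_of_nonneg_right
          (mul_le_mul_of_nonneg_left (hc i j hij) (sq_nonneg d)) (abs_nonneg (co F z {i, j}))
        linarith
    · rw [if_neg (by rintro rfl; simp at h3), if_neg (by omega), zero_add, zero_add]
      refine (le_abs_self _).trans ?_
      rw [abs_mul]
      refine mul_le_mul ?_ (abs_co_le F hz T) (abs_nonneg _) (by positivity)
      refine (abs_sum_le_sum_abs _ _).trans ?_
      rw [← one_mul (d ^ 3 * _), ← h1, sum_mul]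
      refine sum_le_sum fun s _ => ?_
      rw [abs_mul, abs_of_nonneg (h0 s)]
      refine mul_le_mul_of_nonneg_left ?_ (h0 s)
      rw [abs_prod]
      calc ∏ v ∈ T, |d * ξ s v| ≤ ∏ _v ∈ T, d * B := by
            refine prod_le_prod (fun v _ => abs_nonneg _) fun v _ => ?_
            rw [abs_mul, abs_of_nonneg hd0]
            exact mul_le_mul_of_nonneg_left (hξ s v) hd0
        _ = d ^ T.card * B ^ T.card := by rw [prod_const, mul_pow]
        _ ≤ d ^ 3 * B ^ Fintype.card V :=
            mul_le_mul (pow_le_pow_of_le_one hd0 hd1 h3)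
              (pow_le_pow_right₀ hB (card_le_univ T)) (by positivity) (by positivity)
  rw [e1]
  refine (sum_le_sum fun T _ => e2 T).trans ?_
  rw [sum_add_distrib, sum_add_distrib, sum_ite_eq', if_pos (empty_mem_powerset _), sum_const,
    card_powerset, card_univ, nsmul_eq_mul]
  have e3 := sum_pairs (fun T => d ^ 2 * σ * |co F z T|) fun T => by positivity
  have e4 : (∑ i, ∑ j, if i = j then 0 else d ^ 2 * σ * |co F z {i, j}|) =
      d ^ 2 * σ * (∑ i, ∑ j, if i = j then 0 else |der2 F z i j|) := by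
    rw [mul_sum]
    refine sum_congr rfl fun i _ => ?_
    rw [mul_sum]
    refine sum_congr rfl fun j _ => ?_
    split_ifs with hij
    · simp
    · rw [co_pair F z hij]
  have e5 : (4 : ℝ) ^ Fintype.card V = 2 ^ Fintype.card V * 2 ^ Fintype.card V := by
    rw [← mul_pow]; norm_num
  rw [e4] at e3
  rw [e5]
  push_cast
  linarith

end Expand

end RT

end Pool.Agent.Lib.MP_2733b3_lc
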