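import Pool.Agent.Lib.MP_2733b3_lc.Chain

/-! The chain lemma for predicates with short certificates. -/

set_option autoImplicit false

namespace Pool.Agent.Lib.MP_2733b3_lc

open Finset

/-- Accepted inputs have certificates of size at most `w` inside `Low`. -/
def Cert {P : Type} (w : ℕ) (Low : P → Prop) (g : (P → Bool) → Bool) : Prop :=
  ∀ α, g α = true → ∃ S : Finset P, S.card ≤ w ∧ (∀ p ∈ S, Low p) ∧
    ∀ β, (∀ p ∈ S, β p = α p) → g β = true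

theorem Cert.dep {P : Type} {w : ℕ} {Low : P → Prop} {g : (P → Bool) → Bool} (h : Cert w Low g)
    {α β : P → Bool} (hab : ∀ p, Low p → α p = β p) : g α = g β := by
  have key : ∀ α β : P → Bool, (∀ p, Low p → α p = β p) → g α = true → g β = true := by
    intro α β hab ha
    obtain ⟨S, _, h2, h3⟩ := h α ha
    exact h3 β fun p hp => (hab p (h2 p hp)).symm
  exact Bool.eq_iff_iff.2 ⟨key α β hab, key β α fun p hp => (hab p hp).symm⟩

theorem Cert.exists_rank {P : Type} [Fintype P] {w : ℕ} {Low : P → Prop} {g : (P → Bool) → Bool}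
    (h : Cert w Low g) : ∃ rk : (P → Bool) → WithTop ℕ, (∀ α, g α = true ↔ rk α < ⊤) ∧
      ∀ α, rk α < ⊤ → ∃ S : Finset P, S.card ≤ w ∧ (∀ p ∈ S, Low p) ∧
        (∀ β, (∀ p ∈ S, β p = α p) → rk β ≤ rk α) ∧ ∀ β, rk β = rk α → ∀ p ∈ S, β p = α p := by
  classical
  let e := Fintype.equivFin (Finset P × (P → Bool))
  let Ok : (P → Bool) → Finset P × (P → Bool) → Prop := fun α τ =>
    (τ.1.card ≤ w ∧ (∀ p ∈ τ.1, Low p) ∧ ∀ β, (∀ p ∈ τ.1, β p = τ.2 p) → g β = true) ∧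
      ∀ p ∈ τ.1, α p = τ.2 p
  let rk : (P → Bool) → WithTop ℕ := fun α =>
    (univ.filter (Ok α)).inf fun τ => ((e τ : ℕ) : WithTop ℕ)
  have hle : ∀ α τ, Ok α τ → rk α ≤ ((e τ : ℕ) : WithTop ℕ) := fun α τ hτ =>
    inf_le (f := fun τ => ((e τ : ℕ) : WithTop ℕ)) (by simpa using hτ)
  have hex : ∀ α, rk α < ⊤ → ∃ τ, Ok α τ ∧ rk α = ((e τ : ℕ) : WithTop ℕ) := by
    intro α ha
    have hne : (univ.filter (Ok α)).Nonempty := by
      by_contra hc
      rw [not_nonempty_iff_eq_empty] at hc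
      simp [rk, hc] at ha
    obtain ⟨τ, hτ, h'⟩ := exists_mem_eq_inf _ hne fun τ => ((e τ : ℕ) : WithTop ℕ)
    exact ⟨τ, by simpa using hτ, h'⟩
  refine ⟨rk, fun α => ⟨fun ha => ?_, fun ha => ?_⟩, fun α ha => ?_⟩
  · obtain ⟨S, h1, h2, h3⟩ := h α ha
    exact lt_of_le_of_lt (hle α (S, α) ⟨⟨h1, h2, h3⟩, fun _ _ => rfl⟩) (WithTop.coe_lt_top _)
  · obtain ⟨τ, hτ, _⟩ := hex α ha
    exact hτ.1.2.2 α hτ.2
  · obtain ⟨τ, hτ, h'⟩ := hex α ha
    refine ⟨τ.1, hτ.1.1, hτ.1.2.1, fun β hb => ?_, fun β hb p hp => ?_⟩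
    · rw [h']
      exact hle β τ ⟨hτ.1, fun p hp => (hb p hp).trans (hτ.2 p hp)⟩
    · obtain ⟨τ', hτ', h''⟩ := hex β (hb ▸ ha)
      have : τ' = τ := by
        apply e.injective
        apply Fin.ext
        rw [hb, h'] at h''
        exact_mod_cast h''.symm
      subst this
      rw [hτ'.2 p hp, hτ.2 p hp]

theorem step {Ω M P : Type} [Fintype Ω] [Fintype M] [Fintype P] (μ : Ω → ℝ) (hμ : ∀ ω, 0 ≤ μ ω)
    (h1 : ∑ ω, μ ω ≤ 1) (Φ : Ω × M ≃ Ω × M) (hq : ∀ ω m, μ ω ≤ 3 * μ (Φ (ω, m)).1)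
    (c : Ω → P → Bool) {w : ℕ} {Low : P → Prop} {g : (P → Bool) → Bool} (hg : Cert w Low g)
    (u R : ℕ) (hu : 1 ≤ u) (hw : 1 ≤ w) (hR : 1 ≤ R) (G : Ω → Prop)
    (fwd : ∀ ω, G ω → ∀ p, Low p → cnt (fun m => c (Φ (ω, m)).1 p ≠ c ω p) ≤ u)
    (rev : ∀ ω, G ω → ∀ p, Low p → cnt (fun m => c (Φ.symm (ω, m)).1 p ≠ c ω p) ≤ u)
    (comm : ∀ ω, G ω → ∀ m' p, Low p →
      cnt (fun m => c (Φ ((Φ (ω, m)).1, m')).1 p ≠ c (Φ (ω, m')).1 p) ≤ u) :
    pr μ (fun ω => 22 * R ^ 2 * (w * u) < cnt (fun m => g (c (Φ (ω, m)).1) ≠ g (c ω))) ≤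
      (1 / 2) ^ R + (3 + 2 * Fintype.card M) * pr μ (fun ω => ¬ G ω) := by
  classical
  obtain ⟨rk, r1, r2⟩ := hg.exists_rank
  have hwu : 1 ≤ w * u := Nat.mul_pos hw hu
  have keep : ∀ (α : P → Bool) (β : M → P → Bool), rk α < ⊤ →
      (∀ p, Low p → cnt (fun m => β m p ≠ α p) ≤ u) → cnt (fun m => ¬ rk (β m) ≤ rk α) ≤ w * u := by
    intro α β ha hb
    obtain ⟨S, s1, s2, s3, _⟩ := r2 α ha
    refine le_trans (cnt_mono (E' := fun m => ∃ p ∈ S, β m p ≠ α p) fun m hm => ?_)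
      ((cnt_exists_le S _ u fun p hp => hb p (s2 p hp)).trans (Nat.mul_le_mul_right _ s1))
    by_contra hc
    push Not at hc
    exact hm (s3 _ hc)
  have hc := chain μ hμ h1 Φ 3 (by norm_num) (by exact_mod_cast hq) (fun ω => rk (c ω)) (w * u) R
    hwu G
    (fun ω hG v hv => by
      by_cases h0 : 0 < cnt (fun m => rk (c (Φ (ω, m)).1) = v)
      · obtain ⟨m0, hm0⟩ := cnt_pos h0
        obtain ⟨S, s1, s2, s3, s4⟩ := r2 (c (Φ (ω, m0)).1) (hm0 ▸ lt_of_lt_of_le hv le_top)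
        have : ∃ p ∈ S, c ω p ≠ c (Φ (ω, m0)).1 p := by
          by_contra hc
          push Not at hc
          exact absurd (s3 _ hc) (not_le.2 (hm0 ▸ hv))
        obtain ⟨p, hp, hne⟩ := this
        refine le_trans (cnt_mono fun m hm => ?_)
          ((fwd ω hG p (s2 p hp)).trans (Nat.le_mul_of_pos_left _ hw))
        rw [s4 _ (hm.trans hm0.symm) p hp]
        exact hne.symm
      · omega)
    (fun ω hG m' hm' => keep _ (fun m => c (Φ ((Φ (ω, m)).1, m')).1)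
      (lt_of_lt_of_le hm' le_top) (comm ω hG m'))
    (fun ω hG => by
      by_cases h0 : rk (c ω) < ⊤
      · exact le_trans (cnt_mono fun m hm => not_le.2 hm)
          (keep _ (fun m => c (Φ.symm (ω, m)).1) h0 (rev ω hG))
      · exact le_trans (le_of_le_of_eq (cnt_mono fun m hm => h0 (lt_of_lt_of_le hm le_top))
          cnt_false) (Nat.zero_le _))
  have hR2 : R * (2 * (2 * R + 3 + 2 * 3) * (w * u)) ≤ 22 * R ^ 2 * (w * u) := by
    have : R * (2 * (2 * R + 3 + 2 * 3)) ≤ 22 * R ^ 2 := by nlinarith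
    calc _ = R * (2 * (2 * R + 3 + 2 * 3)) * (w * u) := by ring
      _ ≤ _ := Nat.mul_le_mul_right _ this
  have hR3 : w * u ≤ 22 * R ^ 2 * (w * u) := Nat.le_mul_of_pos_left _ (by positivity)
  refine le_trans (pr_mono hμ (E' := fun ω => (R * (2 * (2 * R + 3 + 2 * 3) * (w * u)) ≤
    cnt (fun m => rk (c (Φ (ω, m)).1) < rk (c ω))) ∨ ¬ G ω) fun ω hω => ?_)
    ((pr_or hμ _ _).trans (by linarith))
  by_cases hG : G ω
  · left
    by_cases h0 : rk (c ω) < ⊤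
    · have := keep _ (fun m => c (Φ (ω, m)).1) h0 (fwd ω hG)
      have h2 : cnt (fun m => g (c (Φ (ω, m)).1) ≠ g (c ω)) ≤
          cnt (fun m => ¬ rk (c (Φ (ω, m)).1) ≤ rk (c ω)) :=
        cnt_mono fun m hm hle => hm (by rw [(r1 _).2 h0, (r1 _).2 (lt_of_le_of_lt hle h0)])
      omega
    · have h2 : cnt (fun m => g (c (Φ (ω, m)).1) ≠ g (c ω)) ≤
          cnt (fun m => rk (c (Φ (ω, m)).1) < rk (c ω)) := by
        refine cnt_mono fun m hm => ?_
        have h3 : g (c ω) = false := by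
          rw [← Bool.not_eq_true, r1]; exact h0
        rw [h3] at hm
        rw [top_le_iff.1 (not_lt.1 h0)]
        exact (r1 _).1 (by simpa using hm)
      omega
  · exact Or.inr hG

end Pool.Agent.Lib.MP_2733b3_lc
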