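import Pool.Agent.Lib.MP_2733b3_lc.Step

/-! Layered systems: every block shows one of two samples, chosen by a predicate of lower levels. -/

set_option autoImplicit false

namespace Pool.Agent.Lib.MP_2733b3_lc

open Finset

/-- A layered system with plain bits `P`, blocks `Q` and cells `C`. -/
structure Sys (P Q C : Type) where
  blk : C → Q
  lev : Q → ℕ
  b : Q → (P ⊕ C → Bool) → Bool
  w : ℕ
  cert : ∀ q, Cert w (Sum.elim (fun _ => True) fun c => lev (blk c) < lev q) (b q)

theorem flp_flp {V : Type} [DecidableEq V] (x : V → Bool) (v : V) : flp (flp x v) v = x := by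
  funext v'
  by_cases h : v' = v
  · subst h; simp [flp]
  · simp [flp, h]

theorem flp_comm {V : Type} [DecidableEq V] (x : V → Bool) (v v' : V) :
    flp (flp x v) v' = flp (flp x v') v := by
  by_cases h : v = v'
  · rw [h]
  · funext a
    by_cases h1 : a = v
    · subst h1; simp [flp, h, Function.update_apply]
    · by_cases h2 : a = v'
      · subst h2; simp [flp, h1]
      · simp [flp, h1, h2]

theorem flp_ne {V : Type} [DecidableEq V] (x : V → Bool) {v v' : V} (h : v' ≠ v) :
    flp x v v' = x v' := by simp [flp, h]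

namespace Sys

variable {P Q C : Type} (S : Sys P Q C)

theorem dep (q : Q) (R : P → Bool) {v v' : C → Bool}
    (h : ∀ c, S.lev (S.blk c) < S.lev q → v c = v' c) :
    S.b q (Sum.elim R v) = S.b q (Sum.elim R v') :=
  (S.cert q).dep fun p hp => by
    cases p with
    | inl p => rfl
    | inr c => exact h c hp

theorem exists_val (R : P → Bool) (X : Bool → C → Bool) :
    ∃ v : C → Bool, ∀ c, v c = X (S.b (S.blk c) (Sum.elim R v)) c := by
  let it : ℕ → C → Bool := fun n =>
    Nat.rec (fun _ => false) (fun _ v c => X (S.b (S.blk c) (Sum.elim R v)) c) n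
  have hs : ∀ n c, it (n + 1) c = X (S.b (S.blk c) (Sum.elim R (it n))) c := fun _ _ => rfl
  have stab : ∀ i c, S.lev (S.blk c) = i → ∀ n m, i < n → i < m → it n c = it m c := by
    intro i
    induction i using Nat.strong_induction_on with
    | _ i ih =>
      intro c hc n m hn hm
      obtain ⟨n, rfl⟩ : ∃ k, n = k + 1 := ⟨n - 1, by omega⟩
      obtain ⟨m, rfl⟩ : ∃ k, m = k + 1 := ⟨m - 1, by omega⟩
      rw [hs, hs, S.dep (S.blk c) R fun c' hc' =>
        ih _ (by omega) c' rfl n m (by omega) (by omega)]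
  refine ⟨fun c => it (S.lev (S.blk c) + 1) c, fun c => ?_⟩
  show it (S.lev (S.blk c) + 1) c = _
  rw [hs, S.dep (S.blk c) R (v' := fun c => it (S.lev (S.blk c) + 1) c) fun c' hc' =>
    stab _ c' rfl _ _ hc' (Nat.lt_succ_self _)]

/-- The values shown by the cells. -/
noncomputable def val (ω : (P → Bool) × (Bool → C → Bool)) : C → Bool :=
  (S.exists_val ω.1 ω.2).choose

/-- The visible configuration. -/
noncomputable def cf (ω : (P → Bool) × (Bool → C → Bool)) : P ⊕ C → Bool :=
  Sum.elim ω.1 (S.val ω)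

/-- The type of a block. -/
noncomputable def ty (q : Q) (ω : (P → Bool) × (Bool → C → Bool)) : Bool := S.b q (S.cf ω)

theorem val_eq (ω : (P → Bool) × (Bool → C → Bool)) (c : C) :
    S.val ω c = ω.2 (S.ty (S.blk c) ω) c := (S.exists_val ω.1 ω.2).choose_spec c

theorem val_unique (ω : (P → Bool) × (Bool → C → Bool)) (v : C → Bool)
    (h : ∀ c, v c = ω.2 (S.b (S.blk c) (Sum.elim ω.1 v)) c) : S.val ω = v := by
  have : ∀ i c, S.lev (S.blk c) = i → S.val ω c = v c := by
    intro i
    induction i using Nat.strong_induction_on with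
    | _ i ih =>
      intro c hc
      rw [S.val_eq, h, ty, cf, S.dep (S.blk c) ω.1 fun c' hc' => ih _ (by omega) c' rfl]
  exact funext fun c => this _ c rfl

/-- Sensitivity tail of the types as functions of bits that enter the samples. -/
theorem sens_tail {V : Type} [Fintype V] [DecidableEq V] [Fintype P] [Fintype Q] [Fintype C]
    (μ : (V → Bool) → ℝ) (hμ : ∀ x, 0 ≤ μ x) (h1 : ∑ x, μ x ≤ 1)
    (hq : ∀ x v, μ x ≤ 3 * μ (flp x v)) (R0 : P → Bool) (Xf : (V → Bool) → Bool → C → Bool)
    (hX : ∀ x β c, cnt (fun v => Xf (flp x v) β c ≠ Xf x β c) ≤ 1) (R : ℕ) (hR : 1 ≤ R)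
    (hw : 1 ≤ S.w) (K : ℝ) (hK1 : 1 ≤ K)
    (hK : Fintype.card Q * (1 + (3 + 2 * Fintype.card V) * (1 + 3 * Fintype.card V) : ℝ) ≤ K)
    (i : ℕ) :
    pr μ (fun x => ∃ q, S.lev q < i ∧ (44 * R ^ 2 * S.w) ^ i <
      cnt (fun v => S.ty q (R0, Xf (flp x v)) ≠ S.ty q (R0, Xf x))) ≤ K ^ i * (1 / 2) ^ R := by
  classical
  induction i with
  | zero =>
    refine le_trans (le_of_le_of_eq (pr_mono hμ fun x ⟨q, hq, _⟩ => absurd hq (Nat.not_lt_zero _))
      pr_false) (by positivity)
  | succ i ih =>
    set a := 44 * R ^ 2 * S.w with ha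
    have ha1 : 1 ≤ a ^ i := Nat.one_le_pow _ _ (by positivity)
    set Bad : (V → Bool) → Prop := fun x => ∃ q, S.lev q < i ∧ a ^ i <
      cnt (fun v => S.ty q (R0, Xf (flp x v)) ≠ S.ty q (R0, Xf x)) with hBad
    have hflip : ∀ v, pr μ (fun x => Bad (flp x v)) ≤ 3 * pr μ Bad := by
      intro v
      exact pr_comp_le (Function.Involutive.toPerm (fun x : V → Bool => flp x v)
        fun x => flp_flp x v) 3 (fun x => hq x v) Bad
    have hG : pr μ (fun x => ¬ (¬ Bad x ∧ ∀ v, ¬ Bad (flp x v))) ≤
        (1 + 3 * Fintype.card V) * pr μ Bad := by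
      refine le_trans (pr_mono hμ (E' := fun x => Bad x ∨ ∃ v, Bad (flp x v)) fun x hx => ?_)
        ((pr_or hμ _ _).trans ?_)
      · by_contra hc
        push Not at hc
        exact hx hc
      · have := pr_exists_le' hμ (fun v x => Bad (flp x v)) _ hflip
        linarith
    have hval : ∀ x, ¬ Bad x → ∀ q, S.lev q < i + 1 → ∀ p : P ⊕ C,
        Sum.elim (fun _ => True) (fun c => S.lev (S.blk c) < S.lev q) p →
        cnt (fun v => S.cf (R0, Xf (flp x v)) p ≠ S.cf (R0, Xf x) p) ≤ a ^ i + 1 := by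
      intro x hx q hq p hp
      cases p with
      | inl p =>
        exact le_trans (le_of_le_of_eq (cnt_mono fun v hv => hv rfl) cnt_false) (Nat.zero_le _)
      | inr c =>
        have h2 : cnt (fun v => S.ty (S.blk c) (R0, Xf (flp x v)) ≠ S.ty (S.blk c) (R0, Xf x)) ≤
            a ^ i := by
          by_contra hc
          exact hx ⟨S.blk c, by simp only [Sum.elim_inr] at hp; omega, not_le.1 hc⟩
        refine le_trans (cnt_mono fun v hv => ?_) ((cnt_or _ _).trans
          (Nat.add_le_add h2 (hX x (S.ty (S.blk c) (R0, Xf x)) c)))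
        by_contra hc
        push Not at hc
        apply hv
        simp only [cf, Sum.elim_inr]
        rw [S.val_eq, S.val_eq, hc.1]
        exact hc.2
    let Φ : (V → Bool) × V ≃ (V → Bool) × V :=
      Function.Involutive.toPerm (fun p => (flp p.1 p.2, p.2)) fun p => by simp [flp_flp]
    have hone : ∀ q, pr μ (fun x => S.lev q < i + 1 ∧ a ^ (i + 1) <
        cnt (fun v => S.ty q (R0, Xf (flp x v)) ≠ S.ty q (R0, Xf x))) ≤
        (1 + (3 + 2 * Fintype.card V) * (1 + 3 * Fintype.card V) : ℝ) * (K ^ i * (1 / 2) ^ R) := by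
      intro q
      by_cases hlev : S.lev q < i + 1
      · have hs := step μ hμ h1 Φ hq (fun x => S.cf (R0, Xf x)) (S.cert q) (a ^ i + 1) R
          (by omega) hw hR (fun x => ¬ Bad x ∧ ∀ v, ¬ Bad (flp x v))
          (fun x hx => hval x hx.1 q hlev) (fun x hx => hval x hx.1 q hlev)
          (fun x hx m' p hp => by
            have := hval (flp x m') (hx.2 m') q hlev p hp
            refine le_trans (le_of_eq (cnt_congr fun m => ?_)) this
            show S.cf (R0, Xf (flp (flp x m) m')) p ≠ _ ↔ _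
            rw [flp_comm]; rfl)
        have hb : 22 * R ^ 2 * (S.w * (a ^ i + 1)) ≤ a ^ (i + 1) := by
          have h5 : 22 * R ^ 2 * S.w * 1 ≤ 22 * R ^ 2 * S.w * a ^ i := Nat.mul_le_mul_left _ ha1
          have h6 : a ^ (i + 1) = 22 * R ^ 2 * S.w * a ^ i + 22 * R ^ 2 * S.w * a ^ i := by
            rw [pow_succ]; generalize a ^ i = y; rw [ha]; ring
          have h7 : 22 * R ^ 2 * (S.w * (a ^ i + 1)) =
              22 * R ^ 2 * S.w * a ^ i + 22 * R ^ 2 * S.w * 1 := by ring
          omega
        refine le_trans (pr_mono hμ fun x hx => lt_of_le_of_lt hb hx.2) (hs.trans ?_)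
        have k1 : (1 : ℝ) ≤ K ^ i := one_le_pow₀ hK1
        have k2 : (0 : ℝ) ≤ (1 / 2) ^ R := by positivity
        have k3 : (0 : ℝ) ≤ 3 + 2 * Fintype.card V := by positivity
        have k4 : (0 : ℝ) ≤ 1 + 3 * Fintype.card V := by positivity
        have k5 := mul_le_mul_of_nonneg_left (hG.trans (mul_le_mul_of_nonneg_left ih k4)) k3
        nlinarith
      · exact le_trans (le_of_le_of_eq (pr_mono hμ fun x hx => hlev hx.1) pr_false)
          (by positivity)
    refine (pr_exists_le' hμ _ _ hone).trans ?_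
    rw [← mul_assoc, pow_succ, mul_comm (K ^ i) K, mul_assoc K]
    exact mul_le_mul_of_nonneg_right hK (by positivity)

end Sys

end Pool.Agent.Lib.MP_2733b3_lc
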